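import Mathlib

/-!
# A majorant for the coefficients of an exponential
-/

set_option autoImplicit false

open Finset

namespace Pool.Agent.H456.RN

/-- if `n β_n ≤ ∑_{1 ≤ j ≤ n} P_j β_(n-j)` then `β_n x^n ≤ exp (∑ P_j x^j / j)` -/
theorem maj (β P : ℕ → ℝ) (hβ : ∀ n, 0 ≤ β n) (hP : ∀ n, 0 ≤ P n) (h0 : β 0 ≤ 1)
    (hr : ∀ n : ℕ, 1 ≤ n → (n : ℝ) * β n ≤ ∑ j ∈ Icc 1 n, P j * β (n - j)) (x : ℝ) (hx : 0 < x) (N : ℕ) :
    β N * x ^ N ≤ Real.exp (∑ j ∈ Icc 1 N, P j / j * x ^ j) := by
  classical
  let S : Polynomial ℝ := ∑ n ∈ range (N + 1), Polynomial.monomial n (β n)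
  let g : Polynomial ℝ := ∑ j ∈ Icc 1 N, Polynomial.monomial j (P j / j)
  have hS : ∀ y : ℝ, S.eval y = ∑ n ∈ range (N + 1), β n * y ^ n := by
    intro y
    simp only [S, Polynomial.eval_finsetSum, Polynomial.eval_monomial]
  have hg : ∀ y : ℝ, g.eval y = ∑ j ∈ Icc 1 N, P j / j * y ^ j := by
    intro y
    simp only [g, Polynomial.eval_finsetSum, Polynomial.eval_monomial]
  have hdS : ∀ y : ℝ, y * S.derivative.eval y = ∑ n ∈ range (N + 1), (n : ℝ) * β n * y ^ n := by
    intro y
    simp only [S, Polynomial.derivative_sum, Polynomial.derivative_monomial, Polynomial.eval_finsetSum,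
      Polynomial.eval_monomial, mul_sum]
    refine sum_congr rfl fun n _ => ?_
    rcases Nat.eq_zero_or_pos n with rfl | hn
    · simp
    · obtain ⟨k, rfl⟩ := Nat.exists_eq_succ_of_ne_zero hn.ne'
      simp only [Nat.succ_eq_add_one, Nat.add_sub_cancel]
      ring
  have hdg : ∀ y : ℝ, y * g.derivative.eval y = ∑ j ∈ Icc 1 N, P j * y ^ j := by
    intro y
    simp only [g, Polynomial.derivative_sum, Polynomial.derivative_monomial, Polynomial.eval_finsetSum,
      Polynomial.eval_monomial, mul_sum]
    refine sum_congr rfl fun n hn => ?_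
    rw [mem_Icc] at hn
    obtain ⟨k, rfl⟩ := Nat.exists_eq_succ_of_ne_zero (by omega : n ≠ 0)
    simp only [Nat.succ_eq_add_one, Nat.add_sub_cancel]
    have : ((k + 1 : ℕ) : ℝ) ≠ 0 := by positivity
    field_simp
    ring
  have hkey : ∀ y : ℝ, 0 < y → S.derivative.eval y ≤ g.derivative.eval y * S.eval y := by
    intro y hy
    have h1 : y * S.derivative.eval y ≤ (y * g.derivative.eval y) * S.eval y := by
      rw [hdS, hdg, hS]
      have h2 : ∀ n ∈ range (N + 1), (n : ℝ) * β n * y ^ n ≤
          ∑ j ∈ Icc 1 N, (if j ≤ n then P j * y ^ j * (β (n - j) * y ^ (n - j)) else 0) := by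
        intro n hn
        rw [mem_range] at hn
        rcases Nat.eq_zero_or_pos n with rfl | hn0
        · simp only [Nat.cast_zero, zero_mul]
          apply sum_nonneg
          intro j _
          split_ifs
          · exact mul_nonneg (mul_nonneg (hP _) (by positivity)) (mul_nonneg (hβ _) (by positivity))
          · exact le_rfl
        · have h3 : (n : ℝ) * β n * y ^ n ≤ (∑ j ∈ Icc 1 n, P j * β (n - j)) * y ^ n :=
            mul_le_mul_of_nonneg_right (hr n hn0) (by positivity)
          refine h3.trans ?_
          rw [← sum_filter, sum_mul]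
          apply le_of_eq
          have h4 : (Icc 1 N).filter (fun j => j ≤ n) = Icc 1 n := by
            ext j
            simp only [mem_filter, mem_Icc]
            omega
          rw [h4]
          refine sum_congr rfl fun j hj => ?_
          rw [mem_Icc] at hj
          have h5 : y ^ n = y ^ j * y ^ (n - j) := by
            rw [← pow_add]; congr 1; omega
          rw [h5]
          ring
      refine (sum_le_sum h2).trans ?_
      rw [sum_comm, sum_mul]
      refine sum_le_sum fun j hj => ?_
      rw [← sum_filter, ← mul_sum]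
      refine mul_le_mul_of_nonneg_left ?_ (mul_nonneg (hP _) (by positivity))
      rw [mem_Icc] at hj
      have h6 : ∑ n ∈ (range (N + 1)).filter (fun n => j ≤ n), β (n - j) * y ^ (n - j) =
          ∑ i ∈ range (N + 1 - j), β i * y ^ i := by
        refine sum_bij' (fun n _ => n - j) (fun i _ => i + j) ?_ ?_ ?_ ?_ ?_
        · intro n hn
          simp only [mem_filter, mem_range] at hn ⊢
          omega
        · intro i hi
          simp only [mem_filter, mem_range] at hi ⊢
          omega
        · intro n hn
          simp only [mem_filter, mem_range] at hn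
          omega
        · intro i hi
          omega
        · intro n hn
          rfl
      rw [h6]
      apply sum_le_sum_of_subset_of_nonneg
      · intro i hi
        rw [mem_range] at hi ⊢
        omega
      · intro i _ _
        exact mul_nonneg (hβ _) (by positivity)
    rw [mul_assoc] at h1
    exact le_of_mul_le_mul_left h1 hy
  let h : ℝ → ℝ := fun y => S.eval y * Real.exp (-(g.eval y))
  have hderiv : ∀ y : ℝ, HasDerivAt h
      (S.derivative.eval y * Real.exp (-(g.eval y)) +
        S.eval y * (Real.exp (-(g.eval y)) * -(g.derivative.eval y))) y := by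
    intro y
    exact (S.hasDerivAt y).mul ((g.hasDerivAt y).neg.exp)
  have hanti : AntitoneOn h (Set.Ici 0) := by
    apply antitoneOn_of_deriv_nonpos (convex_Ici 0)
    · exact fun y _ => (hderiv y).continuousAt.continuousWithinAt
    · exact fun y _ => (hderiv y).differentiableAt.differentiableWithinAt
    · intro y hy
      rw [interior_Ici, Set.mem_Ioi] at hy
      rw [(hderiv y).deriv]
      have h1 := hkey y hy
      have h2 := Real.exp_pos (-(g.eval y))
      nlinarith
  have h1 : h x ≤ h 0 := hanti (Set.mem_Ici.2 le_rfl) (Set.mem_Ici.2 hx.le) hx.le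
  have h2 : h 0 ≤ 1 := by
    have h3 : S.eval 0 = β 0 := by
      rw [hS, sum_range_succ']
      simp
    have h4 : g.eval 0 = 0 := by
      rw [hg]
      apply sum_eq_zero
      intro j hj
      rw [mem_Icc] at hj
      rw [zero_pow (by omega), mul_zero]
    change S.eval 0 * Real.exp (-(g.eval 0)) ≤ 1
    rw [h3, h4]
    simpa using h0
  have h3 : S.eval x ≤ Real.exp (g.eval x) := by
    have h4 : S.eval x * Real.exp (-(g.eval x)) ≤ 1 := h1.trans h2
    have h5 := mul_le_mul_of_nonneg_right h4 (Real.exp_pos (g.eval x)).le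
    rwa [mul_assoc, ← Real.exp_add, neg_add_cancel, Real.exp_zero, mul_one, one_mul] at h5
  rw [← hg]
  refine le_trans ?_ h3
  rw [hS]
  exact single_le_sum (f := fun n => β n * x ^ n) (fun i _ => mul_nonneg (hβ i) (by positivity))
    (mem_range.2 (Nat.lt_succ_self N))

end Pool.Agent.H456.RN
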