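import Mathlib

/-!
# Formal recurrences
-/

set_option autoImplicit false

open Finset

namespace Pool.Agent.H456.RN

section
open PowerSeries

/-- `X d/dX` -/
noncomputable def DD (f : PowerSeries ℂ) : PowerSeries ℂ := PowerSeries.X * PowerSeries.derivative ℂ f

theorem DD_coeff (f : PowerSeries ℂ) (k : ℕ) : PowerSeries.coeff k (DD f) = k * PowerSeries.coeff k f := by
  change PowerSeries.coeff k (PowerSeries.X * PowerSeries.derivative ℂ f) = _
  rcases k with _ | k
  · simp
  · rw [PowerSeries.coeff_succ_X_mul, PowerSeries.coeff_derivative]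
    push_cast
    ring

theorem DD_mul (f g : PowerSeries ℂ) : DD (f * g) = DD f * g + f * DD g := by
  change PowerSeries.X * PowerSeries.derivative ℂ (f * g) = _
  rw [Derivation.leibniz]
  simp only [smul_eq_mul]
  change _ = PowerSeries.X * PowerSeries.derivative ℂ f * g +
    f * (PowerSeries.X * PowerSeries.derivative ℂ g)
  ring

theorem coeff_mk_mul (f g : ℕ → ℂ) (k : ℕ) : PowerSeries.coeff k (PowerSeries.mk f * PowerSeries.mk g) =
    ∑ j ∈ range (k + 1), f j * g (k - j) := by
  rw [PowerSeries.coeff_mul, Finset.Nat.sum_antidiagonal_eq_sum_range_succ_mk]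
  simp

theorem range_eq (k : ℕ) : range (k + 1) = insert 0 (Icc 1 k) := by
  ext j
  rw [mem_insert, mem_range, mem_Icc]
  omega

theorem coeff_trunc_mul (a g : ℕ → ℂ) (k : ℕ) :
    PowerSeries.coeff k (PowerSeries.mk (fun k => if k = 0 then 0 else a k) * PowerSeries.mk g) =
      ∑ j ∈ Icc 1 k, a j * g (k - j) := by
  rw [coeff_mk_mul, range_eq, sum_insert (by simp), if_pos rfl, zero_mul, zero_add]
  refine sum_congr rfl fun j hj => ?_
  rw [mem_Icc] at hj
  rw [if_neg (by omega)]

/-- reciprocals -/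
theorem rec_inv (r m a : ℕ → ℂ) (hr0 : r 0 = 1) (hm0 : m 0 = 1)
    (hr : ∀ n : ℕ, 1 ≤ n → (n : ℂ) * r n = ∑ j ∈ Icc 1 n, a j * r (n - j))
    (hm : ∀ n : ℕ, 1 ≤ n → ∑ j ∈ range (n + 1), m j * r (n - j) = 0) (n : ℕ) :
    (n : ℂ) * m n = -∑ j ∈ Icc 1 n, a j * m (n - j) := by
  let R : PowerSeries ℂ := PowerSeries.mk r
  let M : PowerSeries ℂ := PowerSeries.mk m
  let A : PowerSeries ℂ := PowerSeries.mk (fun k => if k = 0 then 0 else a k)
  have hMR : M * R = 1 := by
    ext k
    rw [coeff_mk_mul]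
    rcases Nat.eq_zero_or_pos k with rfl | hk
    · simp [hm0, hr0]
    · rw [hm k hk, PowerSeries.coeff_one, if_neg (by omega)]
  have hDR : DD R = A * R := by
    ext k
    rw [DD_coeff, coeff_trunc_mul]
    rcases Nat.eq_zero_or_pos k with rfl | hk
    · simp
    · rw [show PowerSeries.coeff k R = r k from PowerSeries.coeff_mk _ _, hr k hk]
  have h1 : DD (M * R) = 0 := by
    rw [hMR]
    ext k
    rw [DD_coeff, PowerSeries.coeff_one]
    split_ifs with h
    · rw [h]; simp
    · simp
  rw [DD_mul, hDR] at h1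
  have h2 : DD M = -(A * M) := by
    have h3 : (DD M * R + M * (A * R)) * M = 0 := by rw [h1, zero_mul]
    have h4 : (DD M * R + M * (A * R)) * M = (DD M + A * M) * (M * R) := by ring
    rw [h4, hMR, mul_one] at h3
    exact eq_neg_of_add_eq_zero_left h3
  have h3 := congrArg (PowerSeries.coeff n) h2
  rw [DD_coeff, map_neg, coeff_trunc_mul] at h3
  rw [← h3]
  congr 1
  exact (PowerSeries.coeff_mk _ _).symm

/-- removal of the factor `1 - X` -/
theorem rec_tilde (m τ : ℕ → ℂ)
    (h : ∀ n : ℕ, (n : ℂ) * m n = -∑ j ∈ Icc 1 n, (1 - τ j) * m (n - j)) (n : ℕ) :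
    (n : ℂ) * (∑ i ∈ range (n + 1), m i) =
      ∑ j ∈ Icc 1 n, τ j * (∑ i ∈ range (n - j + 1), m i) := by
  let M : PowerSeries ℂ := PowerSeries.mk m
  let N : PowerSeries ℂ := PowerSeries.mk (fun n => ∑ i ∈ range (n + 1), m i)
  let G : PowerSeries ℂ := PowerSeries.mk (fun k => if k = 0 then 0 else (fun _ => (1 : ℂ)) k)
  let T : PowerSeries ℂ := PowerSeries.mk (fun k => if k = 0 then 0 else τ k)
  have hN : (1 - PowerSeries.X) * N = M := by
    ext k
    rw [sub_mul, one_mul, map_sub]
    rcases k with _ | k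
    · simp [N, M]
    · rw [PowerSeries.coeff_succ_X_mul]
      simp only [N, M, PowerSeries.coeff_mk]
      rw [sum_range_succ (n := k + 1)]
      ring
  have hG : (1 - PowerSeries.X) * G = PowerSeries.X := by
    ext k
    rw [sub_mul, one_mul, map_sub]
    rcases k with _ | k
    · simp [G]
    · rw [PowerSeries.coeff_succ_X_mul]
      simp only [G, PowerSeries.coeff_mk, PowerSeries.coeff_X]
      rcases k with _ | k
      · simp
      · simp
  have hDM : DD M = -((G - T) * M) := by
    ext k
    have e1 : PowerSeries.coeff k (G * M) = ∑ j ∈ Icc 1 k, 1 * m (k - j) := coeff_trunc_mul (fun _ => 1) m k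
    have e2 : PowerSeries.coeff k (T * M) = ∑ j ∈ Icc 1 k, τ j * m (k - j) := coeff_trunc_mul τ m k
    rw [DD_coeff, map_neg, sub_mul, map_sub, e1, e2, show PowerSeries.coeff k M = m k from PowerSeries.coeff_mk _ _,
      h k, ← sum_sub_distrib]
    congr 1
    refine sum_congr rfl fun j _ => by ring
  have hD1 : DD (1 - PowerSeries.X) = -PowerSeries.X := by
    ext k
    rw [DD_coeff, map_sub, map_neg, PowerSeries.coeff_one, PowerSeries.coeff_X]
    by_cases h0 : k = 0
    · subst h0; simp
    · by_cases h1 : k = 1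
      · subst h1; simp
      · simp [h0, h1]
  have h1 : (1 - PowerSeries.X) * (DD N - T * N) = 0 := by
    have h2 : DD ((1 - PowerSeries.X) * N) = -((G - T) * ((1 - PowerSeries.X) * N)) := by rw [hN, hDM]
    rw [DD_mul, hD1] at h2
    have h3 : (G - T) * ((1 - PowerSeries.X) * N) = PowerSeries.X * N - (1 - PowerSeries.X) * (T * N) := by
      calc (G - T) * ((1 - PowerSeries.X) * N) = ((1 - PowerSeries.X) * G) * N - (1 - PowerSeries.X) * (T * N) := by ring
        _ = _ := by rw [hG]
    rw [h3] at h2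
    linear_combination h2
  have h2 : DD N = T * N := by
    rcases mul_eq_zero.1 h1 with h3 | h3
    · exfalso
      have h4 : PowerSeries.coeff 0 ((1 : PowerSeries ℂ) - PowerSeries.X) = 0 := by rw [h3, map_zero]
      simp at h4
    · exact sub_eq_zero.1 h3
  have h3 := congrArg (PowerSeries.coeff n) h2
  rw [DD_coeff, coeff_trunc_mul] at h3
  have h5 : PowerSeries.coeff n N = ∑ i ∈ range (n + 1), m i := PowerSeries.coeff_mk _ _
  rw [h5] at h3
  exact h3

end

end Pool.Agent.H456.RN
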