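import Pool.Graph.R_pool_sql_team_seeded_3997aac3.Q284.WE.All
import Pool.Graph.R_pool_sql_team_seeded_3997aac3.Q53.PS.IDN
import Pool.Agent.H456.RN.Maj
import Pool.Agent.H456.RN.Rec

/-!
# Sums of the Moebius function twisted by Hayes characters: square root cancellation
-/

set_option autoImplicit false
set_option linter.all false

open Finset Polynomial ComplexConjugate
open Pool.Agent.H341R2.Sharp (Mon mem_Mon)
open Pool.Agent.Q284.PS Pool.Agent.Q53.PS

namespace Pool.Agent.H456.RN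

section num

/-- numerical bound for the exponent -/
theorem exp_bound (q : ℝ) (hq : 1 ≤ q) (ε : ℝ) (hε : 0 < ε) : ∃ K : ℝ, 0 ≤ K ∧ ∀ (R : ℝ) (N : ℕ) (P : ℕ → ℝ), 0 ≤ R →
    (∀ j, 1 ≤ j → P j ≤ 1 ∧ P j ≤ R / √q ^ j) →
    ∑ j ∈ Icc 1 N, P j / j * (√q * Real.exp (-ε)) ^ j ≤ K + ε * R := by
  set s := √q with hs
  have hs1 : 1 ≤ s := by rw [hs, Real.one_le_sqrt]; exact hq
  have hs0 : 0 < s := by linarith
  set x := s * Real.exp (-ε) with hx
  have hx0 : 0 < x := by positivity
  set r := Real.exp (-ε) with hr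
  have hr0 : 0 < r := Real.exp_pos _
  have hr1 : r < 1 := by rw [hr, Real.exp_lt_one_iff]; linarith
  obtain ⟨J, hJ⟩ := exists_pow_lt_of_lt_one (show (0 : ℝ) < ε * (1 - r) by nlinarith) hr1
  refine ⟨∑ j ∈ range (J + 1), x ^ j, by positivity, ?_⟩
  intro R N P hR hP
  have h1 : ∀ j ∈ Icc 1 N, P j / j * x ^ j ≤ (if j ≤ J then x ^ j else 0) + R * (if J < j then r ^ j else 0) := by
    intro j hj
    rw [mem_Icc] at hj
    obtain ⟨h2, h3⟩ := hP j hj.1
    have hj1 : (1 : ℝ) ≤ j := by exact_mod_cast hj.1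
    have hj0 : (0 : ℝ) < j := by linarith
    by_cases h4 : j ≤ J
    · rw [if_pos h4, if_neg (by omega), mul_zero, add_zero]
      have h5 : P j / j ≤ 1 := by
        rw [div_le_one hj0]
        linarith
      have : 0 < x ^ j := by positivity
      nlinarith
    · rw [if_neg h4, if_pos (by omega), zero_add]
      have h5 : P j / j ≤ R / s ^ j := by
        rw [div_le_iff₀ hj0]
        have h6 : 0 ≤ R / s ^ j := by positivity
        nlinarith
      have h6 : R / s ^ j * x ^ j = R * r ^ j := by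
        rw [hx, mul_pow]
        field_simp
      rw [← h6]
      exact mul_le_mul_of_nonneg_right h5 (by positivity)
  refine (sum_le_sum h1).trans ?_
  rw [sum_add_distrib, ← mul_sum]
  have h2 : ∑ j ∈ Icc 1 N, (if j ≤ J then x ^ j else 0) ≤ ∑ j ∈ range (J + 1), x ^ j := by
    rw [← sum_filter]
    apply sum_le_sum_of_subset_of_nonneg
    · intro j hj
      rw [mem_filter] at hj
      rw [mem_range]
      omega
    · intro j _ _
      positivity
  have h3 : ∑ j ∈ Icc 1 N, (if J < j then r ^ j else 0) ≤ ε := by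
    have h4 : ∑ j ∈ Icc 1 N, (if J < j then r ^ j else 0) ≤ ∑' i : ℕ, r ^ J * r ^ i := by
      have hsum : Summable (fun i : ℕ => r ^ J * r ^ i) := (summable_geometric_of_lt_one hr0.le hr1).mul_left _
      rw [← sum_filter]
      have h5 : ∑ j ∈ (Icc 1 N).filter (fun j => J < j), r ^ j ≤ ∑ i ∈ range (N + 1), r ^ J * r ^ i := by
        have h6 : ∀ j ∈ (Icc 1 N).filter (fun j => J < j), r ^ j = r ^ J * r ^ (j - J) := by
          intro j hj
          rw [mem_filter] at hj
          rw [← pow_add]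
          congr 1
          omega
        rw [sum_congr rfl h6]
        have h7 : ∑ j ∈ (Icc 1 N).filter (fun j => J < j), r ^ J * r ^ (j - J) =
            ∑ i ∈ ((Icc 1 N).filter (fun j => J < j)).image (fun j => j - J), r ^ J * r ^ i := by
          rw [sum_image]
          intro a ha b hb hab
          simp only [coe_filter, mem_Icc, Set.mem_setOf_eq] at ha hb
          simp only at hab
          omega
        rw [h7]
        apply sum_le_sum_of_subset_of_nonneg
        · intro i hi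
          simp only [mem_image, mem_filter, mem_Icc] at hi
          obtain ⟨j, hj, rfl⟩ := hi
          rw [mem_range]
          omega
        · intro i _ _
          positivity
      exact h5.trans (hsum.sum_le_tsum _ (fun i _ => by positivity))
    refine h4.trans ?_
    rw [tsum_mul_left, tsum_geometric_of_lt_one hr0.le hr1, ← div_eq_mul_inv, div_le_iff₀ (by linarith)]
    exact hJ.le
  nlinarith

end num

variable {F : Type} [Field F] [Fintype F]

/-- the twisted sum of the Moebius function -/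
noncomputable def MS (χ : F[X] → ℂ) (n : ℕ) : ℂ := ∑ f ∈ Mon F n, (mu f : ℂ) * χ f

theorem rough_zero (f : F[X]) : Rough 0 f := fun P _ hP _ => hP.natDegree_pos

theorem mm_zero_eq (χ : F[X] → ℂ) (n : ℕ) : mm 0 χ n = MS χ n / (qq F : ℂ) ^ n := by
  classical
  unfold mm Ro MS
  rw [filter_true_of_mem (fun f _ => rough_zero f)]

theorem AA_zero_eq (χ : F[X] → ℂ) (n : ℕ) (hn : 1 ≤ n) :
    AA 0 χ n = Pool.Agent.Q284.WE.trc χ n / (qq F : ℂ) ^ n := by
  classical
  unfold AA Pool.Agent.Q284.WE.trc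
  rw [filter_true_of_mem]
  intro P hP
  exact ((mem_PD).1 hP).2.2.1.natDegree_pos

theorem hay_cm {Q : F[X]} {l : ℕ} {χ : F[X] → ℂ} (h : Hay Q l χ) : CM χ := ⟨h.one, h.mul⟩

theorem hay_norm_le {Q : F[X]} {l : ℕ} {χ : F[X] → ℂ} (h : Hay Q l χ) (f : F[X]) : ‖χ f‖ ≤ 1 := by
  by_cases h1 : f.Monic
  · by_cases h2 : IsCoprime f Q
    · rw [h.norm f h1 h2]
    · rw [h.zero f h1 h2, norm_zero]; exact zero_le_one
  · rw [h.off f h1, norm_zero]; exact zero_le_one

theorem trc_norm_le {Q : F[X]} {l : ℕ} {χ : F[X] → ℂ} (h : Hay Q l χ) (m : ℕ) (hm : 1 ≤ m) :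
    ‖Pool.Agent.Q284.WE.trc χ m‖ ≤ (Fintype.card F : ℝ) ^ m := by
  have h1 := t_CPR F m hm
  have h2 : (∑ P ∈ PD F m, (P.natDegree : ℝ)) = (Fintype.card F : ℝ) ^ m := by exact_mod_cast h1
  rw [← h2]
  unfold Pool.Agent.Q284.WE.trc
  refine (norm_sum_le _ _).trans (sum_le_sum fun P _ => ?_)
  rw [norm_mul, norm_pow]
  have h3 : ‖χ P‖ ^ (m / P.natDegree) ≤ 1 := pow_le_one₀ (norm_nonneg _) (hay_norm_le h P)
  have h4 : ‖(P.natDegree : ℂ)‖ = P.natDegree := by simp
  rw [h4]
  nlinarith [(Nat.cast_nonneg P.natDegree : (0 : ℝ) ≤ _)]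


/-- a set of monic irreducible divisors of `Q` has total degree at most `deg Q` -/
theorem sum_deg_le {Q : F[X]} (hQ : Q ≠ 0) (S : Finset F[X])
    (hS : ∀ P ∈ S, P.Monic ∧ Irreducible P ∧ P ∣ Q) : ∑ P ∈ S, P.natDegree ≤ Q.natDegree := by
  classical
  have h1 : ∏ P ∈ S, P ∣ Q := by
    refine Finset.prod_dvd_of_coprime (s := fun P : F[X] => P) ?_ (fun P hP => (hS P hP).2.2)
    intro P hP P' hP' hne
    rw [mem_coe] at hP hP'
    refine (hS P hP).2.1.coprime_iff_not_dvd.2 fun h => hne ?_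
    exact eq_of_monic_of_associated (hS P hP).1 (hS P' hP').1
      (((hS P hP).2.1.dvd_irreducible_iff_associated (hS P' hP').2.1).1 h)
  have h2 := natDegree_le_of_dvd h1 hQ
  rwa [natDegree_prod_of_monic _ _ (fun P hP => (hS P hP).1)] at h2

theorem pd_not_coprime {Q : F[X]} {P : F[X]} (hP : Irreducible P) : IsCoprime P Q ↔ ¬ P ∣ Q :=
  hP.coprime_iff_not_dvd

theorem mob_rec {χ : F[X] → ℂ} (h : CM χ) (n : ℕ) :
    (n : ℂ) * mm 0 χ n = -∑ j ∈ Icc 1 n, AA 0 χ j * mm 0 χ (n - j) := by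
  obtain ⟨h1, h2, h3⟩ := t_IDN F 0 χ h
  exact rec_inv (rr 0 χ) (mm 0 χ) (AA 0 χ) h1 h2 (fun n hn => (h3 n hn).1) (fun n hn => (h3 n hn).2) n

theorem mm_bound (ε : ℝ) (hε : 0 < ε) : ∃ C : ℝ, 0 < C ∧ ∀ (Q : F[X]) (l : ℕ) (χ : F[X] → ℂ), Hay Q l χ →
    ∀ n : ℕ, ‖mm 0 χ n‖ * (√(Fintype.card F : ℝ) * Real.exp (-ε)) ^ n ≤
      C * Real.exp (ε * ((Q.natDegree + l : ℕ) : ℝ)) := by
  classical
  set q : ℝ := (Fintype.card F : ℝ) with hq
  have hq1 : 1 ≤ q := by
    rw [hq]
    exact_mod_cast Fintype.card_pos (α := F)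
  have hq0 : 0 < q := by linarith
  obtain ⟨K, hK, hKb⟩ := exp_bound q hq1 ε hε
  set x := √q * Real.exp (-ε) with hx
  have hs1 : 1 ≤ √q := by rw [Real.one_le_sqrt]; exact hq1
  have hx0 : 0 < x := by positivity
  refine ⟨(1 + x) * Real.exp K, by positivity, ?_⟩
  intro Q l χ hχ n
  obtain ⟨hr0, hm0, -⟩ := t_IDN F 0 χ (hay_cm hχ)
  have hrec := mob_rec (hay_cm hχ)
  set R : ℝ := ((Q.natDegree + l : ℕ) : ℝ) with hR
  have hR0 : 0 ≤ R := by positivity
  have hqq : (qq F : ℂ) = (q : ℂ) := rfl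
  have hsq : √q * √q = q := Real.mul_self_sqrt hq0.le
  have hqpow : ∀ j : ℕ, q ^ j = √q ^ j * √q ^ j := by
    intro j
    rw [← mul_pow, hsq]
  have hAn : ∀ j, 1 ≤ j → ‖AA 0 χ j‖ = ‖Pool.Agent.Q284.WE.trc χ j‖ / q ^ j := by
    intro j hj
    rw [AA_zero_eq χ j hj, norm_div, norm_pow, hqq, Complex.norm_real, Real.norm_of_nonneg hq0.le]
  have hA1 : ∀ j, 1 ≤ j → ‖AA 0 χ j‖ ≤ 1 := by
    intro j hj
    rw [hAn j hj, div_le_one (by positivity)]
    exact trc_norm_le hχ j hj
  by_cases hpr : Pool.Agent.Q284.WE.NonPr Q χ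
  · have hA2 : ∀ j, 1 ≤ j → ‖AA 0 χ j‖ ≤ R / √q ^ j := by
      intro j hj
      rw [hAn j hj, div_le_div_iff₀ (by positivity) (by positivity), hqpow j]
      have h1 := Pool.Agent.Q284.WE.weil_hayes F Q l χ hχ hpr j hj
      have h2 : 0 < √q ^ j := by positivity
      nlinarith
    have h1 := maj (fun n => ‖mm 0 χ n‖) (fun n => ‖AA 0 χ n‖) (fun n => norm_nonneg _) (fun n => norm_nonneg _)
      (by rw [hm0]; simp) (by
        intro n hn
        have h2 : (n : ℝ) * ‖mm 0 χ n‖ = ‖(n : ℂ) * mm 0 χ n‖ := by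
          rw [norm_mul]; simp
        rw [h2, hrec n, norm_neg]
        refine (norm_sum_le _ _).trans (le_of_eq ?_)
        refine sum_congr rfl fun j _ => norm_mul _ _) x hx0 n
    refine h1.trans ?_
    have h3 := hKb R n (fun n => ‖AA 0 χ n‖) hR0 (fun j hj => ⟨hA1 j hj, hA2 j hj⟩)
    calc Real.exp (∑ j ∈ Icc 1 n, ‖AA 0 χ j‖ / ↑j * x ^ j) ≤ Real.exp (K + ε * R) := Real.exp_le_exp.2 h3
      _ = 1 * Real.exp K * Real.exp (ε * R) := by rw [Real.exp_add]; ring
      _ ≤ (1 + x) * Real.exp K * Real.exp (ε * R) := by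
        have : 0 < Real.exp K * Real.exp (ε * R) := by positivity
        nlinarith
  · -- principal
    have hone : ∀ f : F[X], f.Monic → IsCoprime f Q → χ f = 1 := by
      intro f h1 h2
      by_contra h3
      exact hpr ⟨f, h1, h2, h3⟩
    set t : ℕ → ℝ := fun j => ((∑ P ∈ (PD F j).filter (fun P => P ∣ Q), P.natDegree : ℕ) : ℝ) with ht
    have htr : ∀ j, 1 ≤ j → Pool.Agent.Q284.WE.trc χ j = (q : ℂ) ^ j - (t j : ℂ) := by
      intro j hj
      have h1 := t_CPR F j hj
      have h2 : ((∑ P ∈ PD F j, P.natDegree : ℕ) : ℂ) = (q : ℂ) ^ j := by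
        rw [h1, hq]; push_cast; rfl
      rw [← h2, ht]
      unfold Pool.Agent.Q284.WE.trc
      simp only
      rw [Finset.sum_filter]
      push_cast
      rw [← sum_sub_distrib]
      refine sum_congr rfl fun P hP => ?_
      rw [mem_PD] at hP
      by_cases h3 : P ∣ Q
      · rw [hχ.zero P hP.1 (fun h => ((hP.2.2.1.coprime_iff_not_dvd).1 h) h3), if_pos h3]
        rw [zero_pow, mul_zero]
        · simp
        have h4 : 0 < P.natDegree := hP.2.2.1.natDegree_pos
        have := Nat.div_pos hP.2.1 h4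
        omega
      · rw [hone P hP.1 ((hP.2.2.1.coprime_iff_not_dvd).2 h3), if_neg h3]
        simp
    have ht0 : ∀ j, 0 ≤ t j := fun j => by rw [ht]; positivity
    have htR : ∀ j, t j ≤ R := by
      intro j
      rw [ht, hR]
      simp only
      have h1 := sum_deg_le hχ.monic.ne_zero ((PD F j).filter (fun P => P ∣ Q)) (by
        intro P hP
        rw [mem_filter, mem_PD] at hP
        exact ⟨hP.1.1, hP.1.2.2.1, hP.2⟩)
      have : (∑ P ∈ (PD F j).filter (fun P => P ∣ Q), P.natDegree) ≤ Q.natDegree + l := by omega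
      exact_mod_cast this
    have htq : ∀ j, 1 ≤ j → t j ≤ q ^ j := by
      intro j hj
      have h1 := t_CPR F j hj
      have h2 : (∑ P ∈ (PD F j).filter (fun P => P ∣ Q), P.natDegree) ≤ Fintype.card F ^ j := by
        rw [← h1]
        exact sum_le_sum_of_subset (filter_subset _ _)
      change ((∑ P ∈ (PD F j).filter (fun P => P ∣ Q), P.natDegree : ℕ) : ℝ) ≤ (Fintype.card F : ℝ) ^ j
      exact_mod_cast h2
    set τ : ℕ → ℂ := fun j => ((t j / q ^ j : ℝ) : ℂ) with hτ
    have hAA : ∀ j, 1 ≤ j → AA 0 χ j = 1 - τ j := by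
      intro j hj
      rw [AA_zero_eq χ j hj, htr j hj, hτ, hqq]
      have : (q : ℂ) ^ j ≠ 0 := by
        apply pow_ne_zero
        exact_mod_cast hq0.ne'
      simp only
      push_cast
      field_simp
    have hrec2 : ∀ n : ℕ, (n : ℂ) * mm 0 χ n = -∑ j ∈ Icc 1 n, (1 - τ j) * mm 0 χ (n - j) := by
      intro n
      rw [hrec n]
      congr 1
      refine sum_congr rfl fun j hj => ?_
      rw [mem_Icc] at hj
      rw [hAA j hj.1]
    have hrec3 := rec_tilde (mm 0 χ) τ hrec2
    set M : ℕ → ℂ := fun n => ∑ i ∈ range (n + 1), mm 0 χ i with hM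
    have hτn : ∀ j, ‖τ j‖ = t j / q ^ j := by
      intro j
      rw [hτ]
      simp only
      rw [Complex.norm_real, Real.norm_of_nonneg (div_nonneg (ht0 j) (by positivity))]
    have hMb : ∀ n : ℕ, ‖M n‖ * x ^ n ≤ Real.exp K * Real.exp (ε * R) := by
      intro n
      have h1 := maj (fun n => ‖M n‖) (fun n => ‖τ n‖) (fun n => norm_nonneg _) (fun n => norm_nonneg _)
        (by
          have : M 0 = 1 := by
            rw [hM]
            simp [hm0]
          rw [this]; simp) (by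
          intro n hn
          have h2 : (n : ℝ) * ‖M n‖ = ‖(n : ℂ) * M n‖ := by
            rw [norm_mul]; simp
          rw [h2, hrec3 n]
          refine (norm_sum_le _ _).trans (le_of_eq ?_)
          refine sum_congr rfl fun j _ => norm_mul _ _) x hx0 n
      refine h1.trans ?_
      have h3 := hKb R n (fun n => ‖τ n‖) hR0 (fun j hj => by
        rw [hτn j]
        constructor
        · rw [div_le_one (by positivity)]
          exact htq j hj
        · rw [div_le_div_iff₀ (by positivity) (by positivity), hqpow j]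
          have h4 : 1 ≤ √q ^ j := one_le_pow₀ hs1
          have h5 := htR j
          have h6 := ht0 j
          nlinarith [mul_le_mul h5 h4 (by linarith) hR0, mul_pos (show 0 < √q ^ j by positivity) (show 0 < √q ^ j by positivity), mul_le_mul_of_nonneg_right h5 (show 0 ≤ √q ^ j by positivity)])
      rw [← Real.exp_add]
      exact Real.exp_le_exp.2 h3
    rcases Nat.eq_zero_or_pos n with rfl | hn
    · rw [hm0]
      simp only [norm_one, pow_zero, mul_one]
      have h1 : 1 ≤ Real.exp K := Real.one_le_exp hK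
      have h2 : 1 ≤ Real.exp (ε * R) := Real.one_le_exp (by positivity)
      nlinarith [mul_pos hx0 (Real.exp_pos K), mul_le_mul h1 h2 zero_le_one (by positivity)]
    · have h1 : mm 0 χ n = M n - M (n - 1) := by
        rw [hM]
        simp only
        rw [sum_range_succ (n := n), Nat.sub_add_cancel hn]
        ring
      have h2 := hMb n
      have h3 := hMb (n - 1)
      have h4 : x ^ n = x ^ (n - 1) * x := by
        rw [← pow_succ, Nat.sub_add_cancel hn]
      calc ‖mm 0 χ n‖ * x ^ n ≤ (‖M n‖ + ‖M (n - 1)‖) * x ^ n := by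
            apply mul_le_mul_of_nonneg_right _ (by positivity)
            rw [h1]
            exact norm_sub_le _ _
        _ = ‖M n‖ * x ^ n + (‖M (n - 1)‖ * x ^ (n - 1)) * x := by rw [h4]; ring
        _ ≤ Real.exp K * Real.exp (ε * R) + (Real.exp K * Real.exp (ε * R)) * x :=
          add_le_add h2 (mul_le_mul_of_nonneg_right h3 hx0.le)
        _ = _ := by ring

/-- **Square root cancellation** for the Moebius function twisted by Hayes characters, uniformly in the level. -/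
theorem mob_bound (ε : ℝ) (hε : 0 < ε) : ∃ C : ℝ, 0 < C ∧ ∀ (Q : F[X]) (l : ℕ) (χ : F[X] → ℂ), Hay Q l χ →
    ∀ n : ℕ, ‖MS χ n‖ ≤ C * √(Fintype.card F : ℝ) ^ n * Real.exp (ε * ((n + Q.natDegree + l : ℕ) : ℝ)) := by
  obtain ⟨C, hC, h⟩ := mm_bound (F := F) ε hε
  refine ⟨C, hC, ?_⟩
  intro Q l χ hχ n
  have h1 := h Q l χ hχ n
  set q : ℝ := (Fintype.card F : ℝ) with hq
  have hq1 : 1 ≤ q := by
    rw [hq]
    exact_mod_cast Fintype.card_pos (α := F)
  have hq0 : 0 < q := by linarith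
  have hsq : √q * √q = q := Real.mul_self_sqrt hq0.le
  have hqq : (qq F : ℂ) = (q : ℂ) := rfl
  have hs0 : 0 < √q := Real.sqrt_pos.2 hq0
  rw [mm_zero_eq, norm_div, norm_pow, hqq, Complex.norm_real, Real.norm_of_nonneg hq0.le] at h1
  have h2 : q ^ n = √q ^ n * √q ^ n := by rw [← mul_pow, hsq]
  have h3 : Real.exp (ε * ((n + Q.natDegree + l : ℕ) : ℝ)) =
      Real.exp ε ^ n * Real.exp (ε * ((Q.natDegree + l : ℕ) : ℝ)) := by
    rw [← Real.exp_nat_mul, ← Real.exp_add]
    congr 1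
    push_cast
    ring
  have h4 : Real.exp (-ε) ^ n * Real.exp ε ^ n = 1 := by
    rw [← mul_pow, ← Real.exp_add]
    simp
  rw [h3]
  have h5 : ‖MS χ n‖ = (‖MS χ n‖ / q ^ n * (√q * Real.exp (-ε)) ^ n) * (√q ^ n * Real.exp ε ^ n) := by
    rw [mul_pow, h2]
    have h6 : √q ^ n ≠ 0 := by positivity
    have h7 : ‖MS χ n‖ / (√q ^ n * √q ^ n) * (√q ^ n * Real.exp (-ε) ^ n) * (√q ^ n * Real.exp ε ^ n) =
        ‖MS χ n‖ * (Real.exp (-ε) ^ n * Real.exp ε ^ n) := by
      field_simp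
    rw [h7, h4, mul_one]
  rw [h5]
  calc _ ≤ (C * Real.exp (ε * ((Q.natDegree + l : ℕ) : ℝ))) * (√q ^ n * Real.exp ε ^ n) :=
        mul_le_mul_of_nonneg_right h1 (by positivity)
    _ = _ := by ring

end Pool.Agent.H456.RN
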