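import Pool.Agent.H456.RN.Dual

/-!
# Polynomials of bounded degree
-/

set_option autoImplicit false
set_option linter.all false
set_option maxHeartbeats 1000000

open Finset Polynomial ComplexConjugate
open Pool.Agent.H341R2.Sharp (Mon mem_Mon)
open Pool.Agent.Q284.PS Pool.Agent.Q53.PS

namespace Pool.Agent.H456.RN

section PLdef
variable (F : Type) [Field F] [Fintype F]

theorem finite_PL (n : ℕ) : {f : F[X] | f.degree < n}.Finite := by
  have h : Finite (degreeLT F n) := Finite.of_equiv _ (degreeLTEquiv F n).toEquiv.symm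
  have h1 : {f : F[X] | f.degree < n} = (degreeLT F n : Set F[X]) := by
    ext f
    rw [Set.mem_setOf_eq, SetLike.mem_coe, mem_degreeLT]
  rw [h1]
  exact Set.toFinite _

/-- the polynomials of degree less than `n` -/
noncomputable def PL (n : ℕ) : Finset F[X] := (finite_PL F n).toFinset

end PLdef

variable {F : Type} [Field F] [Fintype F]

theorem mem_PL {n : ℕ} {f : F[X]} : f ∈ PL F n ↔ f.degree < n := by
  unfold PL
  rw [Set.Finite.mem_toFinset, Set.mem_setOf_eq]

theorem card_PL (n : ℕ) : (PL F n).card = Fintype.card F ^ n := by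
  classical
  have h1 : (PL F n).card = Nat.card (degreeLT F n) := by
    have h2 : (PL F n).card = Nat.card {f : F[X] | f.degree < n} :=
      (Nat.card_eq_card_finite_toFinset (finite_PL F n)).symm
    rw [h2]
    apply Nat.card_congr
    exact Equiv.setCongr (by ext f; rw [Set.mem_setOf_eq, SetLike.mem_coe, mem_degreeLT])
  rw [h1, Nat.card_congr (degreeLTEquiv F n).toEquiv, Nat.card_fun, Nat.card_eq_fintype_card]
  simp

theorem zero_mem_PL (n : ℕ) : (0 : F[X]) ∈ PL F n := by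
  rw [mem_PL, degree_zero]
  exact WithBot.bot_lt_coe n

theorem add_mem_PL {n : ℕ} {f g : F[X]} (hf : f ∈ PL F n) (hg : g ∈ PL F n) : f + g ∈ PL F n := by
  rw [mem_PL] at *
  exact (degree_add_le _ _).trans_lt (max_lt hf hg)

theorem sub_mem_PL {n : ℕ} {f g : F[X]} (hf : f ∈ PL F n) (hg : g ∈ PL F n) : f - g ∈ PL F n := by
  rw [mem_PL] at *
  exact (degree_sub_le _ _).trans_lt (max_lt hf hg)

theorem neg_mem_PL {n : ℕ} {f : F[X]} (hf : f ∈ PL F n) : -f ∈ PL F n := by
  rw [mem_PL] at *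
  rwa [degree_neg]

theorem C_mul_mem_PL {n : ℕ} {f : F[X]} (u : F) (hf : f ∈ PL F n) : C u * f ∈ PL F n := by
  rw [mem_PL] at *
  by_cases hu : u = 0
  · rw [hu, C_0, zero_mul, degree_zero]
    exact WithBot.bot_lt_coe n
  · rwa [degree_C_mul hu]

theorem PL_mono {m n : ℕ} (h : m ≤ n) : PL F m ⊆ PL F n := by
  intro f hf
  rw [mem_PL] at *
  exact hf.trans_le (by exact_mod_cast h)

theorem mul_mem_PL {n h : ℕ} {U f : F[X]} (hU : U.natDegree ≤ n) (hf : f ∈ PL F h) : U * f ∈ PL F (n + h) := by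
  rw [mem_PL] at *
  by_cases h0 : f = 0
  · rw [h0, mul_zero, degree_zero]
    exact WithBot.bot_lt_coe _
  · by_cases h1 : U = 0
    · rw [h1, zero_mul, degree_zero]
      exact WithBot.bot_lt_coe _
    · rw [degree_mul, degree_eq_natDegree h1]
      rw [degree_eq_natDegree h0] at hf ⊢
      have h2 : f.natDegree < h := by exact_mod_cast hf
      exact_mod_cast (by omega : U.natDegree + f.natDegree < n + h)

theorem natDegree_lt_of_mem_PL {n : ℕ} {f : F[X]} (hf : f ∈ PL F n) (h0 : f ≠ 0) : f.natDegree < n := by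
  rw [mem_PL, degree_eq_natDegree h0] at hf
  exact_mod_cast hf

theorem mem_PL_of_natDegree {n : ℕ} {f : F[X]} (hf : f.natDegree < n) : f ∈ PL F n := by
  rw [mem_PL]
  by_cases h0 : f = 0
  · rw [h0, degree_zero]
    exact WithBot.bot_lt_coe _
  · rw [degree_eq_natDegree h0]
    exact_mod_cast hf

theorem natDegree_le_of_mem_PL {n : ℕ} {f : F[X]} (hf : f ∈ PL F (n + 1)) : f.natDegree ≤ n := by
  by_cases h0 : f = 0
  · rw [h0, natDegree_zero]; exact Nat.zero_le _
  · have := natDegree_lt_of_mem_PL hf h0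
    omega

theorem sum_shift {M : Type} [AddCommMonoid M] (n : ℕ) (v : F[X]) (hv : v ∈ PL F n) (f : F[X] → M) :
    ∑ c ∈ PL F n, f (c + v) = ∑ c ∈ PL F n, f c := by
  refine sum_nbij' (fun c => c + v) (fun c => c - v) ?_ ?_ ?_ ?_ ?_
  · intro c hc; exact add_mem_PL hc hv
  · intro c hc; exact sub_mem_PL hc hv
  · intro c _; simp
  · intro c _; simp
  · intro c _; rfl

theorem sum_smul {M : Type} [AddCommMonoid M] (n : ℕ) {u : F} (hu : u ≠ 0) (f : F[X] → M) :
    ∑ c ∈ PL F n, f (C u * c) = ∑ c ∈ PL F n, f c := by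
  refine sum_nbij' (fun c => C u * c) (fun c => C u⁻¹ * c) ?_ ?_ ?_ ?_ ?_
  · intro c hc; exact C_mul_mem_PL u hc
  · intro c hc; exact C_mul_mem_PL _ hc
  · intro c _
    rw [← mul_assoc, ← C_mul, inv_mul_cancel₀ hu, C_1, one_mul]
  · intro c _
    rw [← mul_assoc, ← C_mul, mul_inv_cancel₀ hu, C_1, one_mul]
  · intro c _; rfl

open Classical in
theorem card_dvd_PL (n : ℕ) {R : F[X]} (hR : R ≠ 0) :
    ((PL F n).filter (fun f => R ∣ f)).card ≤ Fintype.card F ^ (n - R.natDegree) := by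
  rw [← card_PL]
  have h1 : (PL F n).filter (fun f => R ∣ f) ⊆ (PL F (n - R.natDegree)).image (fun g => R * g) := by
    intro f hf
    rw [mem_filter] at hf
    obtain ⟨h1, g, rfl⟩ := hf
    rw [mem_image]
    refine ⟨g, ?_, rfl⟩
    by_cases h0 : g = 0
    · rw [h0]; exact zero_mem_PL _
    · have h2 := natDegree_lt_of_mem_PL h1 (mul_ne_zero hR h0)
      rw [natDegree_mul hR h0] at h2
      exact mem_PL_of_natDegree (by omega)
  exact (card_le_card h1).trans card_image_le

/-- averaging over the multiples of `Mo` -/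
theorem averaging {n h : ℕ} {Mo : F[X]} (hn : Mo.natDegree + h ≤ n) (G H : F[X] → ℂ)
    (hG : ∀ c ∈ PL F n, ∀ v ∈ PL F h, G (c + Mo * v) = G c) :
    ∑ c ∈ PL F n, G c * H c =
      ((Fintype.card F : ℂ) ^ h)⁻¹ * ∑ c ∈ PL F n, G c * ∑ v ∈ PL F h, H (c + Mo * v) := by
  have hq : (Fintype.card F : ℂ) ^ h ≠ 0 := by
    apply pow_ne_zero
    exact_mod_cast (Fintype.card_pos (α := F)).ne'
  rw [eq_inv_mul_iff_mul_eq₀ hq]
  have h1 : ∀ v ∈ PL F h, ∑ c ∈ PL F n, G c * H (c + Mo * v) = ∑ c ∈ PL F n, G c * H c := by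
    intro v hv
    have h2 : Mo * v ∈ PL F n := PL_mono hn (mul_mem_PL le_rfl hv)
    rw [← sum_shift n (Mo * v) h2 (fun c => G c * H c)]
    refine sum_congr rfl fun c hc => ?_
    rw [hG c hc v hv]
  calc (Fintype.card F : ℂ) ^ h * ∑ c ∈ PL F n, G c * H c =
        ∑ v ∈ PL F h, ∑ c ∈ PL F n, G c * H c := by
        rw [sum_const, card_PL, nsmul_eq_mul]; push_cast; ring
    _ = ∑ v ∈ PL F h, ∑ c ∈ PL F n, G c * H (c + Mo * v) := (sum_congr rfl h1).symm
    _ = ∑ c ∈ PL F n, G c * ∑ v ∈ PL F h, H (c + Mo * v) := by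
        rw [sum_comm]
        refine sum_congr rfl fun c _ => ?_
        rw [mul_sum]

end Pool.Agent.H456.RN
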