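import Pool.Agent.H456.RN.Tot2

/-!
# Characteristic two: the box of equations, the place at infinity, exceptional equations
-/

set_option autoImplicit false
set_option linter.all false
set_option maxHeartbeats 1000000

open Finset Polynomial ComplexConjugate
open Pool.Agent.H341R2.Sharp (Mon mem_Mon lam)
open Pool.Agent.Q284.PS Pool.Agent.Q53.PS Pool.Agent.Q68.PS

namespace Pool.Agent.H456.RN

/-- `(a₁, a₂, a₃, a₄, a₆)`, standing for `y² + a₁ x y + a₃ y = x³ + a₂ x² + a₄ x + a₆` over `F[t]` -/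
abbrev Wei (F : Type) [Field F] : Type := F[X] × F[X] × F[X] × F[X] × F[X]

section defs
variable {F : Type} [Field F]

/-- the discriminant of the equation, in characteristic two -/
noncomputable def dwc (T : Wei F) : F[X] := disc2 T.1 T.2.1 T.2.2.1 T.2.2.2.1 T.2.2.2.2

/-- the equation at infinity -/
noncomputable def rw2 (d : ℕ) (T : Wei F) : Wei F := (reflect d T.1, reflect (2 * d) T.2.1, reflect (3 * d) T.2.2.1,
  reflect (4 * d) T.2.2.2.1, reflect (6 * d) T.2.2.2.2)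

/-- `w` is locally constant at `P` on the nonsingular equations -/
def LocC2 (P : F[X]) (w : Wei F → ℂ) : Prop := ∀ k : ℕ, ∃ N : ℕ, ∀ T T' : Wei F, ¬ P ^ (k + 1) ∣ dwc T →
  P ^ N ∣ T'.1 - T.1 → P ^ N ∣ T'.2.1 - T.2.1 → P ^ N ∣ T'.2.2.1 - T.2.2.1 → P ^ N ∣ T'.2.2.2.1 - T.2.2.2.1 →
  P ^ N ∣ T'.2.2.2.2 - T.2.2.2.2 → w T' = w T

theorem rw2_rw2 (d : ℕ) (T : Wei F) : rw2 d (rw2 d T) = T := by
  unfold rw2
  simp

variable [Fintype F]

/-- the equations with `deg aᵢ ≤ i d` -/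
noncomputable def Box2 (F : Type) [Field F] [Fintype F] (d : ℕ) : Finset (Wei F) :=
  PL F (d + 1) ×ˢ (PL F (2 * d + 1) ×ˢ (PL F (3 * d + 1) ×ˢ (PL F (4 * d + 1) ×ˢ PL F (6 * d + 1))))

theorem mem_Box2 {d : ℕ} {T : Wei F} : T ∈ Box2 F d ↔ T.1 ∈ PL F (d + 1) ∧ T.2.1 ∈ PL F (2 * d + 1) ∧
    T.2.2.1 ∈ PL F (3 * d + 1) ∧ T.2.2.2.1 ∈ PL F (4 * d + 1) ∧ T.2.2.2.2 ∈ PL F (6 * d + 1) := by
  unfold Box2
  rw [mem_product, mem_product, mem_product, mem_product]

theorem card_Box2 (d : ℕ) : (Box2 F d).card = Fintype.card F ^ (16 * d + 5) := by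
  unfold Box2
  rw [card_product, card_product, card_product, card_product, card_PL, card_PL, card_PL, card_PL, card_PL, ← pow_add,
    ← pow_add, ← pow_add, ← pow_add]
  congr 1
  omega

theorem rw2_mem {d : ℕ} {T : Wei F} (hT : T ∈ Box2 F d) : rw2 d T ∈ Box2 F d := by
  rw [mem_Box2] at *
  exact ⟨reflect_mem_PL hT.1, reflect_mem_PL hT.2.1, reflect_mem_PL hT.2.2.1, reflect_mem_PL hT.2.2.2.1,
    reflect_mem_PL hT.2.2.2.2⟩

theorem dwc_rw2 {d : ℕ} {T : Wei F} (hT : T ∈ Box2 F d) : dwc (rw2 d T) = reflect (12 * d) (dwc T) := by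
  rw [mem_Box2] at hT
  obtain ⟨h1, h2, h3, h4, h6⟩ := hT
  have k1 := natDegree_le_of_mem_PL h1
  have k2 := natDegree_le_of_mem_PL h2
  have k3 := natDegree_le_of_mem_PL h3
  have k4 := natDegree_le_of_mem_PL h4
  have k6 := natDegree_le_of_mem_PL h6
  unfold dwc disc2 rw2
  simp only
  have p6 : (T.1 ^ 6).natDegree ≤ 6 * d := natDegree_pow_le.trans (Nat.mul_le_mul_left 6 k1)
  have p5 : (T.1 ^ 5).natDegree ≤ 5 * d := natDegree_pow_le.trans (Nat.mul_le_mul_left 5 k1)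
  have p4 : (T.1 ^ 4).natDegree ≤ 4 * d := natDegree_pow_le.trans (Nat.mul_le_mul_left 4 k1)
  have p3 : (T.1 ^ 3).natDegree ≤ 3 * d := natDegree_pow_le.trans (Nat.mul_le_mul_left 3 k1)
  have p32 : (T.2.2.1 ^ 2).natDegree ≤ 2 * (3 * d) := natDegree_pow_le.trans (Nat.mul_le_mul_left 2 k3)
  have p33 : (T.2.2.1 ^ 3).natDegree ≤ 3 * (3 * d) := natDegree_pow_le.trans (Nat.mul_le_mul_left 3 k3)
  have p42 : (T.2.2.2.1 ^ 2).natDegree ≤ 2 * (4 * d) := natDegree_pow_le.trans (Nat.mul_le_mul_left 2 k4)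
  have e1 : reflect (12 * d) (T.1 ^ 6 * T.2.2.2.2) = reflect d T.1 ^ 6 * reflect (6 * d) T.2.2.2.2 := by
    rw [← reflect_pow' k1 6, ← reflect_mul _ _ p6 k6]
    congr 1; ring
  have e2 : reflect (12 * d) (T.1 ^ 5 * T.2.2.1 * T.2.2.2.1) =
      reflect d T.1 ^ 5 * reflect (3 * d) T.2.2.1 * reflect (4 * d) T.2.2.2.1 := by
    rw [← reflect_pow' k1 5, ← reflect_mul _ _ p5 k3, ← reflect_mul _ _ (natDegree_mul_le.trans (add_le_add p5 k3)) k4]
    congr 1; ring
  have e3 : reflect (12 * d) (T.1 ^ 4 * T.2.1 * T.2.2.1 ^ 2) =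
      reflect d T.1 ^ 4 * reflect (2 * d) T.2.1 * reflect (3 * d) T.2.2.1 ^ 2 := by
    rw [← reflect_pow' k1 4, ← reflect_mul _ _ p4 k2, ← reflect_pow' k3 2,
      ← reflect_mul _ _ (natDegree_mul_le.trans (add_le_add p4 k2)) p32]
    congr 1; ring
  have e4 : reflect (12 * d) (T.1 ^ 4 * T.2.2.2.1 ^ 2) = reflect d T.1 ^ 4 * reflect (4 * d) T.2.2.2.1 ^ 2 := by
    rw [← reflect_pow' k1 4, ← reflect_pow' k4 2, ← reflect_mul _ _ p4 p42]
    congr 1; ring
  have e5 : reflect (12 * d) (T.1 ^ 3 * T.2.2.1 ^ 3) = reflect d T.1 ^ 3 * reflect (3 * d) T.2.2.1 ^ 3 := by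
    rw [← reflect_pow' k1 3, ← reflect_pow' k3 3, ← reflect_mul _ _ p3 p33]
    congr 1; ring
  have e6 : reflect (12 * d) (T.2.2.1 ^ 4) = reflect (3 * d) T.2.2.1 ^ 4 := by
    rw [← reflect_pow' k3 4]
    congr 1; ring
  rw [reflect_add, reflect_add, reflect_add, reflect_add, reflect_add, e1, e2, e3, e4, e5, e6]

theorem dwc_mem {d : ℕ} {T : Wei F} (hT : T ∈ Box2 F d) : dwc T ∈ PL F (12 * d + 1) := by
  rw [mem_Box2] at hT
  apply mem_PL_of_natDegree
  have := disc2_natDegree_le (natDegree_le_of_mem_PL hT.1) (natDegree_le_of_mem_PL hT.2.1)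
    (natDegree_le_of_mem_PL hT.2.2.1) (natDegree_le_of_mem_PL hT.2.2.2.1) (natDegree_le_of_mem_PL hT.2.2.2.2)
  unfold dwc
  omega

open Classical in
/-- equations with discriminant divisible by a high power of `P` -/
theorem card_pow_dvd2 {P : F[X]} (hi : Irreducible P) {j d : ℕ} (hj : j * P.natDegree ≤ d + 1) :
    (((Box2 F d).filter (fun T => P ^ (7 * j) ∣ dwc T)).card : ℝ) ≤
      2 * ((Fintype.card F : ℝ) ^ (16 * d + 5) * ((Fintype.card F : ℝ)⁻¹) ^ j) := by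
  set q : ℝ := (Fintype.card F : ℝ) with hq
  have hq2 : 2 ≤ q := two_le_q
  have hq0 : q ≠ 0 := by positivity
  have hPd : 1 ≤ P.natDegree := hi.natDegree_pos
  have hjP : j ≤ j * P.natDegree := Nat.le_mul_of_pos_right _ hPd
  have h1 : (Box2 F d).filter (fun T => P ^ (7 * j) ∣ dwc T) ⊆
      ((PL F (d + 1)).filter (fun a => P ^ j ∣ a)) ×ˢ
        (PL F (2 * d + 1) ×ˢ (PL F (3 * d + 1) ×ˢ (PL F (4 * d + 1) ×ˢ PL F (6 * d + 1)))) ∪
      (Box2 F d).filter (fun T => ¬ P ^ j ∣ T.1 ∧ P ^ (7 * j) ∣ dwc T) := by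
    intro T hT
    rw [mem_filter, mem_Box2] at hT
    rw [mem_union, mem_product, mem_product, mem_product, mem_product, mem_filter, mem_filter, mem_Box2]
    by_cases h : P ^ j ∣ T.1
    · exact Or.inl ⟨⟨hT.1.1, h⟩, hT.1.2⟩
    · exact Or.inr ⟨hT.1, h, hT.2⟩
  have h2 : (((PL F (d + 1)).filter (fun a => P ^ j ∣ a)) ×ˢ
        (PL F (2 * d + 1) ×ˢ (PL F (3 * d + 1) ×ˢ (PL F (4 * d + 1) ×ˢ PL F (6 * d + 1))))).card ≤
      Fintype.card F ^ (16 * d + 5 - j) := by
    rw [card_product, card_product, card_product, card_product, card_PL, card_PL, card_PL, card_PL]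
    have h3 := card_dvd_PL (d + 1) (pow_ne_zero j hi.ne_zero)
    rw [natDegree_pow] at h3
    refine (Nat.mul_le_mul_right _ h3).trans ?_
    rw [← pow_add, ← pow_add, ← pow_add, ← pow_add]
    exact Nat.pow_le_pow_right Fintype.card_pos (by omega)
  have h3 : ((Box2 F d).filter (fun T => ¬ P ^ j ∣ T.1 ∧ P ^ (7 * j) ∣ dwc T)).card ≤
      Fintype.card F ^ (16 * d + 5 - j) := by
    rw [card_filter]
    unfold Box2
    rw [sum_product]
    have h4 : ∀ a ∈ PL F (d + 1), ∑ x ∈ PL F (2 * d + 1) ×ˢ (PL F (3 * d + 1) ×ˢ (PL F (4 * d + 1) ×ˢ PL F (6 * d + 1))),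
        (if ¬ P ^ j ∣ ((a, x) : Wei F).1 ∧ P ^ (7 * j) ∣ dwc ((a, x) : Wei F) then 1 else 0) ≤
        Fintype.card F ^ (2 * d + 1) * (Fintype.card F ^ (3 * d + 1) * (Fintype.card F ^ (4 * d + 1) *
          Fintype.card F ^ (6 * d + 1 - j))) := by
      intro a ha
      rw [sum_product]
      have h5 : ∀ e ∈ PL F (2 * d + 1), ∑ x ∈ PL F (3 * d + 1) ×ˢ (PL F (4 * d + 1) ×ˢ PL F (6 * d + 1)),
          (if ¬ P ^ j ∣ ((a, e, x) : Wei F).1 ∧ P ^ (7 * j) ∣ dwc ((a, e, x) : Wei F) then 1 else 0) ≤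
          Fintype.card F ^ (3 * d + 1) * (Fintype.card F ^ (4 * d + 1) * Fintype.card F ^ (6 * d + 1 - j)) := by
        intro e he
        rw [sum_product]
        have h6 : ∀ b ∈ PL F (3 * d + 1), ∑ x ∈ PL F (4 * d + 1) ×ˢ PL F (6 * d + 1),
            (if ¬ P ^ j ∣ ((a, e, b, x) : Wei F).1 ∧ P ^ (7 * j) ∣ dwc ((a, e, b, x) : Wei F) then 1 else 0) ≤
            Fintype.card F ^ (4 * d + 1) * Fintype.card F ^ (6 * d + 1 - j) := by
          intro b hb
          rw [sum_product]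
          have h7 : ∀ f ∈ PL F (4 * d + 1), ∑ c ∈ PL F (6 * d + 1),
              (if ¬ P ^ j ∣ ((a, e, b, f, c) : Wei F).1 ∧ P ^ (7 * j) ∣ dwc ((a, e, b, f, c) : Wei F) then 1 else 0) ≤
              Fintype.card F ^ (6 * d + 1 - j) := by
            intro f hf
            by_cases h8 : P ^ j ∣ a
            · have h9 : ∀ c ∈ PL F (6 * d + 1),
                (if ¬ P ^ j ∣ ((a, e, b, f, c) : Wei F).1 ∧ P ^ (7 * j) ∣ dwc ((a, e, b, f, c) : Wei F) then 1 else 0) = 0 := by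
                intro c _
                rw [if_neg (fun h => h.1 h8)]
              rw [sum_congr rfl h9, sum_const_zero]
              exact Nat.zero_le _
            · rw [← card_filter]
              have h9 := card_lin hi 6 j (6 * d + 1) (-(a ^ 5 * b * f + a ^ 4 * e * b ^ 2 + a ^ 4 * f ^ 2 +
                a ^ 3 * b ^ 3 + b ^ 4)) h8
              refine le_trans (card_le_card ?_) (h9.trans ?_)
              · intro c hc
                rw [mem_filter] at hc ⊢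
                refine ⟨hc.1, ?_⟩
                have h10 : P ^ (7 * j) ∣ disc2 a e b f c := hc.2.2
                have h11 : -(a ^ 5 * b * f + a ^ 4 * e * b ^ 2 + a ^ 4 * f ^ 2 + a ^ 3 * b ^ 3 + b ^ 4) - a ^ 6 * c =
                  -disc2 a e b f c := by unfold disc2; ring
                rw [h11, dvd_neg]
                exact h10
              · exact Nat.pow_le_pow_right Fintype.card_pos (by omega)
          refine (sum_le_card_nsmul _ _ _ h7).trans (le_of_eq ?_)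
          rw [card_PL, smul_eq_mul]
        refine (sum_le_card_nsmul _ _ _ h6).trans (le_of_eq ?_)
        rw [card_PL, smul_eq_mul]
      refine (sum_le_card_nsmul _ _ _ h5).trans (le_of_eq ?_)
      rw [card_PL, smul_eq_mul]
    refine (sum_le_card_nsmul _ _ _ h4).trans (le_of_eq ?_)
    rw [card_PL, smul_eq_mul, ← pow_add, ← pow_add, ← pow_add, ← pow_add]
    congr 1
    omega
  have h4 : q ^ (16 * d + 5) * (q⁻¹) ^ j = q ^ (16 * d + 5 - j) := by
    have : q ^ (16 * d + 5) = q ^ (16 * d + 5 - j) * q ^ j := by rw [← pow_add]; congr 1; omega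
    rw [this, inv_pow]
    field_simp
  rw [h4]
  have h5 := (card_le_card h1).trans (card_union_le _ _)
  have h6 : ((Box2 F d).filter (fun T => P ^ (7 * j) ∣ dwc T)).card ≤ 2 * Fintype.card F ^ (16 * d + 5 - j) := by
    omega
  rw [hq]
  exact_mod_cast h6

open Classical in
/-- the same at infinity -/
theorem card_pow_dvd2_inf {j d : ℕ} (hj : j ≤ d + 1) :
    (((Box2 F d).filter (fun T => X ^ (7 * j) ∣ dwc (rw2 d T))).card : ℝ) ≤
      2 * ((Fintype.card F : ℝ) ^ (16 * d + 5) * ((Fintype.card F : ℝ)⁻¹) ^ j) := by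
  have h1 := card_pow_dvd2 (F := F) (P := X) irreducible_X (j := j) (d := d) (by rw [natDegree_X]; omega)
  refine le_trans ?_ h1
  have h2 : (Box2 F d).filter (fun T => X ^ (7 * j) ∣ dwc (rw2 d T)) ⊆
      ((Box2 F d).filter (fun T => X ^ (7 * j) ∣ dwc T)).image (rw2 d) := by
    intro T hT
    rw [mem_filter] at hT
    rw [mem_image]
    exact ⟨rw2 d T, by rw [mem_filter]; exact ⟨rw2_mem hT.1, hT.2⟩, rw2_rw2 d T⟩
  exact_mod_cast (card_le_card h2).trans card_image_le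

end defs

end Pool.Agent.H456.RN
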