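import Pool.Agent.H456.RN.Inf
import Pool.Agent.H456.RN.Box2

/-!
# Counting isomorphism classes by equations
-/

open Polynomial WeierstrassCurve Finset
open Pool.Agent.H456.RN

namespace Pool.Agent.H456.EC

/-- counting orbits -/
theorem orbit_count {α β G : Type*} [Group G] [MulAction G α] [Finite G] [DecidableEq β] (Ω : Finset α) (π : α → β)
    (hπ : ∀ x ∈ Ω, ∀ y, (y ∈ Ω ∧ π y = π x) ↔ y ∈ MulAction.orbit G x) :
    ((Ω.image π).card : ℝ) = ∑ x ∈ Ω, (Nat.card (MulAction.stabilizer G x) : ℝ) / Nat.card G := by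
  classical
  have hG0 : (Nat.card G : ℝ) ≠ 0 := by
    rw [Nat.cast_ne_zero]; exact Nat.card_pos.ne'
  rw [← sum_fiberwise_of_maps_to (g := π) (t := Ω.image π) (fun x hx => mem_image_of_mem _ hx)]
  have h1 : ∀ b ∈ Ω.image π, ∑ x ∈ Ω.filter (fun x => π x = b),
      (Nat.card (MulAction.stabilizer G x) : ℝ) / Nat.card G = 1 := by
    intro b hb
    obtain ⟨x0, hx0, rfl⟩ := mem_image.1 hb
    have h2 : ∀ x ∈ Ω.filter (fun x => π x = π x0), (Nat.card (MulAction.stabilizer G x) : ℝ) / Nat.card G =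
        ((Ω.filter (fun x => π x = π x0)).card : ℝ)⁻¹ := by
      intro x hx
      rw [mem_filter] at hx
      have h3 : (MulAction.orbit G x : Set α) = ↑(Ω.filter (fun y => π y = π x0)) := by
        ext y
        rw [← hπ x hx.1 y, hx.2]
        simp
      have h4 : Nat.card (MulAction.orbit G x) = (Ω.filter (fun y => π y = π x0)).card := by
        rw [h3, Nat.card_coe_set_eq, Set.ncard_coe_finset]
      have h5 : Nat.card (MulAction.orbit G x) * Nat.card (MulAction.stabilizer G x) = Nat.card G := by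
        rw [← Nat.card_prod]
        exact Nat.card_congr (MulAction.orbitProdStabilizerEquivGroup G x)
      rw [h4] at h5
      have h6 : ((Ω.filter (fun y => π y = π x0)).card : ℝ) * (Nat.card (MulAction.stabilizer G x) : ℝ) =
          Nat.card G := by exact_mod_cast h5
      have h7 : ((Ω.filter (fun y => π y = π x0)).card : ℝ) ≠ 0 := by
        intro h0
        rw [h0, zero_mul] at h6
        exact hG0 h6.symm
      rw [div_eq_iff hG0, ← h6]
      field_simp
    rw [sum_congr rfl h2, sum_const, nsmul_eq_mul]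
    apply mul_inv_cancel₀
    rw [Nat.cast_ne_zero]
    apply card_ne_zero_of_mem (a := x0)
    rw [mem_filter]
    exact ⟨hx0, rfl⟩
  rw [sum_congr rfl h1, sum_const, nsmul_eq_mul, mul_one]

section

variable {F : Type} [Field F]

/-- the changes of variables `(u, r, s, t)` with `u` constant, `deg r ≤ 2e`, `deg s ≤ e`, `deg t ≤ 3e` -/
noncomputable def Gp (F : Type) [Field F] (e : ℕ) : Subgroup (VariableChange F[X]) where
  carrier := {C | C.r.natDegree ≤ 2 * e ∧ C.s.natDegree ≤ e ∧ C.t.natDegree ≤ 3 * e}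
  mul_mem' := by
    rintro C C' ⟨h1, h2, h3⟩ ⟨k1, k2, k3⟩
    have hu : ∀ (v : F[X]ˣ) (k : ℕ) (x : F[X]), (x * (v : F[X]) ^ k).natDegree ≤ x.natDegree := by
      intro v k x
      refine natDegree_mul_le.trans ?_
      have h := natDegree_pow_le (p := (v : F[X])) (n := k)
      rw [natDegree_eq_zero_of_isUnit v.isUnit, mul_zero] at h
      omega
    rw [VariableChange.mul_def]
    refine ⟨?_, ?_, ?_⟩
    · exact (natDegree_add_le _ _).trans (max_le ((hu _ _ _).trans h1) k1)
    · refine (natDegree_add_le _ _).trans (max_le ?_ k2)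
      have := hu C'.u 1 C.s
      rw [pow_one, mul_comm] at this
      exact this.trans h2
    · refine (natDegree_add_le _ _).trans (max_le ((natDegree_add_le _ _).trans (max_le ((hu _ _ _).trans h3) ?_)) k3)
      exact (hu _ _ _).trans (natDegree_mul_le.trans (by omega))
  one_mem' := by
    rw [VariableChange.one_def]
    simp
  inv_mem' := by
    rintro C ⟨h1, h2, h3⟩
    have hu : ∀ (v : F[X]ˣ) (k : ℕ) (x : F[X]), (x * (v : F[X]) ^ k).natDegree ≤ x.natDegree := by
      intro v k x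
      refine natDegree_mul_le.trans ?_
      have h := natDegree_pow_le (p := (v : F[X])) (n := k)
      rw [natDegree_eq_zero_of_isUnit v.isUnit, mul_zero] at h
      omega
    rw [VariableChange.inv_def]
    refine ⟨?_, ?_, ?_⟩
    · refine (hu _ _ _).trans ?_
      rw [natDegree_neg]; exact h1
    · have := hu C.u⁻¹ 1 (-C.s)
      rw [pow_one, natDegree_neg] at this
      exact this.trans h2
    · exact (hu _ _ _).trans ((natDegree_sub_le _ _).trans (max_le (natDegree_mul_le.trans (by omega)) h3))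

theorem mem_Gp {e : ℕ} {C : VariableChange F[X]} :
    C ∈ Gp F e ↔ C.r.natDegree ≤ 2 * e ∧ C.s.natDegree ≤ e ∧ C.t.natDegree ≤ 3 * e := Iff.rfl

theorem unit_eq_C (u : F[X]ˣ) : ∃ a : F, a ≠ 0 ∧ (u : F[X]) = C a := by
  obtain ⟨a, ha, hu⟩ := Polynomial.isUnit_iff.1 u.isUnit
  exact ⟨a, ha.ne_zero, hu.symm⟩

theorem cls_smul (C : VariableChange F[X]) (W : WeierstrassCurve F[X]) : cls (C • W) = cls W := by
  symm
  rw [cls_eq_iff]
  exact ⟨C.map (toK F), map_variableChange _ _ _⟩

theorem rev_sc_unit {e : ℕ} (u : F[X]ˣ) {W : WeierstrassCurve F[X]} (hW : Dg e W) :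
    rev e (sc (u : F[X]) W) = sc (u : F[X]) (rev e W) := by
  have hu0 : (u : F[X]).natDegree ≤ 0 := (natDegree_eq_zero_of_isUnit u.isUnit).le
  have h1 := rev_sc (m := 0) hu0 hW
  rw [add_zero] at h1
  rw [h1]
  congr 1
  obtain ⟨a, -, ha⟩ := unit_eq_C u
  rw [ha, reflect_C, pow_zero, mul_one]

theorem dg_smul {e : ℕ} {C : VariableChange F[X]} (hC : C ∈ Gp F e) {W : WeierstrassCurve F[X]} (hW : Dg e W) :
    Dg e (C • W) := by
  rw [smul_eq]
  obtain ⟨h1, h2, h3⟩ := hC
  exact dg_sc (m := 0) (natDegree_eq_zero_of_isUnit (Units.isUnit _)).le (dg_tr hW h1 h2 h3)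

theorem smul_mem {e : ℕ} {C : VariableChange F[X]} (hC : C ∈ Gp F e) {W : WeierstrassCurve F[X]} (hW : W ∈ Eqn F e) :
    C • W ∈ Eqn F e := by
  refine ⟨?_, dg_smul hC hW.2⟩
  rw [variableChange_Δ]
  exact mul_ne_zero (pow_ne_zero _ (Units.ne_zero _)) hW.1

/-- the action on the equation at infinity -/
theorem rev_smul {e : ℕ} {C : VariableChange F[X]} (hC : C ∈ Gp F e) {W : WeierstrassCurve F[X]} (hW : Dg e W) :
    ∃ C' : VariableChange F[X], rev e (C • W) = C' • rev e W := by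
  obtain ⟨h1, h2, h3⟩ := hC
  refine ⟨⟨C.u, reflect (2 * e) C.r, reflect e C.s, reflect (3 * e) C.t⟩, ?_⟩
  rw [smul_eq, rev_sc_unit _ (dg_tr hW h1 h2 h3), rev_tr hW h1 h2 h3]
  exact (smul_eq (rev e W) ⟨C.u, reflect (2 * e) C.r, reflect e C.s, reflect (3 * e) C.t⟩).symm

theorem minAll_smul {e : ℕ} {C : VariableChange F[X]} (hC : C ∈ Gp F e) {W : WeierstrassCurve F[X]} (hW : Dg e W)
    (h : MinAll e W) : MinAll e (C • W) := by
  refine ⟨fun P hP hi => ?_, ?_⟩
  · rw [nonmin_smul_iff]; exact h.1 P hP hi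
  · obtain ⟨C', hC'⟩ := rev_smul hC hW
    rw [hC', nonmin_smul_iff]; exact h.2

theorem mem_orbit_iff {e : ℕ} {W : WeierstrassCurve F[X]} (hW : W ∈ Eqn F e) (hm : MinAll e W)
    (V : WeierstrassCurve F[X]) : ((V ∈ Eqn F e ∧ MinAll e V) ∧ cls V = cls W) ↔ V ∈ MulAction.orbit (Gp F e) W := by
  constructor
  · rintro ⟨⟨h1, h2⟩, h3⟩
    obtain ⟨-, C, hC, c1, c2, c3⟩ := min_main hW h1 le_rfl h3.symm hm
    exact ⟨⟨C, c1, c2, c3⟩, hC⟩
  · rintro ⟨⟨C, hC⟩, rfl⟩
    change (C • W ∈ Eqn F e ∧ MinAll e (C • W)) ∧ cls (C • W) = cls W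
    exact ⟨⟨smul_mem hC hW, minAll_smul hC hW.2 hm⟩, cls_smul C W⟩

/-! ### finiteness -/

/-- the equation with given coefficients -/
def toW (T : Wei F) : WeierstrassCurve F[X] := ⟨T.1, T.2.1, T.2.2.1, T.2.2.2.1, T.2.2.2.2⟩

theorem toW_inj : Function.Injective (toW (F := F)) := by
  rintro ⟨a, b, c, d, e⟩ ⟨a', b', c', d', e'⟩ h
  rw [WeierstrassCurve.ext_iff] at h
  obtain ⟨h1, h2, h3, h4, h6⟩ := h
  simp only [toW] at h1 h2 h3 h4 h6
  rw [h1, h2, h3, h4, h6]

variable [Fintype F]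

theorem mem_Box2_iff {d : ℕ} {T : Wei F} : T ∈ Box2 F d ↔ Dg d (toW T) := by
  rw [mem_Box2]
  constructor
  · rintro ⟨h1, h2, h3, h4, h6⟩
    exact ⟨natDegree_le_of_mem_PL h1, natDegree_le_of_mem_PL h2, natDegree_le_of_mem_PL h3,
      natDegree_le_of_mem_PL h4, natDegree_le_of_mem_PL h6⟩
  · rintro ⟨h1, h2, h3, h4, h6⟩
    refine ⟨mem_PL_of_natDegree (f := T.1) ?_, mem_PL_of_natDegree (f := T.2.1) ?_,
      mem_PL_of_natDegree (f := T.2.2.1) ?_, mem_PL_of_natDegree (f := T.2.2.2.1) ?_,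
      mem_PL_of_natDegree (f := T.2.2.2.2) ?_⟩
    · exact Nat.lt_succ_of_le h1
    · exact Nat.lt_succ_of_le h2
    · exact Nat.lt_succ_of_le h3
    · exact Nat.lt_succ_of_le h4
    · exact Nat.lt_succ_of_le h6

/-- the equations of bounded degrees, as a finite set -/
noncomputable def EqF (F : Type) [Field F] [Fintype F] (d : ℕ) : Finset (WeierstrassCurve F[X]) :=
  (Box2 F d).map ⟨toW, toW_inj⟩

theorem mem_EqF {d : ℕ} {W : WeierstrassCurve F[X]} : W ∈ EqF F d ↔ Dg d W := by
  unfold EqF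
  rw [mem_map]
  constructor
  · rintro ⟨T, hT, rfl⟩
    exact mem_Box2_iff.1 hT
  · intro h
    exact ⟨(W.a₁, W.a₂, W.a₃, W.a₄, W.a₆), mem_Box2_iff.2 h, rfl⟩

theorem card_EqF (d : ℕ) : (EqF F d).card = Fintype.card F ^ (16 * d + 5) := by
  unfold EqF
  rw [card_map, card_Box2]

theorem card_Gp (e : ℕ) : Nat.card (Gp F e) = (Fintype.card F - 1) * Fintype.card F ^ (6 * e + 3) := by
  classical
  let φ : Fˣ × (PL F (2 * e + 1) × (PL F (e + 1) × PL F (3 * e + 1))) → Gp F e := fun y =>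
    ⟨⟨Units.map (C : F →+* F[X]).toMonoidHom y.1, y.2.1.1, y.2.2.1.1, y.2.2.2.1⟩,
      natDegree_le_of_mem_PL y.2.1.2, natDegree_le_of_mem_PL y.2.2.1.2, natDegree_le_of_mem_PL y.2.2.2.2⟩
  have hφ : Function.Bijective φ := by
    constructor
    · rintro ⟨u, r, s, t⟩ ⟨u', r', s', t'⟩ h
      have h1 := congrArg Subtype.val h
      rw [VariableChange.ext_iff] at h1
      obtain ⟨h1, h2, h3, h4⟩ := h1
      have h1' : u = u' := by
        have h5 := congrArg (fun x : F[X]ˣ => (x : F[X])) h1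
        change C (u : F) = C (u' : F) at h5
        exact Units.ext (C_injective h5)
      have h2' : r = r' := Subtype.ext h2
      have h3' : s = s' := Subtype.ext h3
      have h4' : t = t' := Subtype.ext h4
      rw [h1', h2', h3', h4']
    · rintro ⟨⟨u, r, s, t⟩, h1, h2, h3⟩
      obtain ⟨a, ha, hu⟩ := unit_eq_C u
      refine ⟨⟨Units.mk0 a ha, ⟨r, mem_PL_of_natDegree (f := r) (Nat.lt_succ_of_le h1)⟩,
        ⟨s, mem_PL_of_natDegree (f := s) (Nat.lt_succ_of_le h2)⟩,
        ⟨t, mem_PL_of_natDegree (f := t) (Nat.lt_succ_of_le h3)⟩⟩, ?_⟩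
      apply Subtype.ext
      rw [VariableChange.ext_iff]
      refine ⟨?_, rfl, rfl, rfl⟩
      apply Units.ext
      rw [hu]
      rfl
  rw [← Nat.card_congr (Equiv.ofBijective φ hφ), Nat.card_eq_fintype_card, Fintype.card_prod, Fintype.card_prod,
    Fintype.card_prod, Fintype.card_coe, Fintype.card_coe, Fintype.card_coe, card_PL, card_PL, card_PL,
    Fintype.card_units, ← pow_add, ← pow_add]
  congr 2
  omega

theorem finite_Gp (e : ℕ) : Finite (Gp F e) := by
  apply Nat.finite_of_card_ne_zero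
  rw [card_Gp]
  have h : 1 < Fintype.card F := Fintype.one_lt_card
  have : 0 < Fintype.card F - 1 := by omega
  positivity

/-- the order of the stabilizer of an equation -/
noncomputable def st (e : ℕ) (W : WeierstrassCurve F[X]) : ℕ := Nat.card (MulAction.stabilizer (Gp F e) W)

open Classical in
/-- the equations of exact height `e` with property `p` -/
noncomputable def OmF (F : Type) [Field F] [Fintype F] (p : ℕ → WeierstrassCurve F[X] → Prop) (e : ℕ) :
    Finset (WeierstrassCurve F[X]) :=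
  (EqF F e).filter (fun W => W.Δ ≠ 0 ∧ MinAll e W ∧ p e W)

theorem mem_OmF {p : ℕ → WeierstrassCurve F[X] → Prop} {e : ℕ} {W : WeierstrassCurve F[X]} :
    W ∈ OmF F p e ↔ W ∈ Eqn F e ∧ MinAll e W ∧ p e W := by
  classical
  unfold OmF
  rw [mem_filter, mem_EqF]
  unfold Eqn
  rw [Set.mem_ofPred_eq]
  tauto

/-- a property of equations which only depends on the curve -/
def ClsInv (p : ℕ → WeierstrassCurve F[X] → Prop) : Prop :=
  ∀ e d : ℕ, e ≤ d → ∀ W ∈ Eqn F e, ∀ V ∈ Eqn F d, cls W = cls V → (p e W ↔ p d V)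

open Classical in
theorem card_cls_OmF {p : ℕ → WeierstrassCurve F[X] → Prop} (hp : ClsInv p) (e : ℕ) :
    (((OmF F p e).image cls).card : ℝ) =
      (∑ W ∈ OmF F p e, (st e W : ℝ)) / (((Fintype.card F : ℝ) - 1) * (Fintype.card F : ℝ) ^ (6 * e + 3)) := by
  have := finite_Gp (F := F) e
  rw [orbit_count (G := Gp F e), card_Gp]
  · rw [← sum_div]
    congr 1
    have h : 1 ≤ Fintype.card F := Fintype.card_pos
    push_cast [h]
    ring
  · intro W hW V
    rw [mem_OmF] at hW
    rw [mem_OmF, ← mem_orbit_iff hW.1 hW.2.1 V]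
    constructor
    · rintro ⟨⟨h1, h2, h3⟩, h4⟩
      exact ⟨⟨h1, h2⟩, h4⟩
    · rintro ⟨⟨h1, h2⟩, h4⟩
      exact ⟨⟨h1, h2, (hp e e le_rfl V h1 W hW.1 h4).2 hW.2.2⟩, h4⟩

open Classical in
theorem cls_image_eq {p : ℕ → WeierstrassCurve F[X] → Prop} (hp : ClsInv p) (d : ℕ) :
    cls '' {W | W ∈ Eqn F d ∧ p d W} = ↑((range (d + 1)).biUnion (fun e => (OmF F p e).image cls)) := by
  ext b
  rw [mem_coe, mem_biUnion]
  constructor
  · rintro ⟨W, ⟨hW, hpW⟩, rfl⟩
    have hex : ∃ e, ∃ V ∈ Eqn F e, cls V = cls W := ⟨d, W, hW, rfl⟩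
    set e := Nat.find hex with he
    obtain ⟨V, hV, hVW⟩ := Nat.find_spec hex
    have hed : e ≤ d := Nat.find_min' hex ⟨W, hW, rfl⟩
    refine ⟨e, mem_range.2 (by omega), ?_⟩
    rw [mem_image]
    refine ⟨V, ?_, hVW⟩
    rw [mem_OmF]
    refine ⟨hV, ?_, (hp e d hed V hV W hW hVW).2 hpW⟩
    by_contra hc
    obtain ⟨e', he', V', hV', hc'⟩ := descend hV hc
    exact Nat.find_min hex he' ⟨V', hV', hc'.trans hVW⟩
  · rintro ⟨e, he, hb⟩
    rw [mem_range] at he
    obtain ⟨W, hW, rfl⟩ := mem_image.1 hb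
    rw [mem_OmF] at hW
    have hWd : W ∈ Eqn F d := ⟨hW.1.1, dg_mono (by omega) hW.1.2⟩
    exact ⟨W, ⟨hWd, (hp e d (by omega) W hW.1 W hWd rfl).1 hW.2.2⟩, rfl⟩

open Classical in
theorem ncard_cls {p : ℕ → WeierstrassCurve F[X] → Prop} (hp : ClsInv p) (d : ℕ) :
    (cls '' {W | W ∈ Eqn F d ∧ p d W}).ncard = ∑ e ∈ range (d + 1), ((OmF F p e).image cls).card := by
  rw [cls_image_eq hp, Set.ncard_coe_finset, card_biUnion]
  intro e he e' he' hne
  rw [Function.onFun, disjoint_left]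
  intro b hb hb'
  obtain ⟨W, hW, rfl⟩ := mem_image.1 hb
  obtain ⟨V, hV, hVW⟩ := mem_image.1 hb'
  rw [mem_OmF] at hW hV
  rcases Nat.lt_or_ge e e' with h | h
  · exact hne (min_main hV.1 hW.1 h.le hVW hV.2.1).1
  · exact hne (min_main hW.1 hV.1 h hVW.symm hW.2.1).1.symm

/-- the stabilizers are bounded -/
theorem st_le (e : ℕ) (W : WeierstrassCurve F[X]) : st e W ≤ 16 * Fintype.card F := by
  classical
  -- for given `u`, the elements of the stabilizer have `r` a root of a monic quartic, `s` and `t` roots of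
  -- monic quadratics
  let Q : F → F[X][X] := fun u => X ^ 4 + (C (-W.b₄) * X ^ 2 + C (-(2 * W.b₆ + C u ^ 6 * W.b₆)) * X +
    C (C u ^ 8 * W.b₈ - W.b₈))
  let S : F → F[X] → F[X][X] := fun u r => X ^ 2 + (C W.a₁ * X + C (C u ^ 2 * W.a₂ - W.a₂ - 3 * r))
  let T : F → F[X] → F[X][X] := fun u r => X ^ 2 + (C (W.a₃ + r * W.a₁) * X +
    C (C u ^ 6 * W.a₆ - (W.a₆ + r * W.a₄ + r ^ 2 * W.a₂ + r ^ 3)))
  have hQm : ∀ u, (Q u).Monic := by
    intro u
    apply monic_X_pow_add
    compute_degree!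
  have hSm : ∀ u r, (S u r).Monic := by
    intro u r
    apply monic_X_pow_add
    compute_degree!
  have hTm : ∀ u r, (T u r).Monic := by
    intro u r
    apply monic_X_pow_add
    compute_degree!
  have hQd : ∀ u, (Q u).natDegree ≤ 4 := by
    intro u
    simp only [Q]
    compute_degree
  have hSd : ∀ u r, (S u r).natDegree ≤ 2 := by
    intro u r
    simp only [S]
    compute_degree
  have hTd : ∀ u r, (T u r).natDegree ≤ 2 := by
    intro u r
    simp only [T]
    compute_degree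
  let A : Finset (F × F[X] × F[X] × F[X]) := (univ : Finset F).biUnion (fun u =>
    (Q u).roots.toFinset.biUnion (fun r => (S u r).roots.toFinset.biUnion (fun s =>
      (T u r).roots.toFinset.image (fun t => (u, r, s, t)))))
  have hA : A.card ≤ Fintype.card F * (4 * (2 * 2)) := by
    refine card_biUnion_le.trans ?_
    refine (sum_le_sum (g := fun _ => 4 * (2 * 2)) ?_).trans ?_
    · intro u _
      refine card_biUnion_le.trans ?_
      refine (sum_le_sum (g := fun _ => 2 * 2) ?_).trans ?_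
      · intro r _
        refine card_biUnion_le.trans ?_
        refine (sum_le_sum (g := fun _ => 2) ?_).trans ?_
        · intro s _
          refine card_image_le.trans ?_
          exact (Multiset.toFinset_card_le _).trans ((card_roots' _).trans (hTd u r))
        · rw [sum_const, smul_eq_mul]
          exact Nat.mul_le_mul_right _ ((Multiset.toFinset_card_le _).trans ((card_roots' _).trans (hSd u r)))
      · rw [sum_const, smul_eq_mul]
        exact Nat.mul_le_mul_right _ ((Multiset.toFinset_card_le _).trans ((card_roots' _).trans (hQd u)))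
    · rw [sum_const, smul_eq_mul, card_univ]
  let ψ : MulAction.stabilizer (Gp F e) W → A := fun g =>
    ⟨((g.1.1.u : F[X]).coeff 0, g.1.1.r, g.1.1.s, g.1.1.t), by
      obtain ⟨⟨⟨u, r, s, t⟩, hg⟩, hst⟩ := g
      obtain ⟨a, ha, hu⟩ := unit_eq_C u
      have h1 : (⟨u, r, s, t⟩ : VariableChange F[X]) • W = W := hst
      rw [smul_eq] at h1
      have h2 : tr r s t • W = sc (C a) W := by
        have h3 := congrArg (sc (u : F[X])) h1
        rw [sc_sc, Units.mul_inv, sc_one, hu] at h3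
        exact h3
      have h6 := congrArg WeierstrassCurve.b₆ h2
      have h8 := congrArg WeierstrassCurve.b₈ h2
      have k2 := congrArg WeierstrassCurve.a₂ h2
      have k6 := congrArg WeierstrassCurve.a₆ h2
      have s6 : (sc (C a) W).b₆ = C a ^ 6 * W.b₆ := by
        simp only [sc, b₆]; ring
      have s8 : (sc (C a) W).b₈ = C a ^ 8 * W.b₈ := by
        simp only [sc, b₈]; ring
      rw [tr_b₆, s6] at h6
      rw [tr_b₈, s8] at h8
      rw [tr_a₂] at k2
      rw [tr_a₆] at k6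
      simp only [sc] at k2 k6
      change ((u : F[X]).coeff 0, r, s, t) ∈ A
      rw [hu, coeff_C_zero]
      simp only [A, mem_biUnion, mem_univ, true_and, mem_image, Multiset.mem_toFinset]
      refine ⟨a, r, ?_, s, ?_, t, ?_, rfl⟩
      · rw [mem_roots (hQm a).ne_zero]
        simp only [Q, IsRoot.def, eval_add, eval_mul, eval_pow, eval_X, eval_C]
        linear_combination r * h6 - h8
      · rw [mem_roots (hSm a r).ne_zero]
        simp only [S, IsRoot.def, eval_add, eval_mul, eval_pow, eval_X, eval_C]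
        linear_combination -k2
      · rw [mem_roots (hTm a r).ne_zero]
        simp only [T, IsRoot.def, eval_add, eval_mul, eval_pow, eval_X, eval_C]
        linear_combination -k6⟩
  have hψ : Function.Injective ψ := by
    rintro ⟨⟨⟨u, r, s, t⟩, hg⟩, hst⟩ ⟨⟨⟨u', r', s', t'⟩, hg'⟩, hst'⟩ h
    have h1 := congrArg Subtype.val h
    change ((u : F[X]).coeff 0, r, s, t) = ((u' : F[X]).coeff 0, r', s', t') at h1
    rw [Prod.mk.injEq, Prod.mk.injEq, Prod.mk.injEq] at h1
    obtain ⟨h1, rfl, rfl, rfl⟩ := h1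
    obtain ⟨a, ha, hu⟩ := unit_eq_C u
    obtain ⟨a', ha', hu'⟩ := unit_eq_C u'
    rw [hu, hu', coeff_C_zero, coeff_C_zero] at h1
    have h2 : u = u' := Units.ext (by rw [hu, hu', h1])
    subst h2
    rfl
  have h1 := Nat.card_le_card_of_injective ψ hψ
  rw [Nat.card_eq_fintype_card (α := A), Fintype.card_coe] at h1
  unfold st
  omega

end

end Pool.Agent.H456.EC
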