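import Pool.Agent.H456.RN.Orb

/-!
# Stabilizers of equations with `j ≠ 0` in characteristics two and three
-/

open Polynomial WeierstrassCurve Finset
open Pool.Agent.H456.RN

namespace Pool.Agent.H456.EC

section

variable {F : Type} [Field F]

theorem neg_smul_self (W : WeierstrassCurve F[X]) :
    (⟨-1, 0, -W.a₁, -W.a₃⟩ : VariableChange F[X]) • W = W := by
  rw [smul_eq]
  ext1
  · simp [sc]; ring
  · simp [sc]; ring
  · simp [sc]; ring
  · simp only [sc, tr_a₄]
    simp
    ring
  · simp only [sc, tr_a₆]
    simp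
    ring

theorem ofNat_zero {n : ℕ} (h : ((n : F)) = 0) : (n : F[X]) = 0 := by
  rw [← C_eq_natCast, h, map_zero]

theorem stab_cases (hchar : (2 : F) = 0 ∨ (3 : F) = 0) {W : WeierstrassCurve F[X]} (hc : W.c₄ ≠ 0)
    (C : VariableChange F[X]) (hC : C • W = W) :
    C = 1 ∨ C = ⟨-1, 0, -W.a₁, -W.a₃⟩ := by
  have hchar' : (2 : F[X]) = 0 ∨ (3 : F[X]) = 0 := by
    rcases hchar with h | h
    · left; exact_mod_cast ofNat_zero (n := 2) (by exact_mod_cast h)
    · right; exact_mod_cast ofNat_zero (n := 3) (by exact_mod_cast h)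
  have h6 : (6 : F[X]) = 0 := by
    rcases hchar' with h | h
    · linear_combination 3 * h
    · linear_combination 2 * h
  obtain ⟨u, r, s, t⟩ := C
  obtain ⟨a, ha, hu⟩ := unit_eq_C u
  rw [smul_eq] at hC
  have h2 : tr r s t • W = sc (Polynomial.C a) W := by
    have h3 := congrArg (sc (u : F[X])) hC
    rw [sc_sc, Units.mul_inv, sc_one, hu] at h3
    exact h3
  have e1 := congrArg WeierstrassCurve.a₁ h2
  have e2 := congrArg WeierstrassCurve.a₂ h2
  have e3 := congrArg WeierstrassCurve.a₃ h2
  have e4 := congrArg WeierstrassCurve.a₄ h2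
  have e6 := congrArg WeierstrassCurve.a₆ h2
  have f2 := congrArg WeierstrassCurve.b₂ h2
  have f4 := congrArg WeierstrassCurve.b₄ h2
  have s2 : (sc (Polynomial.C a) W).b₂ = Polynomial.C a ^ 2 * W.b₂ := by
    simp only [sc, b₂]; ring
  have s4 : (sc (Polynomial.C a) W).b₄ = Polynomial.C a ^ 4 * W.b₄ := by
    simp only [sc, b₄]; ring
  rw [tr_b₂, s2] at f2
  rw [tr_b₄, s4] at f4
  rw [tr_a₁] at e1
  rw [tr_a₂] at e2
  rw [tr_a₃] at e3
  rw [tr_a₄] at e4
  rw [tr_a₆] at e6
  simp only [sc] at e1 e2 e3 e4 e6
  have hb2 : W.b₂ ≠ 0 := by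
    intro h0
    apply hc
    unfold c₄
    rw [h0]
    linear_combination (-4 * W.b₄) * h6
  have ha2 : (Polynomial.C a : F[X]) ^ 2 = 1 := by
    have : (Polynomial.C a ^ 2 - 1) * W.b₂ = 0 := by linear_combination -f2 + 2 * r * h6
    rcases mul_eq_zero.1 this with h | h
    · linear_combination h
    · exact absurd h hb2
  have ha4 : (Polynomial.C a : F[X]) ^ 4 = 1 := by
    linear_combination (Polynomial.C a ^ 2 + 1) * ha2
  have hr : r = 0 := by
    have : r * W.b₂ = 0 := by linear_combination f4 + W.b₄ * ha4 - r ^ 2 * h6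
    rcases mul_eq_zero.1 this with h | h
    · exact h
    · exact absurd h hb2
  subst hr
  rcases hchar' with h | h
  · -- characteristic two
    have ha1 : a = 1 := by
      have h3 : (Polynomial.C a - 1) * (Polynomial.C a - 1) = (0 : F[X]) := by
        linear_combination ha2 + (1 - Polynomial.C a) * h
      have h4 := mul_self_eq_zero.1 h3
      have h5 : (Polynomial.C a : F[X]) = Polynomial.C 1 := by rw [map_one]; linear_combination h4
      exact C_injective h5
    subst ha1
    rw [map_one] at *
    have hu1 : u = 1 := Units.ext hu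
    subst hu1
    have hA : W.a₁ ≠ 0 := by
      intro h0
      apply hb2
      unfold b₂
      rw [h0]
      linear_combination (2 * W.a₂) * h
    have hs : s * (s + W.a₁) = 0 := by linear_combination -e2
    have hm1 : (-1 : F[X]) = 1 := by linear_combination -h
    rcases mul_eq_zero.1 hs with h0 | h0
    · subst h0
      have ht : t * W.a₁ = 0 := by linear_combination -e4
      have ht' := (mul_eq_zero.1 ht).resolve_right hA
      subst ht'
      left
      rfl
    · right
      have hs' : s = -W.a₁ := by linear_combination h0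
      subst hs'
      have ht : (t + W.a₃) * W.a₁ = 0 := by
        linear_combination e4
      have ht' := (mul_eq_zero.1 ht).resolve_right hA
      have ht'' : t = -W.a₃ := by linear_combination ht'
      subst ht''
      ext1
      · exact Units.ext hm1.symm
      · rfl
      · rfl
      · rfl
  · -- characteristic three
    have h3 : (Polynomial.C a - 1) * (Polynomial.C a + 1) = (0 : F[X]) := by linear_combination ha2
    have hs : s = 2 * (Polynomial.C a - 1) * W.a₁ := by
      linear_combination 2 * e1 - s * h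
    have ht : t = 2 * (Polynomial.C a - 1) * W.a₃ := by
      linear_combination 2 * e3 - t * h + (2 * Polynomial.C a * W.a₃) * ha2
    rcases mul_eq_zero.1 h3 with h0 | h0
    · left
      have h5 : (Polynomial.C a : F[X]) = 1 := by linear_combination h0
      rw [VariableChange.one_def]
      ext1
      · apply Units.ext
        change (u : F[X]) = 1
        rw [hu, h5]
      · rfl
      · change s = 0
        rw [hs, h0]; ring
      · change t = 0
        rw [ht, h0]; ring
    · right
      have h5 : (Polynomial.C a : F[X]) = -1 := by linear_combination h0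
      ext1
      · apply Units.ext
        change (u : F[X]) = -1
        rw [hu, h5]
      · rfl
      · change s = -W.a₁
        rw [hs, h5]; linear_combination (-W.a₁) * h
      · change t = -W.a₃
        rw [ht, h5]; linear_combination (-W.a₃) * h

theorem neg_ne_one {W : WeierstrassCurve F[X]} (hc : W.c₄ ≠ 0) :
    (⟨-1, 0, -W.a₁, -W.a₃⟩ : VariableChange F[X]) ≠ 1 := by
  intro h
  rw [VariableChange.one_def, VariableChange.ext_iff] at h
  obtain ⟨h1, -, h3, -⟩ := h
  change (-1 : F[X]ˣ) = 1 at h1
  change -W.a₁ = 0 at h3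
  have h1' : (-1 : F[X]) = 1 := congrArg (fun x : F[X]ˣ => (x : F[X])) h1
  have h2 : (2 : F[X]) = 0 := by linear_combination -h1'
  apply hc
  have h4 : W.a₁ = 0 := neg_eq_zero.1 h3
  unfold c₄ b₂
  rw [h4]
  linear_combination (8 * W.a₂ ^ 2 - 12 * W.b₄) * h2

theorem st_two (hchar : (2 : F) = 0 ∨ (3 : F) = 0) {e : ℕ} {W : WeierstrassCurve F[X]} (hW : Dg e W)
    (hc : W.c₄ ≠ 0) : st e W = 2 := by
  unfold st
  rw [Nat.card_eq_two_iff]
  have hmem : (⟨-1, 0, -W.a₁, -W.a₃⟩ : VariableChange F[X]) ∈ Gp F e := by
    refine ⟨?_, ?_, ?_⟩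
    · change (0 : F[X]).natDegree ≤ _
      rw [natDegree_zero]; exact Nat.zero_le _
    · change (-W.a₁).natDegree ≤ _
      rw [natDegree_neg]; exact hW.1
    · change (-W.a₃).natDegree ≤ _
      rw [natDegree_neg]; exact hW.2.2.1
  refine ⟨1, ⟨⟨⟨-1, 0, -W.a₁, -W.a₃⟩, hmem⟩, neg_smul_self W⟩, ?_, ?_⟩
  · intro h
    have h1 := congrArg (fun g : MulAction.stabilizer (Gp F e) W => (g.1.1 : VariableChange F[X])) h
    exact neg_ne_one hc h1.symm
  · apply Set.eq_univ_of_forall
    rintro ⟨⟨C, hC⟩, hst⟩
    rw [Set.mem_insert_iff, Set.mem_singleton_iff]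
    rcases stab_cases hchar hc C hst with h | h
    · left
      apply Subtype.ext
      apply Subtype.ext
      exact h
    · right
      apply Subtype.ext
      apply Subtype.ext
      exact h

end

end Pool.Agent.H456.EC
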