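import Pool.Agent.H456.RN.Min

/-!
# The equation at infinity, and equations of exact height `d`
-/

open Polynomial WeierstrassCurve

namespace Pool.Agent.H456.EC

section

variable {F : Type} [Field F]

/-- substitution of `1/t` -/
noncomputable def sig (F : Type) [Field F] : F[X] →+* RatFunc F := eval₂RingHom RatFunc.C (RatFunc.X)⁻¹

theorem toK_eq (f : F[X]) : toK F f = eval₂ RatFunc.C RatFunc.X f := by
  have h : toK F = eval₂RingHom RatFunc.C RatFunc.X := by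
    apply Polynomial.ringHom_ext
    · intro a
      rw [coe_eval₂RingHom, eval₂_C]
      exact RatFunc.algebraMap_C a
    · rw [coe_eval₂RingHom, eval₂_X]
      exact RatFunc.algebraMap_X
  rw [h]
  rfl

theorem reflect_toK {N : ℕ} {f : F[X]} (hf : f.natDegree ≤ N) :
    toK F (reflect N f) = RatFunc.X ^ N * sig F f := by
  have hX : (RatFunc.X : RatFunc F) ≠ 0 := RatFunc.X_ne_zero
  let _ : Invertible (RatFunc.X⁻¹ : RatFunc F) := ⟨RatFunc.X, mul_inv_cancel₀ hX, inv_mul_cancel₀ hX⟩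
  have h1 := eval₂_reflect_mul_pow (RatFunc.C (K := F)) (RatFunc.X⁻¹ : RatFunc F) N f hf
  have h2 : (⅟(RatFunc.X⁻¹ : RatFunc F)) = RatFunc.X := rfl
  rw [h2, ← toK_eq] at h1
  change _ = RatFunc.X ^ N * eval₂ RatFunc.C (RatFunc.X)⁻¹ f
  rw [← h1, mul_comm (toK F _), ← mul_assoc, ← mul_pow, mul_inv_cancel₀ hX, one_pow, one_mul]

theorem rev_toK {D : ℕ} {W : WeierstrassCurve F[X]} (h : Dg D W) :
    (rev D W).map (toK F) = sc (RatFunc.X ^ D) (W.map (sig F)) := by
  obtain ⟨h1, h2, h3, h4, h6⟩ := h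
  ext1
  · simp only [map_a₁, rev, sc]
    exact reflect_toK h1
  · simp only [map_a₂, rev, sc]
    rw [reflect_toK h2, ← pow_mul, mul_comm D]
  · simp only [map_a₃, rev, sc]
    rw [reflect_toK h3, ← pow_mul, mul_comm D]
  · simp only [map_a₄, rev, sc]
    rw [reflect_toK h4, ← pow_mul, mul_comm D]
  · simp only [map_a₆, rev, sc]
    rw [reflect_toK h6, ← pow_mul, mul_comm D]

theorem rev_tr {D : ℕ} {W : WeierstrassCurve F[X]} (h : Dg D W) {r s t : F[X]} (hr : r.natDegree ≤ 2 * D)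
    (hs : s.natDegree ≤ D) (ht : t.natDegree ≤ 3 * D) :
    rev D (tr r s t • W) = tr (reflect (2 * D) r) (reflect D s) (reflect (3 * D) t) • rev D W := by
  apply WeierstrassCurve.map_injective toK_inj
  change (rev D (tr r s t • W)).map (toK F) =
    (tr (reflect (2 * D) r) (reflect D s) (reflect (3 * D) t) • rev D W).map (toK F)
  rw [rev_toK (dg_tr h hr hs ht), tr_map, tr_map, rev_toK h, reflect_toK hr, reflect_toK hs, reflect_toK ht,
    ← sc_tr, ← pow_mul, ← pow_mul, mul_comm D 2, mul_comm D 3]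

theorem rev_sc {e m : ℕ} {h : F[X]} (hm : h.natDegree ≤ m) {W : WeierstrassCurve F[X]} (hW : Dg e W) :
    rev (e + m) (sc h W) = sc (reflect m h) (rev e W) := by
  apply WeierstrassCurve.map_injective toK_inj
  change (rev (e + m) (sc h W)).map (toK F) = (sc (reflect m h) (rev e W)).map (toK F)
  rw [rev_toK (dg_sc hm hW), sc_map, sc_map, rev_toK hW, reflect_toK hm, sc_sc, sc_sc]
  congr 1
  ring

theorem rev_rev (D : ℕ) (W : WeierstrassCurve F[X]) : rev D (rev D W) = W := by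
  unfold rev
  simp

theorem dg_rev {D : ℕ} {W : WeierstrassCurve F[X]} (h : Dg D W) : Dg D (rev D W) := by
  obtain ⟨h1, h2, h3, h4, h6⟩ := h
  have e : ∀ (N : ℕ) (f : F[X]), f.natDegree ≤ N → (reflect N f).natDegree ≤ N := by
    intro N f hf
    have := natDegree_reflect_le (N := N) (p := f)
    rwa [max_eq_left hf] at this
  exact ⟨e _ _ h1, e _ _ h2, e _ _ h3, e _ _ h4, e _ _ h6⟩

theorem rev_Δ {D : ℕ} {W : WeierstrassCurve F[X]} (h : Dg D W) : (rev D W).Δ = reflect (12 * D) W.Δ := by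
  apply toK_inj
  rw [reflect_toK (dg_Δ h), ← map_Δ, rev_toK h, sc_Δ, map_Δ, ← pow_mul, mul_comm D]

theorem dg_c₄ {D : ℕ} {W : WeierstrassCurve F[X]} (h : Dg D W) : W.c₄.natDegree ≤ 4 * D := by
  have h2 := dg_b₂ h
  have h4 := dg_b₄ h
  unfold c₄
  have e24 : (24 : F[X]) = C 24 := (map_ofNat C 24).symm
  rw [e24]
  refine (natDegree_sub_le _ _).trans (max_le ?_ ?_)
  · exact natDegree_pow_le.trans (by omega)
  · exact (natDegree_C_mul_le _ _).trans h4

theorem rev_c₄ {D : ℕ} {W : WeierstrassCurve F[X]} (h : Dg D W) : (rev D W).c₄ = reflect (4 * D) W.c₄ := by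
  apply toK_inj
  rw [reflect_toK (dg_c₄ h), ← map_c₄, rev_toK h, sc_c₄, map_c₄, ← pow_mul, mul_comm D]

theorem reflect_ne_zero {N : ℕ} {f : F[X]} (hf : f ≠ 0) : reflect N f ≠ 0 := by
  rw [Ne, Polynomial.reflect_eq_zero_iff]
  exact hf

theorem rev_mem {D : ℕ} {W : WeierstrassCurve F[X]} (h : W ∈ Eqn F D) : rev D W ∈ Eqn F D := by
  refine ⟨?_, dg_rev h.2⟩
  rw [rev_Δ h.2]
  exact reflect_ne_zero h.1

theorem coeff_zero_reflect (N : ℕ) (f : F[X]) : (reflect N f).coeff 0 = f.coeff N := by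
  rw [coeff_reflect, revAt_le (Nat.zero_le N), Nat.sub_zero]

/-- equations of the same curve have the same class at infinity -/
theorem cls_rev {d : ℕ} {W V : WeierstrassCurve F[X]} (hW : Dg d W) (hV : Dg d V) (h : cls W = cls V) :
    cls (rev d W) = cls (rev d V) := by
  obtain ⟨α, β, r, s, t, hα, hβ, -, he⟩ := cls_eq_exists h
  set n := max α.natDegree β.natDegree with hn
  have hαn : α.natDegree ≤ n := le_max_left _ _
  have hβn : β.natDegree ≤ n := le_max_right _ _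
  obtain ⟨hr, hs, ht⟩ := tr_degree (dg_sc hβn hW) (dg_sc hαn hV) he
  have h1 := congrArg (rev (d + n)) he
  rw [rev_tr (dg_sc hβn hW) hr hs ht, rev_sc hβn hW, rev_sc hαn hV] at h1
  exact cls_eq_of (reflect_ne_zero hα) (reflect_ne_zero hβ) h1

theorem cls_rev_level {e d : ℕ} (hed : e ≤ d) {W : WeierstrassCurve F[X]} (hW : Dg e W) :
    cls (rev d W) = cls (rev e W) := by
  have h1 := rev_sc (e := e) (m := d - e) (h := (1 : F[X])) (by rw [natDegree_one]; exact Nat.zero_le _) hW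
  rw [sc_one, Nat.add_sub_cancel' hed] at h1
  rw [h1]
  exact cls_sc (reflect_ne_zero one_ne_zero)

/-- minimal at every place -/
def MinAll (e : ℕ) (W : WeierstrassCurve F[X]) : Prop :=
  (∀ P : F[X], P.Monic → Irreducible P → ¬ NonMin P W) ∧ ¬ NonMin X (rev e W)

theorem min_main {e e' : ℕ} {W V : WeierstrassCurve F[X]} (hW : W ∈ Eqn F e) (hV : V ∈ Eqn F e')
    (hee : e' ≤ e) (hc : cls W = cls V) (hmin : MinAll e W) :
    e' = e ∧ ∃ C : VariableChange F[X], C • W = V ∧ C.r.natDegree ≤ 2 * e ∧ C.s.natDegree ≤ e ∧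
      C.t.natDegree ≤ 3 * e := by
  obtain ⟨α, β, r, s, t, hα, hβ, hcop, he⟩ := cls_eq_exists hc
  have hαu : IsUnit α := by
    by_contra hu
    obtain ⟨P, hP, hi, hd⟩ := Polynomial.exists_monic_irreducible_factor _ hu
    exact hmin.1 P hP hi (nonmin_of_isom hcop hd he)
  have hαd : α.natDegree = 0 := natDegree_eq_zero_of_isUnit hαu
  set n := β.natDegree with hn
  have hDW : Dg (e + n) (sc β W) := dg_sc le_rfl hW.2
  have hDV : Dg (e + n) (sc α V) := dg_mono (by omega) (dg_sc (m := 0) hαd.le hV.2)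
  obtain ⟨hr, hs, ht⟩ := tr_degree hDW hDV he
  have hkey : e + n = e' := by
    by_contra hne
    have hlt : e' < e + n := by omega
    have h1 := congrArg (rev (e + n)) he
    obtain ⟨m, hm⟩ : ∃ m, e + n = e' + (m + 1) := ⟨e + n - e' - 1, by omega⟩
    rw [rev_tr hDW hr hs ht, rev_sc le_rfl hW.2, hm, rev_sc (m := m + 1) (by omega) hV.2] at h1
    refine hmin.2 (nonmin_of_isom (P := X) ?_ ?_ h1)
    · have h2 : reflect (m + 1) α = C (α.coeff 0) * X ^ (m + 1) := by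
        have h3 : α = C (α.coeff 0) := eq_C_of_natDegree_eq_zero hαd
        conv_lhs => rw [h3]
        rw [reflect_C]
      rw [h2]
      have h4 : IsCoprime (X : F[X]) (reflect n β) := by
        rw [irreducible_X.coprime_iff_not_dvd, X_dvd_iff, coeff_zero_reflect]
        exact mt leadingCoeff_eq_zero.1 hβ
      have h5 : IsCoprime (C (α.coeff 0) : F[X]) (reflect n β) := by
        have h3 : α = C (α.coeff 0) := eq_C_of_natDegree_eq_zero hαd
        rw [← h3]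
        exact ⟨((hαu.unit⁻¹ : F[X]ˣ) : F[X]), 0, by rw [zero_mul, add_zero]; exact IsUnit.val_inv_mul hαu⟩
      exact h5.mul_left h4.pow_left
    · rw [X_dvd_iff, coeff_zero_reflect]
      exact coeff_eq_zero_of_natDegree_lt (by omega)
  have hn0 : n = 0 := by omega
  have hee' : e' = e := by omega
  refine ⟨hee', ?_⟩
  have hβu : IsUnit β := by
    rw [Polynomial.isUnit_iff]
    have h3 : β = C (β.coeff 0) := eq_C_of_natDegree_eq_zero hn0
    refine ⟨β.coeff 0, ?_, h3.symm⟩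
    rw [isUnit_iff_ne_zero]
    intro h0
    rw [h0, map_zero] at h3
    exact hβ h3
  obtain ⟨a, rfl⟩ := hαu
  obtain ⟨b, rfl⟩ := hβu
  have hbi : ((b⁻¹ : F[X]ˣ) : F[X]).natDegree = 0 := natDegree_eq_zero_of_isUnit (Units.isUnit _)
  have hbd : ∀ (k : ℕ) (x : F[X]), ((((b⁻¹ : F[X]ˣ) : F[X])) ^ k * x).natDegree ≤ x.natDegree := by
    intro k x
    refine natDegree_mul_le.trans ?_
    have := natDegree_pow_le (p := ((b⁻¹ : F[X]ˣ) : F[X])) (n := k)
    rw [hbi, mul_zero] at this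
    omega
  rw [hn0, add_zero] at hr hs ht
  refine ⟨⟨a * b⁻¹, ((b⁻¹ : F[X]ˣ) : F[X]) ^ 2 * r, ((b⁻¹ : F[X]ˣ) : F[X]) ^ 1 * s,
    ((b⁻¹ : F[X]ˣ) : F[X]) ^ 3 * t⟩, ?_, (hbd _ _).trans hr, (hbd _ _).trans hs, (hbd _ _).trans ht⟩
  rw [smul_eq]
  have h1 : (((a * b⁻¹)⁻¹ : F[X]ˣ) : F[X]) = ((a⁻¹ : F[X]ˣ) : F[X]) * b := by
    rw [mul_inv, inv_inv, Units.val_mul]
  change sc (((a * b⁻¹)⁻¹ : F[X]ˣ) : F[X]) (tr (((b⁻¹ : F[X]ˣ) : F[X]) ^ 2 * r) (((b⁻¹ : F[X]ˣ) : F[X]) ^ 1 * s)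
    (((b⁻¹ : F[X]ˣ) : F[X]) ^ 3 * t) • W) = V
  rw [h1, ← sc_sc, ← sc_tr]
  have e1 : (b : F[X]) ^ 2 * (((b⁻¹ : F[X]ˣ) : F[X]) ^ 2 * r) = r := by
    rw [← mul_assoc, ← mul_pow, Units.mul_inv, one_pow, one_mul]
  have e2 : (b : F[X]) * (((b⁻¹ : F[X]ˣ) : F[X]) ^ 1 * s) = s := by
    rw [pow_one, ← mul_assoc, Units.mul_inv, one_mul]
  have e3 : (b : F[X]) ^ 3 * (((b⁻¹ : F[X]ˣ) : F[X]) ^ 3 * t) = t := by
    rw [← mul_assoc, ← mul_pow, Units.mul_inv, one_pow, one_mul]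
  rw [e1, e2, e3, he, sc_sc, Units.inv_mul, sc_one]

theorem reduce {e : ℕ} {W : WeierstrassCurve F[X]} (hW : W ∈ Eqn F e) {P : F[X]} (hP : P.Monic)
    (hi : Irreducible P) (h : NonMin P W) : ∃ (r s t : F[X]) (V : WeierstrassCurve F[X]), r.natDegree ≤ 2 * e ∧
      s.natDegree ≤ e ∧ t.natDegree ≤ 3 * e ∧ tr r s t • W = sc P V ∧ P.natDegree ≤ e ∧
      V ∈ Eqn F (e - P.natDegree) := by
  have hm1 : 1 ≤ P.natDegree := hi.natDegree_pos
  have hme : P.natDegree ≤ e := by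
    have h1 := natDegree_le_of_dvd (nonmin_Δ h) hW.1
    rw [natDegree_pow] at h1
    have := dg_Δ hW.2
    omega
  obtain ⟨r, s, t, V, hV⟩ := h
  have hlt : ∀ (j : ℕ) (x : F[X]), j ≠ 0 → (x %ₘ (P ^ j)).natDegree ≤ j * e := by
    intro j x hj
    have h1 : P ^ j ≠ 1 := by
      intro h1
      have h2 := congrArg natDegree h1
      rw [natDegree_pow, natDegree_one] at h2
      rcases Nat.mul_eq_zero.1 h2 with h3 | h3
      · exact hj h3
      · omega
    have h2 := natDegree_modByMonic_lt x (hP.pow j) h1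
    rw [natDegree_pow] at h2
    have := Nat.mul_le_mul_left j hme
    omega
  set r0 := r %ₘ (P ^ 2) with hr0
  set s0 := s %ₘ (P ^ 1) with hs0
  set ρ := r /ₘ (P ^ 2) with hρ
  set σ := s /ₘ (P ^ 1) with hσ
  set t1 := t - P ^ 2 * ρ * s0 with ht1
  set t0 := t1 %ₘ (P ^ 3) with ht0
  set τ := t1 /ₘ (P ^ 3) with hτ
  have er : r0 + P ^ 2 * ρ = r := modByMonic_add_div r (P ^ 2)
  have es : s0 + P ^ 1 * σ = s := modByMonic_add_div s (P ^ 1)
  have et : t0 + P ^ 3 * τ = t1 := modByMonic_add_div t1 (P ^ 3)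
  rw [pow_one] at es
  have h1 : tr (P ^ 2 * ρ) (P * σ) (P ^ 3 * τ) • tr r0 s0 t0 • W = sc P V := by
    rw [tr_tr, ← hV]
    congr 1
    congr 1
    · linear_combination er
    · linear_combination es
    · linear_combination et + ht1
  rw [tr_eq_iff] at h1
  have h2 : tr r0 s0 t0 • W = sc P (tr (-ρ) (-σ) (ρ * σ - τ) • V) := by
    rw [← h1, ← sc_tr]
    congr 1
    congr 1
    · ring
    · ring
    · ring
  have d1 : r0.natDegree ≤ 2 * e := hlt 2 _ (by norm_num)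
  have d2 : s0.natDegree ≤ e := (hlt 1 s (by norm_num)).trans (by omega)
  have d3 : t0.natDegree ≤ 3 * e := hlt 3 _ (by norm_num)
  refine ⟨r0, s0, t0, _, d1, d2, d3, h2, hme, ?_, ?_⟩
  · intro h0
    have h3 := congrArg WeierstrassCurve.Δ h2
    rw [tr_Δ, sc_Δ, h0, mul_zero] at h3
    exact hW.1 h3
  · have h3 := dg_tr hW.2 d1 d2 d3
    rw [h2] at h3
    apply dg_of_sc hP.ne_zero (m := P.natDegree) le_rfl
    rwa [Nat.sub_add_cancel hme]

theorem descend {e : ℕ} {W : WeierstrassCurve F[X]} (hW : W ∈ Eqn F e) (h : ¬ MinAll e W) :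
    ∃ e' < e, ∃ V ∈ Eqn F e', cls V = cls W := by
  unfold MinAll at h
  rw [not_and_or] at h
  rcases h with h | h
  · push Not at h
    obtain ⟨P, hP, hi, hn⟩ := h
    obtain ⟨r, s, t, V, hr, hs, ht, h1, h2, h3⟩ := reduce hW hP hi hn
    have := hi.natDegree_pos
    refine ⟨e - P.natDegree, by omega, V, h3, ?_⟩
    rw [← cls_sc hP.ne_zero, ← h1, cls_tr]
  · push Not at h
    obtain ⟨r, s, t, V, hr, hs, ht, h1, h2, h3⟩ := reduce (rev_mem hW) monic_X irreducible_X h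
    rw [natDegree_X] at h2 h3
    refine ⟨e - 1, by omega, rev (e - 1) V, rev_mem h3, ?_⟩
    have h4 := congrArg (rev e) h1
    rw [rev_tr (dg_rev hW.2) hr hs ht, rev_rev] at h4
    have h5 : rev e (sc X V) = rev (e - 1) V := by
      have h6 := rev_sc (e := e - 1) (m := 1) (h := (X : F[X])) (by rw [natDegree_X]) h3.2
      rw [Nat.sub_add_cancel h2] at h6
      rw [h6]
      have h7 : reflect 1 (X : F[X]) = 1 := by
        have := reflect_monomial (R := F) 1 1
        rw [pow_one] at this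
        rw [this]
        simp
      rw [h7, sc_one]
    rw [← h5, ← h4, cls_tr]

end

end Pool.Agent.H456.EC
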