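import Mathlib

/-!
# Weierstrass equations over `F[t]`, isomorphism classes over `F(t)`, local signs
-/

open Polynomial

namespace Pool.Agent.H456.EC

section

variable {F : Type} [Field F]

/-- `deg aᵢ ≤ i d` for the coefficients of the equation `W` -/
def Dg (d : ℕ) (W : WeierstrassCurve F[X]) : Prop :=
  W.a₁.natDegree ≤ d ∧ W.a₂.natDegree ≤ 2 * d ∧ W.a₃.natDegree ≤ 3 * d ∧ W.a₄.natDegree ≤ 4 * d ∧
    W.a₆.natDegree ≤ 6 * d

/-- the nonsingular Weierstrass equations `y² + a₁xy + a₃y = x³ + a₂x² + a₄x + a₆` over `F(t)` with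
`aᵢ ∈ F[t]` and `deg aᵢ ≤ i d`, that is with `aᵢ` a section of `O(d)^{⊗ i}` on the projective line -/
def Eqn (F : Type) [Field F] (d : ℕ) : Set (WeierstrassCurve F[X]) := {W | W.Δ ≠ 0 ∧ Dg d W}

/-- the class, up to isomorphism over `F(t)`, of the curve with equation `W` -/
noncomputable def cls (W : WeierstrassCurve F[X]) :
    MulAction.orbitRel.Quotient (WeierstrassCurve.VariableChange (RatFunc F)) (WeierstrassCurve (RatFunc F)) :=
  Quotient.mk'' (W.map (algebraMap F[X] (RatFunc F)))

/-- the same curve in the coordinate `1/t`: the equation with coefficients `t^(i d) aᵢ(1/t)` -/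
noncomputable def rev (d : ℕ) (W : WeierstrassCurve F[X]) : WeierstrassCurve F[X] :=
  ⟨reflect d W.a₁, reflect (2 * d) W.a₂, reflect (3 * d) W.a₃, reflect (4 * d) W.a₄, reflect (6 * d) W.a₆⟩

/-- the coefficients of the two equations are congruent modulo `m` -/
def Cong (m : F[X]) (W W' : WeierstrassCurve F[X]) : Prop :=
  m ∣ W'.a₁ - W.a₁ ∧ m ∣ W'.a₂ - W.a₂ ∧ m ∣ W'.a₃ - W.a₃ ∧ m ∣ W'.a₄ - W.a₄ ∧ m ∣ W'.a₆ - W.a₆

/-- the tangents at the node of the reduction of `W` modulo `P` are rational over `F[t]/(P)`: the polynomial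
`c₄ s² + a₁ c₄ s - (54 b₆ - 3 b₂ b₄ + a₂ c₄)` has a zero modulo `P` (this is the polynomial in the definition of
`WeierstrassCurve.HasSplitMultiplicativeReduction` in Mathlib) -/
def RatTan (P : F[X]) (W : WeierstrassCurve F[X]) : Prop :=
  ∃ s : F[X], P ∣ W.c₄ * s ^ 2 + W.a₁ * W.c₄ * s - (54 * W.b₆ - 3 * W.b₂ * W.b₄ + W.a₂ * W.c₄)

/-- a sign attached to the equations at the place `P`, depending only on the isomorphism class over `F(t)` and
locally constant: on the equations with `ord_P Δ ≤ k` it only depends on the coefficients modulo some power of `P` -/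
structure LocalSign (P : F[X]) (w : WeierstrassCurve F[X] → ℤ) : Prop where
  sign : ∀ W, w W = 1 ∨ w W = -1
  inv : ∀ W W' : WeierstrassCurve F[X], W.Δ ≠ 0 → W'.Δ ≠ 0 → cls W = cls W' → w W = w W'
  loc : ∀ k : ℕ, ∃ N : ℕ, ∀ W W' : WeierstrassCurve F[X], ¬ P ^ (k + 1) ∣ W.Δ → Cong (P ^ N) W W' → w W = w W'

/-- the values at places of good and of multiplicative reduction are those of the root number: `1` if the reduction
is good, `-1` if it is split multiplicative, `1` if it is nonsplit multiplicative -/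
structure Standard (P : F[X]) (w : WeierstrassCurve F[X] → ℤ) : Prop where
  good : ∀ W : WeierstrassCurve F[X], ¬ P ∣ W.Δ → w W = 1
  split : ∀ W : WeierstrassCurve F[X], W.Δ ≠ 0 → P ∣ W.Δ → ¬ P ∣ W.c₄ → RatTan P W → w W = -1
  nonsplit : ∀ W : WeierstrassCurve F[X], W.Δ ≠ 0 → P ∣ W.Δ → ¬ P ∣ W.c₄ → ¬ RatTan P W → w W = 1

/-- a system of local signs: one for each monic irreducible `P`, standard for all `P` of large degree,
and one for the place at infinity (the place `t = 0` for the equation in the coordinate `1/t`) -/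
structure LocalSystem (w : F[X] → WeierstrassCurve F[X] → ℤ) (winf : WeierstrassCurve F[X] → ℤ) : Prop where
  fin : ∀ P : F[X], P.Monic → Irreducible P → LocalSign P (w P)
  inf : LocalSign X winf
  std : ∃ M : ℕ, ∀ P : F[X], P.Monic → Irreducible P → M < P.natDegree → Standard P (w P)

/-- the product of the local signs over all places of `F(t)`, for an equation with `deg aᵢ ≤ i d` -/
noncomputable def globalSign (w : F[X] → WeierstrassCurve F[X] → ℤ) (winf : WeierstrassCurve F[X] → ℤ) (d : ℕ)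
    (W : WeierstrassCurve F[X]) : ℤ :=
  winf (rev d W) * ∏ᶠ P : {P : F[X] // P.Monic ∧ Irreducible P}, w P.1 W

end

end Pool.Agent.H456.EC
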