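import Pool.Agent.H456.RN.Jac

/-!
# Artin-Schreier symbols are Hayes characters

The trace of `u / v` modulo a prime `P` is read off from the resultant of `v + ε u` and `P` over the dual
numbers.
-/

set_option autoImplicit false
set_option linter.all false
set_option maxHeartbeats 1000000

open Finset Polynomial ComplexConjugate
open Pool.Agent.Q284.PS Pool.Agent.Q53.PS

namespace Pool.Agent.H456.RN

section dual
variable {K : Type*} [Field K]

/-- constants in the dual numbers -/
noncomputable def ii : K →+* DualNumber K := TrivSqZeroExt.inlHom K K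

theorem ii_inj : Function.Injective (ii : K →+* DualNumber K) := fun x y h => TrivSqZeroExt.inl_injective h

/-- the first coordinate -/
noncomputable def pf : DualNumber K →+* K := (TrivSqZeroExt.fstHom K K K).toRingHom

theorem pf_apply (x : DualNumber K) : pf x = x.fst := rfl
theorem pf_ii (x : K) : pf (ii x) = x := rfl

/-- `v + ε u` -/
noncomputable def pa (v u : K[X]) : (DualNumber K)[X] := v.map ii + C DualNumber.eps * u.map ii

theorem pa_mul (v u : K[X]) : pa v u * pa v (-u) = (v ^ 2).map ii := by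
  unfold pa
  have h : (C DualNumber.eps : (DualNumber K)[X]) * C DualNumber.eps = 0 := by
    rw [← C_mul, DualNumber.eps_mul_eps, C_0]
  rw [Polynomial.map_neg, Polynomial.map_pow]
  linear_combination (-(u.map ii) * (u.map ii)) * h

theorem pa_map_pf (v u : K[X]) : (pa v u).map pf = v := by
  unfold pa
  rw [Polynomial.map_add, Polynomial.map_mul, map_C, Polynomial.map_map, Polynomial.map_map]
  have h1 : (pf.comp ii : K →+* K) = RingHom.id K := by ext x; rfl
  have h2 : pf (DualNumber.eps : DualNumber K) = 0 := rfl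
  rw [h1, h2, Polynomial.map_id, C_0, zero_mul, add_zero]

theorem natDegree_map_ii (f : K[X]) : (f.map ii).natDegree = f.natDegree :=
  natDegree_map_eq_of_injective ii_inj f

theorem pa_natDegree_le {v u : K[X]} {m : ℕ} (hv : v.natDegree ≤ m) (hu : u.natDegree ≤ m) :
    (pa v u).natDegree ≤ m := by
  unfold pa
  refine (natDegree_add_le _ _).trans (max_le ?_ ?_)
  · rw [natDegree_map_ii]; exact hv
  · exact (natDegree_C_mul_le _ _).trans (by rw [natDegree_map_ii]; exact hu)

theorem pa_monic {v u : K[X]} (hv : v.Monic) (hu : u.degree < v.degree) :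
    (pa v u).Monic ∧ (pa v u).natDegree = v.natDegree := by
  have h1 : (v.map ii).Monic := hv.map ii
  have h2 : (C DualNumber.eps * u.map ii : (DualNumber K)[X]).degree < (v.map ii).degree := by
    have h3 : (C DualNumber.eps * u.map ii : (DualNumber K)[X]).degree ≤ (u.map ii).degree := by
      refine (degree_mul_le _ _).trans ?_
      calc _ ≤ 0 + (u.map ii).degree := by gcongr; exact degree_C_le
        _ = _ := zero_add _
    refine lt_of_le_of_lt h3 ?_
    rw [degree_map_eq_of_injective ii_inj, degree_map_eq_of_injective ii_inj]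
    exact hu
  unfold pa
  refine ⟨h1.add_of_left h2, ?_⟩
  rw [natDegree_add_eq_left_of_degree_lt h2, natDegree_map_ii]

/-- the resultant with `v + ε u` -/
noncomputable def NN (v u : K[X]) (m : ℕ) (f : K[X]) : DualNumber K :=
  resultant (pa v u) (f.map ii) m f.natDegree

/-- the logarithmic derivative of a dual number -/
noncomputable def lg (x : DualNumber K) : K := x.snd / x.fst

theorem lg_mul {x y : DualNumber K} (hx : x.fst ≠ 0) (hy : y.fst ≠ 0) : lg (x * y) = lg x + lg y := by
  unfold lg
  rw [TrivSqZeroExt.snd_mul, TrivSqZeroExt.fst_mul]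
  simp only [smul_eq_mul, MulOpposite.smul_eq_mul_unop, MulOpposite.unop_op]
  field_simp
  ring

theorem lg_one : lg (1 : DualNumber K) = 0 := by
  unfold lg
  simp

theorem fst_NN {v u : K[X]} {m : ℕ} (f : K[X]) : (NN v u m f).fst = resultant v f m f.natDegree := by
  unfold NN
  rw [← pf_apply, ← resultant_map_map, pa_map_pf, Polynomial.map_map]
  have h1 : (pf.comp ii : K →+* K) = RingHom.id K := by ext x; rfl
  rw [h1, Polynomial.map_id]

theorem NN_mul {v u : K[X]} {m : ℕ} (hm : (pa v u).natDegree ≤ m) {f g : K[X]} (hf : f ≠ 0) (hg : g ≠ 0) :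
    NN v u m (f * g) = NN v u m f * NN v u m g := by
  unfold NN
  rw [natDegree_mul hf hg, Polynomial.map_mul]
  have := resultant_mul_right (pa v u) (f.map ii) (g.map ii) m hm
  rw [natDegree_map_ii, natDegree_map_ii] at this
  exact this

theorem NN_one {v u : K[X]} {m : ℕ} : NN v u m 1 = 1 := by
  unfold NN
  rw [natDegree_one, Polynomial.map_one]
  simp

theorem NN_X_sub_C {v u : K[X]} {m : ℕ} (hm : (pa v u).natDegree ≤ m) (α : K) :
    NN v u m (X - C α) = (-1) ^ m * (ii (v.eval α) + DualNumber.eps * ii (u.eval α)) := by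
  unfold NN
  rw [natDegree_X_sub_C, Polynomial.map_sub, map_X, map_C, resultant_X_sub_C_right _ _ _ hm]
  congr 1
  unfold pa
  rw [eval_add, eval_mul, eval_C, eval_map_apply, eval_map_apply]

theorem lg_lin {x y : K} (m : ℕ) (hx : x ≠ 0) :
    ((-1) ^ m * (ii x + DualNumber.eps * ii y) : DualNumber K).fst ≠ 0 ∧
      lg ((-1) ^ m * (ii x + DualNumber.eps * ii y) : DualNumber K) = y / x := by
  have h1 : (ii x + DualNumber.eps * ii y : DualNumber K).fst = x := by
    rw [← pf_apply, map_add, map_mul, pf_ii, pf_ii]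
    have h2 : pf (DualNumber.eps : DualNumber K) = 0 := rfl
    rw [h2, zero_mul, add_zero]
  have h2 : (ii x + DualNumber.eps * ii y : DualNumber K).snd = y := by
    rw [TrivSqZeroExt.snd_add, TrivSqZeroExt.snd_mul]
    have e1 : (ii x : DualNumber K).snd = 0 := rfl
    have e2 : (ii y : DualNumber K).snd = 0 := rfl
    have e3 : (ii y : DualNumber K).fst = y := rfl
    rw [e1, e2, e3, DualNumber.snd_eps]
    simp
  have h3 : ((-1) ^ m : DualNumber K).fst = (-1) ^ m := by
    rw [← pf_apply, map_pow, map_neg, map_one]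
  have h4 : ((-1) ^ m : DualNumber K).snd = 0 := by
    rcases neg_one_pow_eq_or (DualNumber K) m with h | h <;> rw [h] <;> simp
  have h5 : ((-1 : K)) ^ m ≠ 0 := pow_ne_zero _ (neg_ne_zero.2 one_ne_zero)
  refine ⟨?_, ?_⟩
  · rw [TrivSqZeroExt.fst_mul, h1, h3]
    exact mul_ne_zero h5 hx
  · rw [lg_mul (by rw [h3]; exact h5) (by rw [h1]; exact hx)]
    unfold lg
    rw [h4, h1, h2, zero_div, zero_add]

theorem lg_NN_prod {v u : K[X]} {m : ℕ} (hm : (pa v u).natDegree ≤ m) (S : Finset K)
    (hS : ∀ α ∈ S, v.eval α ≠ 0) : (NN v u m (∏ α ∈ S, (X - C α))).fst ≠ 0 ∧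
      lg (NN v u m (∏ α ∈ S, (X - C α))) = ∑ α ∈ S, u.eval α / v.eval α := by
  classical
  induction S using Finset.induction_on with
  | empty =>
    rw [prod_empty, sum_empty, NN_one, lg_one]
    exact ⟨by simp, rfl⟩
  | insert a S ha ih =>
    obtain ⟨h1, h2⟩ := ih (fun α hα => hS α (mem_insert_of_mem hα))
    rw [prod_insert ha, sum_insert ha, NN_mul hm (X_sub_C_ne_zero a) (prod_ne_zero_iff.2 (fun α _ => X_sub_C_ne_zero α)),
      NN_X_sub_C hm]
    obtain ⟨h3, h4⟩ := lg_lin (y := u.eval a) m (hS a (mem_insert_self _ _))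
    refine ⟨?_, ?_⟩
    · rw [TrivSqZeroExt.fst_mul]
      exact mul_ne_zero h3 h1
    · rw [lg_mul h3 h1, h4, h2]

end dual

section maps
variable {K L : Type*} [Field K] [Field L] (φ : K →+* L)

/-- base change of the dual numbers -/
noncomputable def dm : DualNumber K →+* DualNumber L where
  toFun x := TrivSqZeroExt.inl (φ x.fst) + TrivSqZeroExt.inr (φ x.snd)
  map_one' := by
    apply TrivSqZeroExt.ext <;> simp
  map_mul' x y := by
    apply TrivSqZeroExt.ext <;> simp
  map_zero' := by
    apply TrivSqZeroExt.ext <;> simp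
  map_add' x y := by
    apply TrivSqZeroExt.ext <;> simp

theorem dm_fst (x : DualNumber K) : (dm φ x).fst = φ x.fst := by
  change (TrivSqZeroExt.inl (φ x.fst) + TrivSqZeroExt.inr (φ x.snd) : DualNumber L).fst = _
  simp

theorem dm_snd (x : DualNumber K) : (dm φ x).snd = φ x.snd := by
  change (TrivSqZeroExt.inl (φ x.fst) + TrivSqZeroExt.inr (φ x.snd) : DualNumber L).snd = _
  simp

theorem dm_lg (x : DualNumber K) : lg (dm φ x) = φ (lg x) := by
  unfold lg
  rw [dm_fst, dm_snd, map_div₀]

theorem dm_ii : (dm φ).comp ii = (ii : L →+* DualNumber L).comp φ := by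
  ext x
  · change (dm φ (ii x)).fst = _
    rw [dm_fst]
    rfl
  · change (dm φ (ii x)).snd = _
    rw [dm_snd]
    have : (ii x : DualNumber K).snd = 0 := rfl
    rw [this, map_zero]
    rfl

theorem dm_eps : dm φ (DualNumber.eps : DualNumber K) = DualNumber.eps := by
  apply TrivSqZeroExt.ext
  · rw [dm_fst, DualNumber.fst_eps, DualNumber.fst_eps, map_zero]
  · rw [dm_snd, DualNumber.snd_eps, DualNumber.snd_eps, map_one]

theorem dm_pa (v u : K[X]) : (pa v u).map (dm φ) = pa (v.map φ) (u.map φ) := by
  unfold pa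
  rw [Polynomial.map_add, Polynomial.map_mul, map_C, dm_eps, Polynomial.map_map, Polynomial.map_map, dm_ii,
    Polynomial.map_map, Polynomial.map_map]

theorem dm_NN (v u : K[X]) (m : ℕ) (f : K[X]) : dm φ (NN v u m f) = NN (v.map φ) (u.map φ) m (f.map φ) := by
  unfold NN
  rw [← resultant_map_map, dm_pa, Polynomial.map_map, dm_ii, Polynomial.map_map, natDegree_map]

end maps

end Pool.Agent.H456.RN
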