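import Pool.Agent.H456.RN.AS

/-!
# Artin-Schreier symbols are Hayes characters, continued
-/

set_option autoImplicit false
set_option linter.all false
set_option maxHeartbeats 1000000

open Finset Polynomial ComplexConjugate
open Pool.Agent.Q284.PS Pool.Agent.Q53.PS Pool.Agent.Q68.PS

namespace Pool.Agent.H456.RN

section trace
variable {F : Type} [Field F]

theorem roots_prod {L : Type} [Field L] [DecidableEq L] {p : L[X]} (hp : p.Monic) (hs : p.Splits) (hsep : p.Separable) :
    p = ∏ α ∈ p.roots.toFinset, (X - C α) := by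
  have h1 := hs.eq_prod_roots
  rw [hp.leadingCoeff, C_1, one_mul] at h1
  have h2 : p.roots.toFinset.val = p.roots := by
    rw [Multiset.toFinset_val, Multiset.dedup_eq_self.2 (nodup_roots hsep)]
  conv_lhs => rw [h1]
  change (Multiset.map (fun x => X - C x) p.roots).prod = (Multiset.map (fun x => X - C x) p.roots.toFinset.val).prod
  rw [h2]

theorem lg_eq_trace [Fintype F] {P : F[X]} (hPm : P.Monic) [hi : Fact (Irreducible P)] {v u : F[X]} (hv : ¬ P ∣ v)
    {m : ℕ} (hm : (pa v u).natDegree ≤ m) :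
    lg (NN v u m P) = Algebra.trace F (AdjoinRoot P) (AdjoinRoot.mk P u / AdjoinRoot.mk P v) := by
  classical
  set Ω := AlgebraicClosure F
  have hirr := hi.out
  haveI := fin_adj P hirr
  haveI : FiniteDimensional F (AdjoinRoot P) := (AdjoinRoot.powerBasis hirr.ne_zero).finite
  set φ : F →+* Ω := algebraMap F Ω with hφ
  apply φ.injective
  have hPm' : (P.map φ).Monic := hPm.map φ
  have hsep : (P.map φ).Separable := (PerfectField.separable_of_irreducible hirr).map
  have hsplit : (P.map φ).Splits := IsAlgClosed.splits _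
  have hprod := roots_prod hPm' hsplit hsep
  have hroot : ∀ α ∈ (P.map φ).roots.toFinset, (v.map φ).eval α ≠ 0 := by
    intro α hα h0
    rw [Multiset.mem_toFinset, mem_roots hPm'.ne_zero] at hα
    have hcop : IsCoprime P v := (hirr.coprime_iff_not_dvd).2 hv
    obtain ⟨x, y, hxy⟩ := hcop
    have h1 := congrArg (fun p => (p.map φ).eval α) hxy
    simp only [Polynomial.map_add, Polynomial.map_mul, Polynomial.map_one, eval_add, eval_mul, eval_one] at h1
    rw [hα.eq_zero, h0, mul_zero, mul_zero, add_zero] at h1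
    exact zero_ne_one h1
  have hm' : (pa (v.map φ) (u.map φ)).natDegree ≤ m := by
    rw [← dm_pa]
    exact natDegree_map_le.trans hm
  have h1 := (lg_NN_prod hm' _ hroot).2
  rw [← hprod, ← dm_NN, dm_lg] at h1
  rw [h1]
  rw [hφ, trace_eq_sum_embeddings Ω]
  have h2 : ∀ σ : AdjoinRoot P →ₐ[F] Ω, σ (AdjoinRoot.mk P u / AdjoinRoot.mk P v) =
      (u.map φ).eval (σ (AdjoinRoot.root P)) / (v.map φ).eval (σ (AdjoinRoot.root P)) := by
    intro σ
    have h3 : ∀ g : F[X], σ (AdjoinRoot.mk P g) = (g.map φ).eval (σ (AdjoinRoot.root P)) := by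
      intro g
      rw [← AdjoinRoot.aeval_eq, ← aeval_algHom_apply, eval_map, aeval_def]
    rw [map_div₀, h3, h3]
  rw [sum_congr rfl (fun σ _ => h2 σ)]
  symm
  have h4 : (P.map φ).roots.toFinset = (univ : Finset (AdjoinRoot P →ₐ[F] Ω)).image (fun σ => σ (AdjoinRoot.root P)) := by
    ext α
    rw [Multiset.mem_toFinset, mem_image, mem_roots hPm'.ne_zero]
    constructor
    · intro h
      have h5 : eval₂ φ α P = 0 := by rw [← eval_map]; exact h
      exact ⟨AdjoinRoot.liftAlgHom P (Algebra.ofId F Ω) α h5, mem_univ _, AdjoinRoot.liftAlgHom_root _ _ _ _⟩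
    · rintro ⟨σ, _, rfl⟩
      rw [IsRoot, eval_map, ← aeval_def, aeval_algHom_apply]
      rw [AdjoinRoot.aeval_eq, AdjoinRoot.mk_self, map_zero]
  rw [h4, sum_image]
  intro σ _ τ _ h
  exact AdjoinRoot.algHom_ext h

end trace

section chars
variable {F : Type} [Field F]

/-- the symbol attached to the additive character `ψ` and the fraction `u / v` -/
noncomputable def asf (ψ : AddChar F ℂ) (v u : F[X]) (m : ℕ) (f : F[X]) : ℂ :=
  (open Classical in if f.Monic ∧ IsCoprime f v then ψ (lg (NN v u m f)) else 0)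

theorem fst_NN_ne {v u : F[X]} {m : ℕ} (hm : m = v.natDegree) {f : F[X]} (hc : IsCoprime f v) :
    (NN v u m f).fst ≠ 0 := by
  rw [fst_NN, hm]
  exact resultant_ne_zero v f hc.symm

theorem pa_dvd {v u f g : F[X]} (h : v ^ 2 ∣ f - g) : pa v u ∣ f.map ii - g.map ii := by
  obtain ⟨c, hc⟩ := h
  refine ⟨pa v (-u) * c.map ii, ?_⟩
  rw [← mul_assoc, pa_mul, ← Polynomial.map_sub, hc, Polynomial.map_mul]

theorem NN_congr_fin {v u : F[X]} (hv : v.Monic) (hu : u.degree < v.degree) {f g : F[X]} (h : v ^ 2 ∣ f - g) :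
    NN v u v.natDegree f = NN v u v.natDegree g := by
  obtain ⟨hpm, hpd⟩ := pa_monic hv hu
  have h6 := rs_congr hpm (pa_dvd (u := u) h)
  rw [natDegree_map_ii, natDegree_map_ii, hpd] at h6
  exact h6

theorem coprime_congr {f g v : F[X]} (h : v ∣ f - g) (hf : IsCoprime f v) : IsCoprime g v := by
  obtain ⟨c, hc⟩ := h
  have h1 : g = f + v * (-c) := by linear_combination -hc
  rw [h1]
  exact IsCoprime.add_mul_left_left hf _

/-- the finite part -/
theorem hay_asf_fin [Finite F] (ψ : AddChar F ℂ) {v u : F[X]} (hv : v.Monic) (hu : u.degree < v.degree) :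
    Hay (v ^ 2) 0 (asf ψ v u v.natDegree) := by
  classical
  obtain ⟨hpm, hpd⟩ := pa_monic hv hu
  have hm : (pa v u).natDegree ≤ v.natDegree := hpd.le
  have hc2 : ∀ f : F[X], IsCoprime f (v ^ 2) ↔ IsCoprime f v := fun f => IsCoprime.pow_right_iff (by norm_num)
  refine ⟨hv.pow 2, ?_, ?_, ?_, ?_, ?_, ?_⟩
  · intro f hf
    unfold asf
    rw [if_neg (fun h => hf h.1)]
  · unfold asf
    rw [if_pos ⟨monic_one, isCoprime_one_left⟩, NN_one, lg_one, AddChar.map_zero_eq_one]
  · intro f g hf hg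
    unfold asf
    by_cases h1 : IsCoprime f v
    · by_cases h2 : IsCoprime g v
      · rw [if_pos (⟨hf.mul hg, h1.mul_left h2⟩ : (f * g).Monic ∧ IsCoprime (f * g) v),
          if_pos (⟨hf, h1⟩ : f.Monic ∧ IsCoprime f v), if_pos (⟨hg, h2⟩ : g.Monic ∧ IsCoprime g v),
          NN_mul hm hf.ne_zero hg.ne_zero, lg_mul (fst_NN_ne rfl h1) (fst_NN_ne rfl h2),
          AddChar.map_add_eq_mul]
      · rw [if_neg (fun h : g.Monic ∧ IsCoprime g v => h2 h.2), mul_zero,
          if_neg (fun h : (f * g).Monic ∧ IsCoprime (f * g) v => h2 h.2.of_mul_left_right)]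
    · rw [if_neg (fun h : f.Monic ∧ IsCoprime f v => h1 h.2), zero_mul,
        if_neg (fun h : (f * g).Monic ∧ IsCoprime (f * g) v => h1 h.2.of_mul_left_left)]
  · intro f hf hc
    unfold asf
    rw [if_pos ⟨hf, (hc2 f).1 hc⟩]
    exact AddChar.norm_apply _ _
  · intro f hf hc
    unfold asf
    rw [if_neg (fun h => hc ((hc2 f).2 h.2))]
  · intro f g hf hg h1 _
    have hv1 : v ∣ f - g := (dvd_pow_self v (by norm_num)).trans h1
    unfold asf
    by_cases h2 : IsCoprime f v
    · have h3 : IsCoprime g v := coprime_congr hv1 h2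
      rw [if_pos ⟨hf, h2⟩, if_pos ⟨hg, h3⟩]
      rw [NN_congr_fin hv hu h1]
    · rw [if_neg (fun h => h2 h.2), if_neg]
      intro h
      apply h2
      apply coprime_congr _ h.2
      rw [← dvd_neg, neg_sub]
      exact hv1

theorem NN_X_pow_mul {W : F[X]} {l : ℕ} (hW : W.natDegree ≤ l) (hW0 : W.coeff 0 = 0) {f : F[X]}
    (hf : f ≠ 0) (e : ℕ) : (NN 1 W l (X ^ e * f)).fst ≠ 0 ∧ lg (NN 1 W l (X ^ e * f)) = lg (NN 1 W l f) := by
  have hm : (pa (1 : F[X]) W).natDegree ≤ l := pa_natDegree_le (by rw [natDegree_one]; omega) hW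
  have hfst : ∀ g : F[X], g ≠ 0 → (NN 1 W l g).fst ≠ 0 := by
    intro g hg
    rw [fst_NN, resultant_one_left]
    apply mul_ne_zero (pow_ne_zero _ (neg_ne_zero.2 one_ne_zero))
    exact pow_ne_zero _ (leadingCoeff_ne_zero.2 hg)
  refine ⟨hfst _ (mul_ne_zero (pow_ne_zero e X_ne_zero) hf), ?_⟩
  have hX : lg (NN 1 W l X) = 0 := by
    have h1 : (X : F[X]) = X - C 0 := by rw [C_0, sub_zero]
    rw [h1, NN_X_sub_C hm]
    have h2 := (lg_lin (K := F) (x := (1 : F[X]).eval 0) (y := W.eval 0) l (by simp)).2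
    rw [h2]
    have h3 : W.eval 0 = 0 := by rw [← coeff_zero_eq_eval_zero]; exact hW0
    rw [h3, zero_div]
  induction e with
  | zero => rw [pow_zero, one_mul]
  | succ e ih =>
    rw [pow_succ', mul_assoc, NN_mul hm X_ne_zero (mul_ne_zero (pow_ne_zero e X_ne_zero) hf),
      lg_mul (hfst _ X_ne_zero) (hfst _ (mul_ne_zero (pow_ne_zero e X_ne_zero) hf)), hX, zero_add, ih]

theorem NN_congr_inf {W : F[X]} {l n : ℕ} (hW : W.natDegree ≤ l) {f g : F[X]}
    (hf : f.natDegree = n) (hg : g.natDegree = n) (h : f = g ∨ (f - g).natDegree + 2 * l ≤ n) :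
    NN 1 W l f = NN 1 W l g := by
  have hm : (pa (1 : F[X]) W).natDegree ≤ l := pa_natDegree_le (by rw [natDegree_one]; omega) hW
  have hm' : (pa (1 : F[X]) (-W)).natDegree ≤ l :=
    pa_natDegree_le (by rw [natDegree_one]; omega) (by rw [natDegree_neg]; exact hW)
  rcases h with h | h
  · rw [h]
  · unfold NN
    rw [hf, hg]
    have h1 : f.map ii = g.map ii + pa 1 W * (pa 1 (-W) * (f - g).map ii) := by
      rw [← mul_assoc, pa_mul, one_pow, Polynomial.map_one, one_mul, Polynomial.map_sub]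
      ring
    rw [h1, resultant_add_mul_right _ _ _ _ _ ?_ hm]
    have h2 : (pa (1 : F[X]) (-W) * (f - g).map ii).natDegree ≤ l + (f - g).natDegree := by
      refine natDegree_mul_le.trans ?_
      rw [natDegree_map_ii]
      omega
    omega

theorem sub_degree_of_reverse {f g : F[X]} {n L : ℕ} (hf : f.natDegree = n) (hg : g.natDegree = n)
    (h : X ^ (L + 1) ∣ f.reverse - g.reverse) : (f - g).degree < ((n - L : ℕ) : WithBot ℕ) := by
  rw [X_pow_dvd_iff] at h
  rw [degree_lt_iff_coeff_zero]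
  intro m hm
  by_cases h1 : n < m
  · rw [coeff_sub, coeff_eq_zero_of_natDegree_lt (by omega), coeff_eq_zero_of_natDegree_lt (by omega), sub_zero]
  · have h2 := h (n - m) (by omega)
    rw [coeff_sub, coeff_reverse, coeff_reverse, hf, hg, revAt_le (by omega)] at h2
    rw [coeff_sub]
    have h3 : n - (n - m) = m := by omega
    rw [h3] at h2
    exact h2

theorem lg_congr_inf {W : F[X]} {l : ℕ} (hW : W.natDegree ≤ l) (hW0 : W.coeff 0 = 0) {f g : F[X]}
    (hf : f.Monic) (hg : g.Monic) (hle : f.natDegree ≤ g.natDegree)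
    (h : X ^ (2 * l - 1 + 1) ∣ f.reverse - g.reverse) :
    lg (NN 1 W l f) = lg (NN 1 W l g) := by
  set e := g.natDegree - f.natDegree with he
  rw [← (NN_X_pow_mul hW hW0 hf.ne_zero e).2]
  congr 1
  have h1 : (X ^ e * f).natDegree = g.natDegree := by
    rw [(monic_X_pow e).natDegree_mul hf, natDegree_X_pow]
    omega
  have h2 : (X ^ e * f).reverse = f.reverse := by
    rw [mul_comm, reverse_mul_X_pow]
  have h3 := sub_degree_of_reverse (L := 2 * l - 1) h1 rfl (by rw [h2]; exact h)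
  apply NN_congr_inf hW h1 rfl
  by_cases h0 : X ^ e * f - g = 0
  · exact Or.inl (sub_eq_zero.1 h0)
  · right
    rw [degree_eq_natDegree h0] at h3
    have h4 : (X ^ e * f - g).natDegree < g.natDegree - (2 * l - 1) := by exact_mod_cast h3
    omega

/-- the part at infinity -/
theorem hay_asf_inf [Finite F] (ψ : AddChar F ℂ) {W : F[X]} {l : ℕ} (hW : W.natDegree ≤ l) (hW0 : W.coeff 0 = 0) :
    Hay 1 (2 * l - 1) (asf ψ 1 W l) := by
  classical
  have hm : (pa (1 : F[X]) W).natDegree ≤ l := pa_natDegree_le (by rw [natDegree_one]; omega) hW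
  have hfst : ∀ g : F[X], g ≠ 0 → (NN 1 W l g).fst ≠ 0 := by
    intro g hg
    have := (NN_X_pow_mul hW hW0 hg 0).1
    rwa [pow_zero, one_mul] at this
  refine ⟨monic_one, ?_, ?_, ?_, ?_, ?_, ?_⟩
  · intro f hf
    unfold asf
    rw [if_neg (fun h => hf h.1)]
  · unfold asf
    rw [if_pos ⟨monic_one, isCoprime_one_left⟩, NN_one, lg_one, AddChar.map_zero_eq_one]
  · intro f g hf hg
    unfold asf
    rw [if_pos (⟨hf.mul hg, isCoprime_one_right⟩ : (f * g).Monic ∧ IsCoprime (f * g) 1),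
      if_pos (⟨hf, isCoprime_one_right⟩ : f.Monic ∧ IsCoprime f 1),
      if_pos (⟨hg, isCoprime_one_right⟩ : g.Monic ∧ IsCoprime g 1),
      NN_mul hm hf.ne_zero hg.ne_zero, lg_mul (hfst f hf.ne_zero) (hfst g hg.ne_zero), AddChar.map_add_eq_mul]
  · intro f hf _
    unfold asf
    rw [if_pos ⟨hf, isCoprime_one_right⟩]
    exact AddChar.norm_apply _ _
  · intro f hf hc
    exact absurd isCoprime_one_right hc
  · intro f g hf hg _ h
    unfold asf
    rw [if_pos ⟨hf, isCoprime_one_right⟩, if_pos ⟨hg, isCoprime_one_right⟩]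
    congr 1
    rcases le_total f.natDegree g.natDegree with h1 | h1
    · exact lg_congr_inf hW hW0 hf hg h1 h
    · symm
      apply lg_congr_inf hW hW0 hg hf h1
      rw [← dvd_neg, neg_sub]
      exact h

end chars

end Pool.Agent.H456.RN
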