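import Pool.Agent.H456.RN.AS2

/-!
# Characteristic two: the symbol of a fraction
-/

set_option autoImplicit false
set_option linter.all false
set_option maxHeartbeats 1000000

open Finset Polynomial ComplexConjugate
open Pool.Agent.Q284.PS Pool.Agent.Q53.PS Pool.Agent.Q68.PS

namespace Pool.Agent.H456.RN

section wp
variable (K : Type) [Field K] [CharP K 2]

/-- `z ↦ z² + z` -/
def wp : K →+ K where
  toFun z := z ^ 2 + z
  map_zero' := by ring
  map_add' x y := by
    haveI : Fact (Nat.Prime 2) := ⟨Nat.prime_two⟩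
    rw [add_pow_char x y (p := 2)]
    ring

theorem mem_wp {x : K} : x ∈ (wp K).range ↔ ∃ z : K, z ^ 2 + z = x := Iff.rfl

theorem index_wp [Finite K] : (wp K).range.index = 2 := by
  classical
  have h2 : (2 : K) = 0 := CharTwo.two_eq_zero
  have hker : ((wp K).ker : Set K) = {0, 1} := by
    ext z
    rw [SetLike.mem_coe, AddMonoidHom.mem_ker]
    change z ^ 2 + z = 0 ↔ _
    rw [Set.mem_insert_iff, Set.mem_singleton_iff]
    constructor
    · intro h
      have h3 : z * (z - 1) = 0 := by linear_combination h - z * h2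
      rcases mul_eq_zero.1 h3 with h4 | h4
      · exact Or.inl h4
      · exact Or.inr (sub_eq_zero.1 h4)
    · rintro (h | h)
      · rw [h]; ring
      · rw [h]; linear_combination h2
  have hkc : Nat.card (wp K).ker = 2 := by
    have h3 : Nat.card (wp K).ker = Nat.card ((wp K).ker : Set K) := rfl
    rw [h3, hker, Nat.card_coe_set_eq, Set.ncard_pair zero_ne_one]
  have h3 := (wp K).ker.card_mul_index
  rw [hkc, AddSubgroup.index_ker] at h3
  have h4 := (wp K).range.card_mul_index
  have h5 : 0 < Nat.card K := Nat.card_pos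
  have h6 : Nat.card (wp K).range * (wp K).range.index = Nat.card (wp K).range * 2 := by
    rw [h4, ← h3]; ring
  have h7 : 0 < Nat.card (wp K).range := Nat.card_pos
  exact Nat.eq_of_mul_eq_mul_left h7 h6

open Classical in
/-- the nontrivial character of `K` which is trivial on the `z² + z` -/
noncomputable def psi [Finite K] : AddChar K ℂ where
  toFun x := if x ∈ (wp K).range then 1 else -1
  map_zero_eq_one' := if_pos (AddSubgroup.zero_mem _)
  map_add_eq_mul' x y := by
    have h := AddSubgroup.add_mem_iff_of_index_two (index_wp K) (a := x) (b := y)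
    by_cases hx : x ∈ (wp K).range
    · by_cases hy : y ∈ (wp K).range
      · rw [if_pos hx, if_pos hy, if_pos (h.2 (iff_of_true hx hy))]; ring
      · rw [if_pos hx, if_neg hy, if_neg (fun h' => hy ((h.1 h').1 hx))]; ring
    · by_cases hy : y ∈ (wp K).range
      · rw [if_neg hx, if_pos hy, if_neg (fun h' => hx ((h.1 h').2 hy))]; ring
      · rw [if_neg hx, if_neg hy, if_pos (h.2 (iff_of_false hx hy))]; ring

theorem psi_apply [Finite K] (x : K) : psi K x = (open Classical in if ∃ z : K, z ^ 2 + z = x then 1 else -1) := by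
  classical
  change (if x ∈ (wp K).range then (1 : ℂ) else -1) = _
  by_cases h : x ∈ (wp K).range
  · rw [if_pos h, if_pos ((mem_wp K).1 h)]
  · rw [if_neg h, if_neg (fun h' => h ((mem_wp K).2 h'))]

end wp

section tr
variable {F k : Type} [Field F] [Field k] [CharP F 2] [CharP k 2] [Finite F] [Finite k] [Algebra F k]

theorem trace_sq (z : k) : Algebra.trace F k (z ^ 2) = (Algebra.trace F k z) ^ 2 := by
  classical
  haveI : Fact (Nat.Prime 2) := ⟨Nat.prime_two⟩
  haveI : FiniteDimensional F k := Module.Finite.of_finite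
  set Ω := AlgebraicClosure F
  haveI : CharP Ω 2 := charP_of_injective_algebraMap (algebraMap F Ω).injective 2
  apply (algebraMap F Ω).injective
  have h1 : (algebraMap F Ω) (Algebra.trace F k (z ^ 2)) = ∑ σ : k →ₐ[F] Ω, (σ z) ^ 2 := by
    rw [trace_eq_sum_embeddings Ω]
    refine sum_congr rfl fun σ _ => ?_
    rw [map_pow]
  have h2 : (algebraMap F Ω) ((Algebra.trace F k z) ^ 2) = (∑ σ : k →ₐ[F] Ω, σ z) ^ 2 := by
    rw [map_pow (algebraMap F Ω), trace_eq_sum_embeddings Ω]
  rw [h1, h2, sum_pow_char 2]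

theorem as_trace (y : k) : (∃ z : k, z ^ 2 + z = y) ↔ ∃ w : F, w ^ 2 + w = Algebra.trace F k y := by
  haveI : FiniteDimensional F k := Module.Finite.of_finite
  have hsurj : Function.Surjective (Algebra.trace F k) := Algebra.trace_surjective F k
  let t : k →+ F := (Algebra.trace F k).toAddMonoidHom
  have ht : Function.Surjective t := hsurj
  have hle : (wp k).range ≤ (wp F).range.comap t := by
    rintro x ⟨z, rfl⟩
    rw [AddSubgroup.mem_comap]
    refine ⟨Algebra.trace F k z, ?_⟩
    change (Algebra.trace F k z) ^ 2 + Algebra.trace F k z = Algebra.trace F k (z ^ 2 + z)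
    rw [map_add, trace_sq]
  have h1 : ((wp F).range.comap t).index = 2 := by
    rw [AddSubgroup.index_comap_of_surjective _ ht, index_wp]
  have h2 := index_wp k
  have h3 : (wp k).range = (wp F).range.comap t := by
    apply AddSubgroup.eq_of_le_of_card_ge hle
    have e1 := (wp k).range.card_mul_index
    have e2 := ((wp F).range.comap t).card_mul_index
    rw [h2] at e1
    rw [h1] at e2
    omega
  constructor
  · intro h
    have h4 : y ∈ (wp k).range := h
    rw [h3] at h4
    exact h4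
  · intro h
    have h4 : y ∈ (wp F).range.comap t := h
    rw [← h3] at h4
    exact h4

end tr

section combine
variable {F : Type} [Field F]

open Classical in
/-- the Artin-Schreier symbol of `U / a³` modulo `P` -/
noncomputable def asy (a U P : F[X]) : ℂ := if ∃ z : F[X], P ∣ a ^ 3 * (z ^ 2 + z) - U then 1 else -1

variable [Fintype F] [CharP F 2]

theorem asy_eq {a U P : F[X]} [hi : Fact (Irreducible P)] (ha : ¬ P ∣ a) :
    asy a U P = psi F (Algebra.trace F (AdjoinRoot P) (AdjoinRoot.mk P U / AdjoinRoot.mk P (a ^ 3))) := by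
  classical
  haveI := fin_adj P hi.out
  haveI : CharP (AdjoinRoot P) 2 := charP_of_injective_algebraMap (algebraMap F (AdjoinRoot P)).injective 2
  have h0 : AdjoinRoot.mk P (a ^ 3) ≠ 0 := by
    intro h
    rw [AdjoinRoot.mk_eq_zero] at h
    exact ha (hi.out.prime.dvd_of_dvd_pow h)
  have h1 : (∃ z : F[X], P ∣ a ^ 3 * (z ^ 2 + z) - U) ↔
      ∃ z : AdjoinRoot P, z ^ 2 + z = AdjoinRoot.mk P U / AdjoinRoot.mk P (a ^ 3) := by
    constructor
    · rintro ⟨z, hz⟩
      refine ⟨AdjoinRoot.mk P z, ?_⟩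
      rw [eq_div_iff h0]
      rw [← AdjoinRoot.mk_eq_mk, map_mul, map_add, map_pow] at hz
      rw [mul_comm]
      exact hz
    · rintro ⟨z, hz⟩
      obtain ⟨y, rfl⟩ := AdjoinRoot.mk_surjective z
      refine ⟨y, ?_⟩
      rw [eq_div_iff h0] at hz
      rw [← AdjoinRoot.mk_eq_mk, map_mul, map_add, map_pow (AdjoinRoot.mk P) y, mul_comm]
      exact hz
  rw [psi_apply]
  unfold asy
  by_cases h2 : ∃ z : F[X], P ∣ a ^ 3 * (z ^ 2 + z) - U
  · rw [if_pos h2, if_pos ((as_trace _).1 (h1.1 h2))]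
  · rw [if_neg h2, if_neg (fun h3 => h2 (h1.2 ((as_trace _).2 h3)))]

/-- **The Artin-Schreier symbol is a Hayes character.** -/
theorem exists_asy {a U : F[X]} (ha : a ≠ 0) {d : ℕ} (had : a.natDegree ≤ d) (hU : U.natDegree ≤ 3 * d) :
    ∃ (A : F[X]) (s : ℂ) (ρ : F[X] → ℂ), A.Monic ∧ a = C a.leadingCoeff * A ∧ ‖s‖ = 1 ∧
      Hay (A ^ 6) (6 * (d - a.natDegree) - 1) ρ ∧
      ∀ P : F[X], P.Monic → Irreducible P → ¬ P ∣ a → asy a U P = s ^ P.natDegree * ρ P := by
  classical
  set α := a.leadingCoeff with hα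
  have hα0 : α ≠ 0 := leadingCoeff_ne_zero.2 ha
  set A := C α⁻¹ * a with hA
  have hAm : A.Monic := by
    rw [Monic, hA, leadingCoeff_mul, leadingCoeff_C, ← hα, inv_mul_cancel₀ hα0]
  have haA : a = C α * A := by
    rw [hA, ← mul_assoc, ← C_mul, mul_inv_cancel₀ hα0, C_1, one_mul]
  have hdeg : A.natDegree = a.natDegree := by
    conv_rhs => rw [haA]
    rw [natDegree_C_mul hα0]
  set v := A ^ 3 with hv
  have hvm : v.Monic := hAm.pow 3
  have hvd : v.natDegree = 3 * a.natDegree := by rw [hv, natDegree_pow, hdeg]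
  set U' := C (α ^ 3)⁻¹ * U with hU'
  set Wf := U' /ₘ v with hWf
  set u := U' %ₘ v with hu
  have hUe : U' = u + v * Wf := (modByMonic_add_div U' v).symm
  have hud : u.degree < v.degree := degree_modByMonic_lt _ hvm
  set w0 := Wf.coeff 0 with hw0
  set W := Wf - C w0 with hW
  set l := 3 * (d - a.natDegree) with hl
  have hWd : W.natDegree ≤ l := by
    rw [hW, natDegree_sub_C, hWf, natDegree_divByMonic _ hvm, hvd]
    have : U'.natDegree ≤ 3 * d := (natDegree_C_mul_le _ _).trans hU
    omega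
  have hW0 : W.coeff 0 = 0 := by rw [hW, coeff_sub, coeff_C_zero, ← hw0, sub_self]
  have h1 := hay_asf_fin (psi F) hvm hud
  have h2 := hay_asf_inf (psi F) hWd hW0
  have hv2 : v ^ 2 = A ^ 6 := by rw [hv]; ring
  rw [hv2] at h1
  have hA6 : (A ^ 6).Monic := hAm.pow 6
  have h3 := hay_raise h1 hA6 dvd_rfl (Nat.zero_le (2 * l - 1))
  have h4 := hay_raise h2 hA6 (one_dvd _) (le_refl (2 * l - 1))
  have h5 := hay_mul h3 h4
  have hll : 2 * l - 1 = 6 * (d - a.natDegree) - 1 := by omega
  rw [hll] at h5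
  refine ⟨A, psi F w0, _, hAm, haA, AddChar.norm_apply _ _, h5, ?_⟩
  intro P hPm hi hPa
  haveI : Fact (Irreducible P) := ⟨hi⟩
  haveI := fin_adj P hi
  haveI : FiniteDimensional F (AdjoinRoot P) := Module.Finite.of_finite
  have hPA : ¬ P ∣ A := fun h => hPa (by rw [haA]; exact h.mul_left _)
  have hPv : ¬ P ∣ v := fun h => hPA (hi.prime.dvd_of_dvd_pow h)
  have hcop : IsCoprime P (A ^ 6) := ((hi.coprime_iff_not_dvd).2 hPA).pow_right
  have hcopv : IsCoprime P v := (hi.coprime_iff_not_dvd).2 hPv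
  beta_reduce
  rw [if_pos hcop, if_pos hcop]
  unfold asf
  rw [if_pos ⟨hPm, hcopv⟩, if_pos ⟨hPm, isCoprime_one_right⟩]
  rw [lg_eq_trace hPm hPv (pa_monic hvm hud).2.le,
    lg_eq_trace hPm (fun h => hi.not_isUnit (isUnit_of_dvd_one h))
      (pa_natDegree_le (by rw [natDegree_one]; omega) hWd)]
  rw [asy_eq hPa]
  have hmv : AdjoinRoot.mk P v ≠ 0 := fun h => hPv (AdjoinRoot.mk_eq_zero.1 h)
  have hma : AdjoinRoot.mk P (a ^ 3) ≠ 0 := by
    intro h
    rw [AdjoinRoot.mk_eq_zero] at h
    exact hPa (hi.prime.dvd_of_dvd_pow h)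
  have ha3 : a ^ 3 = C (α ^ 3) * v := by
    conv_lhs => rw [haA]
    rw [mul_pow, C_pow]
  have hUU : U = C (α ^ 3) * U' := by
    rw [hU', ← mul_assoc, ← C_mul, mul_inv_cancel₀ (pow_ne_zero 3 hα0), C_1, one_mul]
  have hCα : AdjoinRoot.mk P (C (α ^ 3)) ≠ 0 := by
    intro h
    rw [AdjoinRoot.mk_eq_zero] at h
    exact hi.not_isUnit (isUnit_of_dvd_unit h (isUnit_C.2 (isUnit_iff_ne_zero.2 (pow_ne_zero 3 hα0))))
  have e1 : AdjoinRoot.mk P U / AdjoinRoot.mk P (a ^ 3) =
      algebraMap F (AdjoinRoot P) w0 + (AdjoinRoot.mk P W / AdjoinRoot.mk P 1) +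
        AdjoinRoot.mk P u / AdjoinRoot.mk P v := by
    have e0 : AdjoinRoot.mk P U = AdjoinRoot.mk P (C (α ^ 3)) * AdjoinRoot.mk P U' := by
      rw [← map_mul, ← hUU]
    rw [e0, ha3, map_mul (AdjoinRoot.mk P) (C (α ^ 3)) v, mul_div_mul_left _ _ hCα, hUe, map_add, map_mul, map_one,
      div_one]
    have e2 : AdjoinRoot.mk P Wf = algebraMap F (AdjoinRoot P) w0 + AdjoinRoot.mk P W := by
      have e3 : Wf = C w0 + W := by rw [hW]; ring
      conv_lhs => rw [e3]
      rw [map_add]
      rfl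
    rw [e2]
    field_simp
    ring
  rw [e1, map_add (Algebra.trace F (AdjoinRoot P)), map_add (Algebra.trace F (AdjoinRoot P)),
    Algebra.trace_algebraMap, AddChar.map_add_eq_mul, AddChar.map_add_eq_mul]
  have hfin : Module.finrank F (AdjoinRoot P) = P.natDegree := (AdjoinRoot.powerBasis hi.ne_zero).finrank
  rw [hfin, AddChar.map_nsmul_eq_pow]
  ring

end combine

end Pool.Agent.H456.RN
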