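import Pool.Agent.H456.RN.Fam3

/-!
# Characteristic three: the sum over all three coefficients
-/

set_option autoImplicit false
set_option linter.all false
set_option maxHeartbeats 1000000

open Finset Polynomial ComplexConjugate
open Pool.Agent.H341R2.Sharp (Mon mem_Mon lam)
open Pool.Agent.Q284.PS Pool.Agent.Q53.PS Pool.Agent.Q68.PS

namespace Pool.Agent.H456.RN

variable {F : Type} [Field F] [Fintype F]

open Classical in
theorem total3 [CharP F 3] (ε : ℝ) (hε : 0 < ε) : ∃ C0 : ℝ, 0 < C0 ∧ ∀ (Mo : F[X]) (k N d : ℕ), Mo.Monic →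
    (∀ P : F[X], P.Monic → Irreducible P → P ∣ Mo → P ^ (k + 1) ∣ Mo) → k < N →
    N + Mo.natDegree ≤ 6 * d + 1 → ∀ G : F[X] → F[X] → F[X] → ℂ, (∀ a b c, ‖G a b c‖ ≤ 1) →
    (∀ a ∈ PL F (2 * d + 1), ∀ b ∈ PL F (4 * d + 1), ∀ c ∈ PL F (6 * d + 1),
      ∀ v ∈ PL F (6 * d + 1 - N - Mo.natDegree), G a b (c + Mo * v) = G a b c) →
    (∀ a ∈ PL F (2 * d + 1), ∀ b ∈ PL F (4 * d + 1), ∀ c ∈ PL F (6 * d + 1), G a b c ≠ 0 →
      a ≠ 0 ∧ Cond3 Mo k d a b c) →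
    ‖∑ a ∈ PL F (2 * d + 1), ∑ b ∈ PL F (4 * d + 1), ∑ c ∈ PL F (6 * d + 1),
      G a b c * WtM Mo (fun P => (leg P a : ℂ)) (disc3 a b c)‖ ≤
      ((Fintype.card F : ℝ) ^ (2 * d + 1) * (Fintype.card F : ℝ) ^ (N + Mo.natDegree)) *
      (((Fintype.card F : ℝ) * (Fintype.card F : ℝ) ^ (Mo.natDegree + 1) * (12 * d + 1)) *
      (√(((Fintype.card F ^ (4 * d + 1) : ℕ) : ℝ) * (Fintype.card F ^ ((8 * d + 3) / 3) : ℕ)) *
      (C0 * √(Fintype.card F : ℝ) ^ (12 * d) * Real.exp (ε * (2 * (12 * d) : ℕ))))) := by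
  obtain ⟨C0, hC0, hfam⟩ := fam3 (F := F) ε hε
  refine ⟨C0, hC0, ?_⟩
  intro Mo k N d hMo hk hkN hNd G hG1 hGinv hGc
  set q : ℝ := (Fintype.card F : ℝ) with hq
  have hq1 : 1 ≤ q := by
    rw [hq]
    exact_mod_cast Fintype.card_pos (α := F)
  have hq0 : 0 < q := by linarith
  set h := 6 * d + 1 - N - Mo.natDegree with hh
  set B : ℝ := ((q * q ^ (Mo.natDegree + 1) * (12 * d + 1)) *
      (√(((Fintype.card F ^ (4 * d + 1) : ℕ) : ℝ) * (Fintype.card F ^ ((8 * d + 3) / 3) : ℕ)) *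
      (C0 * √q ^ (12 * d) * Real.exp (ε * (2 * (12 * d) : ℕ))))) with hB
  have hB0 : 0 ≤ B := by positivity
  let W : F[X] → F[X] → ℂ := fun a D => WtM Mo (fun P => (leg P a : ℂ)) D
  have h1 : ∀ a ∈ PL F (2 * d + 1), ∀ b ∈ PL F (4 * d + 1), ∑ c ∈ PL F (6 * d + 1), G a b c * W a (disc3 a b c) =
      ((Fintype.card F : ℂ) ^ h)⁻¹ * ∑ c ∈ PL F (6 * d + 1), G a b c *
        ∑ v ∈ PL F h, W a (disc3 a b (c + Mo * v)) := fun a ha b hb =>
    averaging (by omega) (G a b) (fun c => W a (disc3 a b c)) (fun c hc v hv => hGinv a ha b hb c hc v hv)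
  have h2 : ∀ a ∈ PL F (2 * d + 1), ∀ b ∈ PL F (4 * d + 1),
      ‖∑ c ∈ PL F (6 * d + 1), G a b c * W a (disc3 a b c)‖ ≤ (q ^ h)⁻¹ *
        ∑ c ∈ PL F (6 * d + 1), if a ≠ 0 ∧ Cond3 Mo k d a b c then
          ‖∑ v ∈ PL F h, W a (disc3 a b (c + Mo * v))‖ else 0 := by
    intro a ha b hb
    rw [h1 a ha b hb, norm_mul, norm_inv, norm_pow, Complex.norm_natCast, ← hq]
    apply mul_le_mul_of_nonneg_left _ (by positivity)
    refine (norm_sum_le _ _).trans (sum_le_sum fun c hc => ?_)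
    rw [norm_mul]
    split_ifs with h3
    · calc ‖G a b c‖ * ‖∑ v ∈ PL F h, W a (disc3 a b (c + Mo * v))‖ ≤
            1 * ‖∑ v ∈ PL F h, W a (disc3 a b (c + Mo * v))‖ :=
            mul_le_mul_of_nonneg_right (hG1 a b c) (norm_nonneg _)
        _ = _ := one_mul _
    · have h4 : G a b c = 0 := by
        by_contra h5
        exact h3 (hGc a ha b hb c hc h5)
      rw [h4, norm_zero, zero_mul]
  have h3 : ‖∑ a ∈ PL F (2 * d + 1), ∑ b ∈ PL F (4 * d + 1), ∑ c ∈ PL F (6 * d + 1),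
      G a b c * W a (disc3 a b c)‖ ≤ ∑ a ∈ PL F (2 * d + 1), ∑ b ∈ PL F (4 * d + 1), (q ^ h)⁻¹ *
        ∑ c ∈ PL F (6 * d + 1), if a ≠ 0 ∧ Cond3 Mo k d a b c then
          ‖∑ v ∈ PL F h, W a (disc3 a b (c + Mo * v))‖ else 0 := by
    refine (norm_sum_le _ _).trans (sum_le_sum fun a ha => ?_)
    refine (norm_sum_le _ _).trans (sum_le_sum fun b hb => ?_)
    exact h2 a ha b hb
  refine h3.trans ?_
  have h4 : ∀ a ∈ PL F (2 * d + 1), ∑ b ∈ PL F (4 * d + 1), (q ^ h)⁻¹ *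
        ∑ c ∈ PL F (6 * d + 1), (if a ≠ 0 ∧ Cond3 Mo k d a b c then
          ‖∑ v ∈ PL F h, W a (disc3 a b (c + Mo * v))‖ else 0) ≤ (q ^ h)⁻¹ * (q ^ (6 * d + 1) * B) := by
    intro a ha
    rw [← mul_sum, sum_comm]
    apply mul_le_mul_of_nonneg_left _ (by positivity)
    have h5 : ∀ c ∈ PL F (6 * d + 1), ∑ b ∈ PL F (4 * d + 1), (if a ≠ 0 ∧ Cond3 Mo k d a b c then
          ‖∑ v ∈ PL F h, W a (disc3 a b (c + Mo * v))‖ else 0) ≤ B := by
      intro c hc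
      by_cases ha0 : a = 0
      · have h6 : ∀ b ∈ PL F (4 * d + 1), (if a ≠ 0 ∧ Cond3 Mo k d a b c then
          ‖∑ v ∈ PL F h, W a (disc3 a b (c + Mo * v))‖ else 0) = 0 := by
          intro b _
          rw [if_neg (fun h => h.1 ha0)]
        rw [sum_congr rfl h6, sum_const_zero]
        exact hB0
      · have h6 := hfam Mo k N d hMo hk hkN hNd a ha ha0 c hc
        rw [sum_filter] at h6
        refine le_trans (le_of_eq ?_) h6
        refine sum_congr rfl fun b _ => ?_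
        by_cases h7 : Cond3 Mo k d a b c
        · rw [if_pos ⟨ha0, h7⟩, if_pos h7]
        · rw [if_neg (fun h => h7 h.2), if_neg h7]
    refine (sum_le_card_nsmul _ _ _ h5).trans (le_of_eq ?_)
    rw [card_PL, nsmul_eq_mul]
    push_cast
    rfl
  refine (sum_le_card_nsmul _ _ _ h4).trans (le_of_eq ?_)
  rw [card_PL, nsmul_eq_mul]
  have h5 : q ^ (6 * d + 1) = q ^ h * q ^ (N + Mo.natDegree) := by
    rw [← pow_add]; congr 1; omega
  have h6 : (q ^ h)⁻¹ * (q ^ (6 * d + 1) * B) = q ^ (N + Mo.natDegree) * B := by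
    rw [h5]
    field_simp
  rw [h6]
  push_cast
  rw [← hq]
  ring

end Pool.Agent.H456.RN
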