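import Pool.Agent.H456.RN.Refl
import Pool.Agent.H456.RN.Tot3

/-!
# Characteristic three: the box of equations, the place at infinity, exceptional equations
-/

set_option autoImplicit false
set_option linter.all false
set_option maxHeartbeats 1000000

open Finset Polynomial ComplexConjugate
open Pool.Agent.H341R2.Sharp (Mon mem_Mon lam)
open Pool.Agent.Q284.PS Pool.Agent.Q53.PS Pool.Agent.Q68.PS

namespace Pool.Agent.H456.RN

/-- triples `(a, b, c)`, standing for the equation `y² = x³ + a x² + b x + c` over `F[t]` -/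
abbrev Tri (F : Type) [Field F] : Type := F[X] × F[X] × F[X]

section defs
variable {F : Type} [Field F]

/-- the discriminant of the equation -/
noncomputable def dsc (T : Tri F) : F[X] := disc3 T.1 T.2.1 T.2.2

/-- the equation at infinity: the coefficients `t^(2d) a(1/t)`, `t^(4d) b(1/t)`, `t^(6d) c(1/t)` -/
noncomputable def rv (d : ℕ) (T : Tri F) : Tri F := (reflect (2 * d) T.1, reflect (4 * d) T.2.1, reflect (6 * d) T.2.2)

/-- `w` is locally constant at `P` on the nonsingular equations -/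
def LocC3 (P : F[X]) (w : Tri F → ℂ) : Prop := ∀ k : ℕ, ∃ N : ℕ, ∀ T T' : Tri F, ¬ P ^ (k + 1) ∣ dsc T →
  P ^ N ∣ T'.1 - T.1 → P ^ N ∣ T'.2.1 - T.2.1 → P ^ N ∣ T'.2.2 - T.2.2 → w T' = w T

theorem rv_rv (d : ℕ) (T : Tri F) : rv d (rv d T) = T := by
  unfold rv
  simp

variable [Fintype F]

/-- the equations with `deg a ≤ 2d`, `deg b ≤ 4d`, `deg c ≤ 6d` -/
noncomputable def Box3 (F : Type) [Field F] [Fintype F] (d : ℕ) : Finset (Tri F) :=
  PL F (2 * d + 1) ×ˢ (PL F (4 * d + 1) ×ˢ PL F (6 * d + 1))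

theorem mem_Box3 {d : ℕ} {T : Tri F} : T ∈ Box3 F d ↔ T.1 ∈ PL F (2 * d + 1) ∧ T.2.1 ∈ PL F (4 * d + 1) ∧
    T.2.2 ∈ PL F (6 * d + 1) := by
  unfold Box3
  rw [mem_product, mem_product]

theorem card_Box3 (d : ℕ) : (Box3 F d).card = Fintype.card F ^ (12 * d + 3) := by
  unfold Box3
  rw [card_product, card_product, card_PL, card_PL, card_PL, ← pow_add, ← pow_add]
  congr 1
  omega

theorem rv_mem {d : ℕ} {T : Tri F} (hT : T ∈ Box3 F d) : rv d T ∈ Box3 F d := by
  rw [mem_Box3] at *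
  exact ⟨reflect_mem_PL hT.1, reflect_mem_PL hT.2.1, reflect_mem_PL hT.2.2⟩

theorem dsc_rv {d : ℕ} {T : Tri F} (hT : T ∈ Box3 F d) : dsc (rv d T) = reflect (12 * d) (dsc T) := by
  rw [mem_Box3] at hT
  obtain ⟨h1, h2, h3⟩ := hT
  have ha := natDegree_le_of_mem_PL h1
  have hb := natDegree_le_of_mem_PL h2
  have hc := natDegree_le_of_mem_PL h3
  unfold dsc disc3 rv
  simp only
  rw [reflect_sub, reflect_sub]
  have e1 : reflect (12 * d) (T.1 ^ 2 * T.2.1 ^ 2) = reflect (2 * d) T.1 ^ 2 * reflect (4 * d) T.2.1 ^ 2 := by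
    rw [← reflect_pow' ha 2, ← reflect_pow' hb 2, ← reflect_mul]
    · congr 1; ring
    · exact natDegree_pow_le.trans (Nat.mul_le_mul_left 2 ha)
    · exact natDegree_pow_le.trans (Nat.mul_le_mul_left 2 hb)
  have e2 : reflect (12 * d) (T.2.1 ^ 3) = reflect (4 * d) T.2.1 ^ 3 := by
    rw [← reflect_pow' hb 3]
    congr 1; ring
  have e3 : reflect (12 * d) (T.1 ^ 3 * T.2.2) = reflect (2 * d) T.1 ^ 3 * reflect (6 * d) T.2.2 := by
    rw [← reflect_pow' ha 3, ← reflect_mul]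
    · congr 1; ring
    · exact natDegree_pow_le.trans (Nat.mul_le_mul_left 3 ha)
    · exact hc
  rw [e1, e2, e3]

theorem dsc_mem {d : ℕ} {T : Tri F} (hT : T ∈ Box3 F d) : dsc T ∈ PL F (12 * d + 1) := by
  rw [mem_Box3] at hT
  apply mem_PL_of_natDegree
  have := disc3_natDegree_le (natDegree_le_of_mem_PL hT.1) (natDegree_le_of_mem_PL hT.2.1)
    (natDegree_le_of_mem_PL hT.2.2)
  unfold dsc
  omega

open Classical in
/-- equations with discriminant divisible by a high power of `P` -/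
theorem card_pow_dvd {P : F[X]} (hi : Irreducible P) {j d : ℕ} (hj : j * P.natDegree ≤ 2 * d + 1) :
    (((Box3 F d).filter (fun T => P ^ (4 * j) ∣ dsc T)).card : ℝ) ≤
      2 * ((Fintype.card F : ℝ) ^ (12 * d + 3) * ((Fintype.card F : ℝ)⁻¹) ^ j) := by
  set q : ℝ := (Fintype.card F : ℝ) with hq
  have hq2 : 2 ≤ q := two_le_q
  have hq0 : q ≠ 0 := by positivity
  have hPd : 1 ≤ P.natDegree := hi.natDegree_pos
  have hjP : j ≤ j * P.natDegree := Nat.le_mul_of_pos_right _ hPd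
  have h1 : (Box3 F d).filter (fun T => P ^ (4 * j) ∣ dsc T) ⊆
      ((PL F (2 * d + 1)).filter (fun a => P ^ j ∣ a)) ×ˢ (PL F (4 * d + 1) ×ˢ PL F (6 * d + 1)) ∪
      (Box3 F d).filter (fun T => ¬ P ^ j ∣ T.1 ∧ P ^ (4 * j) ∣ dsc T) := by
    intro T hT
    rw [mem_filter, mem_Box3] at hT
    rw [mem_union, mem_product, mem_product, mem_filter, mem_filter, mem_Box3]
    by_cases h : P ^ j ∣ T.1
    · exact Or.inl ⟨⟨hT.1.1, h⟩, hT.1.2⟩
    · exact Or.inr ⟨hT.1, h, hT.2⟩
  have h2 : (((PL F (2 * d + 1)).filter (fun a => P ^ j ∣ a)) ×ˢ (PL F (4 * d + 1) ×ˢ PL F (6 * d + 1))).card ≤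
      Fintype.card F ^ (12 * d + 3 - j) := by
    rw [card_product, card_product, card_PL, card_PL]
    have h3 := card_dvd_PL (2 * d + 1) (pow_ne_zero j hi.ne_zero)
    rw [natDegree_pow] at h3
    refine (Nat.mul_le_mul_right _ h3).trans ?_
    rw [← pow_add, ← pow_add]
    exact Nat.pow_le_pow_right Fintype.card_pos (by omega)
  have h3 : ((Box3 F d).filter (fun T => ¬ P ^ j ∣ T.1 ∧ P ^ (4 * j) ∣ dsc T)).card ≤
      Fintype.card F ^ (12 * d + 3 - j) := by
    rw [card_filter]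
    unfold Box3
    rw [sum_product]
    have h4 : ∀ a ∈ PL F (2 * d + 1), ∑ x ∈ PL F (4 * d + 1) ×ˢ PL F (6 * d + 1),
        (if ¬ P ^ j ∣ ((a, x) : Tri F).1 ∧ P ^ (4 * j) ∣ dsc ((a, x) : Tri F) then 1 else 0) ≤
        Fintype.card F ^ (4 * d + 1) * Fintype.card F ^ (6 * d + 1 - j) := by
      intro a ha
      rw [sum_product]
      have h5 : ∀ b ∈ PL F (4 * d + 1), ∑ c ∈ PL F (6 * d + 1),
          (if ¬ P ^ j ∣ ((a, b, c) : Tri F).1 ∧ P ^ (4 * j) ∣ dsc ((a, b, c) : Tri F) then 1 else 0) ≤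
          Fintype.card F ^ (6 * d + 1 - j) := by
        intro b hb
        by_cases h6 : P ^ j ∣ a
        · have h7 : ∀ c ∈ PL F (6 * d + 1),
            (if ¬ P ^ j ∣ ((a, b, c) : Tri F).1 ∧ P ^ (4 * j) ∣ dsc ((a, b, c) : Tri F) then 1 else 0) = 0 := by
            intro c _
            rw [if_neg (fun h => h.1 h6)]
          rw [sum_congr rfl h7, sum_const_zero]
          exact Nat.zero_le _
        · rw [← card_filter]
          have h7 := card_lin hi 3 j (6 * d + 1) (a ^ 2 * b ^ 2 - b ^ 3) h6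
          refine le_trans (card_le_card ?_) (h7.trans ?_)
          · intro c hc
            rw [mem_filter] at hc ⊢
            exact ⟨hc.1, hc.2.2⟩
          · exact Nat.pow_le_pow_right Fintype.card_pos (by omega)
      refine (sum_le_card_nsmul _ _ _ h5).trans (le_of_eq ?_)
      rw [card_PL, smul_eq_mul]
    refine (sum_le_card_nsmul _ _ _ h4).trans (le_of_eq ?_)
    rw [card_PL, smul_eq_mul, ← pow_add, ← pow_add]
    congr 1
    omega
  have h4 : q ^ (12 * d + 3) * (q⁻¹) ^ j = q ^ (12 * d + 3 - j) := by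
    have : q ^ (12 * d + 3) = q ^ (12 * d + 3 - j) * q ^ j := by rw [← pow_add]; congr 1; omega
    rw [this, inv_pow]
    field_simp
  rw [h4]
  have h5 := (card_le_card h1).trans (card_union_le _ _)
  have h6 : ((Box3 F d).filter (fun T => P ^ (4 * j) ∣ dsc T)).card ≤ 2 * Fintype.card F ^ (12 * d + 3 - j) := by
    omega
  rw [hq]
  exact_mod_cast h6

open Classical in
/-- the same at infinity -/
theorem card_pow_dvd_inf {j d : ℕ} (hj : j ≤ 2 * d + 1) :
    (((Box3 F d).filter (fun T => X ^ (4 * j) ∣ dsc (rv d T))).card : ℝ) ≤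
      2 * ((Fintype.card F : ℝ) ^ (12 * d + 3) * ((Fintype.card F : ℝ)⁻¹) ^ j) := by
  have h1 := card_pow_dvd (F := F) (P := X) irreducible_X (j := j) (d := d) (by rw [natDegree_X]; omega)
  refine le_trans ?_ h1
  have h2 : (Box3 F d).filter (fun T => X ^ (4 * j) ∣ dsc (rv d T)) ⊆
      ((Box3 F d).filter (fun T => X ^ (4 * j) ∣ dsc T)).image (rv d) := by
    intro T hT
    rw [mem_filter] at hT
    rw [mem_image]
    exact ⟨rv d T, by rw [mem_filter]; exact ⟨rv_mem hT.1, hT.2⟩, rv_rv d T⟩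
  exact_mod_cast (card_le_card h2).trans card_image_le

end defs

end Pool.Agent.H456.RN
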