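import Pool.Agent.H456.RN.Defs

/-!
# Changes of variables over `F(t)` between Weierstrass equations over `F[t]`
-/

open Polynomial WeierstrassCurve

namespace Pool.Agent.H456.EC

section ring

variable {R : Type*} [CommRing R]

/-- the scaled equation -/
def sc (h : R) (W : WeierstrassCurve R) : WeierstrassCurve R :=
  ⟨h * W.a₁, h ^ 2 * W.a₂, h ^ 3 * W.a₃, h ^ 4 * W.a₄, h ^ 6 * W.a₆⟩

/-- the change of variables with `u = 1` -/
def tr (r s t : R) : VariableChange R := ⟨1, r, s, t⟩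

variable (W V : WeierstrassCurve R) (r s t : R)

@[simp] theorem tr_a₁ : (tr r s t • W).a₁ = W.a₁ + 2 * s := by
  simp [variableChange_a₁, tr]

@[simp] theorem tr_a₂ : (tr r s t • W).a₂ = W.a₂ - s * W.a₁ + 3 * r - s ^ 2 := by
  simp [variableChange_a₂, tr]

@[simp] theorem tr_a₃ : (tr r s t • W).a₃ = W.a₃ + r * W.a₁ + 2 * t := by
  simp [variableChange_a₃, tr]

@[simp] theorem tr_a₄ : (tr r s t • W).a₄ = W.a₄ - s * W.a₃ + 2 * r * W.a₂ - (t + r * s) * W.a₁ + 3 * r ^ 2
      - 2 * s * t := by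
  simp [variableChange_a₄, tr]

@[simp] theorem tr_a₆ : (tr r s t • W).a₆ = W.a₆ + r * W.a₄ + r ^ 2 * W.a₂ + r ^ 3 - t * W.a₃ - t ^ 2
      - r * t * W.a₁ := by
  simp [variableChange_a₆, tr]

@[simp] theorem tr_Δ : (tr r s t • W).Δ = W.Δ := by
  simp [variableChange_Δ, tr]

@[simp] theorem tr_c₄ : (tr r s t • W).c₄ = W.c₄ := by
  simp [variableChange_c₄, tr]

@[simp] theorem tr_b₂ : (tr r s t • W).b₂ = W.b₂ + 12 * r := by
  simp [variableChange_b₂, tr]

@[simp] theorem tr_b₄ : (tr r s t • W).b₄ = W.b₄ + r * W.b₂ + 6 * r ^ 2 := by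
  simp [variableChange_b₄, tr]

@[simp] theorem tr_b₆ : (tr r s t • W).b₆ = W.b₆ + 2 * r * W.b₄ + r ^ 2 * W.b₂ + 4 * r ^ 3 := by
  simp [variableChange_b₆, tr]

@[simp] theorem tr_b₈ : (tr r s t • W).b₈ = W.b₈ + 3 * r * W.b₆ + 3 * r ^ 2 * W.b₄ + r ^ 3 * W.b₂ + 3 * r ^ 4 := by
  simp [variableChange_b₈, tr]

theorem sc_tr (h : R) : tr (h ^ 2 * r) (h * s) (h ^ 3 * t) • sc h W = sc h (tr r s t • W) := by
  ext <;> simp [sc] <;> ring

theorem sc_sc (g h : R) : sc g (sc h W) = sc (g * h) W := by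
  ext <;> simp [sc] <;> ring

@[simp] theorem sc_one : sc 1 W = W := by
  ext <;> simp [sc]

@[simp] theorem sc_Δ (h : R) : (sc h W).Δ = h ^ 12 * W.Δ := by
  simp only [sc, b₂, b₄, b₆, b₈, Δ]
  ring

@[simp] theorem sc_c₄ (h : R) : (sc h W).c₄ = h ^ 4 * W.c₄ := by
  simp only [sc, b₂, b₄, c₄]
  ring

theorem sc_map {S : Type*} [CommRing S] (φ : R →+* S) (h : R) : (sc h W).map φ = sc (φ h) (W.map φ) := by
  ext <;> simp [sc]

theorem tr_map {S : Type*} [CommRing S] (φ : R →+* S) :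
    (tr r s t • W).map φ = tr (φ r) (φ s) (φ t) • W.map φ := by
  ext <;> simp [map_ofNat]

theorem tr_tr (r' s' t' : R) : tr r s t • tr r' s' t' • W = tr (r + r') (s + s') (t + r * s' + t') • W := by
  ext <;> simp <;> ring

theorem tr_neg : tr (-r) (-s) (r * s - t) • tr r s t • W = W := by
  rw [tr_tr]
  ext <;> simp <;> ring

theorem tr_eq_iff : tr r s t • W = V ↔ tr (-r) (-s) (r * s - t) • V = W := by
  constructor
  · intro h; rw [← h, tr_neg]
  · intro h
    rw [← h, tr_tr]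
    ext <;> simp <;> ring

/-- a general change of variables is a translation followed by a scaling -/
theorem smul_eq (C : VariableChange R) : C • W = sc (↑C.u⁻¹ : R) (tr C.r C.s C.t • W) := by
  ext <;> simp only [sc, tr_a₁, tr_a₂, tr_a₃, tr_a₄, tr_a₆] <;> rfl

theorem sc_inj [IsDomain R] {h : R} (hh : h ≠ 0) {W V : WeierstrassCurve R} (e : sc h W = sc h V) : W = V := by
  rw [WeierstrassCurve.ext_iff] at *
  simp only [sc] at e
  obtain ⟨h1, h2, h3, h4, h6⟩ := e
  exact ⟨mul_left_cancel₀ hh h1, mul_left_cancel₀ (pow_ne_zero _ hh) h2, mul_left_cancel₀ (pow_ne_zero _ hh) h3,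
    mul_left_cancel₀ (pow_ne_zero _ hh) h4, mul_left_cancel₀ (pow_ne_zero _ hh) h6⟩

end ring

section classes

variable {F : Type} [Field F]

/-- the map to `F(t)` -/
noncomputable abbrev toK (F : Type) [Field F] : F[X] →+* RatFunc F := algebraMap F[X] (RatFunc F)

theorem toK_inj : Function.Injective (toK F) := RatFunc.algebraMap_injective F

theorem cls_eq_iff {W V : WeierstrassCurve F[X]} :
    cls W = cls V ↔ ∃ C : VariableChange (RatFunc F), C • W.map (toK F) = V.map (toK F) := by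
  unfold cls
  rw [Quotient.eq'', MulAction.orbitRel_apply]
  constructor
  · rintro ⟨C, hC⟩
    refine ⟨C⁻¹, ?_⟩
    have hC' : C • V.map (toK F) = W.map (toK F) := hC
    rw [← hC', inv_smul_smul]
  · rintro ⟨C, hC⟩
    refine ⟨C⁻¹, ?_⟩
    change C⁻¹ • V.map (toK F) = W.map (toK F)
    rw [← hC, inv_smul_smul]

theorem exists_of_quartic {x : RatFunc F} (a b c : F[X])
    (h : x ^ 4 + toK F a * x ^ 2 + toK F b * x + toK F c = 0) : ∃ y : F[X], toK F y = x := by
  have h1 : IsIntegral F[X] x := by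
    refine ⟨X ^ 4 + C a * X ^ 2 + C b * X + C c, ?_, ?_⟩
    · have : (X ^ 4 + C a * X ^ 2 + C b * X + C c : F[X][X]) = X ^ 4 + (C a * X ^ 2 + C b * X + C c) := by ring
      rw [this]
      apply monic_X_pow_add
      compute_degree!
    · rw [eval₂_add, eval₂_add, eval₂_add, eval₂_mul, eval₂_mul, eval₂_pow, eval₂_pow, eval₂_X, eval₂_C, eval₂_C,
        eval₂_C]
      exact h
  exact IsIntegrallyClosed.algebraMap_eq_of_integral h1

theorem exists_of_quadratic {x : RatFunc F} (a b : F[X])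
    (h : x ^ 2 + toK F a * x + toK F b = 0) : ∃ y : F[X], toK F y = x := by
  have h1 : IsIntegral F[X] x := by
    refine ⟨X ^ 2 + C a * X + C b, ?_, ?_⟩
    · have : (X ^ 2 + C a * X + C b : F[X][X]) = X ^ 2 + (C a * X + C b) := by ring
      rw [this]
      apply monic_X_pow_add
      compute_degree!
    · rw [eval₂_add, eval₂_add, eval₂_mul, eval₂_pow, eval₂_X, eval₂_C, eval₂_C]
      exact h
  exact IsIntegrallyClosed.algebraMap_eq_of_integral h1

/-- a translation over `F(t)` between equations over `F[t]` is defined over `F[t]` -/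
theorem tr_integral {W V : WeierstrassCurve F[X]} {r s t : RatFunc F}
    (h : tr r s t • W.map (toK F) = V.map (toK F)) :
    ∃ r' s' t' : F[X], toK F r' = r ∧ toK F s' = s ∧ toK F t' = t ∧ tr r' s' t' • W = V := by
  have h6 := congrArg WeierstrassCurve.b₆ h
  have h8 := congrArg WeierstrassCurve.b₈ h
  have k2 := congrArg WeierstrassCurve.a₂ h
  have k6 := congrArg WeierstrassCurve.a₆ h
  rw [tr_b₆, map_b₆, map_b₄, map_b₂, map_b₆] at h6
  rw [tr_b₈, map_b₈, map_b₆, map_b₄, map_b₂, map_b₈] at h8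
  rw [tr_a₂, map_a₂, map_a₁, map_a₂] at k2
  rw [tr_a₆, map_a₆, map_a₄, map_a₂, map_a₃, map_a₁, map_a₆] at k6
  obtain ⟨r', hr⟩ := exists_of_quartic (x := r) (-W.b₄) (-(2 * W.b₆ + V.b₆)) (V.b₈ - W.b₈) (by
    simp only [map_neg, map_add, map_sub, map_mul, map_ofNat]
    linear_combination r * h6 - h8)
  subst hr
  obtain ⟨s', hs⟩ := exists_of_quadratic (x := s) W.a₁ (V.a₂ - W.a₂ - 3 * r') (by
    simp only [map_sub, map_mul, map_ofNat]
    linear_combination -k2)
  subst hs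
  obtain ⟨t', ht⟩ := exists_of_quadratic (x := t) (W.a₃ + r' * W.a₁)
    (V.a₆ - (W.a₆ + r' * W.a₄ + r' ^ 2 * W.a₂ + r' ^ 3)) (by
    simp only [map_sub, map_add, map_mul, map_pow]
    linear_combination -k6)
  subst ht
  refine ⟨r', s', t', rfl, rfl, rfl, ?_⟩
  apply WeierstrassCurve.map_injective toK_inj
  change (tr r' s' t' • W).map (toK F) = V.map (toK F)
  rw [tr_map, h]

/-- equations over `F[t]` of isomorphic curves over `F(t)` -/
theorem cls_eq_exists {W V : WeierstrassCurve F[X]} (h : cls W = cls V) :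
    ∃ α β r s t : F[X], α ≠ 0 ∧ β ≠ 0 ∧ IsCoprime α β ∧ tr r s t • sc β W = sc α V := by
  obtain ⟨C, hC⟩ := cls_eq_iff.1 h
  set u : RatFunc F := (C.u : RatFunc F) with hu
  have hu0 : u ≠ 0 := C.u.ne_zero
  have hα : u.num ≠ 0 := RatFunc.num_ne_zero hu0
  have hβ : u.denom ≠ 0 := RatFunc.denom_ne_zero u
  have hβ' : toK F u.denom ≠ 0 := by
    rw [Ne, map_eq_zero_iff _ toK_inj]; exact hβ
  have hdiv : toK F u.num = toK F u.denom * u := by
    have h3 := RatFunc.num_div_denom u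
    rw [div_eq_iff hβ'] at h3
    rw [mul_comm]
    exact h3
  have h1 : tr (toK F u.denom ^ 2 * C.r) (toK F u.denom * C.s) (toK F u.denom ^ 3 * C.t) •
      (sc u.denom W).map (toK F) = (sc u.num V).map (toK F) := by
    rw [sc_map, sc_map, sc_tr, ← hC, smul_eq _ C, sc_sc, hdiv]
    congr 1
    rw [mul_assoc, hu, Units.mul_inv, mul_one]
  obtain ⟨r', s', t', -, -, -, h2⟩ := tr_integral h1
  exact ⟨u.num, u.denom, r', s', t', hα, hβ, RatFunc.isCoprime_num_denom u, h2⟩

theorem cls_eq_of {W V : WeierstrassCurve F[X]} {α β r s t : F[X]} (hα : α ≠ 0) (hβ : β ≠ 0)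
    (h : tr r s t • sc β W = sc α V) : cls W = cls V := by
  have hα' : toK F α ≠ 0 := by rw [Ne, map_eq_zero_iff _ toK_inj]; exact hα
  have hβ' : toK F β ≠ 0 := by rw [Ne, map_eq_zero_iff _ toK_inj]; exact hβ
  rw [cls_eq_iff]
  refine ⟨⟨Units.mk0 (toK F α / toK F β) (div_ne_zero hα' hβ'), toK F r / toK F β ^ 2, toK F s / toK F β,
    toK F t / toK F β ^ 3⟩, ?_⟩
  apply sc_inj hα'
  rw [← sc_map, ← h, tr_map, sc_map, smul_eq _ (VariableChange.mk _ _ _ _), sc_sc]
  have h1 : toK F α * (↑(Units.mk0 (toK F α / toK F β) (div_ne_zero hα' hβ'))⁻¹ : RatFunc F) = toK F β := by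
    rw [Units.val_inv_eq_inv_val, Units.val_mk0]
    field_simp
  rw [h1]
  have h2 := sc_tr (W.map (toK F)) (toK F r / toK F β ^ 2) (toK F s / toK F β) (toK F t / toK F β ^ 3) (toK F β)
  rw [← h2]
  congr 2
  · field_simp
  · field_simp
  · field_simp

theorem cls_sc {W : WeierstrassCurve F[X]} {h : F[X]} (hh : h ≠ 0) : cls (sc h W) = cls W := by
  symm
  apply cls_eq_of (α := 1) (β := h) (r := 0) (s := 0) (t := 0) one_ne_zero hh
  rw [sc_one]
  ext <;> simp

theorem cls_tr {W : WeierstrassCurve F[X]} {r s t : F[X]} : cls (tr r s t • W) = cls W := by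
  symm
  apply cls_eq_of (α := 1) (β := 1) (r := r) (s := s) (t := t) one_ne_zero one_ne_zero
  rw [sc_one, sc_one]

end classes

end Pool.Agent.H456.EC
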