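import Pool.Agent.H456.RN.Exc

/-!
# Coprime pairs; sums over polynomials with cube divisors
-/

set_option autoImplicit false
set_option linter.all false
set_option maxHeartbeats 1000000

open Finset Polynomial ComplexConjugate
open Pool.Agent.H341R2.Sharp (Mon mem_Mon)
open Pool.Agent.Q284.PS Pool.Agent.Q53.PS

namespace Pool.Agent.H456.RN

variable {F : Type} [Field F] [Fintype F]

open Classical in
/-- coprime pairs, the first monic of degree `m`, the second of degree less than `n` -/
noncomputable def Cp (F : Type) [Field F] [Fintype F] (m n : ℕ) : Finset (F[X] × F[X]) :=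
  (Mon F m ×ˢ PL F n).filter (fun x => IsCoprime x.1 x.2)

open Classical in
theorem card_gcd (m n : ℕ) (hmn : m ≤ n) :
    ∑ j ∈ range (m + 1), Fintype.card F ^ j * (Cp F (m - j) (n - j)).card = Fintype.card F ^ (m + n) := by
  have h1 : Fintype.card F ^ (m + n) = (Mon F m ×ˢ PL F n).card := by
    rw [card_product, card_Mon, card_PL, pow_add]
  rw [h1, card_eq_sum_card_fiberwise (s := Mon F m ×ˢ PL F n) (t := range (m + 1))
    (f := fun x => (normalize (EuclideanDomain.gcd x.1 x.2)).natDegree)]
  · refine sum_congr rfl fun j hj => ?_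
    rw [mem_range] at hj
    have h2 : Fintype.card F ^ j * (Cp F (m - j) (n - j)).card = (Mon F j ×ˢ Cp F (m - j) (n - j)).card := by
      rw [card_product, card_Mon]
    rw [h2]
    refine card_bij (fun y _ => (y.1 * y.2.1, y.1 * y.2.2)) ?_ ?_ ?_
    · intro y hy
      unfold Cp at hy
      rw [mem_product, mem_filter, mem_product, mem_Mon, mem_Mon] at hy
      obtain ⟨⟨g1, g2⟩, ⟨⟨a1, a2⟩, b1⟩, hc⟩ := hy
      rw [mem_filter, mem_product, mem_Mon]
      refine ⟨⟨⟨g1.mul a1, ?_⟩, ?_⟩, ?_⟩
      · rw [g1.natDegree_mul a1, g2, a2]; omega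
      · have := mul_mem_PL (n := j) (U := y.1) (by omega) b1
        have e : j + (n - j) = n := by omega
        rwa [e] at this
      · have h3 : Associated (EuclideanDomain.gcd (y.1 * y.2.1) (y.1 * y.2.2)) y.1 := by
          apply associated_of_dvd_dvd
          · have h4 := EuclideanDomain.gcd_dvd_left (y.1 * y.2.1) (y.1 * y.2.2)
            have h5 := EuclideanDomain.gcd_dvd_right (y.1 * y.2.1) (y.1 * y.2.2)
            obtain ⟨u, v, huv⟩ := hc
            have h6 : y.1 = u * (y.1 * y.2.1) + v * (y.1 * y.2.2) := by linear_combination (-y.1) * huv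
            exact (dvd_add (h4.mul_left u) (h5.mul_left v)).trans (dvd_of_eq h6.symm)
          · exact EuclideanDomain.dvd_gcd (dvd_mul_right _ _) (dvd_mul_right _ _)
        have h4 : normalize (EuclideanDomain.gcd (y.1 * y.2.1) (y.1 * y.2.2)) = y.1 := by
          rw [(normalize_eq_normalize_iff_associated).2 h3, g1.normalize_eq_self]
        change (normalize (EuclideanDomain.gcd (y.1 * y.2.1) (y.1 * y.2.2))).natDegree = j
        rw [h4, g2]
    · intro y hy z hz h
      unfold Cp at hy hz
      rw [mem_product, mem_filter, mem_product, mem_Mon, mem_Mon] at hy hz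
      obtain ⟨⟨g1, g2⟩, ⟨⟨a1, a2⟩, b1⟩, hc⟩ := hy
      obtain ⟨⟨g1', g2'⟩, ⟨⟨a1', a2'⟩, b1'⟩, hc'⟩ := hz
      rw [Prod.mk.injEq] at h
      have h3 : y.1 ∣ z.1 := by
        obtain ⟨u, v, huv⟩ := hc'
        have h6 : z.1 = u * (y.1 * y.2.1) + v * (y.1 * y.2.2) := by
          rw [h.1, h.2]; linear_combination (-z.1) * huv
        rw [h6]
        exact dvd_add ((dvd_mul_right _ _).mul_left u) ((dvd_mul_right _ _).mul_left v)
      have h4 : z.1 ∣ y.1 := by
        obtain ⟨u, v, huv⟩ := hc
        have h6 : y.1 = u * (z.1 * z.2.1) + v * (z.1 * z.2.2) := by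
          rw [← h.1, ← h.2]; linear_combination (-y.1) * huv
        rw [h6]
        exact dvd_add ((dvd_mul_right _ _).mul_left u) ((dvd_mul_right _ _).mul_left v)
      have h5 : y.1 = z.1 := eq_of_monic_of_associated g1 g1' (associated_of_dvd_dvd h3 h4)
      rw [h5] at h
      have h6 := mul_left_cancel₀ g1'.ne_zero h.1
      have h7 := mul_left_cancel₀ g1'.ne_zero h.2
      exact Prod.ext h5 (Prod.ext h6 h7)
    · intro x hx
      rw [mem_filter, mem_product, mem_Mon] at hx
      obtain ⟨⟨⟨a1, a2⟩, b1⟩, hj'⟩ := hx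
      set g := normalize (EuclideanDomain.gcd x.1 x.2) with hg
      have hg0 : EuclideanDomain.gcd x.1 x.2 ≠ 0 := by
        intro h
        have := EuclideanDomain.gcd_dvd_left x.1 x.2
        rw [h] at this
        exact a1.ne_zero (zero_dvd_iff.1 this)
      have hgm : g.Monic := monic_normalize hg0
      obtain ⟨a', ha'⟩ : g ∣ x.1 := (normalize_dvd_iff).2 (EuclideanDomain.gcd_dvd_left x.1 x.2)
      obtain ⟨b', hb'⟩ : g ∣ x.2 := (normalize_dvd_iff).2 (EuclideanDomain.gcd_dvd_right x.1 x.2)
      have ham : a'.Monic := by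
        apply hgm.of_mul_monic_left
        rw [← ha']; exact a1
      have hadeg : a'.natDegree = m - j := by
        have h3 : x.1.natDegree = g.natDegree + a'.natDegree := by
          conv_lhs => rw [ha']
          rw [hgm.natDegree_mul ham]
        omega
      refine ⟨(g, a', b'), ?_, ?_⟩
      · unfold Cp
        rw [mem_product, mem_filter, mem_product, mem_Mon, mem_Mon]
        refine ⟨⟨hgm, hj'⟩, ⟨⟨ham, hadeg⟩, ?_⟩, ?_⟩
        · by_cases h0 : b' = 0
          · rw [h0]; exact zero_mem_PL _
          · apply mem_PL_of_natDegree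
            have h3 : x.2 ≠ 0 := by rw [hb']; exact mul_ne_zero hgm.ne_zero h0
            have h4 := natDegree_lt_of_mem_PL b1 h3
            rw [hb', hgm.natDegree_mul' h0] at h4
            change b'.natDegree < n - j
            omega
        · obtain ⟨u, v, huv⟩ : ∃ u v, EuclideanDomain.gcd x.1 x.2 = x.1 * u + x.2 * v :=
            ⟨_, _, EuclideanDomain.gcd_eq_gcd_ab x.1 x.2⟩
          have h3 : g ∣ EuclideanDomain.gcd x.1 x.2 := (normalize_dvd_iff).2 dvd_rfl
          have h4 : EuclideanDomain.gcd x.1 x.2 ∣ g := (dvd_normalize_iff).2 dvd_rfl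
          obtain ⟨e, he⟩ := h4
          refine ⟨u * e, v * e, ?_⟩
          apply mul_left_cancel₀ hgm.ne_zero
          calc g * (u * e * a' + v * e * b') = (g * a') * u * e + (g * b') * v * e := by ring
            _ = x.1 * u * e + x.2 * v * e := by rw [← ha', ← hb']
            _ = (x.1 * u + x.2 * v) * e := by ring
            _ = EuclideanDomain.gcd x.1 x.2 * e := by rw [← huv]
            _ = g := he.symm
            _ = g * 1 := (mul_one g).symm
      · exact Prod.ext ha'.symm hb'.symm
  · intro x hx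
    rw [Finset.mem_coe, mem_product, mem_Mon] at hx
    obtain ⟨⟨a1, a2⟩, b1⟩ := hx
    rw [Finset.mem_coe, mem_range]
    have hg0 : EuclideanDomain.gcd x.1 x.2 ≠ 0 := by
      intro h
      have := EuclideanDomain.gcd_dvd_left x.1 x.2
      rw [h] at this
      exact a1.ne_zero (zero_dvd_iff.1 this)
    have h3 : normalize (EuclideanDomain.gcd x.1 x.2) ∣ x.1 :=
      (normalize_dvd_iff).2 (EuclideanDomain.gcd_dvd_left x.1 x.2)
    have h4 := natDegree_le_of_dvd h3 a1.ne_zero
    change (normalize (EuclideanDomain.gcd x.1 x.2)).natDegree < m + 1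
    omega

/-- the number of coprime pairs -/
theorem card_Cp (m n : ℕ) (hm : 1 ≤ m) (hmn : m ≤ n) :
    (Cp F m n).card + Fintype.card F ^ (m + n - 1) = Fintype.card F ^ (m + n) := by
  have h1 := card_gcd (F := F) m n hmn
  have h2 := card_gcd (F := F) (m - 1) (n - 1) (by omega)
  rw [sum_range_succ'] at h1
  rw [pow_zero, one_mul, Nat.sub_zero, Nat.sub_zero] at h1
  have h3 : ∑ k ∈ range m, Fintype.card F ^ (k + 1) * (Cp F (m - (k + 1)) (n - (k + 1))).card =
      Fintype.card F * ∑ j ∈ range (m - 1 + 1), Fintype.card F ^ j * (Cp F (m - 1 - j) (n - 1 - j)).card := by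
    have e : m - 1 + 1 = m := by omega
    rw [e, mul_sum]
    refine sum_congr rfl fun j _ => ?_
    have e1 : m - (j + 1) = m - 1 - j := by omega
    have e2 : n - (j + 1) = n - 1 - j := by omega
    rw [e1, e2, pow_succ]
    ring
  rw [h3, h2, ← pow_succ'] at h1
  have e : m - 1 + (n - 1) + 1 = m + n - 1 := by omega
  rw [e] at h1
  omega

open Classical in
/-- sums over the polynomials with a cube divisor -/
theorem sum_cube (n : ℕ) (g : F[X] → F[X]) (hg : ∀ a : F[X], a ≠ 0 → (g a).Monic ∧ (g a) ^ 3 ∣ a) :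
    ∑ a ∈ (PL F n).filter (fun a => a ≠ 0), √(Fintype.card F : ℝ) ^ (g a).natDegree ≤
      2 * (Fintype.card F : ℝ) ^ n := by
  set q : ℝ := (Fintype.card F : ℝ) with hq
  have hq2 : 2 ≤ q := two_le_q
  have hq0 : 0 < q := by linarith
  set s := √q with hs
  have hss : s * s = q := Real.mul_self_sqrt hq0.le
  have hs1 : 1 ≤ s := by rw [hs, Real.one_le_sqrt]; linarith
  have hs0 : 0 < s := by linarith
  have hmaps : ∀ a ∈ (PL F n).filter (fun a => a ≠ 0), (g a).natDegree ∈ range n := by
    intro a ha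
    rw [mem_filter] at ha
    obtain ⟨h1, h2⟩ := hg a ha.2
    have h3 := natDegree_le_of_dvd h2 ha.2
    rw [natDegree_pow] at h3
    have h4 := natDegree_lt_of_mem_PL ha.1 ha.2
    rw [mem_range]
    omega
  rw [← sum_fiberwise_of_maps_to hmaps]
  have h1 : ∀ j ∈ range n, ∑ a ∈ ((PL F n).filter (fun a => a ≠ 0)).filter (fun a => (g a).natDegree = j),
      s ^ (g a).natDegree ≤ q ^ n * (s⁻¹ ^ 3) ^ j := by
    intro j hj
    have h2 : ∀ a ∈ ((PL F n).filter (fun a => a ≠ 0)).filter (fun a => (g a).natDegree = j),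
        s ^ (g a).natDegree = s ^ j := by
      intro a ha
      rw [mem_filter] at ha
      rw [ha.2]
    rw [sum_congr rfl h2, sum_const, nsmul_eq_mul]
    have h3 : ((PL F n).filter (fun a => a ≠ 0)).filter (fun a => (g a).natDegree = j) ⊆
        if 3 * j ≤ n then (Mon F j).biUnion (fun u => (PL F n).filter (fun a => u ^ 3 ∣ a)) else ∅ := by
      intro a ha
      rw [mem_filter, mem_filter] at ha
      obtain ⟨⟨h4, h5⟩, h6⟩ := ha
      obtain ⟨h7, h8⟩ := hg a h5
      have h9 := natDegree_le_of_dvd h8 h5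
      rw [natDegree_pow, h6] at h9
      have h10 := natDegree_lt_of_mem_PL h4 h5
      rw [if_pos (by omega), mem_biUnion]
      exact ⟨g a, mem_Mon.2 ⟨h7, h6⟩, by rw [mem_filter]; exact ⟨h4, h8⟩⟩
    have h4 : ((((PL F n).filter (fun a => a ≠ 0)).filter (fun a => (g a).natDegree = j)).card : ℝ) ≤
        q ^ n * (q⁻¹ ^ 2) ^ j := by
      refine (Nat.cast_le.2 (card_le_card h3)).trans ?_
      split_ifs with h5
      · refine (Nat.cast_le.2 card_biUnion_le).trans ?_
        push_cast
        have h6 : ∀ u ∈ Mon F j, (((PL F n).filter (fun a => u ^ 3 ∣ a)).card : ℝ) ≤ q ^ (n - 3 * j) := by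
          intro u hu
          rw [mem_Mon] at hu
          have h7 := card_dvd_PL n (pow_ne_zero 3 hu.1.ne_zero)
          rw [natDegree_pow, hu.2] at h7
          rw [hq]
          exact_mod_cast h7
        refine (sum_le_card_nsmul _ _ _ h6).trans (le_of_eq ?_)
        rw [card_Mon, nsmul_eq_mul]
        push_cast
        rw [← hq]
        have h8 : q ^ n = q ^ (n - 3 * j) * q ^ j * (q ^ 2) ^ j := by
          rw [← pow_mul, ← pow_add, ← pow_add]; congr 1; omega
        rw [h8, inv_pow, inv_pow]
        field_simp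
      · rw [card_empty, Nat.cast_zero]
        positivity
    calc _ ≤ q ^ n * (q⁻¹ ^ 2) ^ j * s ^ j := mul_le_mul_of_nonneg_right h4 (by positivity)
      _ = q ^ n * (s⁻¹ ^ 3) ^ j := by
        rw [mul_assoc, ← mul_pow]
        congr 2
        rw [← hss]
        field_simp
  refine (sum_le_sum h1).trans ?_
  rw [← mul_sum, mul_comm]
  apply mul_le_mul_of_nonneg_right _ (by positivity)
  have h5 : s⁻¹ ^ 3 ≤ 1 / 2 := by
    have h6 : 2 ≤ s ^ 3 := by
      calc (2 : ℝ) ≤ q := hq2
        _ = s ^ 2 := by rw [pow_two, hss]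
        _ ≤ s ^ 3 := pow_le_pow_right₀ hs1 (by norm_num)
    rw [inv_pow, inv_eq_one_div]
    exact one_div_le_one_div_of_le (by norm_num) h6
  have h6 : 0 ≤ s⁻¹ ^ 3 := by positivity
  rcases n with _ | n
  · simp
  · rw [sum_range_succ']
    have := geom_half h6 h5 n
    have h7 := pow_nonneg h6 n
    rw [pow_zero]
    linarith

end Pool.Agent.H456.RN
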