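import Pool.Agent.H456.RN.Prog

/-!
# The core estimate: products over the prime divisors in progressions, on average
-/

set_option autoImplicit false
set_option linter.all false
set_option maxHeartbeats 1000000

open Finset Polynomial ComplexConjugate
open Pool.Agent.H341R2.Sharp (Mon mem_Mon)
open Pool.Agent.Q284.PS Pool.Agent.Q53.PS

namespace Pool.Agent.H456.RN

variable {F : Type} [Field F]

open Classical in
/-- the product of `-σ P` over the monic irreducible divisors `P` of `D` which do not divide `Mo` -/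
noncomputable def WtM (Mo : F[X]) (σ : F[X] → ℂ) (D : F[X]) : ℂ :=
  ∏ P ∈ (pr D).filter (fun P => ¬ P ∣ Mo), (-σ P)

theorem WtM_eq {Mo : F[X]} (σ : F[X] → ℂ) {r f : F[X]} {ℓ : F} (hℓ : ℓ ≠ 0) (hr : r.Monic) (hrM : r ∣ Mo)
    (hf : f.Monic) (hc : ∀ P : F[X], P.Monic → Irreducible P → P ∣ f → ¬ P ∣ Mo) :
    WtM Mo σ (C ℓ * (r * f)) = ∏ P ∈ pr f, (-σ P) := by
  classical
  have hC : C ℓ ≠ 0 := C_ne_zero.2 hℓ
  have h0 : C ℓ * (r * f) ≠ 0 := mul_ne_zero hC (mul_ne_zero hr.ne_zero hf.ne_zero)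
  unfold WtM
  refine prod_congr ?_ fun _ _ => rfl
  ext P
  rw [mem_filter, mem_pr h0, mem_pr hf.ne_zero]
  constructor
  · rintro ⟨⟨h1, h2, h3⟩, h4⟩
    refine ⟨h1, h2, ?_⟩
    rcases h2.prime.dvd_or_dvd h3 with h5 | h5
    · exact absurd (isUnit_of_dvd_unit h5 (isUnit_C.2 (isUnit_iff_ne_zero.2 hℓ))) h2.not_isUnit
    · rcases h2.prime.dvd_or_dvd h5 with h6 | h6
      · exact absurd (h6.trans hrM) h4
      · exact h6
  · rintro ⟨h1, h2, h3⟩
    exact ⟨⟨h1, h2, Dvd.dvd.mul_left (Dvd.dvd.mul_left h3 r) (C ℓ)⟩, hc P h1 h2 h3⟩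

theorem split_D {A Mo D : F[X]} (hMo : Mo.Monic) (hD : D ≠ 0) (k : ℕ)
    (hk : ∀ P : F[X], P.Monic → Irreducible P → P ∣ Mo → P ^ (k + 1) ∣ Mo)
    (h2 : ∀ P : F[X], P.Monic → Irreducible P → P ∣ Mo → ¬ P ^ (k + 1) ∣ D)
    (h3 : ∀ P : F[X], P.Monic → Irreducible P → ¬ P ∣ Mo → P ∣ A → ¬ P ∣ D) (hA : A ≠ 0) :
    ∃ r t g : F[X], r.Monic ∧ t.Monic ∧ g.Monic ∧ Mo = r * t ∧ D = C D.leadingCoeff * (r * g) ∧
      IsCoprime g (A * t) ∧ (∀ P : F[X], P.Monic → Irreducible P → P ∣ Mo → P ∣ t) := by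
  classical
  set d0 := EuclideanDomain.gcd D Mo with hd0
  have hd0D : d0 ∣ D := EuclideanDomain.gcd_dvd_left D Mo
  have hd0M : d0 ∣ Mo := EuclideanDomain.gcd_dvd_right D Mo
  have hd00 : d0 ≠ 0 := fun h => hD (by rw [h] at hd0D; exact zero_dvd_iff.1 hd0D)
  set r := normalize d0 with hr
  have hrm : r.Monic := monic_normalize hd00
  have hrD : r ∣ D := (normalize_dvd_iff).2 hd0D
  have hrM : r ∣ Mo := (normalize_dvd_iff).2 hd0M
  obtain ⟨t, ht⟩ := hrM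
  obtain ⟨g0, hg0⟩ := hrD
  have htm : t.Monic := by
    apply hrm.of_mul_monic_left
    rw [← ht]; exact hMo
  have hg00 : g0 ≠ 0 := fun h => hD (by rw [hg0, h, mul_zero])
  have hlc : D.leadingCoeff = g0.leadingCoeff := by
    rw [hg0, leadingCoeff_mul, hrm.leadingCoeff, one_mul]
  have hlc0 : g0.leadingCoeff ≠ 0 := leadingCoeff_ne_zero.2 hg00
  set g := C (g0.leadingCoeff)⁻¹ * g0 with hg
  have hgm : g.Monic := by
    rw [Monic, hg, leadingCoeff_mul, leadingCoeff_C, inv_mul_cancel₀ hlc0]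
  have hgg : g0 = C g0.leadingCoeff * g := by
    rw [hg, ← mul_assoc, ← C_mul, mul_inv_cancel₀ hlc0, C_1, one_mul]
  have hDe : D = C D.leadingCoeff * (r * g) := by
    rw [hlc]
    calc D = r * g0 := hg0
      _ = r * (C g0.leadingCoeff * g) := by rw [← hgg]
      _ = C g0.leadingCoeff * (r * g) := by ring
  have hgD : g ∣ D := ⟨C D.leadingCoeff * r, by rw [mul_comm, mul_assoc]; exact hDe⟩
  have hrgD : r * g ∣ D := ⟨C D.leadingCoeff, by rw [mul_comm]; exact hDe⟩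
  have hgMo : ∀ P : F[X], P.Monic → Irreducible P → P ∣ g → ¬ P ∣ Mo := by
    intro P hPm hPi hPg hPM
    have hex : ∃ j, ¬ P ^ j ∣ r := ⟨k + 1, fun h => h2 P hPm hPi hPM (h.trans ⟨g0, hg0⟩)⟩
    have hj := Nat.find_spec hex
    set j := Nat.find hex with hjdef
    have hjk : j ≤ k + 1 := Nat.find_min' hex (fun h => h2 P hPm hPi hPM (h.trans ⟨g0, hg0⟩))
    have hj0 : j ≠ 0 := by
      intro h
      rw [h, pow_zero] at hj
      exact hj (one_dvd _)
    obtain ⟨i, hi⟩ := Nat.exists_eq_succ_of_ne_zero hj0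
    have hi' : P ^ i ∣ r := by
      by_contra hc
      have := Nat.find_min' hex hc
      omega
    have h4 : P ^ j ∣ D := by
      refine Dvd.dvd.trans ?_ hrgD
      rw [hi, pow_succ]
      exact mul_dvd_mul hi' hPg
    have h5 : P ^ j ∣ Mo := (pow_dvd_pow P hjk).trans (hk P hPm hPi hPM)
    have h6 : P ^ j ∣ d0 := EuclideanDomain.dvd_gcd h4 h5
    exact hj ((dvd_normalize_iff).2 h6)
  refine ⟨r, t, g, hrm, htm, hgm, ht, hDe, ?_, ?_⟩
  · apply coprime_of_pr hgm.ne_zero (mul_ne_zero hA htm.ne_zero)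
    intro P hPm hPi hPg hPA
    have hPM := hgMo P hPm hPi hPg
    rcases hPi.prime.dvd_or_dvd hPA with h | h
    · exact h3 P hPm hPi hPM h (hPg.trans hgD)
    · exact hPM (h.trans ⟨r, by rw [ht]; ring⟩)
  · intro P hPm hPi hPM
    by_contra hc
    have h4 : IsCoprime (P ^ (k + 1)) t := ((hPi.coprime_iff_not_dvd).2 hc).pow_left
    have h5 : P ^ (k + 1) ∣ r := by
      have h6 := hk P hPm hPi hPM
      rw [ht] at h6
      exact h4.dvd_of_dvd_mul_right h6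
    exact h2 P hPm hPi hPM (h5.trans ⟨g0, hg0⟩)

/-- raising the level -/
theorem hay_raise {Q0 Q : F[X]} {l0 l : ℕ} {ρ : F[X] → ℂ} (h : Hay Q0 l0 ρ) (hQ : Q.Monic) (hd : Q0 ∣ Q)
    (hl : l0 ≤ l) : (open Classical in Hay Q l (fun f => if IsCoprime f Q then ρ f else 0)) := by
  classical
  have hdiv : ∀ f g : F[X], Q ∣ f - g → IsCoprime f Q → IsCoprime g Q := by
    rintro f g ⟨c, hc⟩ hf
    have h1 : g = f + Q * (-c) := by linear_combination -hc
    rw [h1]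
    exact IsCoprime.add_mul_left_left hf _
  refine ⟨hQ, ?_, ?_, ?_, ?_, ?_, ?_⟩
  · intro f hf
    beta_reduce
    rw [h.off f hf]
    split_ifs <;> rfl
  · beta_reduce
    rw [if_pos isCoprime_one_left, h.one]
  · intro f g hf hg
    beta_reduce
    by_cases h1 : IsCoprime f Q <;> by_cases h2 : IsCoprime g Q
    · rw [if_pos h1, if_pos h2, if_pos (h1.mul_left h2), h.mul f g hf hg]
    · rw [if_neg h2, mul_zero, if_neg (fun h3 => h2 h3.of_mul_left_right)]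
    · rw [if_neg h1, zero_mul, if_neg (fun h3 => h1 h3.of_mul_left_left)]
    · rw [if_neg h1, zero_mul, if_neg (fun h3 => h1 h3.of_mul_left_left)]
  · intro f hf hc
    beta_reduce
    rw [if_pos hc]
    exact h.norm f hf (IsCoprime.of_isCoprime_of_dvd_right hc hd)
  · intro f hf hc
    beta_reduce
    rw [if_neg hc]
  · intro f g hf hg h1 h2
    beta_reduce
    by_cases h5 : IsCoprime f Q
    · rw [if_pos h5, if_pos (hdiv f g h1 h5), h.per f g hf hg (hd.trans h1)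
        ((pow_dvd_pow X (by omega)).trans h2)]
    · rw [if_neg h5, if_neg]
      intro h6
      apply h5
      apply hdiv g f _ h6
      rw [← dvd_neg, neg_sub]
      exact h1

variable [Fintype F]

open Classical in
theorem core1 (ε : ℝ) (hε : 0 < ε) : ∃ C0 : ℝ, 0 < C0 ∧ ∀ (Q : F[X]) (l h n : ℕ), n = Q.natDegree + h + l →
    ∀ (ρ : F[X] → ℂ), Hay Q l ρ → ∀ s : ℂ, ‖s‖ = 1 → ∀ {ι : Type} (I : Finset ι) (g : ι → F[X]),
    (∀ i ∈ I, (g i).Monic ∧ (g i).natDegree = n ∧ IsCoprime (g i) Q) → ∀ m : ℕ,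
    (∀ i ∈ I, (I.filter (fun j => Eqv Q l (g j) (g i))).card ≤ m) →
    ∑ i ∈ I, ‖∑ e ∈ PL F h, HH (tws s ρ) (g i + Q * e)‖ ≤
      √((I.card : ℝ) * m) * (C0 * √(Fintype.card F : ℝ) ^ n * Real.exp (ε * ((n + Q.natDegree + l : ℕ) : ℝ))) := by
  obtain ⟨C0, hC0, hH⟩ := HH_bound (F := F) ε hε
  refine ⟨C0, hC0, ?_⟩
  intro Q l h n hn ρ hρ s hs ι I g hg m hm
  have h1 := first_moment hρ.monic l n (HH (tws s ρ))
    (C0 * √(Fintype.card F : ℝ) ^ n * Real.exp (ε * ((n + Q.natDegree + l : ℕ) : ℝ))) (by positivity)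
    (fun χ hχ => hH Q l χ ρ hχ hρ s hs n) I g (fun i hi => ⟨(hg i hi).1, (hg i hi).2.2⟩) m hm
  refine le_trans (le_of_eq ?_) h1
  refine sum_congr rfl fun i hi => ?_
  rw [SC_eq hρ.monic hn (hg i hi).1 (hg i hi).2.1]

end Pool.Agent.H456.RN
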