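import Pool.Agent.H456.RN.Core

/-!
# The core estimate with discriminants not prime to the modulus
-/

set_option autoImplicit false
set_option linter.all false
set_option maxHeartbeats 2000000

open Finset Polynomial ComplexConjugate
open Pool.Agent.H341R2.Sharp (Mon mem_Mon)
open Pool.Agent.Q284.PS Pool.Agent.Q53.PS

namespace Pool.Agent.H456.RN

variable {F : Type} [Field F] [Fintype F]

open Classical in
/-- one part: fixed leading coefficient, fixed part at the modulus, fixed degree -/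
theorem core_part (ε : ℝ) (hε : 0 < ε) : ∃ C0 : ℝ, 0 < C0 ∧ ∀ (A Mo : F[X]), A.Monic → Mo.Monic →
    ∀ (h k l0 N1 : ℕ) (Q0 : F[X]), Q0 ∣ A → ∀ (ρ σ : F[X] → ℂ), Hay Q0 l0 ρ → ∀ s : ℂ, ‖s‖ = 1 →
    (∀ P : F[X], P.Monic → Irreducible P → ¬ P ∣ A → ¬ P ∣ Mo → σ P = s ^ P.natDegree * ρ P) →
    ∀ {ι : Type} (I : Finset ι) (D : ι → F[X]) (ℓ : F) (r t : F[X]) (g : ι → F[X]) (n : ℕ),
    ℓ ≠ 0 → r.Monic → t.Monic → Mo = r * t → (∀ P : F[X], P.Monic → Irreducible P → P ∣ Mo → P ∣ t) →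
    A.natDegree + Mo.natDegree + h + l0 ≤ n → n ≤ N1 →
    (∀ i ∈ I, (g i).Monic ∧ IsCoprime (g i) (A * t) ∧ D i = C ℓ * (r * g i) ∧ (D i).natDegree = n) →
    ∀ m : ℕ, (∀ i ∈ I, (I.filter (fun j => A * Mo ∣ D j - D i ∧
      (D j - D i).degree < ((A.natDegree + Mo.natDegree + h : ℕ) : WithBot ℕ))).card ≤ m) →
    ∑ i ∈ I, ‖∑ c ∈ PL F h, WtM Mo σ (D i + A * Mo * c)‖ ≤
      √((I.card : ℝ) * m) * (C0 * √(Fintype.card F : ℝ) ^ N1 * Real.exp (ε * (2 * N1 : ℕ))) := by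
  obtain ⟨C0, hC0, hcore⟩ := core1 (F := F) ε hε
  refine ⟨C0, hC0, ?_⟩
  intro A Mo hA hMo h k l0 N1 Q0 hQ0 ρ σ hρ s hs hσ ι I D ℓ r t g n hℓ hr ht hMrt hPt hn hnN hI m hm
  set q : ℝ := (Fintype.card F : ℝ) with hq
  have hq1 : 1 ≤ q := by
    rw [hq]
    exact_mod_cast Fintype.card_pos (α := F)
  have hs1 : 1 ≤ √q := by rw [Real.one_le_sqrt]; exact hq1
  set Q := A * t with hQ
  have hQm : Q.Monic := hA.mul ht
  have hMd : Mo.natDegree = r.natDegree + t.natDegree := by rw [hMrt, hr.natDegree_mul ht]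
  have hQd : Q.natDegree = A.natDegree + t.natDegree := hA.natDegree_mul ht
  set n' := n - r.natDegree with hn'
  set l := n' - Q.natDegree - h with hl
  have hll : l0 ≤ l := by omega
  have hn'l : n' = Q.natDegree + h + l := by omega
  have hρ' := hay_raise hρ hQm (hQ0.trans (dvd_mul_right A t)) hll
  set ρ' : F[X] → ℂ := fun f => if IsCoprime f Q then ρ f else 0 with hρ'def
  have hgd : ∀ i ∈ I, (g i).natDegree = n' := by
    intro i hi
    obtain ⟨h1, h2, h3, h4⟩ := hI i hi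
    rw [h3, natDegree_C_mul hℓ, hr.natDegree_mul h1] at h4
    omega
  have hmult : ∀ i ∈ I, (I.filter (fun j => Eqv Q l (g j) (g i))).card ≤ m := by
    intro i hi
    refine le_trans (card_le_card ?_) (hm i hi)
    intro j hj
    rw [mem_filter] at hj ⊢
    refine ⟨hj.1, ?_⟩
    have h1 := (eqv_iff (hgd j hj.1) (hgd i hi) (by omega : l ≤ n')).1 hj.2
    have h2 : D j - D i = C ℓ * (r * (g j - g i)) := by
      rw [(hI j hj.1).2.2.1, (hI i hi).2.2.1]; ring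
    obtain ⟨⟨e, he⟩, h3⟩ := h1
    refine ⟨⟨C ℓ * e, ?_⟩, ?_⟩
    · rw [h2, he, hQ, hMrt]; ring
    · rw [h2]
      by_cases h0 : g j - g i = 0
      · rw [h0, mul_zero, mul_zero, degree_zero]
        exact WithBot.bot_lt_coe _
      · rw [degree_C_mul hℓ, degree_mul, degree_eq_natDegree hr.ne_zero]
        rw [degree_eq_natDegree h0] at h3 ⊢
        have h4 : (g j - g i).natDegree < n' - l := by exact_mod_cast h3
        exact_mod_cast (by omega : r.natDegree + (g j - g i).natDegree < A.natDegree + Mo.natDegree + h)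
  have h1 := hcore Q l h n' hn'l ρ' hρ' s hs I g (fun i hi => ⟨(hI i hi).1, hgd i hi, (hI i hi).2.1⟩) m hmult
  have h2 : ∀ i ∈ I, ∑ c ∈ PL F h, WtM Mo σ (D i + A * Mo * c) =
      ∑ e ∈ PL F h, HH (tws s ρ') (g i + Q * e) := by
    intro i hi
    obtain ⟨hg1, hg2, hg3, hg4⟩ := hI i hi
    rw [← sum_smul h hℓ (fun c => WtM Mo σ (D i + A * Mo * c))]
    refine sum_congr rfl fun e he => ?_
    have h3 : D i + A * Mo * (C ℓ * e) = C ℓ * (r * (g i + Q * e)) := by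
      rw [hg3, hQ, hMrt]; ring
    obtain ⟨h4, h5⟩ := add_PL_monic (Q := Q) (h := h) hg1 (hgd i hi) (by omega) he
    have h6 : IsCoprime (g i + Q * e) Q := IsCoprime.add_mul_left_left hg2 _
    rw [h3, WtM_eq σ hℓ hr ⟨t, hMrt⟩ h4]
    · unfold HH
      refine prod_congr rfl fun P hP => ?_
      rw [mem_pr h4.ne_zero] at hP
      obtain ⟨hP1, hP2, hP3⟩ := hP
      have h7 : IsCoprime P Q := IsCoprime.of_isCoprime_of_dvd_left h6 hP3
      have h8 : ¬ P ∣ Q := fun hd => hP2.not_isUnit (h7.isUnit_of_dvd' dvd_rfl hd)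
      have h9 : ¬ P ∣ A := fun hd => h8 (hd.mul_right t)
      have h10 : ¬ P ∣ Mo := fun hd => h8 ((hPt P hP1 hP2 hd).mul_left A)
      rw [hσ P hP1 hP2 h9 h10]
      unfold tws
      rw [hρ'def]
      beta_reduce
      rw [if_pos h7]
    · intro P hP1 hP2 hP3 hP4
      have h7 : IsCoprime P Q := IsCoprime.of_isCoprime_of_dvd_left h6 hP3
      exact hP2.not_isUnit (h7.isUnit_of_dvd' dvd_rfl ((hPt P hP1 hP2 hP4).mul_left A))
  rw [sum_congr rfl (fun i hi => by rw [h2 i hi])]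
  refine h1.trans ?_
  apply mul_le_mul_of_nonneg_left _ (Real.sqrt_nonneg _)
  have h3 : √q ^ n' ≤ √q ^ N1 := pow_le_pow_right₀ hs1 (by omega)
  have h4 : Real.exp (ε * ((n' + Q.natDegree + l : ℕ) : ℝ)) ≤ Real.exp (ε * (2 * N1 : ℕ)) := by
    apply Real.exp_le_exp.2
    apply mul_le_mul_of_nonneg_left _ hε.le
    exact_mod_cast (by omega : n' + Q.natDegree + l ≤ 2 * N1)
  exact mul_le_mul (mul_le_mul_of_nonneg_left h3 hC0.le) h4 (Real.exp_pos _).le (by positivity)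

open Classical in
/-- the core estimate -/
theorem core (ε : ℝ) (hε : 0 < ε) : ∃ C0 : ℝ, 0 < C0 ∧ ∀ (A Mo : F[X]), A.Monic → Mo.Monic →
    ∀ (h k l0 n0 : ℕ) (Q0 : F[X]), Q0 ∣ A → ∀ (ρ σ : F[X] → ℂ), Hay Q0 l0 ρ → ∀ s : ℂ, ‖s‖ = 1 →
    (∀ P : F[X], P.Monic → Irreducible P → ¬ P ∣ A → ¬ P ∣ Mo → σ P = s ^ P.natDegree * ρ P) →
    (∀ P : F[X], P.Monic → Irreducible P → P ∣ Mo → P ^ (k + 1) ∣ Mo) →
    A.natDegree + Mo.natDegree + h + l0 ≤ n0 →
    ∀ {ι : Type} (I : Finset ι) (D : ι → F[X]),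
    (∀ i ∈ I, D i ≠ 0 ∧ n0 ≤ (D i).natDegree ∧ (D i).natDegree ≤ n0 + k) →
    (∀ i ∈ I, ∀ P : F[X], P.Monic → Irreducible P → P ∣ Mo → ¬ P ^ (k + 1) ∣ D i) →
    (∀ i ∈ I, ∀ P : F[X], P.Monic → Irreducible P → ¬ P ∣ Mo → P ∣ A → ¬ P ∣ D i) →
    ∀ m : ℕ, (∀ i ∈ I, (I.filter (fun j => A * Mo ∣ D j - D i ∧
      (D j - D i).degree < ((A.natDegree + Mo.natDegree + h : ℕ) : WithBot ℕ))).card ≤ m) →
    ∑ i ∈ I, ‖∑ c ∈ PL F h, WtM Mo σ (D i + A * Mo * c)‖ ≤
      ((Fintype.card F : ℝ) * (Fintype.card F : ℝ) ^ (Mo.natDegree + 1) * (n0 + k + 1)) *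
      (√((I.card : ℝ) * m) *
      (C0 * √(Fintype.card F : ℝ) ^ (n0 + k) * Real.exp (ε * (2 * (n0 + k) : ℕ)))) := by
  obtain ⟨C0, hC0, hpart⟩ := core_part (F := F) ε hε
  refine ⟨C0, hC0, ?_⟩
  intro A Mo hA hMo h k l0 n0 Q0 hQ0 ρ σ hρ s hs hσ hk hn0 ι I D hI1 hI2 hI3 m hm
  set q : ℝ := (Fintype.card F : ℝ) with hq
  have hex : ∀ i : ι, ∃ x : F[X] × F[X] × F[X], i ∈ I → (x.1.Monic ∧ x.2.1.Monic ∧ x.2.2.Monic ∧ Mo = x.1 * x.2.1 ∧
      D i = C (D i).leadingCoeff * (x.1 * x.2.2) ∧ IsCoprime x.2.2 (A * x.2.1) ∧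
      (∀ P : F[X], P.Monic → Irreducible P → P ∣ Mo → P ∣ x.2.1)) := by
    intro i
    by_cases hi : i ∈ I
    · obtain ⟨r, t, g, h1⟩ := split_D hMo (hI1 i hi).1 k hk (hI2 i hi) (hI3 i hi) hA.ne_zero
      exact ⟨(r, t, g), fun _ => h1⟩
    · exact ⟨(1, 1, 1), fun h => absurd h hi⟩
  choose x hx using hex
  set key : ι → F × F[X] × ℕ := fun i => ((D i).leadingCoeff, (x i).1, (D i).natDegree) with hkey
  set K : Finset (F × F[X] × ℕ) := univ ×ˢ (PL F (Mo.natDegree + 1) ×ˢ range (n0 + k + 1)) with hK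
  have hmaps : ∀ i ∈ I, key i ∈ K := by
    intro i hi
    rw [hkey, hK, mem_product, mem_product]
    refine ⟨mem_univ _, ?_, ?_⟩
    · apply mem_PL_of_natDegree
      obtain ⟨h1, h2, h3, h4, h5⟩ := hx i hi
      have h6 : Mo.natDegree = (x i).1.natDegree + (x i).2.1.natDegree := by
        conv_lhs => rw [h4]
        rw [h1.natDegree_mul h2]
      change (x i).1.natDegree < Mo.natDegree + 1
      omega
    · rw [mem_range]
      have := (hI1 i hi).2.2
      change (D i).natDegree < n0 + k + 1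
      omega
  rw [← sum_fiberwise_of_maps_to hmaps]
  have hfib : ∀ κ ∈ K, ∑ i ∈ I.filter (fun i => key i = κ), ‖∑ c ∈ PL F h, WtM Mo σ (D i + A * Mo * c)‖ ≤
      √((I.card : ℝ) * m) * (C0 * √q ^ (n0 + k) * Real.exp (ε * (2 * (n0 + k) : ℕ))) := by
    intro κ hκ
    rcases (I.filter (fun i => key i = κ)).eq_empty_or_nonempty with h0 | ⟨i0, hi0⟩
    · rw [h0, sum_empty]
      positivity
    · rw [mem_filter] at hi0
      obtain ⟨hi0, hki0⟩ := hi0
      obtain ⟨h1, h2, h3, h4, h5, h6, h7⟩ := hx i0 hi0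
      have hsub : I.filter (fun i => key i = κ) ⊆ I := filter_subset _ _
      have hkk : ∀ i ∈ I.filter (fun i => key i = κ), i ∈ I ∧ (D i).leadingCoeff = (D i0).leadingCoeff ∧
          (x i).1 = (x i0).1 ∧ (D i).natDegree = (D i0).natDegree ∧ (x i).2.1 = (x i0).2.1 := by
        intro i hi
        rw [mem_filter] at hi
        have h8 : key i = key i0 := hi.2.trans hki0.symm
        rw [hkey] at h8
        simp only [Prod.mk.injEq] at h8
        refine ⟨hi.1, h8.1, h8.2.1, h8.2.2, ?_⟩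
        have h9 := (hx i hi.1).2.2.2.1
        rw [h8.2.1] at h9
        rw [h4] at h9
        exact (mul_left_cancel₀ h1.ne_zero h9).symm
      have h8 := hpart A Mo hA hMo h k l0 (n0 + k) Q0 hQ0 ρ σ hρ s hs hσ (I.filter (fun i => key i = κ)) D
        (D i0).leadingCoeff (x i0).1 (x i0).2.1 (fun i => (x i).2.2) (D i0).natDegree
        (leadingCoeff_ne_zero.2 (hI1 i0 hi0).1) h1 h2 h4 h7 (hn0.trans (hI1 i0 hi0).2.1)
        (hI1 i0 hi0).2.2 (by
          intro i hi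
          obtain ⟨h9, h10, h11, h12, h13⟩ := hkk i hi
          obtain ⟨a1, a2, a3, a4, a5, a6, a7⟩ := hx i h9
          refine ⟨a3, ?_, ?_, h12⟩
          · rw [← h13]; exact a6
          · rw [← h10, ← h11]; exact a5) m (by
          intro i hi
          refine le_trans (card_le_card ?_) (hm i (hsub hi))
          exact filter_subset_filter _ hsub)
      refine h8.trans ?_
      apply mul_le_mul_of_nonneg_right _ (by positivity)
      apply Real.sqrt_le_sqrt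
      apply mul_le_mul_of_nonneg_right _ (Nat.cast_nonneg m)
      exact_mod_cast card_le_card hsub
  refine (sum_le_card_nsmul _ _ _ hfib).trans (le_of_eq ?_)
  rw [nsmul_eq_mul]
  congr 1
  rw [hK, card_product, card_product, card_univ, card_PL, card_range]
  push_cast
  rw [hq]
  ring

end Pool.Agent.H456.RN
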