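import Pool.Agent.H456.RN.Core2

/-!
# The core estimate when the progression fills all degrees
-/

set_option autoImplicit false
set_option linter.all false
set_option maxHeartbeats 2000000

open Finset Polynomial ComplexConjugate
open Pool.Agent.H341R2.Sharp (Mon mem_Mon)
open Pool.Agent.Q284.PS Pool.Agent.Q53.PS

namespace Pool.Agent.H456.RN

variable {F : Type} [Field F] [Fintype F]

open Classical in
/-- nonzero polynomials by leading coefficient and degree -/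
theorem sum_PL_ne_zero {M : Type} [AddCommMonoid M] (n : ℕ) (φ : F[X] → M) :
    ∑ D ∈ (PL F n).filter (fun D => D ≠ 0), φ D =
      ∑ ℓ ∈ (univ : Finset F).filter (fun ℓ => ℓ ≠ 0), ∑ j ∈ range n, ∑ f ∈ Mon F j, φ (C ℓ * f) := by
  rw [← sum_fiberwise_of_maps_to (s := (PL F n).filter (fun D => D ≠ 0))
    (t := ((univ : Finset F).filter (fun ℓ => ℓ ≠ 0)) ×ˢ range n) (g := fun D => (D.leadingCoeff, D.natDegree)),
    sum_product]
  · refine sum_congr rfl fun ℓ hℓ => sum_congr rfl fun j hj => ?_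
    have hℓ0 : ℓ ≠ 0 := (mem_filter.1 hℓ).2
    rw [mem_range] at hj
    refine sum_bij' (fun D _ => C ℓ⁻¹ * D) (fun f _ => C ℓ * f) ?_ ?_ ?_ ?_ ?_
    · intro D hD
      rw [mem_filter, mem_filter] at hD
      obtain ⟨⟨h1, h2⟩, h3⟩ := hD
      rw [Prod.mk.injEq] at h3
      rw [mem_Mon]
      refine ⟨?_, ?_⟩
      · rw [Monic, leadingCoeff_mul, leadingCoeff_C, h3.1, inv_mul_cancel₀ hℓ0]
      · rw [natDegree_C_mul (inv_ne_zero hℓ0), h3.2]
    · intro f hf
      rw [mem_Mon] at hf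
      rw [mem_filter, mem_filter]
      refine ⟨⟨?_, ?_⟩, ?_⟩
      · apply C_mul_mem_PL
        apply mem_PL_of_natDegree
        omega
      · exact mul_ne_zero (C_ne_zero.2 hℓ0) hf.1.ne_zero
      · rw [leadingCoeff_mul, leadingCoeff_C, hf.1.leadingCoeff, mul_one, natDegree_C_mul hℓ0, hf.2]
    · intro D _
      rw [← mul_assoc, ← C_mul, mul_inv_cancel₀ hℓ0, C_1, one_mul]
    · intro f _
      rw [← mul_assoc, ← C_mul, inv_mul_cancel₀ hℓ0, C_1, one_mul]
    · intro D _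
      rw [← mul_assoc, ← C_mul, mul_inv_cancel₀ hℓ0, C_1, one_mul]
  · intro D hD
    rw [mem_filter] at hD
    rw [mem_product, mem_filter, mem_range]
    exact ⟨⟨mem_univ _, leadingCoeff_ne_zero.2 hD.2⟩, natDegree_lt_of_mem_PL hD.1 hD.2⟩

open Classical in
/-- progressions filling all degrees -/
theorem coreA (ε : ℝ) (hε : 0 < ε) : ∃ C0 : ℝ, 0 < C0 ∧ ∀ (A : F[X]), A.Monic →
    ∀ (h n1 : ℕ), A.natDegree + h = n1 + 1 → ∀ (ρ σ : F[X] → ℂ), Hay A 0 ρ → ∀ s : ℂ, ‖s‖ = 1 →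
    (∀ P : F[X], P.Monic → Irreducible P → ¬ P ∣ A → σ P = s ^ P.natDegree * ρ P) →
    ∀ (ω : ℕ → ℂ), (∀ n, ‖ω n‖ ≤ 1) → ∀ {ι : Type} (I : Finset ι) (D : ι → F[X]),
    (∀ i ∈ I, D i ∈ PL F (n1 + 1) ∧ IsCoprime (D i) A ∧ ∀ c ∈ PL F h, D i + A * c ≠ 0) →
    ∀ m : ℕ, (∀ i ∈ I, (I.filter (fun j => A ∣ D j - D i)).card ≤ m) →
    ∑ i ∈ I, ‖∑ c ∈ PL F h, ω (D i + A * c).natDegree * WtM 1 σ (D i + A * c)‖ ≤
      ((Fintype.card F : ℝ) * (n1 + 1)) * (√((I.card : ℝ) * m) *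
      (C0 * √(Fintype.card F : ℝ) ^ n1 * Real.exp (ε * ((2 * n1 + 1 : ℕ) : ℝ)))) := by
  obtain ⟨C0, hC0, hH⟩ := HH_bound (F := F) ε hε
  refine ⟨C0, hC0, ?_⟩
  intro A hA h n1 hn1 ρ σ hρ s hs hσ ω hω ι I D hI m hm
  set q : ℝ := (Fintype.card F : ℝ) with hq
  have hq1 : 1 ≤ q := by
    rw [hq]
    exact_mod_cast Fintype.card_pos (α := F)
  have hs1 : 1 ≤ √q := by rw [Real.one_le_sqrt]; exact hq1
  -- the sum over the progression
  have e1 : ∀ i ∈ I, ∑ c ∈ PL F h, ω (D i + A * c).natDegree * WtM 1 σ (D i + A * c) =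
      ∑ ℓ ∈ (univ : Finset F).filter (fun ℓ => ℓ ≠ 0), ∑ n ∈ range (n1 + 1),
        ω n * SC A 0 n (HH (tws s ρ)) (C ℓ⁻¹ * D i + A * X ^ (n1 + 1)) := by
    intro i hi
    obtain ⟨h1, h2, h3⟩ := hI i hi
    have e2 : ∑ c ∈ PL F h, ω (D i + A * c).natDegree * WtM 1 σ (D i + A * c) =
        ∑ E ∈ (PL F (n1 + 1)).filter (fun E => E ≠ 0),
          (if A ∣ E - D i then ω E.natDegree * WtM 1 σ E else 0) := by
      rw [← sum_filter, filter_filter]
      refine sum_bij (fun c _ => D i + A * c) ?_ ?_ ?_ ?_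
      · intro c hc
        rw [mem_filter]
        refine ⟨add_mem_PL h1 ?_, h3 c hc, ?_⟩
        · rw [← hn1]; exact mul_mem_PL le_rfl hc
        · rw [add_sub_cancel_left]; exact dvd_mul_right _ _
      · intro c _ c' _ hcc
        exact mul_left_cancel₀ hA.ne_zero (add_left_cancel hcc)
      · intro E hE
        rw [mem_filter] at hE
        obtain ⟨h4, h5, c, hc⟩ := hE
        refine ⟨c, ?_, ?_⟩
        · have h6 : A * c ∈ PL F (n1 + 1) := by rw [← hc]; exact sub_mem_PL h4 h1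
          by_cases h0 : c = 0
          · rw [h0]; exact zero_mem_PL _
          · apply mem_PL_of_natDegree
            have h7 := natDegree_lt_of_mem_PL h6 (mul_ne_zero hA.ne_zero h0)
            rw [hA.natDegree_mul' h0] at h7
            omega
        · rw [← hc]; ring
      · intro c _; rfl
    rw [e2, sum_PL_ne_zero]
    refine sum_congr rfl fun ℓ hℓ => sum_congr rfl fun n hn => ?_
    have hℓ0 : ℓ ≠ 0 := (mem_filter.1 hℓ).2
    unfold SC
    rw [sum_filter, mul_sum]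
    refine sum_congr rfl fun f hf => ?_
    rw [mem_Mon] at hf
    set g := C ℓ⁻¹ * D i + A * X ^ (n1 + 1) with hg
    have hgm : g.Monic := by
      have h4 : (A * X ^ (n1 + 1)).Monic := hA.mul (monic_X_pow _)
      rw [hg, add_comm]
      apply h4.add_of_left
      have h5 := C_mul_mem_PL ℓ⁻¹ h1
      rw [mem_PL] at h5
      refine h5.trans_le ?_
      rw [degree_eq_natDegree h4.ne_zero, hA.natDegree_mul (monic_X_pow _), natDegree_X_pow]
      exact_mod_cast (by omega : n1 + 1 ≤ A.natDegree + (n1 + 1))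
    have hiff : A ∣ C ℓ * f - D i ↔ Eqv A 0 f g := by
      unfold Eqv
      have h4 : X ^ (0 + 1) ∣ f.reverse - g.reverse := by
        rw [zero_add, pow_one, X_dvd_iff, coeff_sub, coeff_zero_reverse, coeff_zero_reverse,
          hf.1.leadingCoeff, hgm.leadingCoeff, sub_self]
      have h5 : f - g = C ℓ⁻¹ * (C ℓ * f - D i) - A * X ^ (n1 + 1) := by
        rw [hg]
        have : C ℓ⁻¹ * C ℓ = (1 : F[X]) := by rw [← C_mul, inv_mul_cancel₀ hℓ0, C_1]
        linear_combination (-f) * this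
      have h6 : C ℓ * f - D i = C ℓ * (f - g + A * X ^ (n1 + 1)) := by
        rw [h5]
        have : C ℓ * C ℓ⁻¹ = (1 : F[X]) := by rw [← C_mul, mul_inv_cancel₀ hℓ0, C_1]
        linear_combination (-(C ℓ * f - D i)) * this
      constructor
      · intro h7
        refine ⟨?_, h4⟩
        rw [h5]
        exact dvd_sub (h7.mul_left _) (dvd_mul_right _ _)
      · rintro ⟨h7, _⟩
        rw [h6]
        exact (dvd_add h7 (dvd_mul_right _ _)).mul_left _
    by_cases h4 : A ∣ C ℓ * f - D i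
    · rw [if_pos h4, if_pos (hiff.1 h4), natDegree_C_mul hℓ0, hf.2]
      congr 1
      have h5 : C ℓ * f = C ℓ * (1 * f) := by rw [one_mul]
      have hcop : IsCoprime f A := by
        have h6 : IsCoprime (C ℓ * f) A := by
          obtain ⟨e, he⟩ := h4
          have h7 : C ℓ * f = D i + A * e := by rw [← he]; ring
          rw [h7]
          exact IsCoprime.add_mul_left_left h2 _
        exact IsCoprime.of_isCoprime_of_dvd_left h6 (dvd_mul_left _ _)
      rw [h5, WtM_eq σ hℓ0 monic_one dvd_rfl hf.1 (fun P _ hP2 _ hP4 => hP2.not_isUnit (isUnit_of_dvd_one hP4))]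
      unfold HH
      refine prod_congr rfl fun P hP => ?_
      rw [mem_pr hf.1.ne_zero] at hP
      have h8 : ¬ P ∣ A := fun hd => hP.2.1.not_isUnit (hcop.isUnit_of_dvd' hP.2.2 hd)
      rw [hσ P hP.1 hP.2.1 h8]
      rfl
    · rw [if_neg h4, if_neg (fun h5 => h4 (hiff.2 h5)), mul_zero]
  rw [sum_congr rfl (fun i hi => by rw [e1 i hi])]
  have hstep : ∀ ℓ ∈ (univ : Finset F).filter (fun ℓ => ℓ ≠ 0), ∀ n ∈ range (n1 + 1),
      ∑ i ∈ I, ‖SC A 0 n (HH (tws s ρ)) (C ℓ⁻¹ * D i + A * X ^ (n1 + 1))‖ ≤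
        √((I.card : ℝ) * m) * (C0 * √q ^ n1 * Real.exp (ε * ((2 * n1 + 1 : ℕ) : ℝ))) := by
    intro ℓ hℓ n hn
    have hℓ0 : ℓ ≠ 0 := (mem_filter.1 hℓ).2
    rw [mem_range] at hn
    refine first_moment hA 0 n (HH (tws s ρ)) _ (by positivity) (fun χ hχ => ?_) I _ (fun i hi => ?_) m
      (fun i hi => ?_)
    · refine (hH A 0 χ ρ hχ hρ s hs n).trans ?_
      have h3 : √q ^ n ≤ √q ^ n1 := pow_le_pow_right₀ hs1 (by omega)
      have h4 : Real.exp (ε * ((n + A.natDegree + 0 : ℕ) : ℝ)) ≤ Real.exp (ε * ((2 * n1 + 1 : ℕ) : ℝ)) := by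
        apply Real.exp_le_exp.2
        apply mul_le_mul_of_nonneg_left _ hε.le
        exact_mod_cast (by omega : n + A.natDegree + 0 ≤ 2 * n1 + 1)
      exact mul_le_mul (mul_le_mul_of_nonneg_left h3 hC0.le) h4 (Real.exp_pos _).le (by positivity)
    · obtain ⟨h1, h2, h3⟩ := hI i hi
      refine ⟨?_, ?_⟩
      · have h4 : (A * X ^ (n1 + 1)).Monic := hA.mul (monic_X_pow _)
        rw [add_comm]
        apply h4.add_of_left
        have h5 := C_mul_mem_PL ℓ⁻¹ h1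
        rw [mem_PL] at h5
        refine h5.trans_le ?_
        rw [degree_eq_natDegree h4.ne_zero, hA.natDegree_mul (monic_X_pow _), natDegree_X_pow]
        exact_mod_cast (by omega : n1 + 1 ≤ A.natDegree + (n1 + 1))
      · apply IsCoprime.add_mul_left_left
        exact (isCoprime_mul_unit_left_left (isUnit_C.2 (isUnit_iff_ne_zero.2 (inv_ne_zero hℓ0))) _ _).2 h2
    · refine le_trans (card_le_card ?_) (hm i hi)
      intro j hj
      rw [mem_filter] at hj ⊢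
      refine ⟨hj.1, ?_⟩
      have h4 := hj.2.1
      have h5 : C ℓ⁻¹ * D j + A * X ^ (n1 + 1) - (C ℓ⁻¹ * D i + A * X ^ (n1 + 1)) = C ℓ⁻¹ * (D j - D i) := by ring
      rw [h5] at h4
      exact (IsUnit.dvd_mul_left (isUnit_C.2 (isUnit_iff_ne_zero.2 (inv_ne_zero hℓ0)))).1 h4
  calc ∑ i ∈ I, ‖∑ ℓ ∈ (univ : Finset F).filter (fun ℓ => ℓ ≠ 0), ∑ n ∈ range (n1 + 1),
        ω n * SC A 0 n (HH (tws s ρ)) (C ℓ⁻¹ * D i + A * X ^ (n1 + 1))‖ ≤
      ∑ i ∈ I, ∑ ℓ ∈ (univ : Finset F).filter (fun ℓ => ℓ ≠ 0), ∑ n ∈ range (n1 + 1),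
        ‖SC A 0 n (HH (tws s ρ)) (C ℓ⁻¹ * D i + A * X ^ (n1 + 1))‖ := by
        refine sum_le_sum fun i _ => (norm_sum_le _ _).trans (sum_le_sum fun ℓ _ => (norm_sum_le _ _).trans
          (sum_le_sum fun n _ => ?_))
        rw [norm_mul]
        calc _ ≤ 1 * _ := mul_le_mul_of_nonneg_right (hω n) (norm_nonneg _)
          _ = _ := one_mul _
    _ = ∑ ℓ ∈ (univ : Finset F).filter (fun ℓ => ℓ ≠ 0), ∑ n ∈ range (n1 + 1), ∑ i ∈ I,
        ‖SC A 0 n (HH (tws s ρ)) (C ℓ⁻¹ * D i + A * X ^ (n1 + 1))‖ := by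
        rw [sum_comm]
        refine sum_congr rfl fun ℓ _ => ?_
        rw [sum_comm]
    _ ≤ ∑ ℓ ∈ (univ : Finset F).filter (fun ℓ => ℓ ≠ 0), ∑ n ∈ range (n1 + 1),
        √((I.card : ℝ) * m) * (C0 * √q ^ n1 * Real.exp (ε * ((2 * n1 + 1 : ℕ) : ℝ))) :=
        sum_le_sum fun ℓ hℓ => sum_le_sum fun n hn => hstep ℓ hℓ n hn
    _ ≤ _ := by
        rw [sum_const, sum_const, card_range, nsmul_eq_mul, nsmul_eq_mul, ← mul_assoc]
        apply mul_le_mul_of_nonneg_right _ (by positivity)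
        have h4 : (((univ : Finset F).filter (fun ℓ => ℓ ≠ 0)).card : ℝ) ≤ q := by
          rw [hq]
          exact_mod_cast (card_filter_le _ _).trans (le_of_eq card_univ)
        push_cast
        exact mul_le_mul_of_nonneg_right h4 (by positivity)

end Pool.Agent.H456.RN
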