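import Pool.Agent.H456.RN.Stab

/-!
# From sums over equations to densities over isomorphism classes
-/

open Polynomial WeierstrassCurve Finset Filter
open Pool.Agent.H456.RN

namespace Pool.Agent.H456.EC

/-- a sum of a sequence which is `o(ρ^e)` is `o(ρ^d)` -/
theorem geom_littleO {x : ℕ → ℝ} {ρ : ℝ} (hρ : 1 < ρ) (h : Tendsto (fun e => x e / ρ ^ e) atTop (nhds 0)) :
    Tendsto (fun d => (∑ e ∈ range (d + 1), x e) / ρ ^ d) atTop (nhds 0) := by
  have hρ0 : 0 < ρ := by linarith
  have h1 : x =o[atTop] fun e => ρ ^ e := by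
    rw [Asymptotics.isLittleO_iff_tendsto]
    · exact h
    · intro e he
      exact absurd he (pow_ne_zero _ hρ0.ne')
  have hsum : ∀ n, ∑ i ∈ range n, ρ ^ i = (ρ ^ n - 1) / (ρ - 1) := by
    intro n
    exact geom_sum_eq hρ.ne' n
  have h2 : Tendsto (fun n => ∑ i ∈ range n, ρ ^ i) atTop atTop := by
    simp only [hsum]
    apply Tendsto.atTop_div_const (by linarith)
    apply tendsto_atTop_add_const_right
    exact tendsto_pow_atTop_atTop_of_one_lt hρ
  have h3 := h1.sum_range (fun e => by positivity) h2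
  have h4 : (fun n => ∑ i ∈ range n, ρ ^ i) =O[atTop] fun n => ρ ^ n := by
    apply Asymptotics.IsBigO.of_bound (1 / (ρ - 1))
    apply Eventually.of_forall
    intro n
    rw [hsum, Real.norm_eq_abs, Real.norm_eq_abs, abs_of_nonneg, abs_of_nonneg (by positivity)]
    · rw [one_div, div_eq_inv_mul]
      apply mul_le_mul_of_nonneg_left
      · linarith
      · rw [inv_nonneg]; linarith
    · apply div_nonneg
      · have := one_le_pow₀ (n := n) hρ.le
        linarith
      · linarith
  have h5 := h3.trans_isBigO h4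
  have h6 : Tendsto (fun n => (∑ i ∈ range n, x i) / ρ ^ n) atTop (nhds 0) := h5.tendsto_div_nhds_zero
  have h7 := (h6.comp (tendsto_add_atTop_nat 1)).mul_const ρ
  rw [zero_mul] at h7
  refine h7.congr ?_
  intro d
  rw [Function.comp_apply, pow_succ]
  field_simp

section

variable {F : Type} [Field F] [Fintype F]

open Classical in
/-- the two signs -/
theorem sum_sign (s : ℕ → WeierstrassCurve F[X] → ℤ) (hs : ∀ e, ∀ W ∈ Eqn F e, s e W = 1 ∨ s e W = -1) (e : ℕ)
    (f : WeierstrassCurve F[X] → ℝ) :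
    ∑ W ∈ OmF F (fun e W => s e W = 1) e, f W - ∑ W ∈ OmF F (fun e W => s e W = -1) e, f W =
      ∑ W ∈ OmF F (fun _ _ => True) e, (s e W : ℝ) * f W := by
  have h1 : OmF F (fun e W => s e W = 1) e = (OmF F (fun _ _ => True) e).filter (fun W => s e W = 1) := by
    ext W
    rw [mem_filter, mem_OmF, mem_OmF]
    tauto
  have h2 : OmF F (fun e W => s e W = -1) e = (OmF F (fun _ _ => True) e).filter (fun W => ¬ s e W = 1) := by
    ext W
    rw [mem_filter, mem_OmF, mem_OmF]
    constructor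
    · rintro ⟨a, b, c⟩
      refine ⟨⟨a, b, trivial⟩, ?_⟩
      rw [c]; norm_num
    · rintro ⟨⟨a, b, -⟩, c⟩
      exact ⟨a, b, (hs e W a).resolve_left c⟩
  rw [h1, h2, ← sum_filter_add_sum_filter_not (OmF F (fun _ _ => True) e) (fun W => s e W = 1)
    (fun W => (s e W : ℝ) * f W), sub_eq_add_neg, ← sum_neg_distrib]
  congr 1
  · apply sum_congr rfl
    intro W hW
    rw [(mem_filter.1 hW).2]; simp
  · apply sum_congr rfl
    intro W hW
    have hm := (mem_filter.1 hW)
    rw [(hs e W (mem_OmF.1 hm.1).1).resolve_left hm.2]; simp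

open Classical in
theorem density (hchar : (2 : F) = 0 ∨ (3 : F) = 0) (s : ℕ → WeierstrassCurve F[X] → ℤ)
    (hs : ∀ e, ∀ W ∈ Eqn F e, s e W = 1 ∨ s e W = -1)
    (hinv : ∀ e d : ℕ, e ≤ d → ∀ W ∈ Eqn F e, ∀ V ∈ Eqn F d, cls W = cls V → s e W = s d V)
    (hAN : Tendsto (fun e : ℕ => (∑ W ∈ OmF F (fun _ _ => True) e, (s e W : ℝ)) / (Fintype.card F : ℝ) ^ (16 * e + 5))
      atTop (nhds 0))
    (hLB : ∀ e : ℕ, 1 ≤ e → ((Fintype.card F : ℝ) - 1) ^ 2 * (Fintype.card F : ℝ) ^ (16 * e + 3) ≤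
      ((OmF F (fun _ _ => True) e).filter (fun W => W.c₄ ≠ 0)).card)
    (hZ : ∀ e : ℕ, (((EqF F e).filter (fun W => W.c₄ = 0)).card : ℝ) ≤ (Fintype.card F : ℝ) ^ (15 * e + 4)) :
    Tendsto (fun d : ℕ => ((cls '' {W | W ∈ Eqn F d ∧ s d W = 1}).ncard : ℝ) / ((cls '' Eqn F d).ncard : ℝ))
      atTop (nhds (1 / 2)) := by
  set q : ℝ := (Fintype.card F : ℝ) with hq
  have hq2 : 2 ≤ q := two_le_q
  have hq0 : 0 < q := by linarith
  have hq1 : 0 < q - 1 := by linarith
  have hp1 : ClsInv (F := F) (fun e W => s e W = 1) := by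
    intro e d hed W hW V hV h
    simp only [hinv e d hed W hW V hV h]
  have hm1 : ClsInv (F := F) (fun e W => s e W = -1) := by
    intro e d hed W hW V hV h
    simp only [hinv e d hed W hW V hV h]
  have ht1 : ClsInv (F := F) (fun _ _ => True) := by
    intro e d hed W hW V hV h
    exact Iff.rfl
  set x : ℕ → ℝ := fun e => (((OmF F (fun e W => s e W = 1) e).image cls).card : ℝ) -
    (((OmF F (fun e W => s e W = -1) e).image cls).card : ℝ) with hx
  set y : ℕ → ℝ := fun e => (((OmF F (fun _ _ => True) e).image cls).card : ℝ) with hy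
  -- the difference
  have hxe : ∀ e, x e = (∑ W ∈ OmF F (fun _ _ => True) e, (s e W : ℝ) * (st e W : ℝ)) /
      ((q - 1) * q ^ (6 * e + 3)) := by
    intro e
    rw [hx]
    simp only
    rw [card_cls_OmF hp1, card_cls_OmF hm1, ← sub_div, sum_sign s hs e]
  have hye : ∀ e, (((OmF F (fun e W => s e W = 1) e).image cls).card : ℝ) +
      (((OmF F (fun e W => s e W = -1) e).image cls).card : ℝ) = y e := by
    intro e
    rw [hy]
    simp only
    rw [card_cls_OmF hp1, card_cls_OmF hm1, card_cls_OmF ht1, ← add_div]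
    congr 1
    have h1 : OmF F (fun e W => s e W = 1) e = (OmF F (fun _ _ => True) e).filter (fun W => s e W = 1) := by
      ext W
      rw [mem_filter, mem_OmF, mem_OmF]
      tauto
    have h2 : OmF F (fun e W => s e W = -1) e = (OmF F (fun _ _ => True) e).filter (fun W => ¬ s e W = 1) := by
      ext W
      rw [mem_filter, mem_OmF, mem_OmF]
      constructor
      · rintro ⟨a, b, c⟩
        refine ⟨⟨a, b, trivial⟩, ?_⟩
        rw [c]; norm_num
      · rintro ⟨⟨a, b, -⟩, c⟩
        exact ⟨a, b, (hs e W a).resolve_left c⟩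
    rw [h1, h2]
    exact sum_filter_add_sum_filter_not _ _ _
  have hyl : ∀ e, 1 ≤ e → q ^ (10 * e) ≤ y e := by
    intro e he
    rw [hy]
    simp only
    rw [card_cls_OmF ht1, le_div_iff₀ (by positivity)]
    have h1 : ∑ W ∈ (OmF F (fun _ _ => True) e).filter (fun W => W.c₄ ≠ 0), (st e W : ℝ) ≤
        ∑ W ∈ OmF F (fun _ _ => True) e, (st e W : ℝ) := by
      apply sum_le_sum_of_subset_of_nonneg (filter_subset _ _)
      intro W _ _
      positivity
    refine le_trans ?_ h1
    have h2 : ∑ W ∈ (OmF F (fun _ _ => True) e).filter (fun W => W.c₄ ≠ 0), (st e W : ℝ) =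
        ((OmF F (fun _ _ => True) e).filter (fun W => W.c₄ ≠ 0)).card * 2 := by
      rw [sum_congr rfl (g := fun _ => (2 : ℝ)), sum_const, nsmul_eq_mul]
      intro W hW
      rw [mem_filter] at hW
      rw [st_two hchar (mem_OmF.1 hW.1).1.2 hW.2]
      norm_num
    rw [h2]
    have h3 := hLB e he
    have h4 : q ^ (10 * e) * ((q - 1) * q ^ (6 * e + 3)) = (q - 1) * q ^ (16 * e + 3) := by
      rw [show 16 * e + 3 = 10 * e + (6 * e + 3) by omega, pow_add]
      ring
    rw [h4]
    have h5 : (q - 1) * q ^ (16 * e + 3) ≤ (q - 1) ^ 2 * q ^ (16 * e + 3) := by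
      apply mul_le_mul_of_nonneg_right _ (by positivity)
      nlinarith
    have h6 : (0 : ℝ) ≤ ((OmF F (fun _ _ => True) e).filter (fun W => W.c₄ ≠ 0)).card := by positivity
    linarith
  have hxb : ∀ e, |x e| / q ^ (10 * e) ≤
      2 * q ^ 2 * |(∑ W ∈ OmF F (fun _ _ => True) e, (s e W : ℝ)) / q ^ (16 * e + 5)| + 16 * q ^ 2 * (q⁻¹) ^ e := by
    intro e
    set D : ℝ := ∑ W ∈ OmF F (fun _ _ => True) e, (s e W : ℝ) with hD
    have h1 : ∑ W ∈ OmF F (fun _ _ => True) e, (s e W : ℝ) * (st e W : ℝ) =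
        2 * D + ∑ W ∈ OmF F (fun _ _ => True) e, (s e W : ℝ) * ((st e W : ℝ) - 2) := by
      rw [hD, mul_sum, ← sum_add_distrib]
      apply sum_congr rfl
      intro W _
      ring
    have h2 : |∑ W ∈ OmF F (fun _ _ => True) e, (s e W : ℝ) * ((st e W : ℝ) - 2)| ≤ q ^ (15 * e + 4) * (16 * q) := by
      have h3 : ∑ W ∈ OmF F (fun _ _ => True) e, (s e W : ℝ) * ((st e W : ℝ) - 2) =
          ∑ W ∈ (OmF F (fun _ _ => True) e).filter (fun W => W.c₄ = 0), (s e W : ℝ) * ((st e W : ℝ) - 2) := by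
        rw [sum_filter]
        apply sum_congr rfl
        intro W hW
        split_ifs with h
        · rfl
        · rw [st_two hchar (mem_OmF.1 hW).1.2 h]
          norm_num
      rw [h3]
      refine (abs_sum_le_sum_abs _ _).trans ?_
      have h4 : ∀ W ∈ (OmF F (fun _ _ => True) e).filter (fun W => W.c₄ = 0),
          |(s e W : ℝ) * ((st e W : ℝ) - 2)| ≤ 16 * q := by
        intro W hW
        rw [mem_filter] at hW
        have h5 : |(s e W : ℝ)| = 1 := by
          rcases hs e W (mem_OmF.1 hW.1).1 with h | h <;> rw [h] <;> simp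
        rw [abs_mul, h5, one_mul, abs_le]
        have h6 : (st e W : ℝ) ≤ 16 * q := by
          have := st_le e W
          rw [hq]
          exact_mod_cast this
        have h7 : (0 : ℝ) ≤ st e W := by positivity
        constructor <;> linarith
      refine (sum_le_sum h4).trans ?_
      rw [sum_const, nsmul_eq_mul]
      apply mul_le_mul_of_nonneg_right _ (by positivity)
      refine le_trans ?_ (hZ e)
      rw [Nat.cast_le]
      apply card_le_card
      intro W hW
      rw [mem_filter] at hW ⊢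
      exact ⟨mem_EqF.2 (mem_OmF.1 hW.1).1.2, hW.2⟩
    rw [hxe, h1, abs_div, abs_of_pos (show 0 < (q - 1) * q ^ (6 * e + 3) by positivity), div_div,
      div_le_iff₀ (by positivity)]
    refine (abs_add_le _ _).trans ?_
    rw [abs_mul, abs_of_pos (show (0 : ℝ) < 2 by norm_num), abs_div, abs_of_pos (show 0 < q ^ (16 * e + 5) by positivity)]
    have h8 : 2 * |D| ≤ 2 * q ^ 2 * (|D| / q ^ (16 * e + 5)) * ((q - 1) * q ^ (6 * e + 3) * q ^ (10 * e)) := by
      have h9 : 2 * q ^ 2 * (|D| / q ^ (16 * e + 5)) * ((q - 1) * q ^ (6 * e + 3) * q ^ (10 * e)) =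
          2 * |D| * (q - 1) := by
        rw [show 16 * e + 5 = 2 + ((6 * e + 3) + 10 * e) by omega, pow_add q 2, pow_add q (6 * e + 3)]
        field_simp
      rw [h9]
      have : 0 ≤ |D| := abs_nonneg _
      nlinarith
    have h10 : q ^ (15 * e + 4) * (16 * q) ≤ 16 * q ^ 2 * (q⁻¹) ^ e * ((q - 1) * q ^ (6 * e + 3) * q ^ (10 * e)) := by
      have h11 : 16 * q ^ 2 * (q⁻¹) ^ e * ((q - 1) * q ^ (6 * e + 3) * q ^ (10 * e)) =
          q ^ (15 * e + 4) * (16 * q) * (q - 1) := by
        have h12 : q ^ (6 * e + 3) * q ^ (10 * e) = q ^ e * q ^ (15 * e + 3) := by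
          rw [← pow_add, ← pow_add]
          congr 1
          omega
        have h13 : 16 * q ^ 2 * (q⁻¹) ^ e * ((q - 1) * q ^ (6 * e + 3) * q ^ (10 * e)) =
            16 * q ^ 2 * (q⁻¹) ^ e * ((q - 1) * (q ^ (6 * e + 3) * q ^ (10 * e))) := by ring
        rw [h13, h12, inv_pow]
        field_simp
        ring
      rw [h11]
      have : 0 < q ^ (15 * e + 4) * (16 * q) := by positivity
      nlinarith
    calc 2 * |D| + |∑ W ∈ OmF F (fun _ _ => True) e, (s e W : ℝ) * ((st e W : ℝ) - 2)|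
        ≤ 2 * |D| + q ^ (15 * e + 4) * (16 * q) := by linarith
      _ ≤ _ := by
          rw [add_mul]
          exact add_le_add h8 h10
  have hx0 : Tendsto (fun e => x e / (q ^ 10) ^ e) atTop (nhds 0) := by
    rw [tendsto_zero_iff_abs_tendsto_zero]
    refine squeeze_zero (fun e => abs_nonneg _) (g := fun e => 2 * q ^ 2 *
      |(∑ W ∈ OmF F (fun _ _ => True) e, (s e W : ℝ)) / q ^ (16 * e + 5)| + 16 * q ^ 2 * (q⁻¹) ^ e) ?_ ?_
    · intro e
      have h1 := hxb e
      change |x e / (q ^ 10) ^ e| ≤ _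
      rw [abs_div, ← pow_mul, abs_of_pos (show 0 < q ^ (10 * e) by positivity)]
      exact h1
    · have h1 : Tendsto (fun e : ℕ => (q⁻¹) ^ e) atTop (nhds 0) := by
        apply tendsto_pow_atTop_nhds_zero_of_lt_one
        · positivity
        · apply inv_lt_one_of_one_lt₀; linarith
      have h2 := (hAN.abs.const_mul (2 * q ^ 2)).add (h1.const_mul (16 * q ^ 2))
      rw [abs_zero, mul_zero, mul_zero, add_zero] at h2
      exact h2
  have hρ : 1 < q ^ 10 := one_lt_pow₀ (by linarith) (by norm_num)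
  have hX := geom_littleO hρ hx0
  -- the counts
  have hA : ∀ d, ((cls '' Eqn F d).ncard : ℝ) = ∑ e ∈ range (d + 1), y e := by
    intro d
    have h1 := ncard_cls ht1 d
    have h2 : ({W | W ∈ Eqn F d ∧ True} : Set (WeierstrassCurve F[X])) = Eqn F d := by
      ext W; simp
    rw [h2] at h1
    rw [h1]
    push_cast
    rfl
  have hAp : ∀ d, ((cls '' {W | W ∈ Eqn F d ∧ s d W = 1}).ncard : ℝ) =
      (∑ e ∈ range (d + 1), y e + ∑ e ∈ range (d + 1), x e) / 2 := by
    intro d
    rw [ncard_cls hp1 d, ← sum_add_distrib]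
    push_cast
    rw [sum_div]
    apply sum_congr rfl
    intro e _
    rw [← hye e, hx]
    ring
  have hApos : ∀ d, 1 ≤ d → q ^ (10 * d) ≤ ∑ e ∈ range (d + 1), y e := by
    intro d hd
    refine (hyl d hd).trans ?_
    apply single_le_sum (f := y) (fun e _ => ?_) (mem_range.2 (Nat.lt_succ_self d))
    rw [hy]
    positivity
  have hfin : Tendsto (fun d => (∑ e ∈ range (d + 1), x e) / (∑ e ∈ range (d + 1), y e)) atTop (nhds 0) := by
    rw [tendsto_zero_iff_abs_tendsto_zero]
    have hX' := hX.abs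
    rw [abs_zero] at hX'
    refine squeeze_zero' (Eventually.of_forall fun d => abs_nonneg _) ?_ hX'
    filter_upwards [eventually_ge_atTop 1] with d hd
    have h1 := hApos d hd
    have h2 : 0 < q ^ (10 * d) := by positivity
    change |(∑ e ∈ range (d + 1), x e) / (∑ e ∈ range (d + 1), y e)| ≤ |(∑ e ∈ range (d + 1), x e) / (q ^ 10) ^ d|
    rw [abs_div, abs_div, ← pow_mul, abs_of_pos h2, abs_of_pos (h2.trans_le h1)]
    exact div_le_div_of_nonneg_left (abs_nonneg _) h2 h1
  have hfin2 := (hfin.const_mul (1 / 2)).const_add (1 / 2)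
  rw [mul_zero, add_zero] at hfin2
  refine hfin2.congr' ?_
  filter_upwards [eventually_ge_atTop 1] with d hd
  have h1 := hApos d hd
  have h2 : 0 < ∑ e ∈ range (d + 1), y e := lt_of_lt_of_le (by positivity) h1
  rw [hA, hAp]
  field_simp

end

end Pool.Agent.H456.EC
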