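import Pool.Agent.H456.RN.HBound

/-!
# The second moment over the residue classes
-/

set_option autoImplicit false
set_option linter.all false
set_option maxHeartbeats 1000000

open Finset Polynomial ComplexConjugate
open Pool.Agent.H341R2.Sharp (Mon mem_Mon)
open Pool.Agent.Q284.PS Pool.Agent.Q53.PS

namespace Pool.Agent.H456.RN

section abstract_group

/-- Parseval's identity for finite abelian groups -/
theorem parseval (A : Type) [AddCommGroup A] [Fintype A] (S : A → ℂ) :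
    ∑ ψ : AddChar A ℂ, ‖∑ a, S a * ψ a‖ ^ 2 = (Fintype.card A : ℝ) * ∑ a, ‖S a‖ ^ 2 := by
  classical
  have h1 : ∀ ψ : AddChar A ℂ, ((‖∑ a, S a * ψ a‖ ^ 2 : ℝ) : ℂ) =
      ∑ a, ∑ b, S a * conj (S b) * ψ (a - b) := by
    intro ψ
    have h2 : ((‖∑ a, S a * ψ a‖ ^ 2 : ℝ) : ℂ) = (∑ a, S a * ψ a) * conj (∑ b, S b * ψ b) := by
      rw [Complex.mul_conj, Complex.normSq_eq_norm_sq]
    rw [h2, map_sum, sum_mul_sum]
    refine sum_congr rfl fun a _ => sum_congr rfl fun b _ => ?_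
    rw [map_mul, sub_eq_add_neg, AddChar.map_add_eq_mul, AddChar.map_neg_eq_conj]
    ring
  have h2 : ((∑ ψ : AddChar A ℂ, ‖∑ a, S a * ψ a‖ ^ 2 : ℝ) : ℂ) =
      (((Fintype.card A : ℝ) * ∑ a, ‖S a‖ ^ 2 : ℝ) : ℂ) := by
    push_cast
    have h3 : ∀ ψ : AddChar A ℂ, ((‖∑ a, S a * ψ a‖ : ℂ)) ^ 2 = ∑ a, ∑ b, S a * conj (S b) * ψ (a - b) := by
      intro ψ
      rw [← h1 ψ]
      push_cast
      rfl
    rw [sum_congr rfl (fun ψ _ => h3 ψ), sum_comm]
    rw [mul_sum]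
    refine sum_congr rfl fun a _ => ?_
    rw [sum_comm]
    have h4 : ∀ b : A, ∑ ψ : AddChar A ℂ, S a * conj (S b) * ψ (a - b) =
        if a = b then S a * conj (S b) * (Fintype.card A : ℂ) else 0 := by
      intro b
      rw [← mul_sum, AddChar.sum_apply_eq_ite]
      by_cases hab : a = b
      · rw [if_pos hab, if_pos (sub_eq_zero.2 hab)]
      · rw [if_neg hab, if_neg (fun h => hab (sub_eq_zero.1 h)), mul_zero]
    rw [sum_congr rfl (fun b _ => h4 b), sum_ite_eq, if_pos (mem_univ a), Complex.mul_conj,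
      Complex.normSq_eq_norm_sq]
    push_cast
    ring
  exact_mod_cast h2

/-- the second moment is at most the square of the largest Fourier coefficient -/
theorem sum_sq_le (A : Type) [AddCommGroup A] [Fintype A] (S : A → ℂ) (B : ℝ)
    (hB : ∀ ψ : AddChar A ℂ, ‖∑ a, S a * ψ a‖ ≤ B) : ∑ a, ‖S a‖ ^ 2 ≤ B ^ 2 := by
  classical
  have h1 := parseval A S
  have h2 : ∑ ψ : AddChar A ℂ, ‖∑ a, S a * ψ a‖ ^ 2 ≤ (Fintype.card A : ℝ) * B ^ 2 := by
    calc ∑ ψ : AddChar A ℂ, ‖∑ a, S a * ψ a‖ ^ 2 ≤ ∑ ψ : AddChar A ℂ, B ^ 2 :=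
          sum_le_sum fun ψ _ => pow_le_pow_left₀ (norm_nonneg _) (hB ψ) 2
      _ = (Fintype.card A : ℝ) * B ^ 2 := by
          rw [sum_const, card_univ, AddChar.card_eq, nsmul_eq_mul]
  rw [h1] at h2
  have h3 : (0 : ℝ) < Fintype.card A := by exact_mod_cast Fintype.card_pos
  exact le_of_mul_le_mul_left h2 h3

end abstract_group

variable {F : Type} [Field F]

/-- congruence modulo `Q` and of the first `l` coefficients after the leading one -/
def Eqv (Q : F[X]) (l : ℕ) (f g : F[X]) : Prop := Q ∣ f - g ∧ X ^ (l + 1) ∣ f.reverse - g.reverse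

theorem Eqv.symm {Q : F[X]} {l : ℕ} {f g : F[X]} (h : Eqv Q l f g) : Eqv Q l g f := by
  refine ⟨?_, ?_⟩
  · rw [← dvd_neg, neg_sub]; exact h.1
  · rw [← dvd_neg, neg_sub]; exact h.2

/-- the group of the classes -/
abbrev GG (Q : F[X]) (l : ℕ) : Type := (AdjoinRoot Q)ˣ × (AdjoinRoot (X ^ (l + 1) : F[X]))ˣ

open Classical in
/-- the class of a polynomial -/
noncomputable def cls (Q : F[X]) (l : ℕ) (f : F[X]) : GG Q l :=
  if h : IsUnit (AdjoinRoot.mk Q f) ∧ IsUnit (AdjoinRoot.mk (X ^ (l + 1) : F[X]) f.reverse) then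
    (h.1.unit, h.2.unit) else 1

theorem unit_of_coprime {Q f : F[X]} (h : IsCoprime f Q) : IsUnit (AdjoinRoot.mk Q f) := by
  obtain ⟨a, b, hab⟩ := h
  rw [isUnit_iff_exists_inv]
  refine ⟨AdjoinRoot.mk Q a, ?_⟩
  rw [← map_mul, ← map_one (AdjoinRoot.mk Q), AdjoinRoot.mk_eq_mk]
  exact ⟨-b, by linear_combination hab⟩

theorem coprime_reverse {f : F[X]} (hf : f.Monic) (l : ℕ) : IsCoprime f.reverse (X ^ (l + 1)) := by
  apply IsCoprime.pow_right
  have h1 : f.reverse.coeff 0 = 1 := by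
    rw [coeff_zero_reverse]
    exact hf
  have h2 : X ∣ f.reverse - 1 := by
    rw [X_dvd_iff, coeff_sub, h1, coeff_one_zero, sub_self]
  obtain ⟨c, hc⟩ := h2
  exact ⟨1, -c, by linear_combination hc⟩

theorem cls_val {Q : F[X]} {l : ℕ} {f : F[X]} (hf : f.Monic) (hc : IsCoprime f Q) :
    ((cls Q l f).1 : AdjoinRoot Q) = AdjoinRoot.mk Q f ∧
      ((cls Q l f).2 : AdjoinRoot (X ^ (l + 1) : F[X])) = AdjoinRoot.mk _ f.reverse := by
  have h : IsUnit (AdjoinRoot.mk Q f) ∧ IsUnit (AdjoinRoot.mk (X ^ (l + 1) : F[X]) f.reverse) :=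
    ⟨unit_of_coprime hc, unit_of_coprime (coprime_reverse hf l)⟩
  unfold cls
  rw [dif_pos h]
  exact ⟨rfl, rfl⟩

theorem cls_eq_iff {Q : F[X]} {l : ℕ} {f g : F[X]} (hf : f.Monic) (hc : IsCoprime f Q) (hg : g.Monic)
    (hc' : IsCoprime g Q) : cls Q l f = cls Q l g ↔ Eqv Q l f g := by
  obtain ⟨h1, h2⟩ := cls_val (l := l) hf hc
  obtain ⟨h3, h4⟩ := cls_val (l := l) hg hc'
  rw [Prod.ext_iff, Units.ext_iff, Units.ext_iff, h1, h2, h3, h4, AdjoinRoot.mk_eq_mk, AdjoinRoot.mk_eq_mk]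
  rfl

theorem cls_mul {Q : F[X]} {l : ℕ} {f g : F[X]} (hf : f.Monic) (hc : IsCoprime f Q) (hg : g.Monic)
    (hc' : IsCoprime g Q) : cls Q l (f * g) = cls Q l f * cls Q l g := by
  obtain ⟨h1, h2⟩ := cls_val (l := l) hf hc
  obtain ⟨h3, h4⟩ := cls_val (l := l) hg hc'
  obtain ⟨h5, h6⟩ := cls_val (l := l) (hf.mul hg) (hc.mul_left hc')
  rw [Prod.ext_iff, Units.ext_iff, Units.ext_iff, h5, h6, Prod.fst_mul, Prod.snd_mul, Units.val_mul,
    Units.val_mul, h1, h2, h3, h4, ← map_mul, ← map_mul, reverse_mul_of_domain]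
  exact ⟨rfl, rfl⟩

open Classical in
/-- the Hayes character of a character of the group of classes -/
noncomputable def chr (Q : F[X]) (l : ℕ) (ψ : AddChar (Additive (GG Q l)) ℂ) (f : F[X]) : ℂ :=
  if f.Monic ∧ IsCoprime f Q then ψ (Additive.ofMul (cls Q l f)) else 0

theorem finite_GG [Finite F] {Q : F[X]} (hQ : Q.Monic) (l : ℕ) : Finite (GG Q l) := by
  haveI : Module.Finite F (AdjoinRoot Q) := (AdjoinRoot.powerBasis' hQ).finite
  haveI : Module.Finite F (AdjoinRoot (X ^ (l + 1) : F[X])) := (AdjoinRoot.powerBasis' (monic_X_pow _)).finite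
  haveI : Finite (AdjoinRoot Q) := Module.finite_of_finite F
  haveI : Finite (AdjoinRoot (X ^ (l + 1) : F[X])) := Module.finite_of_finite F
  infer_instance

theorem hay_chr [Finite F] {Q : F[X]} (hQ : Q.Monic) (l : ℕ) (ψ : AddChar (Additive (GG Q l)) ℂ) :
    Hay Q l (chr Q l ψ) := by
  classical
  haveI := finite_GG hQ l
  haveI : Finite (Additive (GG Q l)) := inferInstance
  have h1c : IsCoprime (1 : F[X]) Q := isCoprime_one_left
  have hdiv : ∀ f g : F[X], Q ∣ f - g → IsCoprime f Q → IsCoprime g Q := by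
    rintro f g ⟨c, hc⟩ hf
    have h1 : g = f + Q * (-c) := by linear_combination -hc
    rw [h1]
    exact IsCoprime.add_mul_left_left hf _
  refine ⟨hQ, ?_, ?_, ?_, ?_, ?_, ?_⟩
  · intro f hf
    unfold chr
    rw [if_neg (fun h => hf h.1)]
  · unfold chr
    rw [if_pos ⟨monic_one, h1c⟩]
    have h2 : cls Q l (1 : F[X]) = 1 := by
      have h3 := cls_mul (l := l) monic_one h1c monic_one h1c
      rw [one_mul] at h3
      exact (left_eq_mul.1 h3)
    rw [h2, ofMul_one, AddChar.map_zero_eq_one]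
  · intro f g hf hg
    unfold chr
    by_cases h1 : IsCoprime f Q <;> by_cases h2 : IsCoprime g Q
    · rw [if_pos (⟨hf.mul hg, h1.mul_left h2⟩ : (f * g).Monic ∧ IsCoprime (f * g) Q),
        if_pos (⟨hf, h1⟩ : f.Monic ∧ IsCoprime f Q), if_pos (⟨hg, h2⟩ : g.Monic ∧ IsCoprime g Q),
        cls_mul hf h1 hg h2, ofMul_mul, AddChar.map_add_eq_mul]
    · rw [if_neg (fun h : (g.Monic ∧ IsCoprime g Q) => h2 h.2), mul_zero,
        if_neg (fun h3 : ((f * g).Monic ∧ IsCoprime (f * g) Q) => h2 h3.2.of_mul_left_right)]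
    · rw [if_neg (fun h : (f.Monic ∧ IsCoprime f Q) => h1 h.2), zero_mul,
        if_neg (fun h3 : ((f * g).Monic ∧ IsCoprime (f * g) Q) => h1 h3.2.of_mul_left_left)]
    · rw [if_neg (fun h : (f.Monic ∧ IsCoprime f Q) => h1 h.2), zero_mul,
        if_neg (fun h3 : ((f * g).Monic ∧ IsCoprime (f * g) Q) => h1 h3.2.of_mul_left_left)]
  · intro f hf hc
    unfold chr
    rw [if_pos ⟨hf, hc⟩]
    exact AddChar.norm_apply _ _
  · intro f hf hc
    unfold chr
    rw [if_neg (fun h => hc h.2)]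
  · intro f g hf hg h1 h2
    unfold chr
    by_cases h3 : IsCoprime f Q
    · have h4 := hdiv f g h1 h3
      rw [if_pos (⟨hf, h3⟩ : f.Monic ∧ IsCoprime f Q), if_pos (⟨hg, h4⟩ : g.Monic ∧ IsCoprime g Q),
        (cls_eq_iff hf h3 hg h4).2 ⟨h1, h2⟩]
    · rw [if_neg (fun h : (f.Monic ∧ IsCoprime f Q) => h3 h.2), if_neg]
      intro h6
      apply h3
      apply hdiv g f _ h6.2
      rw [← dvd_neg, neg_sub]
      exact h1

variable [Fintype F]

open Classical in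
/-- the sum over the class of `g` -/
noncomputable def SC (Q : F[X]) (l n : ℕ) (H : F[X] → ℂ) (g : F[X]) : ℂ :=
  ∑ f ∈ (Mon F n).filter (fun f => Eqv Q l f g), H f

open Classical in
/-- **The second moment.** -/
theorem second_moment {Q : F[X]} (hQ : Q.Monic) (l n : ℕ) (H : F[X] → ℂ) (B : ℝ)
    (hB : ∀ χ : F[X] → ℂ, Hay Q l χ → ‖∑ f ∈ Mon F n, H f * χ f‖ ≤ B) {ι : Type} (I : Finset ι) (g : ι → F[X])
    (hg : ∀ i ∈ I, (g i).Monic ∧ IsCoprime (g i) Q) (m : ℕ)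
    (hm : ∀ i ∈ I, (I.filter (fun j => Eqv Q l (g j) (g i))).card ≤ m) :
    ∑ i ∈ I, ‖SC Q l n H (g i)‖ ^ 2 ≤ m * B ^ 2 := by
  haveI := finite_GG hQ l
  letI : Fintype (Additive (GG Q l)) := Fintype.ofFinite _
  let S : Additive (GG Q l) → ℂ := fun a =>
    ∑ f ∈ (Mon F n).filter (fun f => IsCoprime f Q ∧ Additive.ofMul (cls Q l f) = a), H f
  have hS : ∀ ψ : AddChar (Additive (GG Q l)) ℂ, ∑ a, S a * ψ a = ∑ f ∈ Mon F n, H f * chr Q l ψ f := by
    intro ψ
    have h1 : ∀ a, S a * ψ a = ∑ f ∈ Mon F n,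
        (if IsCoprime f Q ∧ Additive.ofMul (cls Q l f) = a then H f * ψ a else 0) := by
      intro a
      rw [← sum_filter]
      exact sum_mul _ _ _
    rw [sum_congr rfl (fun a _ => h1 a), sum_comm]
    refine sum_congr rfl fun f hf => ?_
    rw [mem_Mon] at hf
    unfold chr
    by_cases h2 : IsCoprime f Q
    · rw [if_pos ⟨hf.1, h2⟩]
      rw [sum_eq_single (Additive.ofMul (cls Q l f))]
      · rw [if_pos ⟨h2, rfl⟩]
      · intro b _ hb
        rw [if_neg (fun h => hb h.2.symm)]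
      · intro h
        exact absurd (mem_univ _) h
    · rw [if_neg (fun h => h2 h.2), mul_zero]
      exact sum_eq_zero fun a _ => if_neg (fun h => h2 h.1)
  have h1 := sum_sq_le (Additive (GG Q l)) S B (fun ψ => by
    rw [hS]
    exact hB _ (hay_chr hQ l ψ))
  have hdiv : ∀ f g : F[X], Q ∣ f - g → IsCoprime f Q → IsCoprime g Q := by
    rintro f g ⟨c, hc⟩ hf
    have h1 : g = f + Q * (-c) := by linear_combination -hc
    rw [h1]
    exact IsCoprime.add_mul_left_left hf _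
  have h2 : ∀ i ∈ I, SC Q l n H (g i) = S (Additive.ofMul (cls Q l (g i))) := by
    intro i hi
    obtain ⟨h3, h4⟩ := hg i hi
    unfold SC
    change _ = ∑ f ∈ (Mon F n).filter (fun f => IsCoprime f Q ∧
      Additive.ofMul (cls Q l f) = Additive.ofMul (cls Q l (g i))), H f
    refine sum_congr ?_ fun _ _ => rfl
    ext f
    rw [mem_filter, mem_filter]
    constructor
    · rintro ⟨h5, h6⟩
      have h7 : IsCoprime f Q := hdiv (g i) f h6.symm.1 h4
      refine ⟨h5, h7, ?_⟩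
      rw [(cls_eq_iff (mem_Mon.1 h5).1 h7 h3 h4).2 h6]
    · rintro ⟨h5, h6, h7⟩
      exact ⟨h5, (cls_eq_iff (mem_Mon.1 h5).1 h6 h3 h4).1 (Additive.ofMul.injective h7)⟩
  rw [sum_congr rfl (fun i hi => by rw [h2 i hi])]
  rw [← sum_fiberwise_of_maps_to (s := I) (t := (univ : Finset (Additive (GG Q l))))
    (g := fun i => Additive.ofMul (cls Q l (g i))) (fun i _ => mem_univ _)]
  have h3 : ∀ a ∈ (univ : Finset (Additive (GG Q l))),
      ∑ i ∈ I.filter (fun i => Additive.ofMul (cls Q l (g i)) = a), ‖S (Additive.ofMul (cls Q l (g i)))‖ ^ 2 ≤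
        m * ‖S a‖ ^ 2 := by
    intro a _
    have h4 : ∀ i ∈ I.filter (fun i => Additive.ofMul (cls Q l (g i)) = a),
        ‖S (Additive.ofMul (cls Q l (g i)))‖ ^ 2 = ‖S a‖ ^ 2 := by
      intro i hi
      rw [(mem_filter.1 hi).2]
    rw [sum_congr rfl h4, sum_const, nsmul_eq_mul]
    apply mul_le_mul_of_nonneg_right _ (by positivity)
    rcases (I.filter (fun i => Additive.ofMul (cls Q l (g i)) = a)).eq_empty_or_nonempty with h5 | ⟨i₀, hi₀⟩
    · rw [h5]
      simp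
    · rw [mem_filter] at hi₀
      have h6 := hm i₀ hi₀.1
      have h7 : I.filter (fun i => Additive.ofMul (cls Q l (g i)) = a) ⊆
          I.filter (fun j => Eqv Q l (g j) (g i₀)) := by
        intro j hj
        rw [mem_filter] at hj ⊢
        refine ⟨hj.1, ?_⟩
        have h8 : cls Q l (g j) = cls Q l (g i₀) := Additive.ofMul.injective (hj.2.trans hi₀.2.symm)
        exact (cls_eq_iff (hg j hj.1).1 (hg j hj.1).2 (hg i₀ hi₀.1).1 (hg i₀ hi₀.1).2).1 h8
      exact_mod_cast (card_le_card h7).trans h6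
  refine (sum_le_sum h3).trans ?_
  rw [← mul_sum]
  exact mul_le_mul_of_nonneg_left h1 (Nat.cast_nonneg m)

open Classical in
/-- the first moment, by the inequality of Cauchy and Schwarz -/
theorem first_moment {Q : F[X]} (hQ : Q.Monic) (l n : ℕ) (H : F[X] → ℂ) (B : ℝ) (hB0 : 0 ≤ B)
    (hB : ∀ χ : F[X] → ℂ, Hay Q l χ → ‖∑ f ∈ Mon F n, H f * χ f‖ ≤ B) {ι : Type} (I : Finset ι) (g : ι → F[X])
    (hg : ∀ i ∈ I, (g i).Monic ∧ IsCoprime (g i) Q) (m : ℕ)
    (hm : ∀ i ∈ I, (I.filter (fun j => Eqv Q l (g j) (g i))).card ≤ m) :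
    ∑ i ∈ I, ‖SC Q l n H (g i)‖ ≤ √((I.card : ℝ) * m) * B := by
  have h1 := second_moment hQ l n H B hB I g hg m hm
  have h2 : (∑ i ∈ I, ‖SC Q l n H (g i)‖) ^ 2 ≤ (I.card : ℝ) * (m * B ^ 2) :=
    (sq_sum_le_card_mul_sum_sq).trans (mul_le_mul_of_nonneg_left h1 (Nat.cast_nonneg _))
  have h3 : (I.card : ℝ) * (m * B ^ 2) = (√((I.card : ℝ) * m) * B) ^ 2 := by
    rw [mul_pow, Real.sq_sqrt (by positivity)]
    ring
  rw [h3] at h2
  exact (abs_le_of_sq_le_sq' h2 (by positivity)).2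

end Pool.Agent.H456.RN
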