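import Pool.Agent.H456.RN.PL

/-!
# Counting the exceptional equations
-/

set_option autoImplicit false
set_option linter.all false
set_option maxHeartbeats 1000000

open Finset Polynomial ComplexConjugate
open Pool.Agent.H341R2.Sharp (Mon mem_Mon)
open Pool.Agent.Q284.PS Pool.Agent.Q53.PS

namespace Pool.Agent.H456.RN

theorem geom_half {s : ℝ} (hs0 : 0 ≤ s) (hs : s ≤ 1 / 2) (n : ℕ) : ∑ j ∈ range n, s ^ (j + 1) ≤ 1 - s ^ n := by
  induction n with
  | zero => simp
  | succ n ih =>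
    rw [sum_range_succ]
    have h1 : s ^ (n + 1) = s ^ n * s := pow_succ s n
    have h2 : 0 ≤ s ^ n := pow_nonneg hs0 n
    nlinarith

theorem geom_tail {s : ℝ} (hs0 : 0 ≤ s) (hs : s ≤ 1 / 2) (M n : ℕ) :
    ∑ j ∈ (range n).filter (fun j => M < j), s ^ j ≤ s ^ M := by
  have h1 : (range n).filter (fun j => M < j) ⊆ (range n).image (fun i => M + 1 + i) := by
    intro j hj
    rw [mem_filter, mem_range] at hj
    rw [mem_image]
    exact ⟨j - (M + 1), by rw [mem_range]; omega, by omega⟩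
  have h2 : ∑ j ∈ (range n).image (fun i => M + 1 + i), s ^ j = s ^ M * ∑ i ∈ range n, s ^ (i + 1) := by
    rw [sum_image (fun a _ b _ h => by simpa using h), mul_sum]
    refine sum_congr rfl fun i _ => ?_
    rw [← pow_add]
    congr 1
    omega
  calc ∑ j ∈ (range n).filter (fun j => M < j), s ^ j ≤ ∑ j ∈ (range n).image (fun i => M + 1 + i), s ^ j :=
        sum_le_sum_of_subset_of_nonneg h1 (fun _ _ _ => pow_nonneg hs0 _)
    _ = s ^ M * ∑ i ∈ range n, s ^ (i + 1) := h2
    _ ≤ s ^ M * 1 := by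
        apply mul_le_mul_of_nonneg_left _ (pow_nonneg hs0 _)
        have := geom_half hs0 hs n
        have := pow_nonneg hs0 n
        linarith
    _ = s ^ M := mul_one _

variable {F : Type} [Field F] [Fintype F]

theorem two_le_q : (2 : ℝ) ≤ (Fintype.card F : ℝ) := by
  have := Fintype.one_lt_card (α := F)
  exact_mod_cast this

theorem inv_q_le_half : ((Fintype.card F : ℝ))⁻¹ ≤ 1 / 2 := by
  have h := two_le_q (F := F)
  rw [inv_eq_one_div]
  exact one_div_le_one_div_of_le (by norm_num) h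

open Classical in
/-- the pairs with a common prime factor of large degree are few -/
theorem card_common (M m1 m2 : ℕ) (hm : m1 ≤ m2) :
    (((PL F m1 ×ˢ PL F m2).filter (fun x => x.1 ≠ 0 ∧ ∃ P : F[X], P.Monic ∧ Irreducible P ∧ M < P.natDegree ∧
      P ∣ x.1 ∧ P ∣ x.2)).card : ℝ) ≤ (Fintype.card F : ℝ) ^ (m1 + m2) * ((Fintype.card F : ℝ)⁻¹) ^ M := by
  set q : ℝ := (Fintype.card F : ℝ) with hq
  have hq2 : 2 ≤ q := two_le_q
  have hq0 : q ≠ 0 := by positivity
  have hsub : (PL F m1 ×ˢ PL F m2).filter (fun x => x.1 ≠ 0 ∧ ∃ P : F[X], P.Monic ∧ Irreducible P ∧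
      M < P.natDegree ∧ P ∣ x.1 ∧ P ∣ x.2) ⊆ ((range m1).filter (fun j => M < j)).biUnion (fun j =>
        (Mon F j).biUnion (fun P => (PL F m1).filter (fun f => P ∣ f) ×ˢ (PL F m2).filter (fun f => P ∣ f))) := by
    intro x hx
    rw [mem_filter, mem_product] at hx
    obtain ⟨⟨h1, h2⟩, h3, P, hP1, hP2, hP3, hP4, hP5⟩ := hx
    have h4 := natDegree_lt_of_mem_PL h1 h3
    have h5 := natDegree_le_of_dvd hP4 h3
    rw [mem_biUnion]
    refine ⟨P.natDegree, ?_, ?_⟩
    · rw [mem_filter, mem_range]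
      exact ⟨by omega, hP3⟩
    · rw [mem_biUnion]
      refine ⟨P, mem_Mon.2 ⟨hP1, rfl⟩, ?_⟩
      rw [mem_product, mem_filter, mem_filter]
      exact ⟨⟨h1, hP4⟩, h2, hP5⟩
  have h1 : ((((range m1).filter (fun j => M < j)).biUnion (fun j =>
        (Mon F j).biUnion (fun P => (PL F m1).filter (fun f => P ∣ f) ×ˢ (PL F m2).filter (fun f => P ∣ f)))).card : ℝ) ≤
      ∑ j ∈ (range m1).filter (fun j => M < j), q ^ (m1 + m2) * (q⁻¹) ^ j := by
    refine le_trans (Nat.cast_le.2 card_biUnion_le) ?_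
    push_cast
    refine sum_le_sum fun j hj => ?_
    rw [mem_filter, mem_range] at hj
    refine le_trans (Nat.cast_le.2 card_biUnion_le) ?_
    push_cast
    have h2 : ∀ P ∈ Mon F j, (((PL F m1).filter (fun f => P ∣ f) ×ˢ (PL F m2).filter (fun f => P ∣ f)).card : ℝ) ≤
        q ^ (m1 - j) * q ^ (m2 - j) := by
      intro P hP
      rw [mem_Mon] at hP
      have h3 := card_dvd_PL m1 hP.1.ne_zero
      have h4 := card_dvd_PL m2 hP.1.ne_zero
      rw [hP.2] at h3 h4
      rw [card_product]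
      push_cast
      rw [hq]
      exact mul_le_mul (by exact_mod_cast h3) (by exact_mod_cast h4) (by positivity) (by positivity)
    refine (sum_le_card_nsmul _ _ _ h2).trans (le_of_eq ?_)
    rw [card_Mon, nsmul_eq_mul]
    push_cast
    rw [← hq, inv_pow]
    have h5 : q ^ (m1 + m2) = q ^ j * (q ^ (m1 - j) * q ^ (m2 - j)) * q ^ j := by
      rw [← pow_add, ← pow_add, ← pow_add]
      congr 1
      omega
    rw [h5]
    field_simp
  calc (((PL F m1 ×ˢ PL F m2).filter (fun x => x.1 ≠ 0 ∧ ∃ P : F[X], P.Monic ∧ Irreducible P ∧ M < P.natDegree ∧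
      P ∣ x.1 ∧ P ∣ x.2)).card : ℝ) ≤ _ := by exact_mod_cast card_le_card hsub
    _ ≤ ∑ j ∈ (range m1).filter (fun j => M < j), q ^ (m1 + m2) * (q⁻¹) ^ j := h1
    _ = q ^ (m1 + m2) * ∑ j ∈ (range m1).filter (fun j => M < j), (q⁻¹) ^ j := by rw [mul_sum]
    _ ≤ q ^ (m1 + m2) * (q⁻¹) ^ M := by
        apply mul_le_mul_of_nonneg_left _ (by positivity)
        exact geom_tail (by positivity) inv_q_le_half M m1

theorem pow_dvd_aux {P u x : F[X]} (hP : Irreducible P) (e j : ℕ) (hu : ¬ P ^ j ∣ u)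
    (h : P ^ ((e + 1) * j) ∣ u ^ e * x) : P ^ j ∣ x := by
  classical
  have hex : ∃ i, ¬ P ^ i ∣ u := ⟨j, hu⟩
  have h1 := Nat.find_spec hex
  set i0 := Nat.find hex with hi0
  have h2 : i0 ≤ j := Nat.find_min' hex hu
  have h3 : i0 ≠ 0 := by
    intro h
    rw [h, pow_zero] at h1
    exact h1 (one_dvd _)
  obtain ⟨i, hi⟩ := Nat.exists_eq_succ_of_ne_zero h3
  have h4 : P ^ i ∣ u := by
    by_contra hc
    have := Nat.find_min' hex hc
    omega
  obtain ⟨u', hu'⟩ := h4
  have h5 : ¬ P ∣ u' := by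
    rintro ⟨v, hv⟩
    apply h1
    rw [hi, hu', hv, pow_succ]
    exact ⟨v, by ring⟩
  have h6 : P ^ (e * i) * P ^ ((e + 1) * j - e * i) ∣ P ^ (e * i) * (u' ^ e * x) := by
    rw [← pow_add]
    have h7 : e * i + ((e + 1) * j - e * i) = (e + 1) * j := by
      have : e * i ≤ (e + 1) * j := Nat.mul_le_mul (by omega) (by omega)
      omega
    rw [h7]
    refine h.trans (dvd_of_eq ?_)
    rw [hu', mul_pow, ← pow_mul, mul_comm i e]
    ring
  have h7 := (mul_dvd_mul_iff_left (pow_ne_zero _ hP.ne_zero)).1 h6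
  have h8 : IsCoprime (P ^ ((e + 1) * j - e * i)) (u' ^ e) :=
    (((hP.coprime_iff_not_dvd).2 h5).pow_left).pow_right
  refine dvd_trans (pow_dvd_pow P ?_) (h8.dvd_of_dvd_mul_left h7)
  have : e * i ≤ e * j := Nat.mul_le_mul_left e (by omega)
  have h9 : (e + 1) * j = e * j + j := by ring
  omega

open Classical in
/-- the solutions of a linear congruence -/
theorem card_lin {P u : F[X]} (hP : Irreducible P) (e j m : ℕ) (D : F[X]) (hu : ¬ P ^ j ∣ u) :
    ((PL F m).filter (fun c => P ^ ((e + 1) * j) ∣ D - u ^ e * c)).card ≤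
      Fintype.card F ^ (m - j * P.natDegree) := by
  rcases ((PL F m).filter (fun c => P ^ ((e + 1) * j) ∣ D - u ^ e * c)).eq_empty_or_nonempty with h0 | ⟨c0, hc0⟩
  · rw [h0, card_empty]; exact Nat.zero_le _
  · rw [mem_filter] at hc0
    have h1 : (PL F m).filter (fun c => P ^ ((e + 1) * j) ∣ D - u ^ e * c) ⊆
        ((PL F m).filter (fun f => P ^ j ∣ f)).image (fun f => c0 + f) := by
      intro c hc
      rw [mem_filter] at hc
      rw [mem_image]
      refine ⟨c - c0, ?_, by ring⟩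
      rw [mem_filter]
      refine ⟨sub_mem_PL hc.1 hc0.1, ?_⟩
      apply pow_dvd_aux hP e j hu
      have h2 := dvd_sub hc0.2 hc.2
      have h3 : u ^ e * (c - c0) = (D - u ^ e * c0) - (D - u ^ e * c) := by ring
      rw [h3]
      exact h2
    refine (card_le_card h1).trans (card_image_le.trans ?_)
    have h2 := card_dvd_PL m (pow_ne_zero j hP.ne_zero)
    rwa [natDegree_pow] at h2

end Pool.Agent.H456.RN
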