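import Pool.Agent.H456.RN.Exc

/-!
# Reflections: the place at infinity
-/

set_option autoImplicit false
set_option linter.all false
set_option maxHeartbeats 1000000

open Finset Polynomial ComplexConjugate
open Pool.Agent.H341R2.Sharp (Mon mem_Mon)
open Pool.Agent.Q284.PS Pool.Agent.Q53.PS

namespace Pool.Agent.H456.RN

section ring
variable {R : Type*} [CommRing R]

theorem reflect_pow' {f : R[X]} {n : ℕ} (hf : f.natDegree ≤ n) (e : ℕ) :
    reflect (e * n) (f ^ e) = reflect n f ^ e := by
  induction e with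
  | zero => simp [reflect_one]
  | succ e ih =>
    have h1 : (f ^ e).natDegree ≤ e * n := natDegree_pow_le.trans (Nat.mul_le_mul_left e hf)
    rw [pow_succ, add_mul, one_mul, reflect_mul _ _ h1 hf, ih, pow_succ]

end ring

variable {F : Type} [Field F] [Fintype F]

theorem reflect_mem_PL {n : ℕ} {f : F[X]} (hf : f ∈ PL F (n + 1)) : reflect n f ∈ PL F (n + 1) := by
  apply mem_PL_of_natDegree
  have h1 := natDegree_le_of_mem_PL hf
  have h2 := natDegree_reflect_le (N := n) (p := f)
  have h3 : max n f.natDegree = n := max_eq_left h1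
  omega

theorem X_pow_dvd_reflect {n j : ℕ} {f : F[X]} (hf : f ∈ PL F (n + 1)) (hj : j ≤ n + 1) :
    X ^ j ∣ reflect n f ↔ f ∈ PL F (n + 1 - j) := by
  rw [mem_PL] at *
  rw [X_pow_dvd_iff, degree_lt_iff_coeff_zero]
  rw [degree_lt_iff_coeff_zero] at hf
  constructor
  · intro h m hm
    by_cases h1 : n + 1 ≤ m
    · exact hf m h1
    · have h2 := h (n - m) (by omega)
      rw [coeff_reflect, revAt_le (by omega)] at h2
      have h3 : n - (n - m) = m := by omega
      rwa [h3] at h2
  · intro h i hi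
    rw [coeff_reflect, revAt_le (by omega)]
    exact h _ (by omega)

open Classical in
/-- the monic irreducible polynomials of degree at most `M` -/
noncomputable def PrM (F : Type) [Field F] [Fintype F] (M : ℕ) : Finset F[X] :=
  (UB F M).filter (fun P => Irreducible P)

theorem mem_PrM {M : ℕ} {P : F[X]} : P ∈ PrM F M ↔ P.Monic ∧ Irreducible P ∧ P.natDegree ≤ M := by
  classical
  unfold PrM
  rw [mem_filter, mem_UB]
  tauto

/-- the modulus -/
noncomputable def MoM (F : Type) [Field F] [Fintype F] (M N : ℕ) : F[X] := ∏ P ∈ PrM F M, P ^ N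

theorem MoM_monic (M N : ℕ) : (MoM F M N).Monic := by
  unfold MoM
  apply monic_prod_of_monic
  intro P hP
  exact ((mem_PrM.1 hP).1).pow N

theorem dvd_MoM {M N : ℕ} (hN : N ≠ 0) {P : F[X]} (hP : P.Monic) (hi : Irreducible P) :
    P ∣ MoM F M N ↔ P.natDegree ≤ M := by
  constructor
  · intro h
    unfold MoM at h
    rw [Prime.dvd_finset_prod_iff hi.prime] at h
    obtain ⟨Q, hQ, hd⟩ := h
    rw [mem_PrM] at hQ
    have h1 : P ∣ Q := hi.prime.dvd_of_dvd_pow hd
    have h2 : P = Q := eq_of_monic_of_associated hP hQ.1 (hi.associated_of_dvd hQ.2.1 h1)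
    rw [h2]
    exact hQ.2.2
  · intro h
    unfold MoM
    have h1 : P ∈ PrM F M := mem_PrM.2 ⟨hP, hi, h⟩
    exact (dvd_pow_self P hN).trans (dvd_prod_of_mem (fun P => P ^ N) h1)

theorem pow_dvd_MoM {M N : ℕ} {P : F[X]} (hP : P.Monic) (hi : Irreducible P) (h : P.natDegree ≤ M) :
    P ^ N ∣ MoM F M N := by
  unfold MoM
  have h1 : P ∈ PrM F M := mem_PrM.2 ⟨hP, hi, h⟩
  exact dvd_prod_of_mem (fun P => P ^ N) h1

end Pool.Agent.H456.RN
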