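import Pool.Agent.H456.RN.AS3
import Pool.Agent.H456.RN.Refl

/-!
# Characteristic two: the progressions in the last coefficient
-/

set_option autoImplicit false
set_option linter.all false
set_option maxHeartbeats 1000000

open Finset Polynomial ComplexConjugate
open Pool.Agent.H341R2.Sharp (Mon mem_Mon lam)
open Pool.Agent.Q284.PS Pool.Agent.Q53.PS Pool.Agent.Q68.PS

namespace Pool.Agent.H456.RN

/-- the discriminant of `y² + a x y + b y = x³ + e x² + f x + c` in characteristic two -/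
def disc2 {R : Type*} [CommRing R] (a e b f c : R) : R :=
  a ^ 6 * c + a ^ 5 * b * f + a ^ 4 * e * b ^ 2 + a ^ 4 * f ^ 2 + a ^ 3 * b ^ 3 + b ^ 4

variable {F : Type} [Field F]

theorem disc2_sub [CharP F 2] (a e b f f' c : F[X]) :
    disc2 a e b f' c - disc2 a e b f c = a ^ 4 * ((f' - f) * ((f' - f) + a * b)) := by
  haveI : CharP F[X] 2 := inferInstance
  have h2 : (2 : F[X]) = 0 := CharTwo.two_eq_zero
  unfold disc2
  linear_combination (a ^ 4 * f * (f' - f)) * h2

theorem disc2_add (a e b f c v : F[X]) : disc2 a e b f (c + v) = disc2 a e b f c + a ^ 6 * v := by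
  unfold disc2
  ring

/-- `a² ∣ δ (δ + a b)` implies `a ∣ δ` -/
theorem dvd_of_sq {a b δ : F[X]} (ha : a ≠ 0) (h : a ^ 2 ∣ δ * (δ + a * b)) : a ∣ δ := by
  classical
  by_cases hδ : δ = 0
  · rw [hδ]; exact dvd_zero _
  have hg0 : EuclideanDomain.gcd a δ ≠ 0 := by
    intro h0
    have := EuclideanDomain.gcd_dvd_left a δ
    rw [h0] at this
    exact ha (zero_dvd_iff.1 this)
  set g := EuclideanDomain.gcd a δ with hg
  obtain ⟨a', ha'⟩ : g ∣ a := EuclideanDomain.gcd_dvd_left a δ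
  obtain ⟨δ', hδ'⟩ : g ∣ δ := EuclideanDomain.gcd_dvd_right a δ
  have hcop : IsCoprime a' δ' := by
    refine ⟨EuclideanDomain.gcdA a δ, EuclideanDomain.gcdB a δ, ?_⟩
    apply mul_left_cancel₀ hg0
    have h1 := EuclideanDomain.gcd_eq_gcd_ab a δ
    rw [← hg] at h1
    calc g * (EuclideanDomain.gcdA a δ * a' + EuclideanDomain.gcdB a δ * δ') =
          (g * a') * EuclideanDomain.gcdA a δ + (g * δ') * EuclideanDomain.gcdB a δ := by ring
      _ = a * EuclideanDomain.gcdA a δ + δ * EuclideanDomain.gcdB a δ := by rw [← ha', ← hδ']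
      _ = g := h1.symm
      _ = g * 1 := (mul_one g).symm
  have h2 : g ^ 2 * a' ^ 2 ∣ g ^ 2 * (δ' * (δ' + a' * b)) := by
    have e1 : g ^ 2 * a' ^ 2 = a ^ 2 := by rw [ha']; ring
    have e2 : g ^ 2 * (δ' * (δ' + a' * b)) = δ * (δ + a * b) := by rw [ha', hδ']; ring
    rw [e1, e2]
    exact h
  have h3 := (mul_dvd_mul_iff_left (pow_ne_zero 2 hg0)).1 h2
  have h4 : IsCoprime a' (δ' + a' * b) := hcop.add_mul_left_right b
  have h5 : IsCoprime (a' ^ 2) (δ' * (δ' + a' * b)) := (hcop.mul_right h4).pow_left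
  have h6 : IsUnit (a' ^ 2) := h5.isUnit_of_dvd h3
  have h7 : IsUnit a' := isUnit_pow_iff (by norm_num) |>.1 h6
  rw [ha', hδ']
  obtain ⟨w, rfl⟩ := h7
  exact mul_dvd_mul_left g (Units.coe_dvd)

variable [Fintype F]

theorem disc2_natDegree_le {a e b f c : F[X]} {d : ℕ} (ha : a.natDegree ≤ d) (he : e.natDegree ≤ 2 * d)
    (hb : b.natDegree ≤ 3 * d) (hf : f.natDegree ≤ 4 * d) (hc : c.natDegree ≤ 6 * d) :
    (disc2 a e b f c).natDegree ≤ 12 * d := by
  unfold disc2
  refine (natDegree_add_le _ _).trans (max_le ((natDegree_add_le _ _).trans (max_le ((natDegree_add_le _ _).trans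
    (max_le ((natDegree_add_le _ _).trans (max_le ((natDegree_add_le _ _).trans (max_le ?_ ?_)) ?_)) ?_)) ?_)) ?_)
  · refine natDegree_mul_le.trans ?_
    rw [natDegree_pow]
    omega
  · refine natDegree_mul_le.trans ?_
    have := natDegree_mul_le (p := a ^ 5) (q := b)
    rw [natDegree_pow] at this
    omega
  · refine natDegree_mul_le.trans ?_
    have := natDegree_mul_le (p := a ^ 4) (q := e)
    rw [natDegree_pow] at this ⊢
    omega
  · refine natDegree_mul_le.trans ?_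
    rw [natDegree_pow, natDegree_pow]
    omega
  · refine natDegree_mul_le.trans ?_
    rw [natDegree_pow, natDegree_pow]
    omega
  · rw [natDegree_pow]
    omega

/-- the condition on the coefficients in the sums -/
def Cond2 (Mo : F[X]) (k d : ℕ) (a e b f c : F[X]) : Prop :=
  (∀ P : F[X], P.Monic → Irreducible P → P ∣ a → P ∣ b → P ∣ Mo) ∧
  (∀ P : F[X], P.Monic → Irreducible P → P ∣ Mo → ¬ P ^ (k + 1) ∣ disc2 a e b f c) ∧
  disc2 a e b f c ≠ 0 ∧ 12 * d ≤ (disc2 a e b f c).natDegree + k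

open Classical in
theorem mult2 [CharP F 2] {a e b : F[X]} (ha : a ≠ 0) {d : ℕ} (had : a.natDegree ≤ d) (hb : b.natDegree ≤ 3 * d)
    (I : Finset F[X]) (c f : F[X]) (U : F[X]) (hU : a ^ 6 ∣ U) :
    (I.filter (fun j => U ∣ disc2 a e b j c - disc2 a e b f c ∧
      (disc2 a e b j c - disc2 a e b f c).degree < ((6 * a.natDegree + 6 * d + 1 : ℕ) : WithBot ℕ))).card ≤
      Fintype.card F ^ (3 * d + 1) := by
  have hsub : (I.filter (fun j => U ∣ disc2 a e b j c - disc2 a e b f c ∧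
      (disc2 a e b j c - disc2 a e b f c).degree < ((6 * a.natDegree + 6 * d + 1 : ℕ) : WithBot ℕ))) ⊆
      ((PL F (3 * d + a.natDegree + 1)).filter (fun δ => a ∣ δ)).image (fun δ => f + δ) := by
    intro j hj
    rw [mem_filter] at hj
    obtain ⟨hjI, h1, h2⟩ := hj
    rw [mem_image]
    refine ⟨j - f, ?_, by ring⟩
    rw [mem_filter]
    rw [disc2_sub] at h1 h2
    have h3 : a ^ 2 ∣ (j - f) * ((j - f) + a * b) := by
      have h4 : a ^ 4 * a ^ 2 ∣ a ^ 4 * ((j - f) * ((j - f) + a * b)) := by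
        rw [← pow_add]
        exact hU.trans h1
      exact (mul_dvd_mul_iff_left (pow_ne_zero 4 ha)).1 h4
    refine ⟨?_, dvd_of_sq ha h3⟩
    by_contra hc
    have h0 : j - f ≠ 0 := fun h => hc (by rw [h]; exact zero_mem_PL _)
    have he : 3 * d + a.natDegree + 1 ≤ (j - f).natDegree := by
      by_contra h
      exact hc (mem_PL_of_natDegree (by omega))
    have h5 : (a * b).natDegree < (j - f).natDegree := by
      refine lt_of_le_of_lt natDegree_mul_le ?_
      omega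
    have h6 := natDegree_add_eq_left_of_natDegree_lt h5
    have h7 : (j - f) + a * b ≠ 0 := by
      intro h
      rw [h, natDegree_zero] at h6
      omega
    have h8 : a ^ 4 * ((j - f) * ((j - f) + a * b)) ≠ 0 := mul_ne_zero (pow_ne_zero 4 ha) (mul_ne_zero h0 h7)
    rw [degree_eq_natDegree h8, natDegree_mul (pow_ne_zero 4 ha) (mul_ne_zero h0 h7), natDegree_mul h0 h7, h6,
      natDegree_pow] at h2
    have h9 : 4 * a.natDegree + ((j - f).natDegree + (j - f).natDegree) < 6 * a.natDegree + 6 * d + 1 := by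
      exact_mod_cast h2
    omega
  refine (card_le_card hsub).trans (card_image_le.trans ((card_dvd_PL _ ha).trans ?_))
  apply Nat.pow_le_pow_right (Fintype.card_pos)
  omega

open Classical in
/-- **the sums over the last two coefficients** -/
theorem fam2 [CharP F 2] (ε : ℝ) (hε : 0 < ε) : ∃ C0 : ℝ, 0 < C0 ∧ ∀ (Mo : F[X]) (k N d : ℕ), Mo.Monic →
    (∀ P : F[X], P.Monic → Irreducible P → P ∣ Mo → P ^ (k + 1) ∣ Mo) → k < N →
    N + Mo.natDegree ≤ 6 * d + 1 → ∀ a ∈ PL F (d + 1), a ≠ 0 → ∀ e ∈ PL F (2 * d + 1), ∀ b ∈ PL F (3 * d + 1),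
    ∀ c : F[X], c ∈ PL F (6 * d + 1) →
    ∑ f ∈ (PL F (4 * d + 1)).filter (fun f => Cond2 Mo k d a e b f c),
      ‖∑ v ∈ PL F (6 * d + 1 - N - Mo.natDegree), WtM Mo (fun P => asy a (a * e + b) P) (disc2 a e b f (c + Mo * v))‖ ≤
      ((Fintype.card F : ℝ) * (Fintype.card F : ℝ) ^ (Mo.natDegree + 1) * (12 * d + 1)) *
      (√(((Fintype.card F ^ (4 * d + 1) : ℕ) : ℝ) * (Fintype.card F ^ (3 * d + 1) : ℕ)) *
      (C0 * √(Fintype.card F : ℝ) ^ (12 * d) * Real.exp (ε * (2 * (12 * d) : ℕ)))) := by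
  obtain ⟨C0, hC0, hcore⟩ := core (F := F) ε hε
  refine ⟨C0, hC0, ?_⟩
  intro Mo k N d hMo hk hkN hNd a ha ha0 e he b hb c hc
  have hda : a.natDegree ≤ d := natDegree_le_of_mem_PL ha
  have hde : e.natDegree ≤ 2 * d := natDegree_le_of_mem_PL he
  have hdb : b.natDegree ≤ 3 * d := natDegree_le_of_mem_PL hb
  have hdU : (a * e + b).natDegree ≤ 3 * d :=
    (natDegree_add_le _ _).trans (max_le (natDegree_mul_le.trans (by omega)) hdb)
  obtain ⟨A, s, ρ, hA, haA, hs, hhay, hasy⟩ := exists_asy ha0 hda hdU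
  set α := a.leadingCoeff with hα
  have hα0 : α ≠ 0 := leadingCoeff_ne_zero.2 ha0
  have hdA : A.natDegree = a.natDegree := by
    conv_rhs => rw [haA]
    rw [natDegree_C_mul hα0]
  have hA6 : (A ^ 6).Monic := hA.pow 6
  have hA6d : (A ^ 6).natDegree = 6 * a.natDegree := by rw [natDegree_pow, hdA]
  have hPa : ∀ P : F[X], P ∣ A → P ∣ a := fun P hP => by rw [haA]; exact hP.mul_left _
  have hPa' : ∀ P : F[X], P ∣ a → P ∣ A := by
    intro P hP
    rw [haA] at hP
    exact (IsUnit.dvd_mul_left (isUnit_C.2 (isUnit_iff_ne_zero.2 hα0))).1 hP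
  have hsix : a ^ 6 = C (α ^ 6) * A ^ 6 := by
    conv_lhs => rw [haA]
    rw [mul_pow, C_pow]
  set h := 6 * d + 1 - N - Mo.natDegree with hh
  set I := (PL F (4 * d + 1)).filter (fun f => Cond2 Mo k d a e b f c) with hI
  have hc6 := natDegree_le_of_mem_PL hc
  have hmain := hcore (A ^ 6) Mo hA6 hMo h k (6 * (d - a.natDegree) - 1) (12 * d - k) (A ^ 6) dvd_rfl ρ
    (fun P => asy a (a * e + b) P) hhay s hs
    (fun P hP1 hP2 hP3 _ => hasy P hP1 hP2 (fun h => hP3 (dvd_pow (hPa' P h) (by norm_num)))) hk (by omega) I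
    (fun f => disc2 a e b f c) (by
      intro f hf
      rw [hI, mem_filter] at hf
      obtain ⟨h1, h2, h3, h4, h5⟩ := hf
      have h6 := disc2_natDegree_le hda hde hdb (natDegree_le_of_mem_PL h1) hc6
      refine ⟨h4, ?_, ?_⟩
      · omega
      · omega) (by
      intro f hf
      rw [hI, mem_filter] at hf
      exact hf.2.2.1) (by
      intro f hf P hP1 hP2 hP3 hP4 hP5
      rw [hI, mem_filter] at hf
      have h1 : P ∣ a := hPa P (hP2.prime.dvd_of_dvd_pow hP4)
      have h3 : P ∣ b := by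
        have h4 : P ∣ b ^ 4 := by
          have h5 : b ^ 4 = disc2 a e b f c - a * (a ^ 5 * c + a ^ 4 * b * f + a ^ 3 * e * b ^ 2 + a ^ 3 * f ^ 2 +
            a ^ 2 * b ^ 3) := by unfold disc2; ring
          rw [h5]
          exact dvd_sub hP5 (h1.mul_right _)
        exact hP2.prime.dvd_of_dvd_pow h4
      exact hP3 (hf.2.1 P hP1 hP2 h1 h3)) (Fintype.card F ^ (3 * d + 1)) (by
      intro f hf
      refine le_trans (card_le_card ?_) (mult2 (e := e) ha0 hda hdb I c f (A ^ 6 * Mo) ?_)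
      · intro j hj
        rw [mem_filter] at hj ⊢
        refine ⟨hj.1, hj.2.1, hj.2.2.trans_le ?_⟩
        rw [hA6d]
        exact_mod_cast (by omega : 6 * a.natDegree + Mo.natDegree + h ≤ 6 * a.natDegree + 6 * d + 1)
      · refine ⟨C (α ^ 6)⁻¹ * Mo, ?_⟩
        rw [hsix]
        have : C (α ^ 6) * C (α ^ 6)⁻¹ = (1 : F[X]) := by
          rw [← C_mul, mul_inv_cancel₀ (pow_ne_zero 6 hα0), C_1]
        linear_combination (-(A ^ 6 * Mo)) * this)
  have hn : 12 * d - k + k = 12 * d := by omega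
  have hn' : (((12 * d - k : ℕ) : ℝ) + k + 1) = 12 * d + 1 := by
    have : ((12 * d - k : ℕ) : ℝ) + k = ((12 * d - k + k : ℕ) : ℝ) := by push_cast; ring
    rw [this, hn]
    push_cast
    ring
  rw [hn, hn'] at hmain
  have hu : α ^ 6 ≠ 0 := pow_ne_zero 6 hα0
  have hsum : ∀ f : F[X], ∑ v ∈ PL F h, WtM Mo (fun P => asy a (a * e + b) P) (disc2 a e b f (c + Mo * v)) =
      ∑ v ∈ PL F h, WtM Mo (fun P => asy a (a * e + b) P) (disc2 a e b f c + A ^ 6 * Mo * v) := by
    intro f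
    rw [← sum_smul h hu (fun v => WtM Mo (fun P => asy a (a * e + b) P) (disc2 a e b f c + A ^ 6 * Mo * v))]
    refine sum_congr rfl fun v _ => ?_
    have h1 : disc2 a e b f (c + Mo * v) = disc2 a e b f c + A ^ 6 * Mo * (C (α ^ 6) * v) := by
      rw [disc2_add, hsix]
      ring
    rw [h1]
  have h3 : I.card ≤ Fintype.card F ^ (4 * d + 1) := by
    rw [← card_PL]
    exact card_le_card (filter_subset _ _)
  have h4 : √((I.card : ℝ) * ((Fintype.card F ^ (3 * d + 1) : ℕ) : ℝ)) ≤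
      √(((Fintype.card F ^ (4 * d + 1) : ℕ) : ℝ) * ((Fintype.card F ^ (3 * d + 1) : ℕ) : ℝ)) := by
    apply Real.sqrt_le_sqrt
    apply mul_le_mul_of_nonneg_right _ (by positivity)
    exact_mod_cast h3
  calc ∑ f ∈ I, ‖∑ v ∈ PL F h, WtM Mo (fun P => asy a (a * e + b) P) (disc2 a e b f (c + Mo * v))‖ =
        ∑ f ∈ I, ‖∑ v ∈ PL F h, WtM Mo (fun P => asy a (a * e + b) P) (disc2 a e b f c + A ^ 6 * Mo * v)‖ :=
        sum_congr rfl (fun f _ => by rw [hsum f])
    _ ≤ _ := hmain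
    _ ≤ _ := by
        apply mul_le_mul_of_nonneg_left _ (by positivity)
        exact mul_le_mul_of_nonneg_right h4 (by positivity)

end Pool.Agent.H456.RN
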