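import Pool.Agent.H456.RN.Jac

/-!
# Characteristic three: the progressions in the last coefficient
-/

set_option autoImplicit false
set_option linter.all false
set_option maxHeartbeats 1000000

open Finset Polynomial ComplexConjugate
open Pool.Agent.H341R2.Sharp (Mon mem_Mon lam)
open Pool.Agent.Q284.PS Pool.Agent.Q53.PS Pool.Agent.Q68.PS

namespace Pool.Agent.H456.RN

/-- the discriminant of `x³ + a x² + b x + c` in characteristic three -/
def disc3 {R : Type*} [CommRing R] (a b c : R) : R := a ^ 2 * b ^ 2 - b ^ 3 - a ^ 3 * c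

variable {F : Type} [Field F]

theorem disc3_sub [CharP F 3] (a b b' c : F[X]) :
    disc3 a b' c - disc3 a b c = a ^ 2 * ((b' - b) * (b' + b)) - (b' - b) ^ 3 := by
  haveI : CharP F[X] 3 := inferInstance
  haveI : Fact (Nat.Prime 3) := ⟨Nat.prime_three⟩
  rw [sub_pow_char b' b (p := 3)]
  unfold disc3
  ring

theorem disc3_add (a b c v : F[X]) : disc3 a b (c + v) = disc3 a b c - a ^ 3 * v := by
  unfold disc3
  ring

/-- the ideal of the `δ` with `a² ∣ δ³` -/
theorem exists_R [CharP F 3] {a : F[X]} (ha : a ≠ 0) : ∃ R : F[X], R ≠ 0 ∧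
    (∀ δ : F[X], a ^ 2 ∣ δ ^ 3 → R ∣ δ) ∧ 2 * a.natDegree ≤ 3 * R.natDegree ∧ R.natDegree ≤ a.natDegree := by
  haveI : CharP F[X] 3 := inferInstance
  haveI : Fact (Nat.Prime 3) := ⟨Nat.prime_three⟩
  let J : Ideal F[X] :=
    { carrier := {δ | a ^ 2 ∣ δ ^ 3}
      add_mem' := by
        intro x y hx hy
        rw [Set.mem_setOf_eq] at *
        rw [add_pow_char x y (p := 3)]
        exact dvd_add hx hy
      zero_mem' := by
        rw [Set.mem_setOf_eq]
        exact ⟨0, by ring⟩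
      smul_mem' := by
        intro c x hx
        rw [Set.mem_setOf_eq] at *
        rw [smul_eq_mul, mul_pow]
        exact hx.mul_left _ }
  obtain ⟨R, hR⟩ := (IsPrincipalIdealRing.principal J).principal
  have hmem : ∀ δ : F[X], a ^ 2 ∣ δ ^ 3 ↔ R ∣ δ := by
    intro δ
    have h1 : δ ∈ J ↔ a ^ 2 ∣ δ ^ 3 := Iff.rfl
    rw [← h1, hR]
    exact Ideal.mem_span_singleton
  have haR : R ∣ a := (hmem a).1 ⟨a, by ring⟩
  have hR0 : R ≠ 0 := fun h => ha (zero_dvd_iff.1 (h ▸ haR))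
  refine ⟨R, hR0, fun δ h => (hmem δ).1 h, ?_, natDegree_le_of_dvd haR ha⟩
  have h2 := natDegree_le_of_dvd ((hmem R).2 dvd_rfl) (pow_ne_zero 3 hR0)
  rw [natDegree_pow, natDegree_pow] at h2
  exact h2

variable [Fintype F]

theorem disc3_natDegree_le {a b c : F[X]} {d : ℕ} (ha : a.natDegree ≤ 2 * d) (hb : b.natDegree ≤ 4 * d)
    (hc : c.natDegree ≤ 6 * d) : (disc3 a b c).natDegree ≤ 12 * d := by
  unfold disc3
  refine (natDegree_sub_le _ _).trans (max_le ((natDegree_sub_le _ _).trans (max_le ?_ ?_)) ?_)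
  · refine natDegree_mul_le.trans ?_
    rw [natDegree_pow, natDegree_pow]
    omega
  · rw [natDegree_pow]
    omega
  · refine natDegree_mul_le.trans ?_
    rw [natDegree_pow]
    omega

/-- the condition on `b` in the sums -/
def Cond3 (Mo : F[X]) (k d : ℕ) (a b c : F[X]) : Prop :=
  (∀ P : F[X], P.Monic → Irreducible P → P ∣ a → P ∣ b → P ∣ Mo) ∧
  (∀ P : F[X], P.Monic → Irreducible P → P ∣ Mo → ¬ P ^ (k + 1) ∣ disc3 a b c) ∧
  disc3 a b c ≠ 0 ∧ 12 * d ≤ (disc3 a b c).natDegree + k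

open Classical in
theorem mult3 [CharP F 3] {a : F[X]} (ha : a ≠ 0) {d : ℕ} (had : a.natDegree ≤ 2 * d) (I : Finset F[X])
    (hI : I ⊆ PL F (4 * d + 1)) (c b : F[X]) (hb : b ∈ I) (U : F[X]) (hU : a ^ 3 ∣ U) :
    (I.filter (fun j => U ∣ disc3 a j c - disc3 a b c ∧
      (disc3 a j c - disc3 a b c).degree < ((3 * a.natDegree + 6 * d + 1 : ℕ) : WithBot ℕ))).card ≤
      Fintype.card F ^ ((8 * d + 3) / 3) := by
  obtain ⟨R, hR0, hR1, hR2, hR3⟩ := exists_R ha
  have hsub : (I.filter (fun j => U ∣ disc3 a j c - disc3 a b c ∧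
      (disc3 a j c - disc3 a b c).degree < ((3 * a.natDegree + 6 * d + 1 : ℕ) : WithBot ℕ))) ⊆
      ((PL F (2 * d + a.natDegree + 1)).filter (fun δ => R ∣ δ)).image (fun δ => b + δ) := by
    intro j hj
    rw [mem_filter] at hj
    obtain ⟨hjI, h1, h2⟩ := hj
    rw [mem_image]
    refine ⟨j - b, ?_, by ring⟩
    rw [mem_filter]
    rw [disc3_sub] at h1 h2
    have h3 : a ^ 2 ∣ (j - b) ^ 3 := by
      have h4 : a ^ 2 ∣ a ^ 2 * ((j - b) * (j + b)) - (j - b) ^ 3 :=
        (pow_dvd_pow a (by norm_num : 2 ≤ 3)).trans (hU.trans h1)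
      have h5 : a ^ 2 ∣ a ^ 2 * ((j - b) * (j + b)) := dvd_mul_right _ _
      exact (dvd_sub_right h5).1 h4
    refine ⟨?_, hR1 _ h3⟩
    by_contra hc
    have h0 : j - b ≠ 0 := fun h => hc (by rw [h]; exact zero_mem_PL _)
    have he : 2 * d + a.natDegree + 1 ≤ (j - b).natDegree := by
      by_contra h
      exact hc (mem_PL_of_natDegree (by omega))
    have hj4 := natDegree_le_of_mem_PL (hI hjI)
    have hb4 := natDegree_le_of_mem_PL (hI hb)
    have hs : (j + b).natDegree ≤ 4 * d := (natDegree_add_le _ _).trans (max_le hj4 hb4)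
    have h6 : (a ^ 2 * ((j - b) * (j + b))).natDegree < ((j - b) ^ 3).natDegree := by
      refine lt_of_le_of_lt natDegree_mul_le ?_
      rw [natDegree_pow, natDegree_pow]
      have : ((j - b) * (j + b)).natDegree ≤ (j - b).natDegree + 4 * d :=
        natDegree_mul_le.trans (by omega)
      omega
    have h7 := natDegree_sub_eq_right_of_natDegree_lt h6
    rw [natDegree_pow] at h7
    have h8 : a ^ 2 * ((j - b) * (j + b)) - (j - b) ^ 3 ≠ 0 := by
      intro h
      rw [h, natDegree_zero] at h7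
      omega
    rw [degree_eq_natDegree h8, h7] at h2
    have h9 : 3 * (j - b).natDegree < 3 * a.natDegree + 6 * d + 1 := by exact_mod_cast h2
    omega
  refine (card_le_card hsub).trans (card_image_le.trans ((card_dvd_PL _ hR0).trans ?_))
  apply Nat.pow_le_pow_right (Fintype.card_pos)
  omega

open Classical in
/-- **the sums over the last two coefficients** -/
theorem fam3 [CharP F 3] (ε : ℝ) (hε : 0 < ε) : ∃ C0 : ℝ, 0 < C0 ∧ ∀ (Mo : F[X]) (k N d : ℕ), Mo.Monic →
    (∀ P : F[X], P.Monic → Irreducible P → P ∣ Mo → P ^ (k + 1) ∣ Mo) → k < N →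
    N + Mo.natDegree ≤ 6 * d + 1 → ∀ a ∈ PL F (2 * d + 1), a ≠ 0 → ∀ c : F[X], c ∈ PL F (6 * d + 1) →
    ∑ b ∈ (PL F (4 * d + 1)).filter (fun b => Cond3 Mo k d a b c),
      ‖∑ v ∈ PL F (6 * d + 1 - N - Mo.natDegree), WtM Mo (fun P => (leg P a : ℂ)) (disc3 a b (c + Mo * v))‖ ≤
      ((Fintype.card F : ℝ) * (Fintype.card F : ℝ) ^ (Mo.natDegree + 1) * (12 * d + 1)) *
      (√(((Fintype.card F ^ (4 * d + 1) : ℕ) : ℝ) * (Fintype.card F ^ ((8 * d + 3) / 3) : ℕ)) *
      (C0 * √(Fintype.card F : ℝ) ^ (12 * d) * Real.exp (ε * (2 * (12 * d) : ℕ)))) := by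
  have h2 : ringChar F ≠ 2 := by
    rw [ringChar.eq F 3]
    norm_num
  obtain ⟨C0, hC0, hcore⟩ := core (F := F) ε hε
  refine ⟨C0, hC0, ?_⟩
  intro Mo k N d hMo hk hkN hNd a ha ha0 c hc
  obtain ⟨A, s, hA, haA, hs, hhay, hleg⟩ := exists_jac h2 ha0
  set α := a.leadingCoeff with hα
  have hα0 : α ≠ 0 := leadingCoeff_ne_zero.2 ha0
  have hda : a.natDegree ≤ 2 * d := natDegree_le_of_mem_PL ha
  have hdA : A.natDegree = a.natDegree := by
    conv_rhs => rw [haA]
    rw [natDegree_C_mul hα0]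
  have hA3 : (A ^ 3).Monic := hA.pow 3
  have hA3d : (A ^ 3).natDegree = 3 * a.natDegree := by rw [natDegree_pow, hdA]
  have hPa : ∀ P : F[X], P ∣ A → P ∣ a := fun P hP => by rw [haA]; exact hP.mul_left _
  have hcube : a ^ 3 = C (α ^ 3) * A ^ 3 := by
    conv_lhs => rw [haA]
    rw [mul_pow, C_pow]
  set h := 6 * d + 1 - N - Mo.natDegree with hh
  set I := (PL F (4 * d + 1)).filter (fun b => Cond3 Mo k d a b c) with hI
  have hc6 := natDegree_le_of_mem_PL hc
  have hmain := hcore (A ^ 3) Mo hA3 hMo h k 0 (12 * d - k) A (dvd_pow_self A (by norm_num)) (jac A)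
    (fun P => (leg P a : ℂ)) hhay s hs (fun P hP1 hP2 _ _ => hleg P hP1 hP2) hk (by omega) I
    (fun b => disc3 a b c) (by
      intro b hb
      rw [hI, mem_filter] at hb
      obtain ⟨h1, h2, h3, h4, h5⟩ := hb
      have h6 := disc3_natDegree_le hda (natDegree_le_of_mem_PL h1) hc6
      refine ⟨h4, ?_, ?_⟩
      · omega
      · omega) (by
      intro b hb
      rw [hI, mem_filter] at hb
      exact hb.2.2.1) (by
      intro b hb P hP1 hP2 hP3 hP4 hP5
      rw [hI, mem_filter] at hb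
      have h1 : P ∣ a := hPa P (hP2.prime.dvd_of_dvd_pow hP4)
      have h3 : P ∣ b := by
        have h4 : P ∣ b ^ 3 := by
          have h5 : b ^ 3 = a * (a * b ^ 2 - a ^ 2 * c) - disc3 a b c := by unfold disc3; ring
          rw [h5]
          exact dvd_sub (h1.mul_right _) hP5
        exact hP2.prime.dvd_of_dvd_pow h4
      exact hP3 (hb.2.1 P hP1 hP2 h1 h3)) (Fintype.card F ^ ((8 * d + 3) / 3)) (by
      intro b hb
      refine le_trans (card_le_card ?_) (mult3 ha0 hda I (filter_subset _ _) c b hb (A ^ 3 * Mo) ?_)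
      · intro j hj
        rw [mem_filter] at hj ⊢
        refine ⟨hj.1, hj.2.1, hj.2.2.trans_le ?_⟩
        rw [hA3d]
        exact_mod_cast (by omega : 3 * a.natDegree + Mo.natDegree + h ≤ 3 * a.natDegree + 6 * d + 1)
      · refine ⟨C (α ^ 3)⁻¹ * Mo, ?_⟩
        rw [hcube]
        have : C (α ^ 3) * C (α ^ 3)⁻¹ = (1 : F[X]) := by
          rw [← C_mul, mul_inv_cancel₀ (pow_ne_zero 3 hα0), C_1]
        linear_combination (-(A ^ 3 * Mo)) * this)
  have hn : 12 * d - k + k = 12 * d := by omega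
  have hn' : (((12 * d - k : ℕ) : ℝ) + k + 1) = 12 * d + 1 := by
    have : ((12 * d - k : ℕ) : ℝ) + k = ((12 * d - k + k : ℕ) : ℝ) := by push_cast; ring
    rw [this, hn]
    push_cast
    ring
  rw [hn, hn'] at hmain
  have hu : -(α ^ 3) ≠ 0 := neg_ne_zero.2 (pow_ne_zero 3 hα0)
  refine le_trans (le_of_eq ?_) (hmain.trans ?_)
  · refine sum_congr rfl fun b _ => ?_
    congr 1
    rw [← sum_smul h hu (fun v => WtM Mo (fun P => (leg P a : ℂ)) (disc3 a b c + A ^ 3 * Mo * v))]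
    refine sum_congr rfl fun v _ => ?_
    rw [disc3_add]
    congr 1
    rw [hcube, C_neg]
    ring
  · apply mul_le_mul_of_nonneg_left _ (by positivity)
    apply mul_le_mul_of_nonneg_right _ (by positivity)
    apply Real.sqrt_le_sqrt
    apply mul_le_mul_of_nonneg_right _ (by positivity)
    have h3 : I.card ≤ Fintype.card F ^ (4 * d + 1) := by
      rw [← card_PL]
      exact card_le_card (filter_subset _ _)
    exact_mod_cast h3

end Pool.Agent.H456.RN
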