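import Pool.Agent.H456.RN.SS2b

/-!
# Characteristic two: semistable equations, the total and the count
-/

set_option autoImplicit false
set_option linter.all false
set_option maxHeartbeats 2000000

open Finset Polynomial ComplexConjugate
open Pool.Agent.H341R2.Sharp (Mon mem_Mon lam)
open Pool.Agent.Q284.PS Pool.Agent.Q53.PS Pool.Agent.Q68.PS

namespace Pool.Agent.H456.RN

variable {F : Type} [Field F] [Fintype F]

open Classical in
/-- **Power saving for the semistable equations.** -/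
theorem ss2_total [CharP F 2] (ε : ℝ) (hε : 0 < ε) : ∃ K : ℝ, 0 < K ∧ ∀ d : ℕ, 1 ≤ d →
    ‖∑ T ∈ (Box2 F d).filter (fun T => SSt2 d T), Rt2 d T‖ ≤ K * (Fintype.card F : ℝ) ^ ((31 / 2 + ε) * d) := by
  set q : ℝ := (Fintype.card F : ℝ) with hq
  have hq2 : 2 ≤ q := two_le_q
  have hq0 : 0 < q := by linarith
  have hlq : 0 < Real.log q := Real.log_pos (by linarith)
  set ε' := ε * Real.log q / 48 with hε'
  have hε'0 : 0 < ε' := by positivity
  set δ := ε * Real.log q / 2 with hδ
  have hδ0 : 0 < δ := by positivity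
  obtain ⟨CA, hCA, hA⟩ := ss2_caseA (F := F) ε' hε'0
  obtain ⟨CB, hCB, hB⟩ := ss2_caseB (F := F) ε' hε'0
  set s := √q with hs
  have hss : s * s = q := Real.mul_self_sqrt hq0.le
  have hs1 : 1 ≤ s := by rw [hs, Real.one_le_sqrt]; linarith
  have hs0 : 0 < s := by linarith
  refine ⟨(CA + CB) * q ^ 6 * (12 / δ + 1) * Real.exp ε', by positivity, ?_⟩
  intro d hd
  set B0 : ℝ := (q * q * ((12 * d : ℕ) + 1)) * (s ^ (7 * d + 2) * ((CA + CB) * s ^ (12 * d) *
    Real.exp (ε' * ((2 * (12 * d) + 1 : ℕ) : ℝ)))) with hB0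
  have hB00 : 0 ≤ B0 := by positivity
  have hsq : √(((Fintype.card F ^ (4 * d + 1) : ℕ) : ℝ) * (Fintype.card F ^ (3 * d + 1) : ℕ)) = s ^ (7 * d + 2) := by
    have h1 : ((Fintype.card F ^ (4 * d + 1) : ℕ) : ℝ) * (Fintype.card F ^ (3 * d + 1) : ℕ) =
        (s ^ (7 * d + 2)) ^ 2 := by
      push_cast
      rw [← hq, ← pow_add, ← pow_mul, mul_comm _ 2, pow_mul, pow_two, hss]
      congr 1
      omega
    rw [h1, Real.sqrt_sq (by positivity)]
  have hbound : ∀ a ∈ PL F (d + 1), ∀ e ∈ PL F (2 * d + 1), ∀ b ∈ PL F (3 * d + 1),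
      ‖∑ f ∈ PL F (4 * d + 1), ∑ c ∈ PL F (6 * d + 1),
        (if SSt2 d (a, e, b, f, c) then Rt2 d (a, e, b, f, c) else 0)‖ ≤ B0 := by
    intro a ha e he b hb
    by_cases ha0 : a = 0
    · have h1 : ∀ f ∈ PL F (4 * d + 1), ∑ c ∈ PL F (6 * d + 1),
        (if SSt2 d (a, e, b, f, c) then Rt2 d (a, e, b, f, c) else 0) = 0 := by
        intro f hf
        refine sum_eq_zero fun c hc => ?_
        rw [ha0, if_neg (sst2_zero hd he hb hf hc)]
      rw [sum_congr rfl h1, sum_const_zero, norm_zero]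
      exact hB00
    · by_cases hcop : IsCoprime b a
      · have hnd := natDegree_le_of_mem_PL ha
        rcases Nat.lt_or_eq_of_le hnd with h8 | h8
        · by_cases hbd : b.natDegree = 3 * d
          · refine (hB d hd a ha ha0 h8 e he b hb hcop hbd).trans ?_
            rw [hsq]
            have e1 : Real.exp (ε' * ((2 * (12 * d) : ℕ) : ℝ)) ≤ Real.exp (ε' * ((2 * (12 * d) + 1 : ℕ) : ℝ)) := by
              apply Real.exp_le_exp.2
              apply mul_le_mul_of_nonneg_left _ hε'0.le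
              exact_mod_cast (by omega : 2 * (12 * d) ≤ 2 * (12 * d) + 1)
            have e2 : CB * s ^ (12 * d) * Real.exp (ε' * ((2 * (12 * d) : ℕ) : ℝ)) ≤
                (CA + CB) * s ^ (12 * d) * Real.exp (ε' * ((2 * (12 * d) + 1 : ℕ) : ℝ)) := by
              apply mul_le_mul _ e1 (Real.exp_pos _).le (by positivity)
              apply mul_le_mul_of_nonneg_right _ (by positivity)
              linarith
            rw [hB0]
            gcongr
          · have h1 : ∀ f ∈ PL F (4 * d + 1), ∑ c ∈ PL F (6 * d + 1),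
              (if SSt2 d (a, e, b, f, c) then Rt2 d (a, e, b, f, c) else 0) = 0 := by
              intro f hf
              refine sum_eq_zero fun c hc => ?_
              rw [if_neg (fun h => hbd ((sst2_B hd ha0 h8 he hb hf hc).1 h).2.2)]
            rw [sum_congr rfl h1, sum_const_zero, norm_zero]
            exact hB00
        · refine (hA d hd a ha ha0 h8 e he b hb hcop).trans ?_
          rw [hsq]
          have e2 : CA * s ^ (12 * d) * Real.exp (ε' * ((2 * (12 * d) + 1 : ℕ) : ℝ)) ≤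
              (CA + CB) * s ^ (12 * d) * Real.exp (ε' * ((2 * (12 * d) + 1 : ℕ) : ℝ)) := by
            apply mul_le_mul_of_nonneg_right _ (Real.exp_pos _).le
            apply mul_le_mul_of_nonneg_right _ (by positivity)
            linarith
          have e3 : q * ((12 * d : ℕ) + 1) ≤ q * q * ((12 * d : ℕ) + 1) := by
            apply mul_le_mul_of_nonneg_right _ (by positivity)
            nlinarith
          rw [hB0]
          gcongr
      · have h1 : ∀ f ∈ PL F (4 * d + 1), ∑ c ∈ PL F (6 * d + 1),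
          (if SSt2 d (a, e, b, f, c) then Rt2 d (a, e, b, f, c) else 0) = 0 := by
          intro f hf
          refine sum_eq_zero fun c hc => ?_
          rw [if_neg (fun h => hcop (sst2_coprime ha0 h))]
        rw [sum_congr rfl h1, sum_const_zero, norm_zero]
        exact hB00
  have hsum : ‖∑ T ∈ (Box2 F d).filter (fun T => SSt2 d T), Rt2 d T‖ ≤ q ^ (6 * d + 3) * B0 := by
    have e1 : ∑ T ∈ (Box2 F d).filter (fun T => SSt2 d T), Rt2 d T =
        ∑ a ∈ PL F (d + 1), ∑ e ∈ PL F (2 * d + 1), ∑ b ∈ PL F (3 * d + 1), ∑ f ∈ PL F (4 * d + 1),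
          ∑ c ∈ PL F (6 * d + 1), (if SSt2 d (a, e, b, f, c) then Rt2 d (a, e, b, f, c) else 0) := by
      rw [sum_filter]
      unfold Box2
      rw [sum_product]
      refine sum_congr rfl fun a ha => ?_
      rw [sum_product]
      refine sum_congr rfl fun e he => ?_
      rw [sum_product]
      refine sum_congr rfl fun b hb => ?_
      rw [sum_product]
    rw [e1]
    have h2 : ∀ a ∈ PL F (d + 1), ∀ e ∈ PL F (2 * d + 1),
        ‖∑ b ∈ PL F (3 * d + 1), ∑ f ∈ PL F (4 * d + 1), ∑ c ∈ PL F (6 * d + 1),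
          (if SSt2 d (a, e, b, f, c) then Rt2 d (a, e, b, f, c) else 0)‖ ≤ q ^ (3 * d + 1) * B0 := by
      intro a ha e he
      refine (norm_sum_le _ _).trans ((sum_le_card_nsmul _ _ _ (hbound a ha e he)).trans (le_of_eq ?_))
      rw [card_PL, nsmul_eq_mul]
      push_cast
      rfl
    have h3 : ∀ a ∈ PL F (d + 1),
        ‖∑ e ∈ PL F (2 * d + 1), ∑ b ∈ PL F (3 * d + 1), ∑ f ∈ PL F (4 * d + 1), ∑ c ∈ PL F (6 * d + 1),
          (if SSt2 d (a, e, b, f, c) then Rt2 d (a, e, b, f, c) else 0)‖ ≤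
          q ^ (2 * d + 1) * (q ^ (3 * d + 1) * B0) := by
      intro a ha
      refine (norm_sum_le _ _).trans ((sum_le_card_nsmul _ _ _ (h2 a ha)).trans (le_of_eq ?_))
      rw [card_PL, nsmul_eq_mul]
      push_cast
      rfl
    refine (norm_sum_le _ _).trans ((sum_le_card_nsmul _ _ _ h3).trans (le_of_eq ?_))
    rw [card_PL, nsmul_eq_mul]
    push_cast
    rw [← hq]
    have h4 : q ^ (6 * d + 3) = q ^ (d + 1) * (q ^ (2 * d + 1) * q ^ (3 * d + 1)) := by
      rw [← pow_add, ← pow_add]; congr 1; omega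
    rw [h4]
    ring
  refine hsum.trans ?_
  have e1 : ((12 * d : ℕ) : ℝ) + 1 ≤ (12 / δ + 1) * Real.exp (δ * d) := by
    have h1 : δ * d ≤ Real.exp (δ * d) := by
      have := Real.add_one_le_exp (δ * (d : ℝ))
      linarith
    have h2 : 1 ≤ Real.exp (δ * d) := Real.one_le_exp (by positivity)
    have h3 : (12 : ℝ) * d = 12 / δ * (δ * d) := by field_simp
    push_cast
    rw [h3]
    have h4 : 12 / δ * (δ * d) ≤ 12 / δ * Real.exp (δ * d) := mul_le_mul_of_nonneg_left h1 (by positivity)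
    linarith
  have e2 : Real.exp (ε' * ((2 * (12 * d) + 1 : ℕ) : ℝ)) = Real.exp ε' * Real.exp (24 * ε' * d) := by
    rw [← Real.exp_add]
    congr 1
    push_cast
    ring
  have e3 : Real.exp (24 * ε' * d) * Real.exp (δ * d) = q ^ (ε * d) := by
    rw [← Real.exp_add, Real.rpow_def_of_pos hq0]
    congr 1
    rw [hε', hδ]
    ring
  have e4 : s ^ (7 * d + 2) * s ^ (12 * d) * q ^ (6 * d + 3) = q ^ 4 * q ^ ((31 / 2 : ℝ) * d) := by
    have h2 : q ^ (6 * d + 3) = s ^ (12 * d + 6) := by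
      rw [← hss, ← pow_two, ← pow_mul]; congr 1; ring
    have h3 : q ^ 4 = s ^ 8 := by
      rw [← hss]; ring
    have h4 : q ^ ((31 / 2 : ℝ) * d) = s ^ (31 * d) := by
      rw [hs, Real.sqrt_eq_rpow, ← Real.rpow_natCast, ← Real.rpow_mul hq0.le]
      congr 1
      push_cast
      ring
    rw [h2, h3, h4, ← pow_add, ← pow_add, ← pow_add]
    congr 1
    ring
  have e5 : q ^ ((31 / 2 + ε) * d) = q ^ ((31 / 2 : ℝ) * d) * q ^ (ε * d) := by
    rw [add_mul, Real.rpow_add hq0]
  rw [e5, hB0, e2]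
  calc q ^ (6 * d + 3) * (q * q * (((12 * d : ℕ) : ℝ) + 1) * (s ^ (7 * d + 2) * ((CA + CB) * s ^ (12 * d) *
        (Real.exp ε' * Real.exp (24 * ε' * d))))) =
      (CA + CB) * (q * q) * Real.exp ε' * (s ^ (7 * d + 2) * s ^ (12 * d) * q ^ (6 * d + 3)) *
        Real.exp (24 * ε' * d) * (((12 * d : ℕ) : ℝ) + 1) := by ring
    _ = (CA + CB) * (q * q) * Real.exp ε' * (q ^ 4 * q ^ ((31 / 2 : ℝ) * d)) *
        Real.exp (24 * ε' * d) * (((12 * d : ℕ) : ℝ) + 1) := by rw [e4]
    _ ≤ (CA + CB) * (q * q) * Real.exp ε' * (q ^ 4 * q ^ ((31 / 2 : ℝ) * d)) *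
        Real.exp (24 * ε' * d) * ((12 / δ + 1) * Real.exp (δ * d)) :=
        mul_le_mul_of_nonneg_left e1 (by positivity)
    _ = (CA + CB) * q ^ 6 * (12 / δ + 1) * Real.exp ε' * (q ^ ((31 / 2 : ℝ) * d) *
        (Real.exp (24 * ε' * d) * Real.exp (δ * d))) := by ring
    _ = _ := by rw [e3]

open Classical in
/-- the number of semistable equations -/
theorem card_SSt2 {d : ℕ} (hd : 1 ≤ d) :
    (Fintype.card F - 1) ^ 2 * Fintype.card F ^ (16 * d + 3) ≤
      ((Box2 F d).filter (fun T => SSt2 d T ∧ T.1.natDegree = d)).card := by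
  have h1 : (((univ : Finset F).filter (fun ℓ => ℓ ≠ 0)) ×ˢ (Cp F d (3 * d + 1) ×ˢ
      (PL F (2 * d + 1) ×ˢ (PL F (4 * d + 1) ×ˢ PL F (6 * d + 1))))).card ≤
      ((Box2 F d).filter (fun T => SSt2 d T ∧ T.1.natDegree = d)).card := by
    apply card_le_card_of_injOn (fun y => ((C y.1 * y.2.1.1, y.2.2.1, y.2.1.2, y.2.2.2.1, y.2.2.2.2) : Wei F))
    · intro y hy
      rw [Finset.mem_coe, mem_product, mem_filter, mem_product, mem_product, mem_product] at hy
      obtain ⟨⟨_, hy1⟩, hy2, hy3, hy4, hy5⟩ := hy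
      unfold Cp at hy2
      rw [mem_filter, mem_product, mem_Mon] at hy2
      obtain ⟨⟨⟨h3, h4⟩, h5⟩, h6⟩ := hy2
      rw [Finset.mem_coe, mem_filter, mem_Box2]
      have h7 : (C y.1 * y.2.1.1).natDegree = d := by rw [natDegree_C_mul hy1, h4]
      have h8 : C y.1 * y.2.1.1 ≠ 0 := mul_ne_zero (C_ne_zero.2 hy1) h3.ne_zero
      refine ⟨⟨mem_PL_of_natDegree (f := C y.1 * y.2.1.1) (by omega), hy3, h5, hy4, hy5⟩, ?_, h7⟩
      apply (sst2_A hd h8 h7).2
      exact ((isCoprime_mul_unit_left_left (isUnit_C.2 (isUnit_iff_ne_zero.2 hy1)) _ _).2 h6).symm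
    · intro y hy z hz h
      rw [Finset.mem_coe, mem_product, mem_filter, mem_product] at hy hz
      obtain ⟨⟨_, hy1⟩, hy2, hy3⟩ := hy
      obtain ⟨⟨_, hz1⟩, hz2, hz3⟩ := hz
      unfold Cp at hy2 hz2
      rw [mem_filter, mem_product, mem_Mon] at hy2 hz2
      simp only [Prod.mk.injEq] at h
      obtain ⟨e1, e2, e3, e4', e5'⟩ := h
      have e4 : y.1 = z.1 := by
        have := congrArg leadingCoeff e1
        rwa [leadingCoeff_mul, leadingCoeff_C, hy2.1.1.1.leadingCoeff, mul_one, leadingCoeff_mul, leadingCoeff_C,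
          hz2.1.1.1.leadingCoeff, mul_one] at this
      rw [e4] at e1
      have e5 := mul_left_cancel₀ (C_ne_zero.2 hz1) e1
      exact Prod.ext e4 (Prod.ext (Prod.ext e5 e3) (Prod.ext e2 (Prod.ext e4' e5')))
  refine le_trans (le_of_eq ?_) h1
  rw [card_product, card_product, card_product, card_product, card_PL, card_PL, card_PL]
  have h2 : ((univ : Finset F).filter (fun ℓ => ℓ ≠ 0)).card = Fintype.card F - 1 := by
    rw [filter_ne', card_erase_of_mem (mem_univ _), card_univ]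
  have h3 := card_Cp (F := F) d (3 * d + 1) (by omega) (by omega)
  rw [h2]
  obtain ⟨p, hp⟩ : ∃ p, Fintype.card F = p + 1 := ⟨Fintype.card F - 1, by
    have := Fintype.card_pos (α := F)
    omega⟩
  have h4 : (Cp F d (3 * d + 1)).card = p * Fintype.card F ^ (4 * d) := by
    have e1 : d + (3 * d + 1) - 1 = 4 * d := by omega
    have e2 : d + (3 * d + 1) = 4 * d + 1 := by omega
    rw [e1, e2, pow_succ] at h3
    have h5 : Fintype.card F ^ (4 * d) * Fintype.card F = p * Fintype.card F ^ (4 * d) + Fintype.card F ^ (4 * d) := by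
      conv_lhs => rw [hp]
      conv_rhs => rw [hp]
      ring
    omega
  rw [h4]
  have h5 : Fintype.card F - 1 = p := by omega
  rw [h5]
  ring

end Pool.Agent.H456.RN
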