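import Pool.Agent.H456.RN.Loc
import Pool.Agent.H456.RN.SS2c

/-!
# Characteristic two: local systems and the analytic input
-/

open Polynomial WeierstrassCurve Finset Filter
open Pool.Agent.H456.RN

namespace Pool.Agent.H456.EC

section

variable {F : Type} [Field F] [CharP F 2]

theorem toW_Δ (T : Wei F) : (toW T).Δ = dwc T := by
  have h2 : (2 : F[X]) = 0 := CharTwo.two_eq_zero
  unfold dwc disc2 toW
  simp only [WeierstrassCurve.Δ, b₂, b₄, b₆, b₈]
  obtain ⟨a, e, b, f, c⟩ := T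
  simp only
  linear_combination (a * e * c * b * 72 + a * e * b ^ 3 * 18 + a * e ^ 2 * b * f * 8 - a * b * f ^ 2 * 48 +
    a ^ 2 * e * f ^ 2 * 4 - a ^ 2 * e ^ 2 * c * 24 - a ^ 2 * e ^ 2 * b ^ 2 * 4 + a ^ 2 * c * f * 36 -
    a ^ 2 * b ^ 2 * f * 15 + a ^ 3 * e * b * f * 4 + a ^ 3 * c * b * 18 - a ^ 4 * e * c * 6 - a ^ 4 * e * b ^ 2 -
    a ^ 6 * c + e * c * f * 144 + e * b ^ 2 * f * 36 + e ^ 2 * f ^ 2 * 8 - e ^ 3 * c * 32 - e ^ 3 * b ^ 2 * 8 -
    c * b ^ 2 * 108 - c ^ 2 * 216 - b ^ 4 * 14 - f ^ 3 * 32) * h2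

theorem toW_c₄ (T : Wei F) : (toW T).c₄ = T.1 ^ 4 := by
  have : CharP F[X] 2 := inferInstance
  rw [c₄_of_char_two]
  rfl

omit [CharP F 2] in
theorem rev_toW (d : ℕ) (T : Wei F) : rev d (toW T) = toW (rw2 d T) := rfl

theorem ratTan2 {P : F[X]} (hi : Irreducible P) {T : Wei F} (ha : ¬ P ∣ T.1) :
    RatTan P (toW T) ↔ ∃ z : F[X], P ∣ T.1 ^ 3 * (z ^ 2 + z) - (T.1 * T.2.1 + T.2.2.1) := by
  have h2 : (2 : F[X]) = 0 := CharTwo.two_eq_zero
  obtain ⟨a, e, b, f, c⟩ := T
  simp only at ha ⊢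
  have hpoly : ∀ s : F[X], (toW (a, e, b, f, c)).c₄ * s ^ 2 + (toW (a, e, b, f, c)).a₁ * (toW (a, e, b, f, c)).c₄ * s -
      (54 * (toW (a, e, b, f, c)).b₆ - 3 * (toW (a, e, b, f, c)).b₂ * (toW (a, e, b, f, c)).b₄ +
      (toW (a, e, b, f, c)).a₂ * (toW (a, e, b, f, c)).c₄) =
      a ^ 4 * s ^ 2 + a ^ 5 * s + a ^ 3 * (a * e + b) := by
    intro s
    rw [toW_c₄]
    unfold toW
    simp only [b₂, b₄, b₆]
    linear_combination (a ^ 3 * b + 3 * a ^ 2 * f + 6 * a * b * e + 12 * e * f - 27 * b ^ 2 - 108 * c -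
      a ^ 4 * e) * h2
  have hcop : IsCoprime a P := ((hi.coprime_iff_not_dvd).2 ha).symm
  obtain ⟨u, v, huv⟩ := hcop
  constructor
  · rintro ⟨s, hs⟩
    rw [hpoly] at hs
    refine ⟨u * s, ?_⟩
    have h1 : P ∣ a ^ 3 * (a ^ 3 * ((u * s) ^ 2 + u * s) - (a * e + b)) := by
      have h3 : a ^ 3 * (a ^ 3 * ((u * s) ^ 2 + u * s) - (a * e + b)) =
          (a ^ 4 * s ^ 2 + a ^ 5 * s + a ^ 3 * (a * e + b)) +
          P * (-(v * (a ^ 4 * s ^ 2 * (1 + u * a) + a ^ 5 * s))) := by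
        linear_combination (a ^ 4 * s ^ 2 * (1 + u * a) + a ^ 5 * s) * huv - (a ^ 3 * (a * e + b)) * h2
      rw [h3]
      exact dvd_add hs ⟨_, rfl⟩
    exact (hi.prime.dvd_mul.1 h1).resolve_left (fun h => ha (hi.prime.dvd_of_dvd_pow h))
  · rintro ⟨z, hz⟩
    refine ⟨a * z, ?_⟩
    rw [hpoly]
    have h3 : a ^ 4 * (a * z) ^ 2 + a ^ 5 * (a * z) + a ^ 3 * (a * e + b) =
        a ^ 3 * (a ^ 3 * (z ^ 2 + z) - (a * e + b)) := by
      linear_combination (a ^ 3 * (a * e + b)) * h2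
    rw [h3]
    exact hz.mul_left _

theorem sg_eq {P : F[X]} (hi : Irreducible P) {T : Wei F} (ha : ¬ P ∣ T.1) :
    -sg T P = (open Classical in if RatTan P (toW T) then -1 else 1) := by
  classical
  unfold sg asy
  by_cases h : RatTan P (toW T)
  · rw [if_pos h, if_pos ((ratTan2 hi ha).1 h)]
  · rw [if_neg h, if_neg (fun h' => h ((ratTan2 hi ha).2 h')), neg_neg]

/-- the local factors of the semi-direct form -/
noncomputable def w2 (w : F[X] → WeierstrassCurve F[X] → ℤ) (P : F[X]) (T : Wei F) : ℂ :=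
  (open Classical in if dwc T = 0 then -sg T P else wm P (w P) (toW T))

omit [CharP F 2] in
theorem cong_toW {m : F[X]} {T T' : Wei F} (h1 : m ∣ T'.1 - T.1) (h2 : m ∣ T'.2.1 - T.2.1)
    (h3 : m ∣ T'.2.2.1 - T.2.2.1) (h4 : m ∣ T'.2.2.2.1 - T.2.2.2.1) (h6 : m ∣ T'.2.2.2.2 - T.2.2.2.2) :
    Cong m (toW T) (toW T') := ⟨h1, h2, h3, h4, h6⟩

variable [Fintype F]

theorem sys2_of {w : F[X] → WeierstrassCurve F[X] → ℤ} {winf : WeierstrassCurve F[X] → ℤ}
    (hfin : ∀ P : F[X], P.Monic → Irreducible P → LocalSign P (w P)) (hinf : LocalSign X winf) {M : ℕ}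
    (hM : ∀ P : F[X], P.Monic → Irreducible P → M < P.natDegree → Standard P (w P))
    (hsg : ∀ P W, w P W = 1 ∨ w P W = -1) :
    Sys2 M (w2 w) (fun T => wm X winf (toW T)) where
  norm := by
    intro P T
    unfold w2
    split_ifs
    · rw [norm_neg]; exact sg_norm T P
    · exact wm_norm P (hsg P) _
  norminf := fun T => wm_norm X hinf.sign _
  loc := by
    classical
    intro P hP hi k
    obtain ⟨N, hN⟩ := wm_loc (hfin P hP hi) k
    refine ⟨N, ?_⟩
    intro T T' hT h1 h2 h3 h4 h6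
    rw [← toW_Δ] at hT
    obtain ⟨e1, e2⟩ := hN (toW T) (toW T') hT (cong_toW h1 h2 h3 h4 h6)
    have e0 : (toW T).Δ ≠ 0 := by
      intro h0
      apply hT
      rw [h0]; exact dvd_zero _
    rw [toW_Δ] at e0 e2
    unfold w2
    rw [if_neg e0, if_neg e2, e1]
  locinf := by
    intro k
    obtain ⟨N, hN⟩ := wm_loc hinf k
    refine ⟨N, ?_⟩
    intro T T' hT h1 h2 h3 h4 h6
    rw [← toW_Δ] at hT
    exact (hN (toW T) (toW T') hT (cong_toW h1 h2 h3 h4 h6)).1.symm
  std := by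
    classical
    intro P hP hi hd T
    constructor
    · intro h
      unfold w2
      rw [if_neg]
      · apply wm_std_good (hM P hP hi hd)
        rwa [toW_Δ]
      · intro h0
        apply h
        rw [h0]; exact dvd_zero _
    · intro h ha
      unfold w2
      by_cases h0 : dwc T = 0
      · rw [if_pos h0]
      · rw [if_neg h0, sg_eq hi ha]
        apply wm_std_mult (hM P hP hi hd)
        · rwa [toW_Δ]
        · rwa [toW_Δ]
        · rw [toW_c₄]
          intro hc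
          exact ha (hi.prime.dvd_of_dvd_pow hc)

open Classical in
theorem sum_OmF2 (p : ℕ → WeierstrassCurve F[X] → Prop) (e : ℕ) (f : WeierstrassCurve F[X] → ℂ) :
    ∑ W ∈ OmF F p e, f W = ∑ T ∈ (Box2 F e).filter (fun T => dwc T ≠ 0),
      if MinAll e (toW T) ∧ p e (toW T) then f (toW T) else 0 := by
  unfold OmF EqF
  rw [sum_filter, sum_map, sum_filter]
  apply sum_congr rfl
  intro T _
  change (if (toW T).Δ ≠ 0 ∧ MinAll e (toW T) ∧ p e (toW T) then f (toW T) else 0) = _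
  rw [toW_Δ]
  by_cases h1 : dwc T ≠ 0
  · rw [if_pos h1]
    by_cases h2 : MinAll e (toW T) ∧ p e (toW T)
    · rw [if_pos ⟨h1, h2⟩, if_pos h2]
    · rw [if_neg (fun h => h2 h.2), if_neg h2]
  · rw [if_neg (fun h => h1 h.1), if_neg h1]

/-- the analytic input in characteristic two -/
theorem analytic2 {w : F[X] → WeierstrassCurve F[X] → ℤ} {winf : WeierstrassCurve F[X] → ℤ}
    (hL : LocalSystem w winf) :
    Tendsto (fun e : ℕ => (∑ W ∈ OmF F (fun _ _ => True) e, (globalSign w winf e W : ℝ)) /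
      (Fintype.card F : ℝ) ^ (16 * e + 5)) atTop (nhds 0) := by
  classical
  -- replace the signs outside the places by 1
  set w' : F[X] → WeierstrassCurve F[X] → ℤ := fun P W => if P.Monic ∧ Irreducible P then w P W else 1 with hw'
  have hw'eq : ∀ P : F[X], P.Monic → Irreducible P → w' P = w P := by
    intro P hP hi
    funext W
    rw [hw']
    simp only
    rw [if_pos ⟨hP, hi⟩]
  have hfin : ∀ P : F[X], P.Monic → Irreducible P → LocalSign P (w' P) := by
    intro P hP hi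
    rw [hw'eq P hP hi]
    exact hL.fin P hP hi
  obtain ⟨M, hM0⟩ := hL.std
  have hM : ∀ P : F[X], P.Monic → Irreducible P → M < P.natDegree → Standard P (w' P) := by
    intro P hP hi hd
    rw [hw'eq P hP hi]
    exact hM0 P hP hi hd
  have hsg : ∀ P W, w' P W = 1 ∨ w' P W = -1 := by
    intro P W
    rw [hw']
    simp only
    split_ifs with h
    · exact (hL.fin P h.1 h.2).sign W
    · left; rfl
  have hglob : ∀ e W, globalSign w' winf e W = globalSign w winf e W := by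
    intro e W
    unfold globalSign
    congr 1
    apply finprod_congr
    intro P
    rw [hw'eq P.1 P.2.1 P.2.2]
  have h1 := main2 (sys2_of hfin hL.inf hM hsg)
  have h2 : ∀ e : ℕ, (∑ T ∈ (Box2 F e).filter (fun T => dwc T ≠ 0),
      Wt2 M (w2 w') (fun T => wm X winf (toW T)) e T) / ((Box2 F e).card : ℂ) =
      (((∑ W ∈ OmF F (fun _ _ => True) e, (globalSign w winf e W : ℝ)) /
        (Fintype.card F : ℝ) ^ (16 * e + 5) : ℝ) : ℂ) := by
    intro e
    rw [card_Box2]
    push_cast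
    congr 1
    rw [sum_OmF2 (fun _ _ => True) e (fun W => (globalSign w winf e W : ℂ))]
    apply sum_congr rfl
    intro T hT
    rw [mem_filter] at hT
    unfold Wt2
    have h3 : ∏ P ∈ PrM F M ∪ pr (dwc T), w2 w' P T = ∏ P ∈ PrM F M ∪ pr (toW T).Δ, wm P (w' P) (toW T) := by
      rw [toW_Δ]
      apply prod_congr rfl
      intro P _
      unfold w2
      rw [if_neg hT.2]
    rw [h3]
    have h4 := prod_wm (winf := winf) hM (W := toW T) (by rw [toW_Δ]; exact hT.2) e
    rw [rev_toW] at h4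
    rw [h4, hglob]
    by_cases h5 : MinAll e (toW T)
    · rw [if_pos h5, if_pos ⟨h5, trivial⟩]
    · rw [if_neg h5, if_neg (fun h => h5 h.1)]
  have h3 : Tendsto (fun e : ℕ => (((∑ W ∈ OmF F (fun _ _ => True) e, (globalSign w winf e W : ℝ)) /
        (Fintype.card F : ℝ) ^ (16 * e + 5) : ℝ) : ℂ)) atTop (nhds ((0 : ℝ) : ℂ)) := by
    rw [Complex.ofReal_zero]
    exact h1.congr h2
  exact (Complex.continuous_re.tendsto _).comp h3

omit [Fintype F] in
theorem minAll_of_SSt2 {e : ℕ} {T : Wei F} (hT : SSt2 e T) : MinAll e (toW T) := by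
  refine ⟨fun P hP hi hn => ?_, fun hn => ?_⟩
  · have h1 := nonmin_Δ hn
    have h2 := nonmin_c₄ hn
    rw [toW_Δ] at h1
    rw [toW_c₄] at h2
    exact hT.2.1 P hP hi ((dvd_pow_self P (by norm_num)).trans h1)
      (hi.prime.dvd_of_dvd_pow ((dvd_pow_self P (by norm_num)).trans h2))
  · rw [rev_toW] at hn
    have h1 := nonmin_Δ hn
    have h2 := nonmin_c₄ hn
    rw [toW_Δ] at h1
    rw [toW_c₄] at h2
    exact hT.2.2 ((dvd_pow_self X (by norm_num)).trans h1)
      (irreducible_X.prime.dvd_of_dvd_pow ((dvd_pow_self X (by norm_num)).trans h2))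

open Classical in
theorem lower2 (e : ℕ) (he : 1 ≤ e) : ((Fintype.card F : ℝ) - 1) ^ 2 * (Fintype.card F : ℝ) ^ (16 * e + 3) ≤
      ((OmF F (fun _ _ => True) e).filter (fun W => W.c₄ ≠ 0)).card := by
  have h1 := card_SSt2 (F := F) he
  have h2 : ((Box2 F e).filter (fun T => SSt2 e T ∧ T.1.natDegree = e)).card ≤
      ((OmF F (fun _ _ => True) e).filter (fun W => W.c₄ ≠ 0)).card := by
    apply card_le_card_of_injOn toW
    · intro T hT
      rw [mem_coe, mem_filter] at hT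
      rw [mem_coe, mem_filter, mem_OmF]
      refine ⟨⟨⟨?_, mem_Box2_iff.1 hT.1⟩, minAll_of_SSt2 hT.2.1, trivial⟩, ?_⟩
      · rw [toW_Δ]; exact hT.2.1.1
      · rw [toW_c₄]
        apply pow_ne_zero
        intro h0
        have := hT.2.2
        rw [h0, natDegree_zero] at this
        omega
    · exact toW_inj.injOn
  have h3 : 1 ≤ Fintype.card F := Fintype.card_pos
  have h4 : (((Fintype.card F - 1) ^ 2 * Fintype.card F ^ (16 * e + 3) : ℕ) : ℝ) ≤
      ((OmF F (fun _ _ => True) e).filter (fun W => W.c₄ ≠ 0)).card := by exact_mod_cast h1.trans h2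
  push_cast [h3] at h4
  exact h4

open Classical in
theorem zero2 (e : ℕ) : (((EqF F e).filter (fun W => W.c₄ = 0)).card : ℝ) ≤ (Fintype.card F : ℝ) ^ (15 * e + 4) := by
  have h1 : ((EqF F e).filter (fun W => W.c₄ = 0)).card ≤
      (PL F (2 * e + 1) ×ˢ (PL F (3 * e + 1) ×ˢ (PL F (4 * e + 1) ×ˢ PL F (6 * e + 1)))).card := by
    apply card_le_card_of_injOn (fun W => (W.a₂, W.a₃, W.a₄, W.a₆))
    · intro W hW
      rw [mem_coe, mem_filter] at hW
      obtain ⟨h1, h2, h3, h4, h6⟩ := mem_EqF.1 hW.1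
      rw [mem_coe, mem_product, mem_product, mem_product]
      exact ⟨mem_PL_of_natDegree (f := W.a₂) (Nat.lt_succ_of_le h2), mem_PL_of_natDegree (f := W.a₃)
        (Nat.lt_succ_of_le h3), mem_PL_of_natDegree (f := W.a₄) (Nat.lt_succ_of_le h4),
        mem_PL_of_natDegree (f := W.a₆) (Nat.lt_succ_of_le h6)⟩
    · intro W hW V hV h
      rw [mem_coe, mem_filter] at hW hV
      rw [Prod.mk.injEq, Prod.mk.injEq, Prod.mk.injEq] at h
      have : CharP F[X] 2 := inferInstance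
      have e1 := hW.2
      have e2 := hV.2
      rw [c₄_of_char_two] at e1 e2
      have e1' := (pow_eq_zero_iff (by norm_num)).1 e1
      have e2' := (pow_eq_zero_iff (by norm_num)).1 e2
      rw [WeierstrassCurve.ext_iff]
      exact ⟨by rw [e1', e2'], h.1, h.2.1, h.2.2.1, h.2.2.2⟩
  rw [card_product, card_product, card_product, card_PL, card_PL, card_PL, card_PL, ← pow_add, ← pow_add,
    ← pow_add] at h1
  have h2 : 2 * e + 1 + (3 * e + 1 + (4 * e + 1 + (6 * e + 1))) = 15 * e + 4 := by omega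
  rw [h2] at h1
  exact_mod_cast h1

theorem density2 {w : F[X] → WeierstrassCurve F[X] → ℤ} {winf : WeierstrassCurve F[X] → ℤ}
    (hL : LocalSystem w winf) :
    Tendsto (fun d : ℕ => ((cls '' {W | W ∈ Eqn F d ∧ globalSign w winf d W = 1}).ncard : ℝ) /
      ((cls '' Eqn F d).ncard : ℝ)) atTop (nhds (1 / 2)) :=
  density (Or.inl (CharTwo.two_eq_zero)) (fun e W => globalSign w winf e W) (fun e W _ => globalSign_sign hL e W)
    (globalSign_inv hL) (analytic2 hL) lower2 zero2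

end

end Pool.Agent.H456.EC
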