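import Pool.Agent.H456.RN.SS3b

/-!
# Characteristic three: semistable equations, the total and the count
-/

set_option autoImplicit false
set_option linter.all false
set_option maxHeartbeats 2000000

open Finset Polynomial ComplexConjugate
open Pool.Agent.H341R2.Sharp (Mon mem_Mon lam)
open Pool.Agent.Q284.PS Pool.Agent.Q53.PS Pool.Agent.Q68.PS

namespace Pool.Agent.H456.RN

variable {F : Type} [Field F] [Fintype F]

open Classical in
/-- **Power saving for the semistable equations.** -/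
theorem ss_total [CharP F 3] (ε : ℝ) (hε : 0 < ε) : ∃ K : ℝ, 0 < K ∧ ∀ d : ℕ, 1 ≤ d →
    ‖∑ T ∈ (Box3 F d).filter (fun T => SSt3 d T), Rt3 d T‖ ≤ K * (Fintype.card F : ℝ) ^ ((11 + ε) * d) := by
  set q : ℝ := (Fintype.card F : ℝ) with hq
  have hq2 : 2 ≤ q := two_le_q
  have hq0 : 0 < q := by linarith
  have hlq : 0 < Real.log q := Real.log_pos (by linarith)
  set ε' := ε * Real.log q / 48 with hε'
  have hε'0 : 0 < ε' := by positivity
  set δ := ε * Real.log q / 2 with hδ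
  have hδ0 : 0 < δ := by positivity
  obtain ⟨CA, hCA, hA⟩ := ss_caseA (F := F) ε' hε'0
  obtain ⟨CB, hCB, hB⟩ := ss_caseB (F := F) ε' hε'0
  set s := √q with hs
  have hss : s * s = q := Real.mul_self_sqrt hq0.le
  have hs1 : 1 ≤ s := by rw [hs, Real.one_le_sqrt]; linarith
  have hs0 : 0 < s := by linarith
  have hex : ∀ a : F[X], ∃ x : F[X] × F[X], a ≠ 0 → (x.1 ≠ 0 ∧ x.2.Monic ∧ a = x.1 * x.2 ∧ x.2 ^ 3 ∣ a ∧
      (∀ δ : F[X], a ^ 2 ∣ δ ^ 3 → x.1 ∣ δ)) := by
    intro a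
    by_cases ha : a = 0
    · exact ⟨(1, 1), fun h => absurd ha h⟩
    · obtain ⟨R, g, h1, h2, h3, h4, h5⟩ := exists_Rg ha
      exact ⟨(R, g), fun _ => ⟨h1, h2, h3, h4, h5⟩⟩
  choose x hx using hex
  refine ⟨2 * (CA + CB) * q ^ 4 * (12 / δ + 1) * Real.exp ε', by positivity, ?_⟩
  intro d hd
  set B0 : ℝ := (q * q * ((12 * d : ℕ) + 1)) * (s ^ (6 * d + 2) * ((CA + CB) * s ^ (12 * d) *
    Real.exp (ε' * ((2 * (12 * d) + 1 : ℕ) : ℝ)))) with hB0
  have hB00 : 0 ≤ B0 := by positivity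
  have hsq : ∀ g : F[X], √(((Fintype.card F ^ (4 * d + 1) : ℕ) : ℝ) * (Fintype.card F ^ (2 * d + 1 + g.natDegree) : ℕ)) =
      s ^ (6 * d + 2) * s ^ g.natDegree := by
    intro g
    have h1 : ((Fintype.card F ^ (4 * d + 1) : ℕ) : ℝ) * (Fintype.card F ^ (2 * d + 1 + g.natDegree) : ℕ) =
        (s ^ (6 * d + 2) * s ^ g.natDegree) ^ 2 := by
      push_cast
      rw [← hq, ← pow_add, ← pow_add, ← pow_mul, mul_comm _ 2, pow_mul, pow_two, hss]
      congr 1
      omega
    rw [h1, Real.sqrt_sq (by positivity)]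
  have hbound : ∀ a ∈ (PL F (2 * d + 1)).filter (fun a => a ≠ 0),
      ‖∑ b ∈ PL F (4 * d + 1), ∑ c ∈ PL F (6 * d + 1), (if SSt3 d (a, b, c) then Rt3 d (a, b, c) else 0)‖ ≤
        B0 * s ^ ((x a).2).natDegree := by
    intro a ha
    rw [mem_filter] at ha
    obtain ⟨h1, h2⟩ := ha
    obtain ⟨h3, h4, h5, h6, h7⟩ := hx a h2
    have hnd := natDegree_le_of_mem_PL h1
    rcases Nat.lt_or_eq_of_le hnd with h8 | h8
    · refine (hB d hd a h1 h2 h8 (x a).1 (x a).2 h3 h4 h5 h7).trans ?_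
      rw [hsq]
      have e1 : Real.exp (ε' * ((2 * (12 * d) : ℕ) : ℝ)) ≤ Real.exp (ε' * ((2 * (12 * d) + 1 : ℕ) : ℝ)) := by
        apply Real.exp_le_exp.2
        apply mul_le_mul_of_nonneg_left _ hε'0.le
        exact_mod_cast (by omega : 2 * (12 * d) ≤ 2 * (12 * d) + 1)
      have e2 : CB * s ^ (12 * d) * Real.exp (ε' * ((2 * (12 * d) : ℕ) : ℝ)) ≤
          (CA + CB) * s ^ (12 * d) * Real.exp (ε' * ((2 * (12 * d) + 1 : ℕ) : ℝ)) := by
        apply mul_le_mul _ e1 (Real.exp_pos _).le (by positivity)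
        apply mul_le_mul_of_nonneg_right _ (by positivity)
        linarith
      calc (q * q * ((12 * d : ℕ) + 1)) * (s ^ (6 * d + 2) * s ^ ((x a).2).natDegree *
            (CB * s ^ (12 * d) * Real.exp (ε' * ((2 * (12 * d) : ℕ) : ℝ)))) ≤
          (q * q * ((12 * d : ℕ) + 1)) * (s ^ (6 * d + 2) * s ^ ((x a).2).natDegree *
            ((CA + CB) * s ^ (12 * d) * Real.exp (ε' * ((2 * (12 * d) + 1 : ℕ) : ℝ)))) := by gcongr
        _ = B0 * s ^ ((x a).2).natDegree := by rw [hB0]; ring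
    · refine (hA d hd a h1 h2 h8 (x a).1 (x a).2 h3 h4 h5 h7).trans ?_
      rw [hsq]
      have e2 : CA * s ^ (12 * d) * Real.exp (ε' * ((2 * (12 * d) + 1 : ℕ) : ℝ)) ≤
          (CA + CB) * s ^ (12 * d) * Real.exp (ε' * ((2 * (12 * d) + 1 : ℕ) : ℝ)) := by
        apply mul_le_mul_of_nonneg_right _ (Real.exp_pos _).le
        apply mul_le_mul_of_nonneg_right _ (by positivity)
        linarith
      have e3 : q * ((12 * d : ℕ) + 1) ≤ q * q * ((12 * d : ℕ) + 1) := by
        apply mul_le_mul_of_nonneg_right _ (by positivity)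
        nlinarith
      calc (q * ((12 * d : ℕ) + 1)) * (s ^ (6 * d + 2) * s ^ ((x a).2).natDegree *
            (CA * s ^ (12 * d) * Real.exp (ε' * ((2 * (12 * d) + 1 : ℕ) : ℝ)))) ≤
          (q * q * ((12 * d : ℕ) + 1)) * (s ^ (6 * d + 2) * s ^ ((x a).2).natDegree *
            ((CA + CB) * s ^ (12 * d) * Real.exp (ε' * ((2 * (12 * d) + 1 : ℕ) : ℝ)))) := by gcongr
        _ = B0 * s ^ ((x a).2).natDegree := by rw [hB0]; ring
  have hsum : ‖∑ T ∈ (Box3 F d).filter (fun T => SSt3 d T), Rt3 d T‖ ≤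
      ∑ a ∈ (PL F (2 * d + 1)).filter (fun a => a ≠ 0), B0 * s ^ ((x a).2).natDegree := by
    have e1 : ∑ T ∈ (Box3 F d).filter (fun T => SSt3 d T), Rt3 d T =
        ∑ a ∈ (PL F (2 * d + 1)).filter (fun a => a ≠ 0), ∑ b ∈ PL F (4 * d + 1), ∑ c ∈ PL F (6 * d + 1),
          (if SSt3 d (a, b, c) then Rt3 d (a, b, c) else 0) := by
      rw [sum_filter]
      unfold Box3
      rw [sum_product, sum_filter]
      refine sum_congr rfl fun a ha => ?_
      rw [sum_product]
      by_cases ha0 : a = 0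
      · rw [if_neg (fun h => h ha0), ha0]
        refine sum_eq_zero fun b hb => sum_eq_zero fun c hc => ?_
        rw [if_neg (sst_zero hd hb hc)]
      · rw [if_pos ha0]
    rw [e1]
    exact (norm_sum_le _ _).trans (sum_le_sum hbound)
  refine hsum.trans ?_
  rw [← mul_sum]
  have hcube := sum_cube (F := F) (2 * d + 1) (fun a => if a = 0 then 1 else (x a).2) (by
    intro a ha
    beta_reduce
    rw [if_neg ha]
    exact ⟨(hx a ha).2.1, (hx a ha).2.2.2.1⟩)
  have hcube' : ∑ a ∈ (PL F (2 * d + 1)).filter (fun a => a ≠ 0), s ^ ((x a).2).natDegree ≤ 2 * q ^ (2 * d + 1) := by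
    refine le_trans (le_of_eq ?_) hcube
    refine sum_congr rfl fun a ha => ?_
    rw [if_neg (mem_filter.1 ha).2]
  refine (mul_le_mul_of_nonneg_left hcube' hB00).trans ?_
  have e1 : ((12 * d : ℕ) : ℝ) + 1 ≤ (12 / δ + 1) * Real.exp (δ * d) := by
    have h1 : δ * d ≤ Real.exp (δ * d) := by
      have := Real.add_one_le_exp (δ * (d : ℝ))
      linarith
    have h2 : 1 ≤ Real.exp (δ * d) := Real.one_le_exp (by positivity)
    have h3 : (12 : ℝ) * d = 12 / δ * (δ * d) := by field_simp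
    push_cast
    rw [h3]
    have h4 : 12 / δ * (δ * d) ≤ 12 / δ * Real.exp (δ * d) := mul_le_mul_of_nonneg_left h1 (by positivity)
    linarith
  have e2 : Real.exp (ε' * ((2 * (12 * d) + 1 : ℕ) : ℝ)) = Real.exp ε' * Real.exp (24 * ε' * d) := by
    rw [← Real.exp_add]
    congr 1
    push_cast
    ring
  have e3 : Real.exp (24 * ε' * d) * Real.exp (δ * d) = q ^ (ε * d) := by
    rw [← Real.exp_add, Real.rpow_def_of_pos hq0]
    congr 1
    rw [hε', hδ]
    ring
  have e4 : s ^ (6 * d + 2) * s ^ (12 * d) * q ^ (2 * d + 1) = q ^ 2 * q ^ (11 * d) := by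
    have h1 : s ^ (6 * d + 2) = q ^ (3 * d + 1) := by
      rw [← hss, ← pow_two, ← pow_mul]; congr 1; ring
    have h2 : s ^ (12 * d) = q ^ (6 * d) := by
      rw [← hss, ← pow_two, ← pow_mul]; congr 1; ring
    rw [h1, h2, ← pow_add, ← pow_add, ← pow_add]
    congr 1
    ring
  have e5 : q ^ ((11 + ε) * d) = q ^ (11 * d) * q ^ (ε * d) := by
    rw [add_mul, Real.rpow_add hq0]
    congr 1
    rw [← Real.rpow_natCast]
    congr 1
    push_cast
    ring
  rw [e5, hB0, e2]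
  calc q * q * (((12 * d : ℕ) : ℝ) + 1) * (s ^ (6 * d + 2) * ((CA + CB) * s ^ (12 * d) *
        (Real.exp ε' * Real.exp (24 * ε' * d)))) * (2 * q ^ (2 * d + 1)) =
      2 * (CA + CB) * (q * q) * Real.exp ε' * (s ^ (6 * d + 2) * s ^ (12 * d) * q ^ (2 * d + 1)) *
        Real.exp (24 * ε' * d) * (((12 * d : ℕ) : ℝ) + 1) := by ring
    _ = 2 * (CA + CB) * (q * q) * Real.exp ε' * (q ^ 2 * q ^ (11 * d)) *
        Real.exp (24 * ε' * d) * (((12 * d : ℕ) : ℝ) + 1) := by rw [e4]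
    _ ≤ 2 * (CA + CB) * (q * q) * Real.exp ε' * (q ^ 2 * q ^ (11 * d)) *
        Real.exp (24 * ε' * d) * ((12 / δ + 1) * Real.exp (δ * d)) :=
        mul_le_mul_of_nonneg_left e1 (by positivity)
    _ = 2 * (CA + CB) * q ^ 4 * (12 / δ + 1) * Real.exp ε' * (q ^ (11 * d) *
        (Real.exp (24 * ε' * d) * Real.exp (δ * d))) := by ring
    _ = _ := by rw [e3]

open Classical in
/-- the number of semistable equations -/
theorem card_SSt3 {d : ℕ} (hd : 1 ≤ d) :
    (Fintype.card F - 1) ^ 2 * Fintype.card F ^ (12 * d + 1) ≤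
      ((Box3 F d).filter (fun T => SSt3 d T ∧ T.1.natDegree = 2 * d)).card := by
  have h1 : (((univ : Finset F).filter (fun ℓ => ℓ ≠ 0)) ×ˢ (Cp F (2 * d) (4 * d + 1) ×ˢ PL F (6 * d + 1))).card ≤
      ((Box3 F d).filter (fun T => SSt3 d T ∧ T.1.natDegree = 2 * d)).card := by
    apply card_le_card_of_injOn (fun y => ((C y.1 * y.2.1.1, y.2.1.2, y.2.2) : Tri F))
    · intro y hy
      rw [Finset.mem_coe, mem_product, mem_filter, mem_product] at hy
      obtain ⟨⟨_, hy1⟩, hy2, hy3⟩ := hy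
      unfold Cp at hy2
      rw [mem_filter, mem_product, mem_Mon] at hy2
      obtain ⟨⟨⟨h3, h4⟩, h5⟩, h6⟩ := hy2
      rw [Finset.mem_coe, mem_filter, mem_Box3]
      have h7 : (C y.1 * y.2.1.1).natDegree = 2 * d := by rw [natDegree_C_mul hy1, h4]
      have h8 : C y.1 * y.2.1.1 ≠ 0 := mul_ne_zero (C_ne_zero.2 hy1) h3.ne_zero
      refine ⟨⟨mem_PL_of_natDegree (f := C y.1 * y.2.1.1) (by omega), h5, hy3⟩, ?_, h7⟩
      apply (sst_A hd h8 h7).2
      exact ((isCoprime_mul_unit_left_left (isUnit_C.2 (isUnit_iff_ne_zero.2 hy1)) _ _).2 h6).symm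
    · intro y hy z hz h
      rw [Finset.mem_coe, mem_product, mem_filter, mem_product] at hy hz
      obtain ⟨⟨_, hy1⟩, hy2, hy3⟩ := hy
      obtain ⟨⟨_, hz1⟩, hz2, hz3⟩ := hz
      unfold Cp at hy2 hz2
      rw [mem_filter, mem_product, mem_Mon] at hy2 hz2
      simp only [Prod.mk.injEq] at h
      obtain ⟨e1, e2, e3⟩ := h
      have e4 : y.1 = z.1 := by
        have := congrArg leadingCoeff e1
        rwa [leadingCoeff_mul, leadingCoeff_C, hy2.1.1.1.leadingCoeff, mul_one, leadingCoeff_mul, leadingCoeff_C,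
          hz2.1.1.1.leadingCoeff, mul_one] at this
      rw [e4] at e1
      have e5 := mul_left_cancel₀ (C_ne_zero.2 hz1) e1
      exact Prod.ext e4 (Prod.ext (Prod.ext e5 e2) e3)
  refine le_trans (le_of_eq ?_) h1
  rw [card_product, card_product, card_PL]
  have h2 : ((univ : Finset F).filter (fun ℓ => ℓ ≠ 0)).card = Fintype.card F - 1 := by
    rw [filter_ne', card_erase_of_mem (mem_univ _), card_univ]
  have h3 := card_Cp (F := F) (2 * d) (4 * d + 1) (by omega) (by omega)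
  rw [h2]
  obtain ⟨p, hp⟩ : ∃ p, Fintype.card F = p + 1 := ⟨Fintype.card F - 1, by
    have := Fintype.card_pos (α := F)
    omega⟩
  have h4 : (Cp F (2 * d) (4 * d + 1)).card = p * Fintype.card F ^ (6 * d) := by
    have e1 : 2 * d + (4 * d + 1) - 1 = 6 * d := by omega
    have e2 : 2 * d + (4 * d + 1) = 6 * d + 1 := by omega
    rw [e1, e2, pow_succ] at h3
    have h5 : Fintype.card F ^ (6 * d) * Fintype.card F = p * Fintype.card F ^ (6 * d) + Fintype.card F ^ (6 * d) := by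
      conv_lhs => rw [hp]
      conv_rhs => rw [hp]
      ring
    omega
  rw [h4]
  have h5 : Fintype.card F - 1 = p := by omega
  rw [h5]
  ring

end Pool.Agent.H456.RN
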