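import Pool.Agent.H456.RN.Loc
import Pool.Agent.H456.RN.SS3c

/-!
# Characteristic three: local systems and the analytic input
-/

open Polynomial WeierstrassCurve Finset Filter
open Pool.Agent.Q284.PS (leg)
open Pool.Agent.H456.RN

namespace Pool.Agent.H456.EC

section

variable {F : Type} [Field F]

/-- the equation `y² = x³ + a x² + b x + c` -/
noncomputable def toV (T : Tri F) : WeierstrassCurve F[X] := ⟨0, T.1, 0, T.2.1, T.2.2⟩

theorem rev_toV (d : ℕ) (T : Tri F) : rev d (toV T) = toV (rv d T) := by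
  unfold rev toV rv
  simp

theorem cong_toV {m : F[X]} {T T' : Tri F} (h1 : m ∣ T'.1 - T.1) (h2 : m ∣ T'.2.1 - T.2.1)
    (h3 : m ∣ T'.2.2 - T.2.2) : Cong m (toV T) (toV T') :=
  ⟨by simp [toV], h1, by simp [toV], h2, h3⟩

variable [CharP F 3]

theorem three_zero : (3 : F[X]) = 0 := by
  have : CharP F[X] 3 := inferInstance
  exact_mod_cast CharP.cast_eq_zero F[X] 3

theorem toV_Δ (T : Tri F) : (toV T).Δ = dsc T := by
  have h3 : (3 : F[X]) = 0 := three_zero
  unfold dsc disc3 toV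
  simp only [WeierstrassCurve.Δ, b₂, b₄, b₆, b₈]
  obtain ⟨a, b, c⟩ := T
  simp only
  linear_combination (-21 * a ^ 3 * c + 5 * a ^ 2 * b ^ 2 + 96 * a * b * c - 21 * b ^ 3 - 144 * c ^ 2) * h3

theorem toV_c₄ (T : Tri F) : (toV T).c₄ = T.1 ^ 2 := by
  have h3 : (3 : F[X]) = 0 := three_zero
  unfold toV
  simp only [c₄, b₂, b₄]
  linear_combination (5 * T.1 ^ 2 - 16 * T.2.1) * h3

theorem ratTan3 {P : F[X]} (hi : Irreducible P) {T : Tri F} (ha : ¬ P ∣ T.1) :
    RatTan P (toV T) ↔ ∃ z : F[X], P ∣ z ^ 2 - T.1 := by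
  have h3 : (3 : F[X]) = 0 := three_zero
  have hpoly : ∀ s : F[X], (toV T).c₄ * s ^ 2 + (toV T).a₁ * (toV T).c₄ * s -
      (54 * (toV T).b₆ - 3 * (toV T).b₂ * (toV T).b₄ + (toV T).a₂ * (toV T).c₄) = T.1 ^ 2 * (s ^ 2 - T.1) := by
    intro s
    rw [toV_c₄]
    unfold toV
    simp only [b₂, b₄, b₆]
    linear_combination (8 * T.1 * T.2.1 - 72 * T.2.2) * h3
  unfold RatTan
  simp only [hpoly]
  constructor
  · rintro ⟨s, hs⟩
    exact ⟨s, (hi.prime.dvd_mul.1 hs).resolve_left (fun h => ha (hi.prime.dvd_of_dvd_pow h))⟩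
  · rintro ⟨s, hs⟩
    exact ⟨s, hs.mul_left _⟩

theorem leg_eq' {P : F[X]} (hi : Irreducible P) {T : Tri F} (ha : ¬ P ∣ T.1) :
    -(leg P T.1 : ℂ) = (open Classical in if RatTan P (toV T) then -1 else 1) := by
  classical
  unfold leg
  rw [if_neg ha]
  by_cases h : RatTan P (toV T)
  · rw [if_pos h, if_pos ((ratTan3 hi ha).1 h)]; simp
  · rw [if_neg h, if_neg (fun h' => h ((ratTan3 hi ha).2 h'))]; simp

/-- the local factors of the short form -/
noncomputable def w3 (w : F[X] → WeierstrassCurve F[X] → ℤ) (P : F[X]) (T : Tri F) : ℂ :=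
  (open Classical in if dsc T = 0 then -(leg P T.1 : ℂ) else wm P (w P) (toV T))

variable [Fintype F]

theorem sys3_of {w : F[X] → WeierstrassCurve F[X] → ℤ} {winf : WeierstrassCurve F[X] → ℤ}
    (hfin : ∀ P : F[X], P.Monic → Irreducible P → LocalSign P (w P)) (hinf : LocalSign X winf) {M : ℕ}
    (hM : ∀ P : F[X], P.Monic → Irreducible P → M < P.natDegree → Standard P (w P))
    (hsg : ∀ P W, w P W = 1 ∨ w P W = -1) :
    Sys3 M (w3 w) (fun T => wm X winf (toV T)) where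
  norm := by
    intro P T
    unfold w3
    split_ifs
    · rw [norm_neg]; exact leg_norm P T.1
    · exact wm_norm P (hsg P) _
  norminf := fun T => wm_norm X hinf.sign _
  loc := by
    classical
    intro P hP hi k
    obtain ⟨N, hN⟩ := wm_loc (hfin P hP hi) k
    refine ⟨N, ?_⟩
    intro T T' hT h1 h2 h3
    rw [← toV_Δ] at hT
    obtain ⟨e1, e2⟩ := hN (toV T) (toV T') hT (cong_toV h1 h2 h3)
    have e0 : (toV T).Δ ≠ 0 := by
      intro h0
      apply hT
      rw [h0]; exact dvd_zero _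
    rw [toV_Δ] at e0 e2
    unfold w3
    rw [if_neg e0, if_neg e2, e1]
  locinf := by
    intro k
    obtain ⟨N, hN⟩ := wm_loc hinf k
    refine ⟨N, ?_⟩
    intro T T' hT h1 h2 h3
    rw [← toV_Δ] at hT
    exact (hN (toV T) (toV T') hT (cong_toV h1 h2 h3)).1.symm
  std := by
    classical
    intro P hP hi hd T
    constructor
    · intro h
      unfold w3
      rw [if_neg]
      · apply wm_std_good (hM P hP hi hd)
        rwa [toV_Δ]
      · intro h0
        apply h
        rw [h0]; exact dvd_zero _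
    · intro h ha
      unfold w3
      by_cases h0 : dsc T = 0
      · rw [if_pos h0]
      · rw [if_neg h0, leg_eq' hi ha]
        apply wm_std_mult (hM P hP hi hd)
        · rwa [toV_Δ]
        · rwa [toV_Δ]
        · rw [toV_c₄]
          intro hc
          exact ha (hi.prime.dvd_of_dvd_pow hc)

/-- completing the square: the long equation with `a₁ = x`, `a₃ = y` and short form `T` -/
noncomputable def toL (y : F[X] × F[X] × Tri F) : WeierstrassCurve F[X] :=
  ⟨y.1, y.2.2.1 - y.1 ^ 2, y.2.1, y.2.2.2.1 + y.1 * y.2.1, y.2.2.2.2 - y.2.1 ^ 2⟩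

omit [Fintype F] in
theorem toL_eq (y : F[X] × F[X] × Tri F) : toL y = tr 0 (-y.1) (-y.2.1) • toV y.2.2 := by
  have h3 : (3 : F[X]) = 0 := three_zero
  obtain ⟨x, y, a, b, c⟩ := y
  ext1
  · simp only [tr_a₁, toL, toV]; linear_combination x * h3
  · simp only [tr_a₂, toL, toV]; ring
  · simp only [tr_a₃, toL, toV]; linear_combination y * h3
  · simp only [tr_a₄, toL, toV]; linear_combination (x * y) * h3
  · simp only [tr_a₆, toL, toV]; ring

omit [CharP F 3] [Fintype F] in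
theorem toL_inj : Function.Injective (toL (F := F)) := by
  rintro ⟨x, y, a, b, c⟩ ⟨x', y', a', b', c'⟩ h
  rw [WeierstrassCurve.ext_iff] at h
  obtain ⟨h1, h2, h3, h4, h6⟩ := h
  simp only [toL] at h1 h2 h3 h4 h6
  subst h1 h3
  rw [sub_left_inj] at h2 h6
  rw [add_left_inj] at h4
  rw [h2, h4, h6]

/-- the long equations -/
noncomputable def BoxL (F : Type) [Field F] [Fintype F] (e : ℕ) : Finset (F[X] × F[X] × Tri F) :=
  PL F (e + 1) ×ˢ (PL F (3 * e + 1) ×ˢ Box3 F e)

omit [CharP F 3] in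
theorem mem_BoxL {e : ℕ} {y : F[X] × F[X] × Tri F} : y ∈ BoxL F e ↔ y.1.natDegree ≤ e ∧ y.2.1.natDegree ≤ 3 * e ∧
    y.2.2.1.natDegree ≤ 2 * e ∧ y.2.2.2.1.natDegree ≤ 4 * e ∧ y.2.2.2.2.natDegree ≤ 6 * e := by
  unfold BoxL
  rw [mem_product, mem_product, mem_Box3]
  constructor
  · rintro ⟨h1, h2, h3, h4, h6⟩
    exact ⟨natDegree_le_of_mem_PL h1, natDegree_le_of_mem_PL h2, natDegree_le_of_mem_PL h3,
      natDegree_le_of_mem_PL h4, natDegree_le_of_mem_PL h6⟩
  · rintro ⟨h1, h2, h3, h4, h6⟩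
    exact ⟨mem_PL_of_natDegree (f := y.1) (Nat.lt_succ_of_le h1), mem_PL_of_natDegree (f := y.2.1) (Nat.lt_succ_of_le h2),
      mem_PL_of_natDegree (f := y.2.2.1) (Nat.lt_succ_of_le h3),
      mem_PL_of_natDegree (f := y.2.2.2.1) (Nat.lt_succ_of_le h4),
      mem_PL_of_natDegree (f := y.2.2.2.2) (Nat.lt_succ_of_le h6)⟩

omit [CharP F 3] in
theorem EqF_eq (e : ℕ) : EqF F e = (BoxL F e).map ⟨toL, toL_inj⟩ := by
  ext W
  rw [mem_EqF, Finset.mem_map]
  constructor
  · rintro ⟨h1, h2, h3, h4, h6⟩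
    refine ⟨(W.a₁, W.a₃, W.a₂ + W.a₁ ^ 2, W.a₄ - W.a₁ * W.a₃, W.a₆ + W.a₃ ^ 2), ?_, ?_⟩
    · rw [mem_BoxL]
      refine ⟨h1, h3, ?_, ?_, ?_⟩
      · exact (natDegree_add_le _ _).trans (max_le h2 (natDegree_pow_le.trans (by omega)))
      · exact (natDegree_sub_le _ _).trans (max_le h4 (natDegree_mul_le.trans (by omega)))
      · exact (natDegree_add_le _ _).trans (max_le h6 (natDegree_pow_le.trans (by omega)))
    · change toL _ = W
      ext1 <;> simp [toL]
  · rintro ⟨y, hy, rfl⟩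
    rw [mem_BoxL] at hy
    obtain ⟨h1, h3, h2, h4, h6⟩ := hy
    refine ⟨h1, ?_, h3, ?_, ?_⟩
    · exact (natDegree_sub_le _ _).trans (max_le h2 (natDegree_pow_le.trans (by omega)))
    · exact (natDegree_add_le _ _).trans (max_le h4 (natDegree_mul_le.trans (by omega)))
    · exact (natDegree_sub_le _ _).trans (max_le h6 (natDegree_pow_le.trans (by omega)))

omit [CharP F 3] in
theorem dg_toV {e : ℕ} {T : Tri F} (hT : T ∈ Box3 F e) : Dg e (toV T) := by
  rw [mem_Box3] at hT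
  refine ⟨?_, natDegree_le_of_mem_PL hT.1, ?_, natDegree_le_of_mem_PL hT.2.1, natDegree_le_of_mem_PL hT.2.2⟩
  · change (0 : F[X]).natDegree ≤ _; simp
  · change (0 : F[X]).natDegree ≤ _; simp

theorem minAll_toL {e : ℕ} {y : F[X] × F[X] × Tri F} (hy : y ∈ BoxL F e) :
    MinAll e (toL y) ↔ MinAll e (toV y.2.2) := by
  have hV : Dg e (toV y.2.2) := dg_toV (by unfold BoxL at hy; rw [mem_product, mem_product] at hy; exact hy.2.2)
  rw [mem_BoxL] at hy
  have h1 : rev e (toL y) = tr (reflect (2 * e) 0) (reflect e (-y.1)) (reflect (3 * e) (-y.2.1)) • rev e (toV y.2.2) := by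
    rw [toL_eq]
    exact rev_tr hV (by simp) (by rw [natDegree_neg]; exact hy.1) (by rw [natDegree_neg]; exact hy.2.1)
  unfold MinAll
  rw [h1, nonmin_tr_iff]
  constructor
  · rintro ⟨h2, h3⟩
    refine ⟨fun P hP hi hn => h2 P hP hi ?_, h3⟩
    rw [toL_eq, nonmin_tr_iff]
    exact hn
  · rintro ⟨h2, h3⟩
    refine ⟨fun P hP hi hn => h2 P hP hi ?_, h3⟩
    rw [toL_eq, nonmin_tr_iff] at hn
    exact hn

theorem toL_mem {e : ℕ} {y : F[X] × F[X] × Tri F} (hy : y ∈ BoxL F e) (h0 : dsc y.2.2 ≠ 0) :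
    toL y ∈ Eqn F e := by
  refine ⟨by rw [toL_eq, tr_Δ, toV_Δ]; exact h0, ?_⟩
  have h1 : toL y ∈ EqF F e := by
    rw [EqF_eq, Finset.mem_map]
    exact ⟨y, hy, rfl⟩
  exact mem_EqF.1 h1

open Classical in
theorem sum_aux (e : ℕ) (f : WeierstrassCurve F[X] → ℂ)
    (hf : ∀ W ∈ Eqn F e, ∀ V ∈ Eqn F e, cls W = cls V → f W = f V) {y : F[X] × F[X] × Tri F} (hy : y ∈ BoxL F e) :
    (if (toL y).Δ ≠ 0 ∧ MinAll e (toL y) ∧ True then f (toL y) else 0) =
      if dsc y.2.2 ≠ 0 then (if MinAll e (toV y.2.2) then f (toV y.2.2) else 0) else 0 := by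
  have e1 : (toL y).Δ = dsc y.2.2 := by rw [toL_eq, tr_Δ, toV_Δ]
  have e2 := minAll_toL hy
  by_cases h0 : dsc y.2.2 ≠ 0
  · rw [if_pos h0]
    by_cases h3 : MinAll e (toV y.2.2)
    · rw [if_pos h3, if_pos ⟨by rw [e1]; exact h0, e2.2 h3, trivial⟩]
      have hT : y.2.2 ∈ Box3 F e := by
        unfold BoxL at hy
        rw [mem_product, mem_product] at hy
        exact hy.2.2
      have hV : toV y.2.2 ∈ Eqn F e := ⟨by rw [toV_Δ]; exact h0, dg_toV hT⟩
      apply hf _ (toL_mem hy h0) _ hV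
      rw [toL_eq, cls_tr]
    · rw [if_neg h3, if_neg (fun h => h3 (e2.1 h.2.1))]
  · rw [if_neg h0, if_neg (fun h => h0 (by rw [← e1]; exact h.1))]

omit [CharP F 3] in
theorem sum_BoxL (e : ℕ) (h : Tri F → ℂ) :
    ∑ y ∈ BoxL F e, h y.2.2 = (Fintype.card F : ℂ) ^ (4 * e + 2) * ∑ T ∈ Box3 F e, h T := by
  unfold BoxL
  rw [sum_product]
  simp only
  have h1 : ∀ x ∈ PL F (e + 1), ∑ z ∈ PL F (3 * e + 1) ×ˢ Box3 F e, h z.2 =
      (Fintype.card F : ℂ) ^ (3 * e + 1) * ∑ T ∈ Box3 F e, h T := by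
    intro x _
    rw [sum_product]
    simp only
    rw [sum_const, card_PL, nsmul_eq_mul, Nat.cast_pow]
  rw [sum_congr rfl h1, sum_const, card_PL, nsmul_eq_mul, ← mul_assoc, Nat.cast_pow, ← pow_add]
  congr 2
  omega

open Classical in
theorem sum_OmF3 (e : ℕ) (f : WeierstrassCurve F[X] → ℂ)
    (hf : ∀ W ∈ Eqn F e, ∀ V ∈ Eqn F e, cls W = cls V → f W = f V) :
    ∑ W ∈ OmF F (fun _ _ => True) e, f W = (Fintype.card F : ℂ) ^ (4 * e + 2) *
      ∑ T ∈ (Box3 F e).filter (fun T => dsc T ≠ 0), if MinAll e (toV T) then f (toV T) else 0 := by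
  unfold OmF
  rw [EqF_eq, sum_filter, sum_map, sum_filter, ← sum_BoxL]
  apply sum_congr rfl
  intro y hy
  convert sum_aux e f hf hy <;> rfl

/-- the analytic input in characteristic three -/
theorem analytic3 {w : F[X] → WeierstrassCurve F[X] → ℤ} {winf : WeierstrassCurve F[X] → ℤ}
    (hL : LocalSystem w winf) :
    Tendsto (fun e : ℕ => (∑ W ∈ OmF F (fun _ _ => True) e, (globalSign w winf e W : ℝ)) /
      (Fintype.card F : ℝ) ^ (16 * e + 5)) atTop (nhds 0) := by
  classical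
  set w' : F[X] → WeierstrassCurve F[X] → ℤ := fun P W => if P.Monic ∧ Irreducible P then w P W else 1 with hw'
  have hw'eq : ∀ P : F[X], P.Monic → Irreducible P → w' P = w P := by
    intro P hP hi
    funext W
    rw [hw']
    simp only
    rw [if_pos ⟨hP, hi⟩]
  have hfin : ∀ P : F[X], P.Monic → Irreducible P → LocalSign P (w' P) := by
    intro P hP hi
    rw [hw'eq P hP hi]
    exact hL.fin P hP hi
  obtain ⟨M, hM0⟩ := hL.std
  have hM : ∀ P : F[X], P.Monic → Irreducible P → M < P.natDegree → Standard P (w' P) := by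
    intro P hP hi hd
    rw [hw'eq P hP hi]
    exact hM0 P hP hi hd
  have hsg : ∀ P W, w' P W = 1 ∨ w' P W = -1 := by
    intro P W
    rw [hw']
    simp only
    split_ifs with h
    · exact (hL.fin P h.1 h.2).sign W
    · left; rfl
  have hglob : ∀ e W, globalSign w' winf e W = globalSign w winf e W := by
    intro e W
    unfold globalSign
    congr 1
    apply finprod_congr
    intro P
    rw [hw'eq P.1 P.2.1 P.2.2]
  have hq0 : (Fintype.card F : ℂ) ≠ 0 := by
    rw [Nat.cast_ne_zero]; exact Fintype.card_ne_zero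
  have h1 := main3 (sys3_of hfin hL.inf hM hsg)
  have h2 : ∀ e : ℕ, (∑ T ∈ (Box3 F e).filter (fun T => dsc T ≠ 0),
      Wt3 M (w3 w') (fun T => wm X winf (toV T)) e T) / ((Box3 F e).card : ℂ) =
      (((∑ W ∈ OmF F (fun _ _ => True) e, (globalSign w winf e W : ℝ)) /
        (Fintype.card F : ℝ) ^ (16 * e + 5) : ℝ) : ℂ) := by
    intro e
    rw [card_Box3, Complex.ofReal_div, Complex.ofReal_sum, Complex.ofReal_pow, Complex.ofReal_natCast, Nat.cast_pow]
    have h3 := sum_OmF3 e (fun W => (globalSign w winf e W : ℂ)) (fun W hW V hV h => by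
      rw [globalSign_inv hL e e le_rfl W hW V hV h])
    have h3' : ∑ W ∈ OmF F (fun _ _ => True) e, (((globalSign w winf e W : ℤ) : ℝ) : ℂ) =
        ∑ W ∈ OmF F (fun _ _ => True) e, (globalSign w winf e W : ℂ) := by
      apply sum_congr rfl
      intro W _
      exact Complex.ofReal_intCast _
    rw [h3', h3, show 16 * e + 5 = (4 * e + 2) + (12 * e + 3) by omega,
      pow_add _ (4 * e + 2) (12 * e + 3), mul_div_mul_left _ _ (pow_ne_zero _ hq0)]
    congr 1
    apply sum_congr rfl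
    intro T hT
    rw [mem_filter] at hT
    unfold Wt3
    have h4 : ∏ P ∈ PrM F M ∪ pr (dsc T), w3 w' P T = ∏ P ∈ PrM F M ∪ pr (toV T).Δ, wm P (w' P) (toV T) := by
      rw [toV_Δ]
      apply prod_congr rfl
      intro P _
      unfold w3
      rw [if_neg hT.2]
    rw [h4]
    have h5 := prod_wm (winf := winf) hM (W := toV T) (by rw [toV_Δ]; exact hT.2) e
    rw [rev_toV] at h5
    rw [h5, hglob]
  have h3 : Tendsto (fun e : ℕ => (((∑ W ∈ OmF F (fun _ _ => True) e, (globalSign w winf e W : ℝ)) /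
        (Fintype.card F : ℝ) ^ (16 * e + 5) : ℝ) : ℂ)) atTop (nhds ((0 : ℝ) : ℂ)) := by
    rw [Complex.ofReal_zero]
    exact h1.congr h2
  exact (Complex.continuous_re.tendsto _).comp h3

omit [Fintype F] in
theorem minAll_of_SSt3 {e : ℕ} {T : Tri F} (hT : SSt3 e T) : MinAll e (toV T) := by
  refine ⟨fun P hP hi hn => ?_, fun hn => ?_⟩
  · have h1 := nonmin_Δ hn
    have h2 := nonmin_c₄ hn
    rw [toV_Δ] at h1
    rw [toV_c₄] at h2
    exact hT.2.1 P hP hi ((dvd_pow_self P (by norm_num)).trans h1)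
      (hi.prime.dvd_of_dvd_pow ((dvd_pow_self P (by norm_num)).trans h2))
  · rw [rev_toV] at hn
    have h1 := nonmin_Δ hn
    have h2 := nonmin_c₄ hn
    rw [toV_Δ] at h1
    rw [toV_c₄] at h2
    exact hT.2.2 ((dvd_pow_self X (by norm_num)).trans h1)
      (irreducible_X.prime.dvd_of_dvd_pow ((dvd_pow_self X (by norm_num)).trans h2))

open Classical in
theorem lower3 (e : ℕ) (he : 1 ≤ e) : ((Fintype.card F : ℝ) - 1) ^ 2 * (Fintype.card F : ℝ) ^ (16 * e + 3) ≤
      ((OmF F (fun _ _ => True) e).filter (fun W => W.c₄ ≠ 0)).card := by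
  have h1 := card_SSt3 (F := F) he
  have h2 : (PL F (e + 1) ×ˢ (PL F (3 * e + 1) ×ˢ
      (Box3 F e).filter (fun T => SSt3 e T ∧ T.1.natDegree = 2 * e))).card ≤
      ((OmF F (fun _ _ => True) e).filter (fun W => W.c₄ ≠ 0)).card := by
    apply card_le_card_of_injOn toL
    · rintro ⟨x, y, T⟩ hT
      rw [mem_coe, mem_product, mem_product, mem_filter] at hT
      obtain ⟨hx, hy, hT1, hT2, hT3⟩ := hT
      simp only at hx hy hT1 hT2 hT3
      have hmem : ((x, y, T) : F[X] × F[X] × Tri F) ∈ BoxL F e := by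
        unfold BoxL
        rw [mem_product, mem_product]
        exact ⟨hx, hy, hT1⟩
      rw [mem_coe, mem_filter, mem_OmF]
      refine ⟨⟨⟨?_, ?_⟩, (minAll_toL hmem).2 (minAll_of_SSt3 hT2), trivial⟩, ?_⟩
      · rw [toL_eq, tr_Δ, toV_Δ]; exact hT2.1
      · have : toL (x, y, T) ∈ EqF F e := by
          rw [EqF_eq, Finset.mem_map]
          exact ⟨_, hmem, rfl⟩
        exact mem_EqF.1 this
      · rw [toL_eq, tr_c₄, toV_c₄]
        apply pow_ne_zero
        intro h0
        simp only at h0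
        rw [h0, natDegree_zero] at hT3
        omega
    · exact toL_inj.injOn
  rw [card_product, card_product, card_PL, card_PL] at h2
  have h3 : (Fintype.card F - 1) ^ 2 * Fintype.card F ^ (16 * e + 3) ≤
      ((OmF F (fun _ _ => True) e).filter (fun W => W.c₄ ≠ 0)).card := by
    refine le_trans ?_ h2
    have h4 : (Fintype.card F - 1) ^ 2 * Fintype.card F ^ (16 * e + 3) =
        Fintype.card F ^ (e + 1) * (Fintype.card F ^ (3 * e + 1) *
          ((Fintype.card F - 1) ^ 2 * Fintype.card F ^ (12 * e + 1))) := by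
      rw [show 16 * e + 3 = (e + 1) + ((3 * e + 1) + (12 * e + 1)) by omega, pow_add, pow_add]
      ring
    rw [h4]
    exact Nat.mul_le_mul_left _ (Nat.mul_le_mul_left _ h1)
  have h5 : 1 ≤ Fintype.card F := Fintype.card_pos
  have h6 : (((Fintype.card F - 1) ^ 2 * Fintype.card F ^ (16 * e + 3) : ℕ) : ℝ) ≤
      ((OmF F (fun _ _ => True) e).filter (fun W => W.c₄ ≠ 0)).card := by exact_mod_cast h3
  push_cast [h5] at h6
  exact h6

open Classical in
theorem zero3 (e : ℕ) : (((EqF F e).filter (fun W => W.c₄ = 0)).card : ℝ) ≤ (Fintype.card F : ℝ) ^ (15 * e + 4) := by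
  have h1 : ((EqF F e).filter (fun W => W.c₄ = 0)).card ≤
      (PL F (e + 1) ×ˢ (PL F (3 * e + 1) ×ˢ (PL F (4 * e + 1) ×ˢ PL F (6 * e + 1)))).card := by
    apply card_le_card_of_injOn (fun W => (W.a₁, W.a₃, W.a₄, W.a₆))
    · intro W hW
      rw [mem_coe, mem_filter] at hW
      obtain ⟨h1, h2, h3, h4, h6⟩ := mem_EqF.1 hW.1
      rw [mem_coe, mem_product, mem_product, mem_product]
      exact ⟨mem_PL_of_natDegree (f := W.a₁) (Nat.lt_succ_of_le h1), mem_PL_of_natDegree (f := W.a₃)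
        (Nat.lt_succ_of_le h3), mem_PL_of_natDegree (f := W.a₄) (Nat.lt_succ_of_le h4),
        mem_PL_of_natDegree (f := W.a₆) (Nat.lt_succ_of_le h6)⟩
    · intro W hW V hV h
      rw [mem_coe, mem_filter] at hW hV
      rw [Prod.mk.injEq, Prod.mk.injEq, Prod.mk.injEq] at h
      have : CharP F[X] 3 := inferInstance
      have e1 := hW.2
      have e2 := hV.2
      rw [c₄_of_char_three] at e1 e2
      have e1' := (pow_eq_zero_iff (by norm_num)).1 e1
      have e2' := (pow_eq_zero_iff (by norm_num)).1 e2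
      rw [b₂_of_char_three] at e1' e2'
      rw [WeierstrassCurve.ext_iff]
      refine ⟨h.1, ?_, h.2.1, h.2.2.1, h.2.2.2⟩
      have h5 : W.a₂ = -W.a₁ ^ 2 := by linear_combination e1'
      have h6 : V.a₂ = -V.a₁ ^ 2 := by linear_combination e2'
      rw [h5, h6, h.1]
  rw [card_product, card_product, card_product, card_PL, card_PL, card_PL, card_PL, ← pow_add, ← pow_add,
    ← pow_add] at h1
  have h2 : e + 1 + (3 * e + 1 + (4 * e + 1 + (6 * e + 1))) = 14 * e + 4 := by omega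
  rw [h2] at h1
  have h3 : (((EqF F e).filter (fun W => W.c₄ = 0)).card : ℝ) ≤ (Fintype.card F : ℝ) ^ (14 * e + 4) := by
    exact_mod_cast h1
  refine h3.trans ?_
  apply pow_le_pow_right₀
  · have : 1 ≤ Fintype.card F := Fintype.card_pos
    exact_mod_cast this
  · omega

theorem density3 {w : F[X] → WeierstrassCurve F[X] → ℤ} {winf : WeierstrassCurve F[X] → ℤ}
    (hL : LocalSystem w winf) :
    Tendsto (fun d : ℕ => ((cls '' {W | W ∈ Eqn F d ∧ globalSign w winf d W = 1}).ncard : ℝ) /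
      ((cls '' Eqn F d).ncard : ℝ)) atTop (nhds (1 / 2)) :=
  density (Or.inr (by exact_mod_cast CharP.cast_eq_zero F 3)) (fun e W => globalSign w winf e W)
    (fun e W _ => globalSign_sign hL e W) (globalSign_inv hL) (analytic3 hL) lower3 zero3

end

end Pool.Agent.H456.EC
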