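import Pool.Agent.H456.RN.Sqf2

/-!
# Square root cancellation in the sums of products over the prime divisors
-/

set_option autoImplicit false
set_option linter.all false

open Finset Polynomial ComplexConjugate UniqueFactorizationMonoid
open Pool.Agent.H341R2.Sharp (Mon mem_Mon)
open Pool.Agent.Q284.PS Pool.Agent.Q53.PS

namespace Pool.Agent.H456.RN

theorem sq_le_exp (δ : ℝ) (hδ : 0 < δ) (n : ℕ) :
    ((n : ℝ) + 1) ^ 2 ≤ (Real.exp (2 * δ) / δ ^ 2) * Real.exp (2 * δ * n) := by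
  have h1 : δ * (n + 1) ≤ Real.exp (δ * (n + 1)) := by
    have := Real.add_one_le_exp (δ * (n + 1 : ℝ))
    linarith
  have h2 : (δ * (n + 1)) ^ 2 ≤ Real.exp (δ * (n + 1)) ^ 2 := pow_le_pow_left₀ (by positivity) h1 2
  have h3 : Real.exp (δ * (n + 1)) ^ 2 = Real.exp (2 * δ) * Real.exp (2 * δ * n) := by
    rw [← Real.exp_nat_mul, ← Real.exp_add]
    congr 1
    push_cast
    ring
  rw [h3] at h2
  have h4 : ((n : ℝ) + 1) ^ 2 = (δ * (n + 1)) ^ 2 / δ ^ 2 := by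
    field_simp
  rw [h4, div_mul_eq_mul_div]
  exact div_le_div_of_nonneg_right h2 (by positivity)

variable {F : Type} [Field F]

/-- the unramified twist by `s ^ deg` -/
noncomputable def tws (s : ℂ) (ρ : F[X] → ℂ) (f : F[X]) : ℂ := s ^ f.natDegree * ρ f

theorem tws_cm {s : ℂ} {ρ : F[X] → ℂ} (h : CM ρ) : CM (tws s ρ) := by
  refine ⟨?_, ?_⟩
  · unfold tws
    rw [natDegree_one, pow_zero, h.1, one_mul]
  · intro f g hf hg
    unfold tws
    rw [hf.natDegree_mul hg, h.2 f g hf hg, pow_add]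
    ring

theorem HH_norm_le {ρ : F[X] → ℂ} (h : ∀ P : F[X], ‖ρ P‖ ≤ 1) (f : F[X]) : ‖HH ρ f‖ ≤ 1 := by
  unfold HH
  rw [norm_prod]
  apply prod_le_one
  · intro P _
    exact norm_nonneg _
  · intro P _
    rw [norm_neg]
    exact h P

theorem tws_norm_le [Fintype F] {Q : F[X]} {l : ℕ} {s : ℂ} (hs : ‖s‖ = 1) {ρ : F[X] → ℂ} (h : Hay Q l ρ) (P : F[X]) :
    ‖tws s ρ P‖ ≤ 1 := by
  unfold tws
  rw [norm_mul, norm_pow, hs, one_pow, one_mul]
  exact hay_norm_le h P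

variable [Fintype F]

open Classical in
theorem inner_eq {Q : F[X]} {l : ℕ} {χ ρ : F[X] → ℂ} (hχ : Hay Q l χ) (hρ : Hay Q l ρ) (s : ℂ) (B : F[X])
    (m : ℕ) :
    ∑ A ∈ (Mon F m).filter (fun A => Squarefree A ∧ IsCoprime A B), HH (tws s ρ) A * χ A =
      s ^ m * MS (fun f => if IsCoprime f B then ρ f * χ f else 0) m := by
  unfold MS
  rw [sum_filter, mul_sum]
  refine sum_congr rfl fun A hA => ?_
  rw [mem_Mon] at hA
  beta_reduce
  by_cases h1 : Squarefree A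
  · by_cases h2 : IsCoprime A B
    · rw [if_pos ⟨h1, h2⟩, if_pos h2, HH_squarefree (tws_cm (hay_cm hρ)) hA.1 h1]
      unfold tws
      rw [hA.2]
      ring
    · rw [if_neg (fun h => h2 h.2), if_neg h2, mul_zero, mul_zero]
  · rw [if_neg (fun h => h1 h.1)]
    have : mu A = 0 := by
      unfold mu
      rw [if_neg h1]
    rw [this]
    simp

theorem HH_bound (ε : ℝ) (hε : 0 < ε) : ∃ C : ℝ, 0 < C ∧ ∀ (Q : F[X]) (l : ℕ) (χ ρ : F[X] → ℂ), Hay Q l χ →
    Hay Q l ρ → ∀ s : ℂ, ‖s‖ = 1 → ∀ n : ℕ,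
    ‖∑ f ∈ Mon F n, HH (tws s ρ) f * χ f‖ ≤
      C * √(Fintype.card F : ℝ) ^ n * Real.exp (ε * ((n + Q.natDegree + l : ℕ) : ℝ)) := by
  classical
  obtain ⟨C, hC, hM⟩ := mob_bound (F := F) (ε / 2) (by positivity)
  set δ := ε / 4 with hδ
  have hδ0 : 0 < δ := by positivity
  set C2 := Real.exp (2 * δ) / δ ^ 2 with hC2
  have hC20 : 0 < C2 := by positivity
  refine ⟨C * C2, by positivity, ?_⟩
  intro Q l χ ρ hχ hρ s hs n
  set q : ℝ := (Fintype.card F : ℝ) with hq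
  have hq1 : 1 ≤ q := by
    rw [hq]
    exact_mod_cast Fintype.card_pos (α := F)
  have hs1 : 1 ≤ √q := by rw [Real.one_le_sqrt]; exact hq1
  have hs0 : 0 < √q := by linarith
  set R : ℝ := ((Q.natDegree + l : ℕ) : ℝ) with hR
  have hR0 : 0 ≤ R := by positivity
  rw [sum_decomp]
  have hB : ∀ k ∈ range (n + 1), ∀ B ∈ (Mon F k).filter Pow2,
      ‖∑ A ∈ (Mon F (n - k)).filter (fun A => Squarefree A ∧ IsCoprime A B), HH (tws s ρ) (A * B) * χ (A * B)‖ ≤
        C * √q ^ (n - k) * Real.exp (ε / 2 * (n + R)) := by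
    intro k hk B hB
    rw [mem_range] at hk
    rw [mem_filter, mem_Mon] at hB
    have h1 : ∑ A ∈ (Mon F (n - k)).filter (fun A => Squarefree A ∧ IsCoprime A B),
        HH (tws s ρ) (A * B) * χ (A * B) =
        (HH (tws s ρ) B * χ B) * ∑ A ∈ (Mon F (n - k)).filter (fun A => Squarefree A ∧ IsCoprime A B),
          HH (tws s ρ) A * χ A := by
      rw [mul_sum]
      refine sum_congr rfl fun A hA => ?_
      rw [mem_filter, mem_Mon] at hA
      rw [HH_mul _ hA.1.1 hB.1.1 hA.2.2, hχ.mul A B hA.1.1 hB.1.1]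
      ring
    rw [h1, inner_eq hχ hρ, norm_mul, norm_mul, norm_mul, norm_pow, hs, one_pow, one_mul]
    have h2 : ‖HH (tws s ρ) B‖ ≤ 1 := HH_norm_le (fun P => tws_norm_le hs hρ P) B
    have h3 : ‖χ B‖ ≤ 1 := hay_norm_le hχ B
    have h4 := hM (Q * B) l _ (hay_restrict (hay_mul hρ hχ) hB.1.1) (n - k)
    have h5 : (n - k + (Q * B).natDegree + l : ℕ) = n + (Q.natDegree + l) := by
      rw [hχ.monic.natDegree_mul hB.1.1, hB.1.2]
      omega
    rw [h5] at h4
    have h6 : ((n + (Q.natDegree + l) : ℕ) : ℝ) = n + R := by rw [hR]; push_cast; ring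
    rw [h6] at h4
    have h7 : ‖HH (tws s ρ) B‖ * ‖χ B‖ ≤ 1 := mul_le_one₀ h2 (norm_nonneg _) h3
    calc ‖HH (tws s ρ) B‖ * ‖χ B‖ * ‖MS (fun f => if IsCoprime f B then ρ f * χ f else 0) (n - k)‖ ≤
          1 * ‖MS (fun f => if IsCoprime f B then ρ f * χ f else 0) (n - k)‖ :=
          mul_le_mul_of_nonneg_right h7 (norm_nonneg _)
      _ ≤ C * √q ^ (n - k) * Real.exp (ε / 2 * (n + R)) := by rw [one_mul]; exact h4
  have h1 : ‖∑ k ∈ range (n + 1), ∑ B ∈ (Mon F k).filter Pow2,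
      ∑ A ∈ (Mon F (n - k)).filter (fun A => Squarefree A ∧ IsCoprime A B), HH (tws s ρ) (A * B) * χ (A * B)‖ ≤
      ∑ k ∈ range (n + 1), ((n + 1) * (C * √q ^ n * Real.exp (ε / 2 * (n + R)))) := by
    refine (norm_sum_le _ _).trans (sum_le_sum fun k hk => ?_)
    refine (norm_sum_le _ _).trans ?_
    refine (sum_le_card_nsmul _ _ _ (hB k hk)).trans ?_
    rw [nsmul_eq_mul]
    rw [mem_range] at hk
    have h2 := card_pow2 (F := F) k
    have h3 : √q ^ n = √q ^ k * √q ^ (n - k) := by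
      rw [← pow_add]; congr 1; omega
    have hkn : (k : ℝ) ≤ n := by exact_mod_cast (by omega : k ≤ n)
    calc (((Mon F k).filter Pow2).card : ℝ) * (C * √q ^ (n - k) * Real.exp (ε / 2 * (n + R))) ≤
          ((k + 1) * √q ^ k) * (C * √q ^ (n - k) * Real.exp (ε / 2 * (n + R))) :=
          mul_le_mul_of_nonneg_right h2 (by positivity)
      _ = (k + 1) * (C * √q ^ n * Real.exp (ε / 2 * (n + R))) := by rw [h3]; ring
      _ ≤ (n + 1) * (C * √q ^ n * Real.exp (ε / 2 * (n + R))) :=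
          mul_le_mul_of_nonneg_right (by linarith) (by positivity)
  refine h1.trans ?_
  rw [sum_const, card_range, nsmul_eq_mul]
  have h2 := sq_le_exp δ hδ0 n
  have h3 : Real.exp (ε * ((n + Q.natDegree + l : ℕ) : ℝ)) =
      Real.exp (ε / 2 * (n + R)) * Real.exp (ε / 2 * (n + R)) := by
    rw [← Real.exp_add]
    congr 1
    rw [hR]
    push_cast
    ring
  have h4 : Real.exp (2 * δ * n) ≤ Real.exp (ε / 2 * (n + R)) := by
    apply Real.exp_le_exp.2
    have : 2 * δ = ε / 2 := by rw [hδ]; ring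
    rw [this]
    nlinarith
  calc ((n + 1 : ℕ) : ℝ) * ((n + 1) * (C * √q ^ n * Real.exp (ε / 2 * (n + R)))) =
        ((n : ℝ) + 1) ^ 2 * (C * √q ^ n * Real.exp (ε / 2 * (n + R))) := by push_cast; ring
    _ ≤ (C2 * Real.exp (2 * δ * n)) * (C * √q ^ n * Real.exp (ε / 2 * (n + R))) :=
        mul_le_mul_of_nonneg_right h2 (by positivity)
    _ ≤ (C2 * Real.exp (ε / 2 * (n + R))) * (C * √q ^ n * Real.exp (ε / 2 * (n + R))) :=
        mul_le_mul_of_nonneg_right (mul_le_mul_of_nonneg_left h4 hC20.le) (by positivity)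
    _ = C * C2 * √q ^ n * Real.exp (ε * ((n + Q.natDegree + l : ℕ) : ℝ)) := by rw [h3]; ring

end Pool.Agent.H456.RN
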