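import Pool.Agent.H456.RN.Core2
import Pool.Graph.R_pool_sql_team_seeded_3997aac3.Q68.PS.Leg

/-!
# The quadratic symbol of a fixed polynomial is a Hayes character
-/

set_option autoImplicit false
set_option linter.all false
set_option maxHeartbeats 1000000

open Finset Polynomial ComplexConjugate
open Pool.Agent.H341R2.Sharp (Mon mem_Mon lam)
open Pool.Agent.Q284.PS Pool.Agent.Q53.PS Pool.Agent.Q68.PS

namespace Pool.Agent.H456.RN

section ring
variable {R : Type*} [CommRing R]

theorem rs_lift {A f : R[X]} (hA : A.Monic) {N : ℕ} (hN : f.natDegree ≤ N) :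
    resultant A f A.natDegree N = resultant A f A.natDegree f.natDegree := by
  obtain ⟨k, rfl⟩ := Nat.exists_eq_add_of_le hN
  rw [resultant_add_right_deg _ _ _ _ _ le_rfl]
  have h1 : A.coeff A.natDegree = 1 := hA
  rw [h1, one_pow, one_mul]

theorem rs_congr {A f g : R[X]} (hA : A.Monic) (h : A ∣ f - g) :
    resultant A f A.natDegree f.natDegree = resultant A g A.natDegree g.natDegree := by
  obtain ⟨p, hp⟩ := h
  have h1 : f = g + A * p := by rw [← hp]; ring
  obtain ⟨N, hN1, hN2, hN3⟩ : ∃ N, f.natDegree ≤ N ∧ g.natDegree ≤ N ∧ p.natDegree + A.natDegree ≤ N :=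
    ⟨f.natDegree + g.natDegree + p.natDegree + A.natDegree, by omega, by omega, by omega⟩
  have h2 := rs_lift hA hN1
  have h3 := rs_lift hA hN2
  rw [← h2, ← h3]
  conv_lhs => rw [h1]
  rw [resultant_add_mul_right _ _ _ _ _ hN3 le_rfl]

theorem rs_mul {A f g : R[X]} (hf : f.Monic) (hg : g.Monic) :
    resultant A (f * g) A.natDegree (f * g).natDegree =
      resultant A f A.natDegree f.natDegree * resultant A g A.natDegree g.natDegree := by
  rw [hf.natDegree_mul hg, resultant_mul_right _ _ _ _ le_rfl]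

theorem rs_one {A : R[X]} : resultant A 1 A.natDegree (1 : R[X]).natDegree = 1 := by
  rw [natDegree_one]
  simp

end ring

variable {F : Type} [Field F] [Fintype F] [DecidableEq F]

open Classical in
/-- the quadratic character of the resultant with a fixed polynomial -/
noncomputable def jac (A f : F[X]) : ℂ :=
  if f.Monic then ((quadraticChar F (resultant A f A.natDegree f.natDegree) : ℤ) : ℂ) else 0

theorem hay_jac {A : F[X]} (hA : A.Monic) : Hay A 0 (jac A) := by
  classical
  refine ⟨hA, ?_, ?_, ?_, ?_, ?_, ?_⟩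
  · intro f hf
    unfold jac
    rw [if_neg hf]
  · unfold jac
    rw [if_pos monic_one, rs_one]
    simp
  · intro f g hf hg
    unfold jac
    rw [if_pos hf, if_pos hg, if_pos (hf.mul hg), rs_mul hf hg, map_mul]
    push_cast
    rfl
  · intro f hf hc
    unfold jac
    rw [if_pos hf]
    have h1 : resultant A f A.natDegree f.natDegree ≠ 0 := resultant_ne_zero A f hc.symm
    rcases quadraticChar_dichotomy h1 with h | h <;> rw [h] <;> simp
  · intro f hf hc
    unfold jac
    rw [if_pos hf]
    have h1 : resultant A f A.natDegree f.natDegree = 0 := by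
      rw [resultant_eq_zero_iff]
      exact ⟨Or.inl hA.ne_zero, fun h => hc h.symm⟩
    rw [h1]
    simp
  · intro f g hf hg h1 _
    unfold jac
    rw [if_pos hf, if_pos hg, rs_congr hA h1]

theorem leg_eq_lam (h2 : ringChar F ≠ 2) {P : F[X]} (hm : P.Monic) (hP : Irreducible P) (g : F[X]) :
    leg P g = lam g P := by
  haveI : Fact (Irreducible P) := ⟨hP⟩
  haveI := fin_adj P hP
  letI : Fintype (AdjoinRoot P) := Fintype.ofFinite _
  classical
  have e1 : AdjoinRoot.mk P g = aeval (AdjoinRoot.root P) g := (AdjoinRoot.aeval_eq g).symm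
  have hmin : minpoly F (AdjoinRoot.root P) = P := by
    rw [AdjoinRoot.minpoly_root hP.ne_zero, hm.leadingCoeff]
    simp
  have hfin : Module.finrank F (AdjoinRoot P) = P.natDegree :=
    (AdjoinRoot.powerBasis hP.ne_zero).finrank
  have hpos : 0 < P.natDegree := hP.natDegree_pos
  rw [leg_qc P h2, e1, Pool.Agent.H341R2.Sharp.qc_aeval h2, hmin, hfin, Nat.div_self hpos, pow_one]

/-- **The quadratic symbol modulo the primes, of a fixed polynomial.** -/
theorem exists_jac (h2 : ringChar F ≠ 2) {a : F[X]} (ha : a ≠ 0) :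
    ∃ (A : F[X]) (s : ℂ), A.Monic ∧ a = C a.leadingCoeff * A ∧ ‖s‖ = 1 ∧ Hay A 0 (jac A) ∧
      ∀ P : F[X], P.Monic → Irreducible P → (leg P a : ℂ) = s ^ P.natDegree * jac A P := by
  classical
  set α := a.leadingCoeff with hα
  have hα0 : α ≠ 0 := leadingCoeff_ne_zero.2 ha
  set A := C α⁻¹ * a with hA
  have hAm : A.Monic := by
    rw [Monic, hA, leadingCoeff_mul, leadingCoeff_C, ← hα, inv_mul_cancel₀ hα0]
  have haA : a = C α * A := by
    rw [hA, ← mul_assoc, ← C_mul, mul_inv_cancel₀ hα0, C_1, one_mul]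
  have hdeg : a.natDegree = A.natDegree := by
    conv_lhs => rw [haA]
    rw [natDegree_C_mul hα0]
  refine ⟨A, ((quadraticChar F (α * (-1) ^ A.natDegree) : ℤ) : ℂ), hAm, haA, ?_, hay_jac hAm, ?_⟩
  · have h1 : α * (-1) ^ A.natDegree ≠ 0 := mul_ne_zero hα0 (pow_ne_zero _ (neg_ne_zero.2 one_ne_zero))
    rcases quadraticChar_dichotomy h1 with h | h <;> rw [h] <;> simp
  · intro P hPm hPi
    rw [leg_eq_lam h2 hPm hPi]
    unfold lam jac
    rw [if_pos hPm, hdeg]
    conv_lhs => rw [haA]
    rw [resultant_C_mul_right, resultant_comm, ← Int.cast_pow, ← Int.cast_mul, ← map_pow, ← map_mul]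
    congr 2
    ring

end Pool.Agent.H456.RN
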