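import Pool.Agent.H456.RN.Main2

/-!
# Characteristic two: the average sign is zero
-/

set_option autoImplicit false
set_option linter.all false
set_option maxHeartbeats 1000000

open Finset Polynomial ComplexConjugate Filter
open Pool.Agent.H341R2.Sharp (Mon mem_Mon lam)
open Pool.Agent.Q284.PS Pool.Agent.Q53.PS Pool.Agent.Q68.PS

namespace Pool.Agent.H456.RN

variable {F : Type} [Field F] [Fintype F]

theorem decay2 (K θ : ℝ) (h0 : 0 ≤ θ) (h1 : θ < 1) :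
    Tendsto (fun d : ℕ => K * (12 * (d : ℝ) + 1) * θ ^ d) atTop (nhds 0) := by
  have t1 := tendsto_self_mul_const_pow_of_lt_one h0 h1
  have t2 := tendsto_pow_atTop_nhds_zero_of_lt_one h0 h1
  have t3 : Tendsto (fun d : ℕ => (12 * K) * ((d : ℝ) * θ ^ d) + K * θ ^ d) atTop (nhds ((12 * K) * 0 + K * 0)) :=
    (t1.const_mul _).add (t2.const_mul _)
  rw [mul_zero, mul_zero, add_zero] at t3
  refine t3.congr fun d => ?_
  ring

open Classical in
/-- the sum is small outside the exceptional equations, up to a decaying term -/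
theorem good2 [CharP F 2] {M0 : ℕ} {w : F[X] → Wei F → ℂ} {winf : Wei F → ℂ} (hs : Sys2 M0 w winf) (M j : ℕ)
    (hM : M0 ≤ M) (hj : 1 ≤ j) : ∃ (N : ℕ) (g : ℕ → ℝ), N ≠ 0 ∧ Tendsto g atTop (nhds 0) ∧ ∀ᶠ d in atTop,
      ‖∑ T ∈ (Box2 F d).filter (fun T => T.1 ≠ 0 ∧
          Cond2 (MoM F M N) (7 * j - 1) d T.1 T.2.1 T.2.2.1 T.2.2.2.1 T.2.2.2.2),
        Wt2 M0 w winf d T‖ ≤ (Fintype.card F : ℝ) ^ (16 * d + 5) * g d := by
  set q : ℝ := (Fintype.card F : ℝ) with hq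
  have hq2 : 2 ≤ q := two_le_q
  have hq0 : 0 < q := by linarith
  set k := 7 * j - 1 with hk
  -- the exponent
  have hex : ∀ P : F[X], ∃ N : ℕ, P ∈ PrM F M → ∀ T T' : Wei F, ¬ P ^ (k + 1) ∣ dwc T → P ^ N ∣ T'.1 - T.1 →
      P ^ N ∣ T'.2.1 - T.2.1 → P ^ N ∣ T'.2.2.1 - T.2.2.1 → P ^ N ∣ T'.2.2.2.1 - T.2.2.2.1 →
      P ^ N ∣ T'.2.2.2.2 - T.2.2.2.2 → w P T' = w P T := by
    intro P
    by_cases hP : P ∈ PrM F M
    · have hP' := mem_PrM.1 hP
      obtain ⟨N, hN⟩ := hs.loc P hP'.1 hP'.2.1 k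
      exact ⟨N, fun _ => hN⟩
    · exact ⟨0, fun h => absurd h hP⟩
  choose NP hNP using hex
  obtain ⟨Ninf, hNinf⟩ := hs.locinf k
  set N := (PrM F M).sup NP + Ninf + k + 1 with hN
  have hN0 : N ≠ 0 := by omega
  have hkN : k < N := by omega
  have hN1 : ∀ P ∈ PrM F M, ∀ T T' : Wei F, ¬ P ^ (k + 1) ∣ dwc T → P ^ N ∣ T'.1 - T.1 → P ^ N ∣ T'.2.1 - T.2.1 →
      P ^ N ∣ T'.2.2.1 - T.2.2.1 → P ^ N ∣ T'.2.2.2.1 - T.2.2.2.1 → P ^ N ∣ T'.2.2.2.2 - T.2.2.2.2 →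
      w P T' = w P T := by
    intro P hP T T' h1 h2 h3 h4 h5' h6'
    have h5 : NP P ≤ N := by
      have := le_sup (f := NP) hP
      omega
    have h6 := pow_dvd_pow P h5
    exact hNP P hP T T' h1 (h6.trans h2) (h6.trans h3) (h6.trans h4) (h6.trans h5') (h6.trans h6')
  have hN2 : ∀ T T' : Wei F, ¬ X ^ (k + 1) ∣ dwc T → X ^ N ∣ T'.1 - T.1 → X ^ N ∣ T'.2.1 - T.2.1 →
      X ^ N ∣ T'.2.2.1 - T.2.2.1 → X ^ N ∣ T'.2.2.2.1 - T.2.2.2.1 → X ^ N ∣ T'.2.2.2.2 - T.2.2.2.2 →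
      winf T' = winf T := by
    intro T T' h1 h2 h3 h4 h5' h6'
    have h5 : Ninf ≤ N := by omega
    have h6 := pow_dvd_pow (X : F[X]) h5
    exact hNinf T T' h1 (h6.trans h2) (h6.trans h3) (h6.trans h4) (h6.trans h5') (h6.trans h6')
  -- the constants
  set s := √q with hs'
  have hs1 : 1 < s := by
    rw [hs', Real.lt_sqrt (by norm_num)]
    linarith
  have hs0 : 0 < s := by linarith
  have hss : s * s = q := Real.mul_self_sqrt hq0.le
  set ε := Real.log s / 48 with hε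
  have hlog : 0 < Real.log s := Real.log_pos hs1
  have hε0 : 0 < ε := by positivity
  obtain ⟨C0, hC0, htot⟩ := total2 (F := F) ε hε0
  set θ := s⁻¹ * Real.exp (24 * ε) with hθ
  have hθ0 : 0 ≤ θ := by positivity
  have hθ1 : θ < 1 := by
    have h1 : s = Real.exp (Real.log s) := (Real.exp_log hs0).symm
    have h2 : θ = Real.exp (-(Real.log s / 2)) := by
      rw [hθ]
      nth_rw 1 [h1]
      rw [← Real.exp_neg, ← Real.exp_add]
      congr 1
      rw [hε]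
      ring
    rw [h2, Real.exp_lt_one_iff]
    linarith
  set Mo := MoM F M N with hMo
  set K : ℝ := q ^ (N + Mo.natDegree) * (q * q ^ (Mo.natDegree + 1)) * C0 with hK
  refine ⟨N, fun d => K * (12 * (d : ℝ) + 1) * θ ^ d, hN0, decay2 K θ hθ0 hθ1, ?_⟩
  filter_upwards [eventually_ge_atTop (N + Mo.natDegree)] with d hd
  have hd' : N + Mo.natDegree ≤ 6 * d + 1 := by omega
  have hkM : ∀ P : F[X], P.Monic → Irreducible P → P ∣ Mo → P ^ (k + 1) ∣ Mo := by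
    intro P hP hi hPd
    exact (pow_dvd_pow P (by omega)).trans (pow_dvd_MoM hP hi ((dvd_MoM hN0 hP hi).1 hPd))
  have h1 := htot Mo k N d (MoM_monic M N) hkM hkN hd' (G2 w winf M N k d) (G2_norm hs M N k d)
    (fun a ha e he b hb f hf c hc v hv => G2_shift hkN hd' hN1 hN2 ha he hb hf hc hv)
    (fun a ha e he b hb f hf c hc h => by
      unfold G2 at h
      by_contra hc'
      rw [if_neg hc'] at h
      exact h rfl)
  have h2 : ∑ T ∈ (Box2 F d).filter (fun T => T.1 ≠ 0 ∧ Cond2 Mo k d T.1 T.2.1 T.2.2.1 T.2.2.2.1 T.2.2.2.2),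
      Wt2 M0 w winf d T =
      ∑ a ∈ PL F (d + 1), ∑ e ∈ PL F (2 * d + 1), ∑ b ∈ PL F (3 * d + 1), ∑ f ∈ PL F (4 * d + 1),
      ∑ c ∈ PL F (6 * d + 1), G2 w winf M N k d a e b f c * WtM Mo (fun P => asy a (a * e + b) P) (disc2 a e b f c) := by
    rw [sum_filter]
    unfold Box2
    rw [sum_product]
    refine sum_congr rfl fun a ha => ?_
    rw [sum_product]
    refine sum_congr rfl fun e he => ?_
    rw [sum_product]
    refine sum_congr rfl fun b hb => ?_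
    rw [sum_product]
    refine sum_congr rfl fun f hf => ?_
    refine sum_congr rfl fun c hc => ?_
    split_ifs with h3
    · exact Wt2_eq hs hM hN0 h3.1 h3.2
    · unfold G2
      rw [if_neg h3, zero_mul]
  rw [h2]
  refine h1.trans ?_
  have h3 : √(((Fintype.card F ^ (4 * d + 1) : ℕ) : ℝ) * ((Fintype.card F ^ (3 * d + 1) : ℕ) : ℝ)) ≤ s ^ (7 * d + 2) := by
    have h4 : (((Fintype.card F ^ (4 * d + 1) : ℕ) : ℝ) * ((Fintype.card F ^ (3 * d + 1) : ℕ) : ℝ)) ≤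
        (s ^ (7 * d + 2)) ^ 2 := by
      push_cast
      rw [← hq, ← pow_add, ← pow_mul, mul_comm (7 * d + 2) 2, pow_mul, pow_two, hss]
      exact pow_le_pow_right₀ (by linarith) (by omega)
    calc _ ≤ √((s ^ (7 * d + 2)) ^ 2) := Real.sqrt_le_sqrt h4
      _ = s ^ (7 * d + 2) := Real.sqrt_sq (by positivity)
  have h5 : Real.exp (ε * (2 * (12 * d) : ℕ)) = Real.exp (24 * ε) ^ d := by
    rw [← Real.exp_nat_mul]
    congr 1
    push_cast
    ring
  rw [h5]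
  have h6 : s ^ (7 * d + 2) * s ^ (12 * d) * q ^ (6 * d + 3) ≤ q ^ (16 * d + 5) * (s⁻¹) ^ d := by
    have h7 : q ^ (16 * d + 5) = s ^ (32 * d + 10) := by
      rw [← hss, ← pow_two, ← pow_mul]
      congr 1
      ring
    have h8 : q ^ (6 * d + 3) = s ^ (12 * d + 6) := by
      rw [← hss, ← pow_two, ← pow_mul]
      congr 1
      ring
    rw [h7, h8, ← pow_add, ← pow_add, inv_pow]
    have h9 : s ^ (32 * d + 10) * (s ^ d)⁻¹ = s ^ (31 * d + 10) := by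
      have : s ^ (32 * d + 10) = s ^ (31 * d + 10) * s ^ d := by rw [← pow_add]; congr 1; omega
      rw [this]
      field_simp
    rw [h9]
    exact pow_le_pow_right₀ hs1.le (by omega)
  have h7 : θ ^ d = (s⁻¹) ^ d * Real.exp (24 * ε) ^ d := by rw [hθ, mul_pow]
  rw [h7]
  calc q ^ (6 * d + 3) * (q ^ (N + Mo.natDegree) * (q * q ^ (Mo.natDegree + 1) * (12 * d + 1) *
        (√(((Fintype.card F ^ (4 * d + 1) : ℕ) : ℝ) * ((Fintype.card F ^ (3 * d + 1) : ℕ) : ℝ)) *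
          (C0 * s ^ (12 * d) * Real.exp (24 * ε) ^ d)))) ≤
      q ^ (6 * d + 3) * (q ^ (N + Mo.natDegree) * (q * q ^ (Mo.natDegree + 1) * (12 * d + 1) *
        (s ^ (7 * d + 2) * (C0 * s ^ (12 * d) * Real.exp (24 * ε) ^ d)))) := by
        gcongr
    _ = (s ^ (7 * d + 2) * s ^ (12 * d) * q ^ (6 * d + 3)) * (K * (12 * d + 1) * Real.exp (24 * ε) ^ d) := by
        rw [hK]; ring
    _ ≤ (q ^ (16 * d + 5) * (s⁻¹) ^ d) * (K * (12 * d + 1) * Real.exp (24 * ε) ^ d) := by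
        apply mul_le_mul_of_nonneg_right h6 (by positivity)
    _ = q ^ (16 * d + 5) * (K * (12 * d + 1) * ((s⁻¹) ^ d * Real.exp (24 * ε) ^ d)) := by ring

open Classical in
/-- **The average of the product of the local factors is zero.** -/
theorem main2 [CharP F 2] {M0 : ℕ} {w : F[X] → Wei F → ℂ} {winf : Wei F → ℂ} (hs : Sys2 M0 w winf) :
    Tendsto (fun d : ℕ => (∑ T ∈ (Box2 F d).filter (fun T => dwc T ≠ 0), Wt2 M0 w winf d T) /
      ((Box2 F d).card : ℂ)) atTop (nhds 0) := by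
  set q : ℝ := (Fintype.card F : ℝ) with hq
  have hq2 : 2 ≤ q := two_le_q
  have hq0 : 0 < q := by linarith
  have hqi : (q⁻¹) < 1 := by
    have := inv_q_le_half (F := F)
    linarith
  have hqi0 : 0 ≤ q⁻¹ := by positivity
  rw [Metric.tendsto_atTop]
  intro η hη
  have t := tendsto_pow_atTop_nhds_zero_of_lt_one hqi0 hqi
  obtain ⟨M1, hM1⟩ := (t.eventually (gt_mem_nhds (show (0 : ℝ) < η / 4 by positivity))).exists_forall_of_atTop
  set M := max M0 M1 with hM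
  set cM : ℝ := 2 * ((PrM F M).card + 1) with hcM
  have hcM0 : 0 < cM := by positivity
  obtain ⟨j1, hj1⟩ := (t.eventually (gt_mem_nhds (show (0 : ℝ) < η / (4 * cM) by positivity))).exists_forall_of_atTop
  set j := max 1 j1 with hj
  obtain ⟨N, g, hN0, hg, hgood⟩ := good2 hs M j (le_max_left _ _) (le_max_left _ _)
  have e1 := hg.eventually (gt_mem_nhds (show (0 : ℝ) < η / 4 by positivity))
  obtain ⟨D0, hD0⟩ := (hgood.and e1).exists_forall_of_atTop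
  refine ⟨D0 + j + j * M + M1 + 2, fun d hd => ?_⟩
  obtain ⟨h1, h2⟩ := hD0 d (by omega)
  have hPM : ∀ P ∈ PrM F M, j * P.natDegree ≤ d + 1 := by
    intro P hP
    have h3 := Nat.mul_le_mul_left j (mem_PrM.1 hP).2.2
    omega
  have h3 := card_exc2 (F := F) (M := M) (N := N) (j := j) (d := d) hN0 hPM (by omega) (le_max_left _ _) (by omega)
  have h4 : (q⁻¹) ^ (d + 1) < η / 4 := hM1 _ (by omega)
  have h5 : (q⁻¹) ^ M < η / 4 := hM1 _ (le_max_right _ _)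
  have h6 : (q⁻¹) ^ j < η / (4 * cM) := hj1 _ (le_max_right _ _)
  have h7 : cM * (q⁻¹) ^ j < η / 4 := by
    have := mul_lt_mul_of_pos_left h6 hcM0
    have h8 : cM * (η / (4 * cM)) = η / 4 := by field_simp
    linarith
  rw [← hq] at h1 h3
  have hsplit : ∑ T ∈ (Box2 F d).filter (fun T => dwc T ≠ 0), Wt2 M0 w winf d T =
      ∑ T ∈ (Box2 F d).filter (fun T => T.1 ≠ 0 ∧
        Cond2 (MoM F M N) (7 * j - 1) d T.1 T.2.1 T.2.2.1 T.2.2.2.1 T.2.2.2.2), Wt2 M0 w winf d T +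
      ∑ T ∈ (Box2 F d).filter (fun T => dwc T ≠ 0 ∧
        ¬ (T.1 ≠ 0 ∧ Cond2 (MoM F M N) (7 * j - 1) d T.1 T.2.1 T.2.2.1 T.2.2.2.1 T.2.2.2.2)),
        Wt2 M0 w winf d T := by
    rw [← sum_filter_add_sum_filter_not ((Box2 F d).filter (fun T => dwc T ≠ 0))
      (fun T => T.1 ≠ 0 ∧ Cond2 (MoM F M N) (7 * j - 1) d T.1 T.2.1 T.2.2.1 T.2.2.2.1 T.2.2.2.2), filter_filter,
      filter_filter]
    congr 1
    refine sum_congr ?_ fun _ _ => rfl
    ext T
    rw [mem_filter, mem_filter]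
    constructor
    · rintro ⟨a1, a2, a3⟩; exact ⟨a1, a3⟩
    · rintro ⟨a1, a2⟩; exact ⟨a1, a2.2.2.2.1, a2⟩
  have hexc : ‖∑ T ∈ (Box2 F d).filter (fun T => dwc T ≠ 0 ∧
        ¬ (T.1 ≠ 0 ∧ Cond2 (MoM F M N) (7 * j - 1) d T.1 T.2.1 T.2.2.1 T.2.2.2.1 T.2.2.2.2)),
        Wt2 M0 w winf d T‖ ≤
      q ^ (16 * d + 5) * ((q⁻¹) ^ (d + 1) + (q⁻¹) ^ M + cM * (q⁻¹) ^ j) := by
    refine (norm_sum_le _ _).trans ?_
    refine (sum_le_card_nsmul _ _ 1 (fun T _ => Wt2_norm hs d T)).trans ?_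
    rw [nsmul_eq_mul, mul_one]
    exact h3
  have hcard : ((Box2 F d).card : ℂ) = ((q ^ (16 * d + 5) : ℝ) : ℂ) := by
    rw [card_Box2, hq]
    push_cast
    rfl
  rw [dist_zero_right, norm_div, hcard, Complex.norm_real, Real.norm_of_nonneg (by positivity),
    div_lt_iff₀ (by positivity), hsplit]
  calc _ ≤ q ^ (16 * d + 5) * g d + q ^ (16 * d + 5) * ((q⁻¹) ^ (d + 1) + (q⁻¹) ^ M + cM * (q⁻¹) ^ j) :=
        (norm_add_le _ _).trans (add_le_add h1 hexc)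
    _ = (g d + (q⁻¹) ^ (d + 1) + (q⁻¹) ^ M + cM * (q⁻¹) ^ j) * q ^ (16 * d + 5) := by ring
    _ < η * q ^ (16 * d + 5) := by
        apply mul_lt_mul_of_pos_right _ (by positivity)
        linarith

end Pool.Agent.H456.RN
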