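import Pool.Agent.H456.RN.Dens

/-!
# Local systems
-/

open Polynomial WeierstrassCurve Finset Filter
open Pool.Agent.H456.RN

namespace Pool.Agent.H456.EC

section

variable {F : Type} [Field F]

theorem cong_map_eq {m : F[X]} {W W' : WeierstrassCurve F[X]} (h : Cong m W W') :
    W.map (Ideal.Quotient.mk (Ideal.span {m})) = W'.map (Ideal.Quotient.mk (Ideal.span {m})) := by
  obtain ⟨h1, h2, h3, h4, h6⟩ := h
  ext1
  · simp only [map_a₁]; rw [Ideal.Quotient.eq, Ideal.mem_span_singleton]; exact dvd_sub_comm.1 h1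
  · simp only [map_a₂]; rw [Ideal.Quotient.eq, Ideal.mem_span_singleton]; exact dvd_sub_comm.1 h2
  · simp only [map_a₃]; rw [Ideal.Quotient.eq, Ideal.mem_span_singleton]; exact dvd_sub_comm.1 h3
  · simp only [map_a₄]; rw [Ideal.Quotient.eq, Ideal.mem_span_singleton]; exact dvd_sub_comm.1 h4
  · simp only [map_a₆]; rw [Ideal.Quotient.eq, Ideal.mem_span_singleton]; exact dvd_sub_comm.1 h6

theorem cong_Δ {m : F[X]} {W W' : WeierstrassCurve F[X]} (h : Cong m W W') : m ∣ W'.Δ - W.Δ := by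
  have h1 := congrArg WeierstrassCurve.Δ (cong_map_eq h)
  rw [map_Δ, map_Δ, Ideal.Quotient.eq, Ideal.mem_span_singleton] at h1
  exact dvd_sub_comm.1 h1

/-- the local factor, zero at the equations which are not minimal -/
noncomputable def wm (P : F[X]) (w : WeierstrassCurve F[X] → ℤ) (W : WeierstrassCurve F[X]) : ℂ :=
  (open Classical in if NonMin P W then 0 else (w W : ℂ))

theorem sign_finprod {ι : Type*} (f : ι → ℤ) (h : ∀ i, f i = 1 ∨ f i = -1) : ∏ᶠ i, f i = 1 ∨ ∏ᶠ i, f i = -1 := by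
  refine finprod_induction (fun x : ℤ => x = 1 ∨ x = -1) (Or.inl rfl) ?_ h
  rintro x y (rfl | rfl) (rfl | rfl) <;> simp

variable {w : F[X] → WeierstrassCurve F[X] → ℤ} {winf : WeierstrassCurve F[X] → ℤ}

theorem globalSign_sign (hL : LocalSystem w winf) (e : ℕ) (W : WeierstrassCurve F[X]) :
    globalSign w winf e W = 1 ∨ globalSign w winf e W = -1 := by
  unfold globalSign
  rcases hL.inf.sign (rev e W) with h | h <;>
    rcases sign_finprod (fun P : {P : F[X] // P.Monic ∧ Irreducible P} => w P.1 W)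
      (fun P => (hL.fin P.1 P.2.1 P.2.2).sign W) with h' | h' <;> rw [h, h'] <;> simp

theorem globalSign_inv (hL : LocalSystem w winf) (e d : ℕ) (hed : e ≤ d) (W : WeierstrassCurve F[X])
    (hW : W ∈ Eqn F e) (V : WeierstrassCurve F[X]) (hV : V ∈ Eqn F d) (h : cls W = cls V) :
    globalSign w winf e W = globalSign w winf d V := by
  have hWd : W ∈ Eqn F d := ⟨hW.1, dg_mono hed hW.2⟩
  unfold globalSign
  congr 1
  · apply hL.inf.inv _ _ (rev_mem hW).1 (rev_mem hV).1
    rw [← cls_rev_level hed hW.2]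
    exact cls_rev hWd.2 hV.2 h
  · apply finprod_congr
    intro P
    exact (hL.fin P.1 P.2.1 P.2.2).inv _ _ hW.1 hV.1 h

variable [Fintype F]

theorem globalSign_eq {M : ℕ} (hL : ∀ P : F[X], P.Monic → Irreducible P → M < P.natDegree → Standard P (w P))
    {W : WeierstrassCurve F[X]} (hW : W.Δ ≠ 0) (e : ℕ) :
    (open Classical in globalSign w winf e W = winf (rev e W) * ∏ P ∈ PrM F M ∪ pr W.Δ, w P W) := by
  classical
  unfold globalSign
  congr 1
  have e1 : ∏ᶠ P : {P : F[X] // P.Monic ∧ Irreducible P}, w P.1 W =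
      ∏ᶠ (P : F[X]) (_ : P.Monic ∧ Irreducible P), w P W :=
    finprod_subtype_eq_finprod_cond (f := fun P : F[X] => w P W) (fun P : F[X] => P.Monic ∧ Irreducible P)
  rw [e1]
  apply finprod_cond_eq_prod_of_cond_iff
  intro P hP
  rw [mem_union, mem_PrM, mem_pr hW]
  constructor
  · rintro ⟨h1, h2⟩
    by_cases h3 : P.natDegree ≤ M
    · left; exact ⟨h1, h2, h3⟩
    · right
      refine ⟨h1, h2, ?_⟩
      by_contra h4
      exact hP ((hL P h1 h2 (by omega)).good W h4)
  · rintro (⟨h1, h2, -⟩ | ⟨h1, h2, -⟩)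
    · exact ⟨h1, h2⟩
    · exact ⟨h1, h2⟩

theorem prod_wm {M : ℕ} (hL : ∀ P : F[X], P.Monic → Irreducible P → M < P.natDegree → Standard P (w P))
    {W : WeierstrassCurve F[X]} (hW : W.Δ ≠ 0) (e : ℕ) :
    (open Classical in wm X winf (rev e W) * ∏ P ∈ PrM F M ∪ pr W.Δ, wm P (w P) W =
      if MinAll e W then (globalSign w winf e W : ℂ) else 0) := by
  classical
  by_cases h : MinAll e W
  · rw [if_pos h, globalSign_eq hL hW e]
    push_cast
    congr 1
    · unfold wm; rw [if_neg h.2]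
    · apply prod_congr rfl
      intro P hP
      have hP' : P.Monic ∧ Irreducible P := by
        rw [mem_union, mem_PrM, mem_pr hW] at hP
        rcases hP with ⟨h1, h2, -⟩ | ⟨h1, h2, -⟩
        · exact ⟨h1, h2⟩
        · exact ⟨h1, h2⟩
      unfold wm; rw [if_neg (h.1 P hP'.1 hP'.2)]
  · rw [if_neg h]
    unfold MinAll at h
    rw [not_and_or] at h
    rcases h with h | h
    · push Not at h
      obtain ⟨P, hP, hi, hn⟩ := h
      have h1 : P ∈ PrM F M ∪ pr W.Δ := by
        rw [mem_union, mem_pr hW]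
        right
        exact ⟨hP, hi, (dvd_pow_self P (by norm_num)).trans (nonmin_Δ hn)⟩
      rw [prod_eq_zero h1, mul_zero]
      unfold wm; rw [if_pos hn]
    · push Not at h
      have h1 : wm X winf (rev e W) = 0 := by
        unfold wm; rw [if_pos h]
      rw [h1, zero_mul]

omit [Fintype F] in
/-- local constancy of `wm` -/
theorem wm_loc {P : F[X]} {v : WeierstrassCurve F[X] → ℤ} (hv : LocalSign P v) (k : ℕ) :
    ∃ N : ℕ, ∀ W W' : WeierstrassCurve F[X], ¬ P ^ (k + 1) ∣ W.Δ → Cong (P ^ N) W W' →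
      wm P v W = wm P v W' ∧ W'.Δ ≠ 0 := by
  classical
  obtain ⟨N, hN⟩ := hv.loc k
  refine ⟨N + 6 + (k + 1), ?_⟩
  intro W W' hW hc
  have h1 : Cong (P ^ N) W W' := cong_mono (pow_dvd_pow P (by omega)) hc
  have h2 : Cong (P ^ 6) W W' := cong_mono (pow_dvd_pow P (by omega)) hc
  have h3 : Cong (P ^ (k + 1)) W W' := cong_mono (pow_dvd_pow P (by omega)) hc
  constructor
  · unfold wm
    by_cases h : NonMin P W
    · rw [if_pos h, if_pos (nonmin_cong h2 h)]
    · rw [if_neg h, if_neg (fun h' => h ((nonmin_cong_iff h2).2 h')), hN W W' hW h1]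
  · intro h0
    have h4 := cong_Δ h3
    rw [h0, zero_sub, dvd_neg] at h4
    exact hW h4

omit [Fintype F] in
theorem wm_norm (P : F[X]) {v : WeierstrassCurve F[X] → ℤ} (hv : ∀ W, v W = 1 ∨ v W = -1)
    (W : WeierstrassCurve F[X]) : ‖wm P v W‖ ≤ 1 := by
  classical
  unfold wm
  split_ifs
  · simp
  · rcases hv W with h | h <;> rw [h] <;> simp

omit [Fintype F] in
theorem wm_std_good {P : F[X]} {v : WeierstrassCurve F[X] → ℤ} (hv : Standard P v)
    {W : WeierstrassCurve F[X]} (h : ¬ P ∣ W.Δ) : wm P v W = 1 := by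
  classical
  unfold wm
  rw [if_neg, hv.good W h]
  · simp
  · intro hn
    exact h ((dvd_pow_self P (by norm_num)).trans (nonmin_Δ hn))

omit [Fintype F] in
theorem wm_std_mult {P : F[X]} {v : WeierstrassCurve F[X] → ℤ} (hv : Standard P v)
    {W : WeierstrassCurve F[X]} (h0 : W.Δ ≠ 0) (h : P ∣ W.Δ) (hc : ¬ P ∣ W.c₄) :
    wm P v W = (open Classical in if RatTan P W then -1 else 1) := by
  classical
  unfold wm
  rw [if_neg]
  · split_ifs with h1
    · rw [hv.split W h0 h hc h1]; simp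
    · rw [hv.nonsplit W h0 h hc h1]; simp
  · intro hn
    exact hc ((dvd_pow_self P (by norm_num)).trans (nonmin_c₄ hn))

end

end Pool.Agent.H456.EC
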