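import Pool.Agent.H456.RN.Box2

/-!
# Characteristic two: reduction of the average sign to the core estimate
-/

set_option autoImplicit false
set_option linter.all false
set_option maxHeartbeats 1000000

open Finset Polynomial ComplexConjugate
open Pool.Agent.H341R2.Sharp (Mon mem_Mon lam)
open Pool.Agent.Q284.PS Pool.Agent.Q53.PS Pool.Agent.Q68.PS

namespace Pool.Agent.H456.RN

variable {F : Type} [Field F] [Fintype F]

/-- the symbol of the equation at `P`: `1` if `a₁³ (z² + z) = a₁ a₂ + a₃` is solvable modulo `P` -/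
noncomputable def sg (T : Wei F) (P : F[X]) : ℂ := asy T.1 (T.1 * T.2.1 + T.2.2.1) P

/-- a system of local factors -/
structure Sys2 (M0 : ℕ) (w : F[X] → Wei F → ℂ) (winf : Wei F → ℂ) : Prop where
  norm : ∀ P T, ‖w P T‖ ≤ 1
  norminf : ∀ T, ‖winf T‖ ≤ 1
  loc : ∀ P : F[X], P.Monic → Irreducible P → LocC2 P (w P)
  locinf : LocC2 X winf
  std : ∀ P : F[X], P.Monic → Irreducible P → M0 < P.natDegree → ∀ T : Wei F,
    (¬ P ∣ dwc T → w P T = 1) ∧ (P ∣ dwc T → ¬ P ∣ T.1 → w P T = -sg T P)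

/-- the product of the local factors -/
noncomputable def Wt2 (M0 : ℕ) (w : F[X] → Wei F → ℂ) (winf : Wei F → ℂ) (d : ℕ) (T : Wei F) : ℂ :=
  (open Classical in winf (rw2 d T) * ∏ P ∈ PrM F M0 ∪ pr (dwc T), w P T)

theorem Wt2_norm {M0 : ℕ} {w : F[X] → Wei F → ℂ} {winf : Wei F → ℂ} (h : Sys2 M0 w winf) (d : ℕ) (T : Wei F) :
    ‖Wt2 M0 w winf d T‖ ≤ 1 := by
  classical
  unfold Wt2
  rw [norm_mul, norm_prod]
  have h1 : ∏ P ∈ PrM F M0 ∪ pr (dwc T), ‖w P T‖ ≤ 1 :=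
    prod_le_one (fun P _ => norm_nonneg _) (fun P _ => h.norm P T)
  calc ‖winf (rw2 d T)‖ * ∏ P ∈ PrM F M0 ∪ pr (dwc T), ‖w P T‖ ≤ 1 * 1 := by
        apply mul_le_mul (h.norminf _) h1 _ zero_le_one
        exact prod_nonneg (fun P _ => norm_nonneg _)
    _ = 1 := one_mul 1

/-- the factor at the places of degree at most `M` and at infinity -/
noncomputable def G2 (w : F[X] → Wei F → ℂ) (winf : Wei F → ℂ) (M N k d : ℕ) (a e b f c : F[X]) : ℂ :=
  (open Classical in if a ≠ 0 ∧ Cond2 (MoM F M N) k d a e b f c then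
    winf (rw2 d (a, e, b, f, c)) * ∏ P ∈ PrM F M, w P (a, e, b, f, c) else 0)

theorem G2_norm {M0 : ℕ} {w : F[X] → Wei F → ℂ} {winf : Wei F → ℂ} (h : Sys2 M0 w winf) (M N k d : ℕ)
    (a e b f c : F[X]) : ‖G2 w winf M N k d a e b f c‖ ≤ 1 := by
  classical
  unfold G2
  split_ifs
  · rw [norm_mul, norm_prod]
    have h1 : ∏ P ∈ PrM F M, ‖w P (a, e, b, f, c)‖ ≤ 1 :=
      prod_le_one (fun P _ => norm_nonneg _) (fun P _ => h.norm P _)
    calc ‖winf (rw2 d (a, e, b, f, c))‖ * ∏ P ∈ PrM F M, ‖w P (a, e, b, f, c)‖ ≤ 1 * 1 := by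
          apply mul_le_mul (h.norminf _) h1 _ zero_le_one
          exact prod_nonneg (fun P _ => norm_nonneg _)
      _ = 1 := one_mul 1
  · rw [norm_zero]; exact zero_le_one

theorem cond2_shift {M N k d : ℕ} (hkN : k < N) (hd : N + (MoM F M N).natDegree ≤ 6 * d + 1) {a e b f c v : F[X]}
    (ha : a ∈ PL F (d + 1)) (hv : v ∈ PL F (6 * d + 1 - N - (MoM F M N).natDegree))
    (h : Cond2 (MoM F M N) k d a e b f c) : Cond2 (MoM F M N) k d a e b f (c + MoM F M N * v) := by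
  obtain ⟨h1, h2, h3, h4⟩ := h
  have hN0 : N ≠ 0 := by omega
  set Mo := MoM F M N with hMo
  have hMom : Mo.Monic := MoM_monic M N
  have hdiff : disc2 a e b f (c + Mo * v) = disc2 a e b f c + a ^ 6 * (Mo * v) := disc2_add _ _ _ _ _ _
  have hmv : Mo * v ∈ PL F (Mo.natDegree + (6 * d + 1 - N - Mo.natDegree)) := mul_mem_PL le_rfl hv
  have ha' := natDegree_le_of_mem_PL ha
  have hmv' : a ^ 6 * (Mo * v) ∈ PL F (6 * d + (Mo.natDegree + (6 * d + 1 - N - Mo.natDegree))) := by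
    apply mul_mem_PL _ hmv
    exact natDegree_pow_le.trans (Nat.mul_le_mul_left 6 ha')
  have hlt : (a ^ 6 * (Mo * v)).degree < (disc2 a e b f c).degree := by
    rw [mem_PL] at hmv'
    refine hmv'.trans_le ?_
    rw [degree_eq_natDegree h3]
    exact_mod_cast (by omega : 6 * d + (Mo.natDegree + (6 * d + 1 - N - Mo.natDegree)) ≤ (disc2 a e b f c).natDegree)
  have hdeg : (disc2 a e b f (c + Mo * v)).degree = (disc2 a e b f c).degree := by
    rw [hdiff]
    exact degree_add_eq_left_of_degree_lt hlt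
  have hne : disc2 a e b f (c + Mo * v) ≠ 0 := by
    intro h
    rw [h, degree_zero] at hdeg
    exact h3 (degree_eq_bot.1 hdeg.symm)
  refine ⟨h1, ?_, hne, ?_⟩
  · intro P hP hi hd' hc
    apply h2 P hP hi hd'
    have hPM : P.natDegree ≤ M := (dvd_MoM hN0 hP hi).1 hd'
    have h5 : P ^ (k + 1) ∣ Mo := (pow_dvd_pow P (by omega)).trans (pow_dvd_MoM hP hi hPM)
    have h6 : disc2 a e b f c = disc2 a e b f (c + Mo * v) - a ^ 6 * (Mo * v) := by rw [hdiff]; ring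
    rw [h6]
    exact dvd_sub hc ((h5.mul_right v).mul_left _)
  · rw [natDegree_eq_of_degree_eq hdeg]
    exact h4

theorem G2_shift {w : F[X] → Wei F → ℂ} {winf : Wei F → ℂ} {M N k d : ℕ}
    (hkN : k < N) (hd : N + (MoM F M N).natDegree ≤ 6 * d + 1)
    (hN : ∀ P ∈ PrM F M, ∀ T T' : Wei F, ¬ P ^ (k + 1) ∣ dwc T → P ^ N ∣ T'.1 - T.1 → P ^ N ∣ T'.2.1 - T.2.1 →
      P ^ N ∣ T'.2.2.1 - T.2.2.1 → P ^ N ∣ T'.2.2.2.1 - T.2.2.2.1 → P ^ N ∣ T'.2.2.2.2 - T.2.2.2.2 → w P T' = w P T)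
    (hNinf : ∀ T T' : Wei F, ¬ X ^ (k + 1) ∣ dwc T → X ^ N ∣ T'.1 - T.1 → X ^ N ∣ T'.2.1 - T.2.1 →
      X ^ N ∣ T'.2.2.1 - T.2.2.1 → X ^ N ∣ T'.2.2.2.1 - T.2.2.2.1 → X ^ N ∣ T'.2.2.2.2 - T.2.2.2.2 →
      winf T' = winf T)
    {a e b f c v : F[X]} (ha : a ∈ PL F (d + 1)) (he : e ∈ PL F (2 * d + 1)) (hb : b ∈ PL F (3 * d + 1))
    (hf : f ∈ PL F (4 * d + 1)) (hc : c ∈ PL F (6 * d + 1))
    (hv : v ∈ PL F (6 * d + 1 - N - (MoM F M N).natDegree)) :
    G2 w winf M N k d a e b f (c + MoM F M N * v) = G2 w winf M N k d a e b f c := by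
  classical
  have hN0 : N ≠ 0 := by omega
  set Mo := MoM F M N with hMo
  have hback : Cond2 Mo k d a e b f (c + Mo * v) → Cond2 Mo k d a e b f c := by
    intro h
    have h1 := cond2_shift (v := -v) hkN hd ha (neg_mem_PL hv) h
    rw [← hMo] at h1
    have h2 : c + Mo * v + Mo * -v = c := by ring
    rwa [h2] at h1
  unfold G2
  rw [← hMo]
  by_cases h : a ≠ 0 ∧ Cond2 Mo k d a e b f c
  · rw [if_pos h, if_pos ⟨h.1, cond2_shift hkN hd ha hv h.2⟩]
    obtain ⟨h0, h1, h2, h3, h4⟩ := h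
    have hT : ((a, e, b, f, c) : Wei F) ∈ Box2 F d := mem_Box2.2 ⟨ha, he, hb, hf, hc⟩
    have hmv : Mo * v ∈ PL F (6 * d + 1 - N) := by
      have := mul_mem_PL (n := Mo.natDegree) (U := Mo) le_rfl hv
      have e : Mo.natDegree + (6 * d + 1 - N - Mo.natDegree) = 6 * d + 1 - N := by omega
      rwa [e] at this
    congr 1
    · apply hNinf
      · rw [dwc_rw2 hT]
        intro h5
        rw [X_pow_dvd_reflect (dwc_mem hT) (by omega)] at h5
        have h6 := natDegree_lt_of_mem_PL h5 h3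
        change (disc2 a e b f c).natDegree < 12 * d + 1 - (k + 1) at h6
        omega
      · unfold rw2
        simp only [sub_self]
        exact dvd_zero _
      · unfold rw2
        simp only [sub_self]
        exact dvd_zero _
      · unfold rw2
        simp only [sub_self]
        exact dvd_zero _
      · unfold rw2
        simp only [sub_self]
        exact dvd_zero _
      · unfold rw2
        simp only
        rw [← reflect_sub, add_sub_cancel_left]
        exact (X_pow_dvd_reflect (PL_mono (by omega) hmv) (by omega)).2 hmv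
    · refine prod_congr rfl fun P hP => ?_
      have hP' := mem_PrM.1 hP
      apply hN P hP
      · exact h2 P hP'.1 hP'.2.1 ((dvd_MoM hN0 hP'.1 hP'.2.1).2 hP'.2.2)
      · simp only [sub_self]
        exact dvd_zero _
      · simp only [sub_self]
        exact dvd_zero _
      · simp only [sub_self]
        exact dvd_zero _
      · simp only [sub_self]
        exact dvd_zero _
      · simp only [add_sub_cancel_left]
        exact (pow_dvd_MoM hP'.1 hP'.2.1 hP'.2.2).mul_right v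
  · rw [if_neg h, if_neg (fun h' => h ⟨h'.1, hback h'.2⟩)]

theorem Wt2_eq {M0 : ℕ} {w : F[X] → Wei F → ℂ} {winf : Wei F → ℂ} (hs : Sys2 M0 w winf) {M N k d : ℕ}
    (hM : M0 ≤ M) (hN0 : N ≠ 0) {a e b f c : F[X]} (ha0 : a ≠ 0) (h : Cond2 (MoM F M N) k d a e b f c) :
    Wt2 M0 w winf d (a, e, b, f, c) =
      G2 w winf M N k d a e b f c * WtM (MoM F M N) (fun P => asy a (a * e + b) P) (disc2 a e b f c) := by
  classical
  unfold Wt2 G2
  rw [if_pos ⟨ha0, h⟩]
  obtain ⟨h1, h2, h3, h4⟩ := h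
  have hd0 : dwc ((a, e, b, f, c) : Wei F) ≠ 0 := h3
  have e1 : ∏ P ∈ PrM F M0 ∪ pr (dwc ((a, e, b, f, c) : Wei F)), w P (a, e, b, f, c) =
      ∏ P ∈ PrM F M ∪ pr (dwc ((a, e, b, f, c) : Wei F)), w P (a, e, b, f, c) := by
    apply prod_subset
    · apply union_subset_union_left
      intro P hP
      rw [mem_PrM] at *
      exact ⟨hP.1, hP.2.1, hP.2.2.trans hM⟩
    · intro P hP hP'
      rw [mem_union, mem_PrM, mem_pr hd0] at hP hP'
      push Not at hP'
      rcases hP with hP | hP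
      · have hdeg : M0 < P.natDegree := by
          by_contra hc
          have := hP'.1 hP.1 hP.2.1
          omega
        exact (hs.std P hP.1 hP.2.1 hdeg _).1 (fun hc => hP'.2 hP.1 hP.2.1 hc)
      · exact absurd hP.2.2 (hP'.2 hP.1 hP.2.1)
  have e2 : PrM F M ∪ pr (dwc ((a, e, b, f, c) : Wei F)) =
      PrM F M ∪ (pr (disc2 a e b f c)).filter (fun P => ¬ P ∣ MoM F M N) := by
    ext P
    rw [mem_union, mem_union, mem_filter, mem_PrM, mem_pr hd0, mem_pr h3]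
    constructor
    · rintro (h | h)
      · exact Or.inl h
      · by_cases h5 : P ∣ MoM F M N
        · exact Or.inl ⟨h.1, h.2.1, (dvd_MoM hN0 h.1 h.2.1).1 h5⟩
        · exact Or.inr ⟨h, h5⟩
    · rintro (h | h)
      · exact Or.inl h
      · exact Or.inr h.1
  have e3 : Disjoint (PrM F M) ((pr (disc2 a e b f c)).filter (fun P => ¬ P ∣ MoM F M N)) := by
    rw [disjoint_left]
    intro P hP hP'
    rw [mem_PrM] at hP
    rw [mem_filter] at hP'
    exact hP'.2 ((dvd_MoM hN0 hP.1 hP.2.1).2 hP.2.2)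
  rw [e1, e2, prod_union e3, ← mul_assoc]
  congr 1
  unfold WtM
  refine prod_congr rfl fun P hP => ?_
  rw [mem_filter, mem_pr h3] at hP
  obtain ⟨⟨hP1, hP2, hP3⟩, hP4⟩ := hP
  have hdeg : M0 < P.natDegree := by
    by_contra hc
    exact hP4 ((dvd_MoM hN0 hP1 hP2).2 (by omega))
  have hPa : ¬ P ∣ a := by
    intro h5
    have h6 : P ∣ b := by
      have h7 : P ∣ b ^ 4 := by
        have h8 : b ^ 4 = disc2 a e b f c - a * (a ^ 5 * c + a ^ 4 * b * f + a ^ 3 * e * b ^ 2 + a ^ 3 * f ^ 2 +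
          a ^ 2 * b ^ 3) := by unfold disc2; ring
        rw [h8]
        exact dvd_sub hP3 (h5.mul_right _)
      exact hP2.prime.dvd_of_dvd_pow h7
    exact hP4 (h1 P hP1 hP2 h5 h6)
  exact (hs.std P hP1 hP2 hdeg _).2 hP3 hPa

open Classical in
/-- the number of exceptional equations -/
theorem card_exc2 {M N j d : ℕ} (hN0 : N ≠ 0) (hj : ∀ P ∈ PrM F M, j * P.natDegree ≤ d + 1) (hj0 : j ≤ d + 1)
    (hj1 : 1 ≤ j) (hd1 : 2 ≤ d) :
    (((Box2 F d).filter (fun T => dwc T ≠ 0 ∧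
      ¬ (T.1 ≠ 0 ∧ Cond2 (MoM F M N) (7 * j - 1) d T.1 T.2.1 T.2.2.1 T.2.2.2.1 T.2.2.2.2))).card : ℝ) ≤
      (Fintype.card F : ℝ) ^ (16 * d + 5) * (((Fintype.card F : ℝ)⁻¹) ^ (d + 1) +
        ((Fintype.card F : ℝ)⁻¹) ^ M + 2 * ((PrM F M).card + 1) * ((Fintype.card F : ℝ)⁻¹) ^ j) := by
  set q : ℝ := (Fintype.card F : ℝ) with hq
  have hq2 : 2 ≤ q := two_le_q
  have hq0 : q ≠ 0 := by positivity
  have hk : 7 * j - 1 + 1 = 7 * j := by omega
  have hsub : (Box2 F d).filter (fun T => dwc T ≠ 0 ∧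
      ¬ (T.1 ≠ 0 ∧ Cond2 (MoM F M N) (7 * j - 1) d T.1 T.2.1 T.2.2.1 T.2.2.2.1 T.2.2.2.2)) ⊆
      (({0} : Finset F[X]) ×ˢ (PL F (2 * d + 1) ×ˢ (PL F (3 * d + 1) ×ˢ (PL F (4 * d + 1) ×ˢ PL F (6 * d + 1))))) ∪
      ((((PL F (d + 1) ×ˢ PL F (3 * d + 1)).filter (fun x => x.1 ≠ 0 ∧ ∃ P : F[X], P.Monic ∧ Irreducible P ∧
        M < P.natDegree ∧ P ∣ x.1 ∧ P ∣ x.2)) ×ˢ (PL F (2 * d + 1) ×ˢ (PL F (4 * d + 1) ×ˢ PL F (6 * d + 1)))).image
        (fun y => (y.1.1, y.2.1, y.1.2, y.2.2.1, y.2.2.2))) ∪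
      ((PrM F M).biUnion (fun P => (Box2 F d).filter (fun T => P ^ (7 * j) ∣ dwc T)) ∪
      (Box2 F d).filter (fun T => X ^ (7 * j) ∣ dwc (rw2 d T))) := by
    intro T hT
    rw [mem_filter] at hT
    obtain ⟨hT1, hT2, hT3⟩ := hT
    have hT1' := mem_Box2.1 hT1
    rw [mem_union, mem_union, mem_union]
    by_cases h0 : T.1 = 0
    · left; left
      rw [mem_product, mem_product, mem_product, mem_product, mem_singleton]
      exact ⟨h0, hT1'.2⟩
    · have h1 : ¬ Cond2 (MoM F M N) (7 * j - 1) d T.1 T.2.1 T.2.2.1 T.2.2.2.1 T.2.2.2.2 := fun h => hT3 ⟨h0, h⟩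
      by_cases h2 : ∃ P : F[X], P.Monic ∧ Irreducible P ∧ M < P.natDegree ∧ P ∣ T.1 ∧ P ∣ T.2.2.1
      · left; right
        rw [mem_image]
        refine ⟨((T.1, T.2.2.1), T.2.1, T.2.2.2.1, T.2.2.2.2), ?_, rfl⟩
        rw [mem_product, mem_filter, mem_product, mem_product, mem_product]
        exact ⟨⟨⟨hT1'.1, hT1'.2.2.1⟩, h0, h2⟩, hT1'.2.1, hT1'.2.2.2⟩
      · right
        by_cases h3 : ∃ P ∈ PrM F M, P ^ (7 * j) ∣ dwc T
        · left
          obtain ⟨P, hP, hd⟩ := h3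
          rw [mem_biUnion]
          exact ⟨P, hP, by rw [mem_filter]; exact ⟨hT1, hd⟩⟩
        · right
          rw [mem_filter]
          refine ⟨hT1, ?_⟩
          rw [dwc_rw2 hT1, X_pow_dvd_reflect (dwc_mem hT1) (by omega)]
          by_contra hc
          apply h1
          refine ⟨?_, ?_, hT2, ?_⟩
          · intro P hP hi hda hdb
            rw [dvd_MoM hN0 hP hi]
            by_contra hdeg
            exact h2 ⟨P, hP, hi, by omega, hda, hdb⟩
          · intro P hP hi hd hd'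
            rw [hk] at hd'
            exact h3 ⟨P, mem_PrM.2 ⟨hP, hi, (dvd_MoM hN0 hP hi).1 hd⟩, hd'⟩
          · by_contra hdeg
            apply hc
            apply mem_PL_of_natDegree
            change (disc2 T.1 T.2.1 T.2.2.1 T.2.2.2.1 T.2.2.2.2).natDegree < _
            omega
  have c1 : ((({0} : Finset F[X]) ×ˢ (PL F (2 * d + 1) ×ˢ (PL F (3 * d + 1) ×ˢ (PL F (4 * d + 1) ×ˢ
      PL F (6 * d + 1))))).card : ℝ) = q ^ (16 * d + 5) * (q⁻¹) ^ (d + 1) := by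
    rw [card_product, card_product, card_product, card_product, card_PL, card_PL, card_PL, card_PL, card_singleton]
    push_cast
    rw [← hq, one_mul, ← pow_add, ← pow_add, ← pow_add, inv_pow]
    have : q ^ (16 * d + 5) = q ^ (2 * d + 1 + (3 * d + 1 + (4 * d + 1 + (6 * d + 1)))) * q ^ (d + 1) := by
      rw [← pow_add]; congr 1; omega
    rw [this]
    field_simp
  have c2 : (((((PL F (d + 1) ×ˢ PL F (3 * d + 1)).filter (fun x => x.1 ≠ 0 ∧ ∃ P : F[X], P.Monic ∧ Irreducible P ∧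
        M < P.natDegree ∧ P ∣ x.1 ∧ P ∣ x.2)) ×ˢ (PL F (2 * d + 1) ×ˢ (PL F (4 * d + 1) ×ˢ PL F (6 * d + 1)))).image
        (fun y => (y.1.1, y.2.1, y.1.2, y.2.2.1, y.2.2.2))).card : ℝ) ≤ q ^ (16 * d + 5) * (q⁻¹) ^ M := by
    refine le_trans (Nat.cast_le.2 card_image_le) ?_
    rw [card_product, card_product, card_product, card_PL, card_PL, card_PL]
    push_cast
    have h1 := card_common (F := F) M (d + 1) (3 * d + 1) (by omega)
    rw [← hq] at h1 ⊢
    refine (mul_le_mul_of_nonneg_right h1 (by positivity)).trans (le_of_eq ?_)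
    have : q ^ (16 * d + 5) = q ^ (d + 1 + (3 * d + 1)) * (q ^ (2 * d + 1) * (q ^ (4 * d + 1) * q ^ (6 * d + 1))) := by
      rw [← pow_add, ← pow_add, ← pow_add]; congr 1; omega
    rw [this]
    ring
  have c3 : (((PrM F M).biUnion (fun P => (Box2 F d).filter (fun T => P ^ (7 * j) ∣ dwc T))).card : ℝ) ≤
      (PrM F M).card * (2 * (q ^ (16 * d + 5) * (q⁻¹) ^ j)) := by
    refine le_trans (Nat.cast_le.2 card_biUnion_le) ?_
    push_cast
    refine (sum_le_card_nsmul _ _ (2 * (q ^ (16 * d + 5) * (q⁻¹) ^ j)) (fun P hP => ?_)).trans (le_of_eq ?_)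
    · exact card_pow_dvd2 (mem_PrM.1 hP).2.1 (hj P hP)
    · rw [nsmul_eq_mul]
  have c4 := card_pow_dvd2_inf (F := F) hj0
  rw [← hq] at c4
  have c5 := (card_le_card hsub).trans ((card_union_le _ _).trans (add_le_add (card_union_le _ _) (card_union_le _ _)))
  have c6 : (((Box2 F d).filter (fun T => dwc T ≠ 0 ∧
      ¬ (T.1 ≠ 0 ∧ Cond2 (MoM F M N) (7 * j - 1) d T.1 T.2.1 T.2.2.1 T.2.2.2.1 T.2.2.2.2))).card : ℝ) ≤ _ :=
    Nat.cast_le.2 c5
  refine c6.trans ?_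
  push_cast
  rw [c1]
  calc _ ≤ q ^ (16 * d + 5) * (q⁻¹) ^ (d + 1) + q ^ (16 * d + 5) * (q⁻¹) ^ M +
        ((PrM F M).card * (2 * (q ^ (16 * d + 5) * (q⁻¹) ^ j)) + 2 * (q ^ (16 * d + 5) * (q⁻¹) ^ j)) :=
        add_le_add (add_le_add le_rfl c2) (add_le_add c3 c4)
    _ = _ := by ring

end Pool.Agent.H456.RN
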