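import Pool.Agent.H456.RN.Cls

/-!
# Nonminimality at a prime, degrees and the equation at infinity
-/

open Polynomial WeierstrassCurve

namespace Pool.Agent.H456.EC

section

variable {F : Type} [Field F]

/-- the equation is not minimal at `P` -/
def NonMin (P : F[X]) (W : WeierstrassCurve F[X]) : Prop :=
  ∃ (r s t : F[X]) (V : WeierstrassCurve F[X]), tr r s t • W = sc P V

theorem exists_sc_iff {P : F[X]} {W : WeierstrassCurve F[X]} :
    (∃ V, W = sc P V) ↔ P ∣ W.a₁ ∧ P ^ 2 ∣ W.a₂ ∧ P ^ 3 ∣ W.a₃ ∧ P ^ 4 ∣ W.a₄ ∧ P ^ 6 ∣ W.a₆ := by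
  constructor
  · rintro ⟨V, rfl⟩
    exact ⟨⟨_, rfl⟩, ⟨_, rfl⟩, ⟨_, rfl⟩, ⟨_, rfl⟩, ⟨_, rfl⟩⟩
  · rintro ⟨⟨b1, h1⟩, ⟨b2, h2⟩, ⟨b3, h3⟩, ⟨b4, h4⟩, ⟨b6, h6⟩⟩
    exact ⟨⟨b1, b2, b3, b4, b6⟩, by ext1 <;> simp [sc, h1, h2, h3, h4, h6]⟩

theorem cong_tr {m : F[X]} {W W' : WeierstrassCurve F[X]} (r s t : F[X]) (h : Cong m W W') :
    Cong m (tr r s t • W) (tr r s t • W') := by
  obtain ⟨⟨b1, h1⟩, ⟨b2, h2⟩, ⟨b3, h3⟩, ⟨b4, h4⟩, ⟨b6, h6⟩⟩ := h
  refine ⟨⟨b1, ?_⟩, ⟨b2 - s * b1, ?_⟩, ⟨b3 + r * b1, ?_⟩, ⟨b4 - s * b3 + 2 * r * b2 - (t + r * s) * b1, ?_⟩,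
    ⟨b6 + r * b4 + r ^ 2 * b2 - t * b3 - r * t * b1, ?_⟩⟩
  · rw [tr_a₁, tr_a₁]; linear_combination h1
  · rw [tr_a₂, tr_a₂]; linear_combination h2 - s * h1
  · rw [tr_a₃, tr_a₃]; linear_combination h3 + r * h1
  · rw [tr_a₄, tr_a₄]; linear_combination h4 - s * h3 + 2 * r * h2 - (t + r * s) * h1
  · rw [tr_a₆, tr_a₆]; linear_combination h6 + r * h4 + r ^ 2 * h2 - t * h3 - r * t * h1

theorem cong_symm {m : F[X]} {W W' : WeierstrassCurve F[X]} (h : Cong m W W') : Cong m W' W := by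
  obtain ⟨h1, h2, h3, h4, h6⟩ := h
  exact ⟨dvd_sub_comm.1 h1, dvd_sub_comm.1 h2, dvd_sub_comm.1 h3, dvd_sub_comm.1 h4, dvd_sub_comm.1 h6⟩

theorem cong_mono {m n : F[X]} (hmn : m ∣ n) {W W' : WeierstrassCurve F[X]} (h : Cong n W W') : Cong m W W' := by
  obtain ⟨h1, h2, h3, h4, h6⟩ := h
  exact ⟨hmn.trans h1, hmn.trans h2, hmn.trans h3, hmn.trans h4, hmn.trans h6⟩

theorem cong_sc_exists {P : F[X]} {W W' : WeierstrassCurve F[X]} (h : Cong (P ^ 6) W W')
    (h' : ∃ V, W = sc P V) : ∃ V, W' = sc P V := by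
  rw [exists_sc_iff] at *
  obtain ⟨h1, h2, h3, h4, h6⟩ := h
  obtain ⟨k1, k2, k3, k4, k6⟩ := h'
  have e : ∀ j : ℕ, j ≤ 6 → P ^ j ∣ P ^ 6 := fun j hj => pow_dvd_pow P hj
  have e1 := e 1 (by norm_num)
  rw [pow_one] at e1
  refine ⟨?_, ?_, ?_, ?_, ?_⟩
  · have := dvd_add (e1.trans h1) k1; rwa [sub_add_cancel] at this
  · have := dvd_add ((e 2 (by norm_num)).trans h2) k2; rwa [sub_add_cancel] at this
  · have := dvd_add ((e 3 (by norm_num)).trans h3) k3; rwa [sub_add_cancel] at this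
  · have := dvd_add ((e 4 (by norm_num)).trans h4) k4; rwa [sub_add_cancel] at this
  · have := dvd_add h6 k6; rwa [sub_add_cancel] at this

theorem nonmin_cong {P : F[X]} {W W' : WeierstrassCurve F[X]} (h : Cong (P ^ 6) W W') (h' : NonMin P W) :
    NonMin P W' := by
  obtain ⟨r, s, t, V, hV⟩ := h'
  obtain ⟨V', hV'⟩ := cong_sc_exists (cong_tr r s t h) ⟨V, hV⟩
  exact ⟨r, s, t, V', hV'⟩

theorem nonmin_cong_iff {P : F[X]} {W W' : WeierstrassCurve F[X]} (h : Cong (P ^ 6) W W') :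
    NonMin P W ↔ NonMin P W' := ⟨nonmin_cong h, nonmin_cong (cong_symm h)⟩

theorem nonmin_Δ {P : F[X]} {W : WeierstrassCurve F[X]} (h : NonMin P W) : P ^ 12 ∣ W.Δ := by
  obtain ⟨r, s, t, V, hV⟩ := h
  have := congrArg WeierstrassCurve.Δ hV
  rw [tr_Δ, sc_Δ] at this
  exact ⟨_, this⟩

theorem nonmin_c₄ {P : F[X]} {W : WeierstrassCurve F[X]} (h : NonMin P W) : P ^ 4 ∣ W.c₄ := by
  obtain ⟨r, s, t, V, hV⟩ := h
  have := congrArg WeierstrassCurve.c₄ hV
  rw [tr_c₄, sc_c₄] at this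
  exact ⟨_, this⟩

theorem nonmin_of_tr {P : F[X]} {W : WeierstrassCurve F[X]} {r s t : F[X]} (h : NonMin P (tr r s t • W)) :
    NonMin P W := by
  obtain ⟨r', s', t', V, hV⟩ := h
  rw [tr_tr] at hV
  exact ⟨_, _, _, V, hV⟩

theorem nonmin_tr_iff {P : F[X]} {W : WeierstrassCurve F[X]} {r s t : F[X]} :
    NonMin P (tr r s t • W) ↔ NonMin P W := by
  constructor
  · exact nonmin_of_tr
  · intro h
    rw [← tr_neg W r s t] at h
    exact nonmin_of_tr h

theorem nonmin_sc {P : F[X]} {W : WeierstrassCurve F[X]} {h : F[X]} (h' : NonMin P W) : NonMin P (sc h W) := by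
  obtain ⟨r, s, t, V, hV⟩ := h'
  refine ⟨h ^ 2 * r, h * s, h ^ 3 * t, sc h V, ?_⟩
  rw [sc_tr, hV, sc_sc, sc_sc, mul_comm]

theorem nonmin_smul_iff {P : F[X]} {W : WeierstrassCurve F[X]} (C : VariableChange F[X]) :
    NonMin P (C • W) ↔ NonMin P W := by
  constructor
  · intro h
    rw [smul_eq] at h
    have h1 := nonmin_sc (h := (C.u : F[X])) h
    rw [sc_sc, Units.mul_inv, sc_one] at h1
    exact nonmin_of_tr h1
  · intro h
    rw [smul_eq]
    exact nonmin_sc (nonmin_tr_iff.2 h)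

theorem nonmin_of_isom {P : F[X]} {W V : WeierstrassCurve F[X]} {α β r s t : F[X]}
    (hc : IsCoprime α β) (hP : P ∣ α) (h : tr r s t • sc β W = sc α V) : NonMin P W := by
  have h1 : IsCoprime β (P ^ 6) := by
    apply IsCoprime.pow_right
    exact (hc.of_isCoprime_of_dvd_left hP).symm
  obtain ⟨γ, δ, hγ⟩ := h1
  obtain ⟨α', hα'⟩ := hP
  have h2 : tr (γ ^ 2 * r) (γ * s) (γ ^ 3 * t) • sc (γ * β) W = sc P (sc (γ * α') V) := by
    rw [← sc_sc, sc_tr, h, sc_sc, sc_sc, hα']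
    congr 1
    ring
  have h3 : NonMin P (sc (γ * β) W) := ⟨_, _, _, _, h2⟩
  refine nonmin_cong ?_ h3
  have e : ∀ j : ℕ, ∀ x : F[X], P ^ 6 ∣ x - (γ * β) ^ j * x := by
    intro j x
    have h4 : γ * β - 1 ∣ (γ * β) ^ j - 1 := sub_one_dvd_pow_sub_one _ _
    have h5 : P ^ 6 ∣ γ * β - 1 := ⟨-δ, by linear_combination hγ⟩
    have h6 := (h5.trans h4).mul_left (-x)
    have h7 : -x * ((γ * β) ^ j - 1) = x - (γ * β) ^ j * x := by ring
    rwa [h7] at h6
  have e1 := e 1 W.a₁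
  rw [pow_one] at e1
  exact ⟨e1, e 2 _, e 3 _, e 4 _, e 6 _⟩

/-! ### degrees -/

theorem dg_mono {d e : ℕ} (hde : d ≤ e) {W : WeierstrassCurve F[X]} (h : Dg d W) : Dg e W := by
  obtain ⟨h1, h2, h3, h4, h6⟩ := h
  exact ⟨by omega, by omega, by omega, by omega, by omega⟩

theorem dg_b₂ {d : ℕ} {W : WeierstrassCurve F[X]} (h : Dg d W) : W.b₂.natDegree ≤ 2 * d := by
  obtain ⟨h1, h2, h3, h4, h6⟩ := h
  unfold b₂
  have e4 : (4 : F[X]) = C 4 := (map_ofNat C 4).symm
  rw [e4]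
  refine (natDegree_add_le _ _).trans (max_le ?_ ?_)
  · exact natDegree_pow_le.trans (by omega)
  · exact (natDegree_C_mul_le _ _).trans h2

theorem dg_b₄ {d : ℕ} {W : WeierstrassCurve F[X]} (h : Dg d W) : W.b₄.natDegree ≤ 4 * d := by
  obtain ⟨h1, h2, h3, h4, h6⟩ := h
  unfold b₄
  have e2 : (2 : F[X]) = C 2 := (map_ofNat C 2).symm
  rw [e2]
  refine (natDegree_add_le _ _).trans (max_le ?_ ?_)
  · exact (natDegree_C_mul_le _ _).trans h4
  · exact natDegree_mul_le.trans (by omega)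

theorem dg_b₆ {d : ℕ} {W : WeierstrassCurve F[X]} (h : Dg d W) : W.b₆.natDegree ≤ 6 * d := by
  obtain ⟨h1, h2, h3, h4, h6⟩ := h
  unfold b₆
  have e4 : (4 : F[X]) = C 4 := (map_ofNat C 4).symm
  rw [e4]
  refine (natDegree_add_le _ _).trans (max_le ?_ ?_)
  · exact natDegree_pow_le.trans (by omega)
  · exact (natDegree_C_mul_le _ _).trans h6

theorem dg_b₈ {d : ℕ} {W : WeierstrassCurve F[X]} (h : Dg d W) : W.b₈.natDegree ≤ 8 * d := by
  obtain ⟨h1, h2, h3, h4, h6⟩ := h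
  unfold b₈
  have e4 : (4 : F[X]) = C 4 := (map_ofNat C 4).symm
  rw [e4]
  refine (natDegree_sub_le _ _).trans (max_le ((natDegree_add_le _ _).trans (max_le ((natDegree_sub_le _ _).trans
    (max_le ((natDegree_add_le _ _).trans (max_le ?_ ?_)) ?_)) ?_)) ?_)
  · refine natDegree_mul_le.trans ?_
    have := natDegree_pow_le (p := W.a₁) (n := 2)
    omega
  · refine natDegree_mul_le.trans ?_
    have := natDegree_C_mul_le (4 : F) W.a₂
    omega
  · refine natDegree_mul_le.trans ?_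
    have := natDegree_mul_le (p := W.a₁) (q := W.a₃)
    omega
  · refine natDegree_mul_le.trans ?_
    have := natDegree_pow_le (p := W.a₃) (n := 2)
    omega
  · have := natDegree_pow_le (p := W.a₄) (n := 2)
    omega

theorem dg_tr {d : ℕ} {W : WeierstrassCurve F[X]} (h : Dg d W) {r s t : F[X]} (hr : r.natDegree ≤ 2 * d)
    (hs : s.natDegree ≤ d) (ht : t.natDegree ≤ 3 * d) : Dg d (tr r s t • W) := by
  obtain ⟨h1, h2, h3, h4, h6⟩ := h
  have e2 : (2 : F[X]) = C 2 := (map_ofNat C 2).symm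
  have e3 : (3 : F[X]) = C 3 := (map_ofNat C 3).symm
  refine ⟨?_, ?_, ?_, ?_, ?_⟩
  · rw [tr_a₁, e2]
    exact (natDegree_add_le _ _).trans (max_le h1 ((natDegree_C_mul_le _ _).trans hs))
  · rw [tr_a₂, e3]
    refine (natDegree_sub_le _ _).trans (max_le ((natDegree_add_le _ _).trans (max_le ((natDegree_sub_le _ _).trans
      (max_le h2 ?_)) ?_)) ?_)
    · exact natDegree_mul_le.trans (by omega)
    · exact (natDegree_C_mul_le _ _).trans hr
    · exact natDegree_pow_le.trans (by omega)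
  · rw [tr_a₃, e2]
    refine (natDegree_add_le _ _).trans (max_le ((natDegree_add_le _ _).trans (max_le h3 ?_)) ?_)
    · exact natDegree_mul_le.trans (by omega)
    · exact (natDegree_C_mul_le _ _).trans ht
  · rw [tr_a₄, e2, e3]
    refine (natDegree_sub_le _ _).trans (max_le ((natDegree_add_le _ _).trans (max_le ((natDegree_sub_le _ _).trans
      (max_le ((natDegree_add_le _ _).trans (max_le ((natDegree_sub_le _ _).trans
      (max_le h4 ?_)) ?_)) ?_)) ?_)) ?_)
    · exact natDegree_mul_le.trans (by omega)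
    · refine natDegree_mul_le.trans ?_
      have := natDegree_C_mul_le (2 : F) r
      omega
    · refine natDegree_mul_le.trans ?_
      have : (t + r * s).natDegree ≤ 3 * d :=
        (natDegree_add_le _ _).trans (max_le ht (natDegree_mul_le.trans (by omega)))
      omega
    · exact (natDegree_C_mul_le _ _).trans (natDegree_pow_le.trans (by omega))
    · refine natDegree_mul_le.trans ?_
      have := natDegree_C_mul_le (2 : F) s
      omega
  · rw [tr_a₆]
    refine (natDegree_sub_le _ _).trans (max_le ((natDegree_sub_le _ _).trans (max_le ((natDegree_sub_le _ _).trans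
      (max_le ((natDegree_add_le _ _).trans (max_le ((natDegree_add_le _ _).trans (max_le
      ((natDegree_add_le _ _).trans (max_le h6 ?_)) ?_)) ?_)) ?_)) ?_)) ?_)
    · exact natDegree_mul_le.trans (by omega)
    · refine natDegree_mul_le.trans ?_
      have := natDegree_pow_le (p := r) (n := 2)
      omega
    · exact natDegree_pow_le.trans (by omega)
    · exact natDegree_mul_le.trans (by omega)
    · exact natDegree_pow_le.trans (by omega)
    · refine natDegree_mul_le.trans ?_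
      have := natDegree_mul_le (p := r) (q := t)
      omega

/-- a translation between equations of bounded degrees has bounded degrees -/
theorem tr_degree {d : ℕ} {W V : WeierstrassCurve F[X]} (hW : Dg d W) (hV : Dg d V) {r s t : F[X]}
    (h : tr r s t • W = V) : r.natDegree ≤ 2 * d ∧ s.natDegree ≤ d ∧ t.natDegree ≤ 3 * d := by
  have h6 := congrArg WeierstrassCurve.b₆ h
  have h8 := congrArg WeierstrassCurve.b₈ h
  have k2 := congrArg WeierstrassCurve.a₂ h
  have k6 := congrArg WeierstrassCurve.a₆ h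
  rw [tr_b₆] at h6
  rw [tr_b₈] at h8
  rw [tr_a₂] at k2
  rw [tr_a₆] at k6
  have e2 : (2 : F[X]) = C 2 := (map_ofNat C 2).symm
  have e3 : (3 : F[X]) = C 3 := (map_ofNat C 3).symm
  have hr : r.natDegree ≤ 2 * d := by
    by_contra hc
    push Not at hc
    have e : r ^ 4 = W.b₄ * r ^ 2 + (2 * W.b₆ + V.b₆) * r - (V.b₈ - W.b₈) := by
      linear_combination r * h6 - h8
    have l : (r ^ 4).natDegree = 4 * r.natDegree := natDegree_pow _ _
    have u : (W.b₄ * r ^ 2 + (2 * W.b₆ + V.b₆) * r - (V.b₈ - W.b₈)).natDegree ≤ 4 * r.natDegree - 1 := by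
      refine (natDegree_sub_le _ _).trans (max_le ((natDegree_add_le _ _).trans (max_le ?_ ?_)) ?_)
      · refine natDegree_mul_le.trans ?_
        have h1 := natDegree_pow_le (p := r) (n := 2)
        have h2 := dg_b₄ hW
        omega
      · refine natDegree_mul_le.trans ?_
        have h1 : (2 * W.b₆ + V.b₆).natDegree ≤ 6 * d := by
          rw [e2]
          exact (natDegree_add_le _ _).trans (max_le ((natDegree_C_mul_le _ _).trans (dg_b₆ hW)) (dg_b₆ hV))
        omega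
      · refine (natDegree_sub_le _ _).trans (max_le ?_ ?_)
        · have := dg_b₈ hV; omega
        · have := dg_b₈ hW; omega
    rw [← e, l] at u
    omega
  have hs : s.natDegree ≤ d := by
    by_contra hc
    push Not at hc
    have e : s ^ 2 = W.a₂ - s * W.a₁ + 3 * r - V.a₂ := by
      linear_combination -k2
    have l : (s ^ 2).natDegree = 2 * s.natDegree := natDegree_pow _ _
    have u : (W.a₂ - s * W.a₁ + 3 * r - V.a₂).natDegree ≤ 2 * s.natDegree - 1 := by
      obtain ⟨h1, h2, h3, h4, h6⟩ := hW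
      obtain ⟨g1, g2, g3, g4, g6⟩ := hV
      rw [e3]
      refine (natDegree_sub_le _ _).trans (max_le ((natDegree_add_le _ _).trans (max_le ((natDegree_sub_le _ _).trans
        (max_le ?_ ?_)) ?_)) ?_)
      · omega
      · exact natDegree_mul_le.trans (by omega)
      · exact (natDegree_C_mul_le _ _).trans (by omega)
      · omega
    rw [← e, l] at u
    omega
  refine ⟨hr, hs, ?_⟩
  by_contra hc
  push Not at hc
  have e : t ^ 2 = W.a₆ + r * W.a₄ + r ^ 2 * W.a₂ + r ^ 3 - t * W.a₃ - r * t * W.a₁ - V.a₆ := by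
    linear_combination -k6
  have l : (t ^ 2).natDegree = 2 * t.natDegree := natDegree_pow _ _
  have u : (W.a₆ + r * W.a₄ + r ^ 2 * W.a₂ + r ^ 3 - t * W.a₃ - r * t * W.a₁ - V.a₆).natDegree ≤
      2 * t.natDegree - 1 := by
    obtain ⟨h1, h2, h3, h4, h6⟩ := hW
    obtain ⟨g1, g2, g3, g4, g6⟩ := hV
    refine (natDegree_sub_le _ _).trans (max_le ((natDegree_sub_le _ _).trans (max_le ((natDegree_sub_le _ _).trans
      (max_le ((natDegree_add_le _ _).trans (max_le ((natDegree_add_le _ _).trans (max_le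
      ((natDegree_add_le _ _).trans (max_le ?_ ?_)) ?_)) ?_)) ?_)) ?_)) ?_)
    · omega
    · exact natDegree_mul_le.trans (by omega)
    · refine natDegree_mul_le.trans ?_
      have := natDegree_pow_le (p := r) (n := 2)
      omega
    · exact natDegree_pow_le.trans (by omega)
    · exact natDegree_mul_le.trans (by omega)
    · refine natDegree_mul_le.trans ?_
      have := natDegree_mul_le (p := r) (q := t)
      omega
    · omega
  rw [← e, l] at u
  omega

theorem dg_sc {d m : ℕ} {h : F[X]} (hm : h.natDegree ≤ m) {W : WeierstrassCurve F[X]} (hW : Dg d W) :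
    Dg (d + m) (sc h W) := by
  obtain ⟨h1, h2, h3, h4, h6⟩ := hW
  have e : ∀ (j : ℕ) (x : F[X]), (h ^ j * x).natDegree ≤ j * m + x.natDegree := by
    intro j x
    refine natDegree_mul_le.trans ?_
    have := natDegree_pow_le (p := h) (n := j)
    have := Nat.mul_le_mul_left j hm
    omega
  have e1 := e 1 W.a₁
  rw [pow_one] at e1
  have e2 := e 2 W.a₂
  have e3 := e 3 W.a₃
  have e4 := e 4 W.a₄
  have e6 := e 6 W.a₆
  refine ⟨?_, ?_, ?_, ?_, ?_⟩ <;> simp only [sc] <;> omega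

theorem dg_of_sc {d m : ℕ} {h : F[X]} (hh : h ≠ 0) (hm : m ≤ h.natDegree) {W : WeierstrassCurve F[X]}
    (hW : Dg (d + m) (sc h W)) : Dg d W := by
  obtain ⟨h1, h2, h3, h4, h6⟩ := hW
  have e : ∀ (j : ℕ) (x : F[X]), x ≠ 0 → (h ^ j * x).natDegree = j * h.natDegree + x.natDegree := by
    intro j x hx
    rw [natDegree_mul (pow_ne_zero _ hh) hx, natDegree_pow]
  have e' : ∀ (j : ℕ) (x : F[X]), (h ^ j * x).natDegree ≤ j * (d + m) → x.natDegree ≤ j * d := by
    intro j x hx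
    by_cases h0 : x = 0
    · rw [h0, natDegree_zero]; exact Nat.zero_le _
    · rw [e j x h0, mul_add] at hx
      have := Nat.mul_le_mul_left j hm
      omega
  simp only [sc] at h1 h2 h3 h4 h6
  have f1 := e' 1 W.a₁
  rw [pow_one] at f1
  refine ⟨?_, e' 2 _ h2, e' 3 _ h3, e' 4 _ h4, e' 6 _ h6⟩
  have := f1 (by omega)
  omega

theorem dg_Δ {d : ℕ} {W : WeierstrassCurve F[X]} (h : Dg d W) : W.Δ.natDegree ≤ 12 * d := by
  have h2 := dg_b₂ h
  have h4 := dg_b₄ h
  have h6 := dg_b₆ h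
  have h8 := dg_b₈ h
  unfold Δ
  have e8 : (8 : F[X]) = C 8 := (map_ofNat C 8).symm
  have e9 : (9 : F[X]) = C 9 := (map_ofNat C 9).symm
  have e27 : (27 : F[X]) = C 27 := (map_ofNat C 27).symm
  rw [e8, e9, e27]
  refine (natDegree_add_le _ _).trans (max_le ((natDegree_sub_le _ _).trans (max_le ((natDegree_sub_le _ _).trans
    (max_le ?_ ?_)) ?_)) ?_)
  · refine natDegree_mul_le.trans ?_
    rw [natDegree_neg]
    have := natDegree_pow_le (p := W.b₂) (n := 2)
    omega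
  · refine (natDegree_C_mul_le _ _).trans ?_
    have := natDegree_pow_le (p := W.b₄) (n := 3)
    omega
  · refine (natDegree_C_mul_le _ _).trans ?_
    have := natDegree_pow_le (p := W.b₆) (n := 2)
    omega
  · refine natDegree_mul_le.trans ?_
    have h1 := natDegree_mul_le (p := C (9 : F) * W.b₂) (q := W.b₄)
    have h2 := natDegree_C_mul_le (9 : F) W.b₂
    omega

end

end Pool.Agent.H456.EC
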