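import Pool.Agent.H456.RN.PL

/-!
# The classes are progressions
-/

set_option autoImplicit false
set_option linter.all false
set_option maxHeartbeats 1000000

open Finset Polynomial ComplexConjugate
open Pool.Agent.H341R2.Sharp (Mon mem_Mon)
open Pool.Agent.Q284.PS Pool.Agent.Q53.PS

namespace Pool.Agent.H456.RN

variable {F : Type} [Field F]

theorem eqv_iff {Q f g : F[X]} {n l : ℕ} (hfn : f.natDegree = n) (hgn : g.natDegree = n) (hl : l ≤ n) :
    Eqv Q l f g ↔ Q ∣ f - g ∧ (f - g).degree < ((n - l : ℕ) : WithBot ℕ) := by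
  unfold Eqv
  refine and_congr Iff.rfl ?_
  rw [X_pow_dvd_iff, degree_lt_iff_coeff_zero]
  constructor
  · intro h m hm
    by_cases h1 : n < m
    · rw [coeff_sub, coeff_eq_zero_of_natDegree_lt (by omega), coeff_eq_zero_of_natDegree_lt (by omega), sub_zero]
    · have h2 := h (n - m) (by omega)
      rw [coeff_sub, coeff_reverse, coeff_reverse, hfn, hgn, revAt_le (by omega)] at h2
      rw [coeff_sub]
      have h3 : n - (n - m) = m := by omega
      rw [h3] at h2
      exact h2
  · intro h j hj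
    rw [coeff_sub, coeff_reverse, coeff_reverse, hfn, hgn, revAt_le (by omega), ← coeff_sub]
    exact h _ (by omega)

variable [Fintype F]

theorem add_PL_monic {Q g e : F[X]} {n h : ℕ} (hg : g.Monic) (hgn : g.natDegree = n)
    (hn : Q.natDegree + h ≤ n) (he : e ∈ PL F h) : (g + Q * e).Monic ∧ (g + Q * e).natDegree = n := by
  have h1 : (Q * e).degree < g.degree := by
    have h2 := mul_mem_PL (n := Q.natDegree) le_rfl he
    rw [mem_PL] at h2
    refine h2.trans_le ?_
    rw [degree_eq_natDegree hg.ne_zero, hgn]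
    exact_mod_cast hn
  exact ⟨hg.add_of_left h1, by rw [natDegree_add_eq_left_of_degree_lt h1, hgn]⟩

theorem SC_eq {Q g : F[X]} (hQ : Q.Monic) {n h l : ℕ} (hn : n = Q.natDegree + h + l) (hg : g.Monic)
    (hgn : g.natDegree = n) (H : F[X] → ℂ) : SC Q l n H g = ∑ e ∈ PL F h, H (g + Q * e) := by
  classical
  unfold SC
  symm
  refine sum_bij (fun e _ => g + Q * e) ?_ ?_ ?_ ?_
  · intro e he
    obtain ⟨h1, h2⟩ := add_PL_monic (Q := Q) (h := h) hg hgn (by omega) he
    rw [mem_filter, mem_Mon]
    refine ⟨⟨h1, h2⟩, ?_⟩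
    rw [eqv_iff h2 hgn (by omega), add_sub_cancel_left]
    refine ⟨dvd_mul_right _ _, ?_⟩
    have h3 := mul_mem_PL (n := Q.natDegree) le_rfl he
    rw [mem_PL] at h3
    have h4 : n - l = Q.natDegree + h := by omega
    rw [h4]
    exact h3
  · intro e he e' he' hee
    exact mul_left_cancel₀ hQ.ne_zero (add_left_cancel hee)
  · intro f hf
    rw [mem_filter, mem_Mon] at hf
    obtain ⟨⟨h1, h2⟩, h3⟩ := hf
    rw [eqv_iff h2 hgn (by omega)] at h3
    obtain ⟨⟨e, he⟩, h4⟩ := h3
    refine ⟨e, ?_, ?_⟩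
    · rw [mem_PL]
      by_cases h0 : e = 0
      · rw [h0, degree_zero]; exact WithBot.bot_lt_coe _
      · rw [he, degree_mul, degree_eq_natDegree hQ.ne_zero, degree_eq_natDegree h0] at h4
        rw [degree_eq_natDegree h0]
        have h5 : Q.natDegree + e.natDegree < n - l := by exact_mod_cast h4
        exact_mod_cast (by omega : e.natDegree < h)
    · rw [← he]; ring
  · intro e _
    rfl

end Pool.Agent.H456.RN
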