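import Pool.Agent.H456.RN.SS3c
import Pool.Agent.H456.RN.Lim2

/-!
# Characteristic two: semistable equations, with a power saving
-/

set_option autoImplicit false
set_option linter.all false
set_option maxHeartbeats 2000000

open Finset Polynomial ComplexConjugate
open Pool.Agent.H341R2.Sharp (Mon mem_Mon lam)
open Pool.Agent.Q284.PS Pool.Agent.Q53.PS Pool.Agent.Q68.PS

namespace Pool.Agent.H456.RN

variable {F : Type} [Field F] [Fintype F]

/-- semistable equations -/
def SSt2 (d : ℕ) (T : Wei F) : Prop := dwc T ≠ 0 ∧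
  (∀ P : F[X], P.Monic → Irreducible P → P ∣ dwc T → ¬ P ∣ T.1) ∧ (X ∣ dwc (rw2 d T) → ¬ X ∣ (rw2 d T).1)

open Classical in
/-- the sign of a semistable equation -/
noncomputable def Rt2 (d : ℕ) (T : Wei F) : ℂ :=
  (if X ∣ dwc (rw2 d T) then -sg (rw2 d T) X else 1) * ∏ P ∈ pr (dwc T), (-sg T P)

theorem sg_norm (T : Wei F) (P : F[X]) : ‖sg T P‖ ≤ 1 := by
  classical
  unfold sg asy
  split_ifs <;> simp

theorem disc2_coprime {a b : F[X]} (e f c : F[X]) (h : IsCoprime b a) : IsCoprime (disc2 a e b f c) a := by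
  have h1 : disc2 a e b f c = b ^ 4 + a * (a ^ 5 * c + a ^ 4 * b * f + a ^ 3 * e * b ^ 2 + a ^ 3 * f ^ 2 +
    a ^ 2 * b ^ 3) := by unfold disc2; ring
  rw [h1]
  exact IsCoprime.add_mul_left_left h.pow_left _

theorem X_dvd_dwc_rw2 {d : ℕ} {T : Wei F} (hT : T ∈ Box2 F d) :
    X ∣ dwc (rw2 d T) ↔ dwc T ∈ PL F (12 * d) := by
  have h1 := X_pow_dvd_reflect (dwc_mem hT) (j := 1) (by omega)
  rw [pow_one] at h1
  rw [dwc_rw2 hT, h1]
  have : 12 * d + 1 - 1 = 12 * d := by omega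
  rw [this]

theorem sst2_coprime {d : ℕ} {a e b f c : F[X]} (ha : a ≠ 0) (h : SSt2 d (a, e, b, f, c)) : IsCoprime b a := by
  by_contra hc
  obtain ⟨P, hP, hi, hPa, hPb⟩ := not_coprime_prime ha hc
  apply h.2.1 P hP hi _ hPa
  change P ∣ disc2 a e b f c
  have h1 : disc2 a e b f c = b ^ 4 + a * (a ^ 5 * c + a ^ 4 * b * f + a ^ 3 * e * b ^ 2 + a ^ 3 * f ^ 2 +
    a ^ 2 * b ^ 3) := by unfold disc2; ring
  rw [h1]
  exact dvd_add (dvd_pow hPb (by norm_num)) (hPa.mul_right _)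

theorem sst2_A {d : ℕ} (hd : 1 ≤ d) {a e b f c : F[X]} (ha : a ≠ 0) (had : a.natDegree = d) :
    SSt2 d (a, e, b, f, c) ↔ IsCoprime b a := by
  constructor
  · exact sst2_coprime ha
  · intro h
    have h1 := disc2_coprime e f c h
    refine ⟨?_, ?_, ?_⟩
    · intro h0
      change disc2 a e b f c = 0 at h0
      rw [h0, isCoprime_zero_left] at h1
      have := natDegree_eq_zero_of_isUnit h1
      omega
    · intro P hP hi hPd hPa
      exact hi.not_isUnit (h1.isUnit_of_dvd' hPd hPa)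
    · intro _ h2
      change X ∣ reflect d a at h2
      rw [X_dvd_iff, coeff_reflect, revAt_le (Nat.zero_le _), Nat.sub_zero] at h2
      have : a.coeff a.natDegree ≠ 0 := leadingCoeff_ne_zero.2 ha
      rw [had] at this
      exact this h2

theorem disc2_rest {d : ℕ} {a e b f c : F[X]} (had : a.natDegree < d) (he : e.natDegree ≤ 2 * d)
    (hb : b.natDegree ≤ 3 * d) (hf : f.natDegree ≤ 4 * d) (hc : c.natDegree ≤ 6 * d) :
    (a * (a ^ 5 * c + a ^ 4 * b * f + a ^ 3 * e * b ^ 2 + a ^ 3 * f ^ 2 + a ^ 2 * b ^ 3)).natDegree < 12 * d := by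
  have h1 : (a ^ 5 * c + a ^ 4 * b * f + a ^ 3 * e * b ^ 2 + a ^ 3 * f ^ 2 + a ^ 2 * b ^ 3).natDegree ≤ 11 * d := by
    refine (natDegree_add_le _ _).trans (max_le ((natDegree_add_le _ _).trans (max_le ((natDegree_add_le _ _).trans
      (max_le ((natDegree_add_le _ _).trans (max_le ?_ ?_)) ?_)) ?_)) ?_)
    · refine natDegree_mul_le.trans ?_
      rw [natDegree_pow]
      omega
    · refine natDegree_mul_le.trans ?_
      have := natDegree_mul_le (p := a ^ 4) (q := b)
      rw [natDegree_pow] at this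
      omega
    · refine natDegree_mul_le.trans ?_
      have := natDegree_mul_le (p := a ^ 3) (q := e)
      rw [natDegree_pow] at this ⊢
      omega
    · refine natDegree_mul_le.trans ?_
      rw [natDegree_pow, natDegree_pow]
      omega
    · refine natDegree_mul_le.trans ?_
      rw [natDegree_pow, natDegree_pow]
      omega
  refine lt_of_le_of_lt natDegree_mul_le ?_
  omega

theorem natDegree_B2 {d : ℕ} (hd : 1 ≤ d) {a e b f c : F[X]} (had : a.natDegree < d) (he : e ∈ PL F (2 * d + 1))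
    (hb : b.natDegree = 3 * d) (hf : f ∈ PL F (4 * d + 1)) (hc : c ∈ PL F (6 * d + 1)) :
    (disc2 a e b f c).natDegree = 12 * d := by
  have h1 : disc2 a e b f c = b ^ 4 + a * (a ^ 5 * c + a ^ 4 * b * f + a ^ 3 * e * b ^ 2 + a ^ 3 * f ^ 2 +
    a ^ 2 * b ^ 3) := by unfold disc2; ring
  have h2 := disc2_rest had (natDegree_le_of_mem_PL he) hb.le (natDegree_le_of_mem_PL hf) (natDegree_le_of_mem_PL hc)
  have h3 : (a * (a ^ 5 * c + a ^ 4 * b * f + a ^ 3 * e * b ^ 2 + a ^ 3 * f ^ 2 + a ^ 2 * b ^ 3)).natDegree <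
      (b ^ 4).natDegree := by
    rw [natDegree_pow, hb]
    omega
  rw [h1, natDegree_add_eq_left_of_natDegree_lt h3, natDegree_pow, hb]
  ring

theorem sst2_B {d : ℕ} (hd : 1 ≤ d) {a e b f c : F[X]} (ha : a ≠ 0) (had : a.natDegree < d)
    (he : e ∈ PL F (2 * d + 1)) (hb : b ∈ PL F (3 * d + 1)) (hf : f ∈ PL F (4 * d + 1))
    (hc : c ∈ PL F (6 * d + 1)) :
    SSt2 d (a, e, b, f, c) ↔ IsCoprime b a ∧ (disc2 a e b f c).natDegree = 12 * d ∧ b.natDegree = 3 * d := by
  have hT : ((a, e, b, f, c) : Wei F) ∈ Box2 F d :=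
    mem_Box2.2 ⟨mem_PL_of_natDegree (f := a) (by omega), he, hb, hf, hc⟩
  have he' := natDegree_le_of_mem_PL he
  have hb' := natDegree_le_of_mem_PL hb
  have hf' := natDegree_le_of_mem_PL hf
  have hc' := natDegree_le_of_mem_PL hc
  have e0 : disc2 a e b f c = b ^ 4 + a * (a ^ 5 * c + a ^ 4 * b * f + a ^ 3 * e * b ^ 2 + a ^ 3 * f ^ 2 +
    a ^ 2 * b ^ 3) := by unfold disc2; ring
  have e1 := disc2_rest had he' hb' hf' hc'
  have hXa : X ∣ reflect d a := by
    rw [X_dvd_iff, coeff_reflect, revAt_le (Nat.zero_le _), Nat.sub_zero]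
    exact coeff_eq_zero_of_natDegree_lt had
  constructor
  · intro h
    have h3 := h.2.2
    have h4 : ¬ X ∣ dwc (rw2 d (a, e, b, f, c)) := fun h5 => h3 h5 hXa
    rw [X_dvd_dwc_rw2 hT] at h4
    have h5 : 12 * d ≤ (disc2 a e b f c).natDegree := by
      by_contra h6
      exact h4 (mem_PL_of_natDegree (by change (disc2 a e b f c).natDegree < 12 * d; omega))
    have h6 : (disc2 a e b f c).natDegree ≤ 12 * d := disc2_natDegree_le (by omega) he' hb' hf' hc'
    refine ⟨sst2_coprime ha h, by omega, ?_⟩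
    by_contra h7
    have h8 : (disc2 a e b f c).natDegree < 12 * d := by
      rw [e0]
      refine lt_of_le_of_lt (natDegree_add_le _ _) (max_lt ?_ e1)
      rw [natDegree_pow]
      omega
    omega
  · rintro ⟨h, h1, h1b⟩
    have h2 := disc2_coprime e f c h
    have h0 : disc2 a e b f c ≠ 0 := by
      intro h0
      rw [h0, natDegree_zero] at h1
      omega
    refine ⟨h0, ?_, ?_⟩
    · intro P hP hi hPd hPa
      exact hi.not_isUnit (h2.isUnit_of_dvd' hPd hPa)
    · intro h3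
      exfalso
      rw [X_dvd_dwc_rw2 hT] at h3
      have := natDegree_lt_of_mem_PL h3 h0
      change (disc2 a e b f c).natDegree < 12 * d at this
      omega

theorem sst2_zero {d : ℕ} (hd : 1 ≤ d) {e b f c : F[X]} (he : e ∈ PL F (2 * d + 1)) (hb : b ∈ PL F (3 * d + 1))
    (hf : f ∈ PL F (4 * d + 1)) (hc : c ∈ PL F (6 * d + 1)) : ¬ SSt2 d ((0 : F[X]), e, b, f, c) := by
  intro h
  have hT : (((0 : F[X]), e, b, f, c) : Wei F) ∈ Box2 F d := mem_Box2.2 ⟨zero_mem_PL _, he, hb, hf, hc⟩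
  have h4 : ¬ X ∣ dwc (rw2 d ((0 : F[X]), e, b, f, c)) := fun h5 => h.2.2 h5 (by
    change X ∣ reflect d (0 : F[X])
    rw [reflect_zero]
    exact dvd_zero _)
  rw [X_dvd_dwc_rw2 hT] at h4
  have h5 : 12 * d ≤ (dwc (((0 : F[X]), e, b, f, c) : Wei F)).natDegree := by
    by_contra h6
    exact h4 (mem_PL_of_natDegree (by omega))
  have h6 : ¬ IsUnit (dwc (((0 : F[X]), e, b, f, c) : Wei F)) := by
    intro h7
    have := natDegree_eq_zero_of_isUnit h7
    omega
  obtain ⟨P, hP, hi, hPd⟩ := Polynomial.exists_monic_irreducible_factor _ h6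
  exact h.2.1 P hP hi hPd (dvd_zero _)

theorem Rt2_A {d : ℕ} {a e b f c : F[X]} (ha : a ∈ PL F (d + 1)) (he : e ∈ PL F (2 * d + 1))
    (hb : b ∈ PL F (3 * d + 1)) (hf : f ∈ PL F (4 * d + 1)) (hc : c ∈ PL F (6 * d + 1))
    (h0 : disc2 a e b f c ≠ 0) : Rt2 d (a, e, b, f, c) =
      (open Classical in if (disc2 a e b f c).natDegree < 12 * d then
        -asy (reflect d a) (reflect d a * reflect (2 * d) e + reflect (3 * d) b) X else 1) *
        WtM 1 (fun P => asy a (a * e + b) P) (disc2 a e b f c) := by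
  classical
  unfold Rt2
  rw [WtM_one]
  congr 1
  have h1 := X_dvd_dwc_rw2 (mem_Box2.2 ⟨ha, he, hb, hf, hc⟩ : ((a, e, b, f, c) : Wei F) ∈ Box2 F d)
  by_cases h2 : (disc2 a e b f c).natDegree < 12 * d
  · rw [if_pos h2, if_pos (h1.2 (mem_PL_of_natDegree h2))]
    rfl
  · rw [if_neg h2, if_neg]
    intro h3
    exact h2 (natDegree_lt_of_mem_PL (h1.1 h3) h0)

end Pool.Agent.H456.RN
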