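import Pool.Agent.H456.RN.SS2

/-!
# Characteristic two: semistable equations, the bound for each `(a₁, a₂, a₃)`
-/

set_option autoImplicit false
set_option linter.all false
set_option maxHeartbeats 2000000

open Finset Polynomial ComplexConjugate
open Pool.Agent.H341R2.Sharp (Mon mem_Mon lam)
open Pool.Agent.Q284.PS Pool.Agent.Q53.PS Pool.Agent.Q68.PS

namespace Pool.Agent.H456.RN

variable {F : Type} [Field F] [Fintype F]

theorem asy_norm (a U P : F[X]) : ‖asy a U P‖ ≤ 1 := by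
  classical
  unfold asy
  split_ifs <;> simp

open Classical in
theorem ss2_caseA [CharP F 2] (ε : ℝ) (hε : 0 < ε) : ∃ C0 : ℝ, 0 < C0 ∧ ∀ d : ℕ, 1 ≤ d → ∀ a ∈ PL F (d + 1),
    a ≠ 0 → a.natDegree = d → ∀ e ∈ PL F (2 * d + 1), ∀ b ∈ PL F (3 * d + 1), IsCoprime b a →
    ‖∑ f ∈ PL F (4 * d + 1), ∑ c ∈ PL F (6 * d + 1),
      (if SSt2 d (a, e, b, f, c) then Rt2 d (a, e, b, f, c) else 0)‖ ≤
      ((Fintype.card F : ℝ) * ((12 * d : ℕ) + 1)) *
      (√(((Fintype.card F ^ (4 * d + 1) : ℕ) : ℝ) * (Fintype.card F ^ (3 * d + 1) : ℕ)) *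
      (C0 * √(Fintype.card F : ℝ) ^ (12 * d) * Real.exp (ε * ((2 * (12 * d) + 1 : ℕ) : ℝ)))) := by
  obtain ⟨C0, hC0, hcore⟩ := coreA (F := F) ε hε
  refine ⟨C0, hC0, ?_⟩
  intro d hd a ha ha0 had e he b hb hcop
  have hde : e.natDegree ≤ 2 * d := natDegree_le_of_mem_PL he
  have hdb : b.natDegree ≤ 3 * d := natDegree_le_of_mem_PL hb
  have hdU : (a * e + b).natDegree ≤ 3 * d :=
    (natDegree_add_le _ _).trans (max_le (natDegree_mul_le.trans (by omega)) hdb)
  obtain ⟨A, s, ρ, hA, haA, hs, hhay, hasy⟩ := exists_asy ha0 had.le hdU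
  set α := a.leadingCoeff with hα
  have hα0 : α ≠ 0 := leadingCoeff_ne_zero.2 ha0
  have hdA : A.natDegree = a.natDegree := by
    conv_rhs => rw [haA]
    rw [natDegree_C_mul hα0]
  have hA6 : (A ^ 6).Monic := hA.pow 6
  have hA6d : (A ^ 6).natDegree = 6 * d := by rw [natDegree_pow, hdA, had]
  have hlev : 6 * (d - a.natDegree) - 1 = 0 := by omega
  rw [hlev] at hhay
  have hPa' : ∀ P : F[X], P ∣ a → P ∣ A := by
    intro P hP
    rw [haA] at hP
    exact (IsUnit.dvd_mul_left (isUnit_C.2 (isUnit_iff_ne_zero.2 hα0))).1 hP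
  have hsix : a ^ 6 = C (α ^ 6) * A ^ 6 := by
    conv_lhs => rw [haA]
    rw [mul_pow, C_pow]
  have hcopA : ∀ f : F[X], IsCoprime f a → IsCoprime f (A ^ 6) := by
    intro f hf
    apply IsCoprime.pow_right
    exact IsCoprime.of_isCoprime_of_dvd_right hf ⟨C α, by rw [mul_comm]; exact haA⟩
  set I := PL F (4 * d + 1) with hI
  set ω : ℕ → ℂ := fun n => if n < 12 * d then
    -asy (reflect d a) (reflect d a * reflect (2 * d) e + reflect (3 * d) b) X else 1 with hω
  have hω1 : ∀ n, ‖ω n‖ ≤ 1 := by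
    intro n
    rw [hω]
    beta_reduce
    split_ifs
    · rw [norm_neg]; exact asy_norm _ _ _
    · rw [norm_one]
  have hmain := hcore (A ^ 6) hA6 (6 * d + 1) (12 * d) (by rw [hA6d]; omega) ρ (fun P => asy a (a * e + b) P) hhay s hs
    (fun P hP hi hPA => hasy P hP hi (fun h => hPA (dvd_pow (hPa' P h) (by norm_num)))) ω hω1 I
    (fun f => disc2 a e b f 0) (by
      intro f hf
      have h3 := disc2_coprime e f 0 hcop
      have h4 := hcopA _ h3
      refine ⟨?_, h4, ?_⟩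
      · apply mem_PL_of_natDegree
        have := disc2_natDegree_le (a := a) (e := e) (b := b) (f := f) (c := 0) (d := d) had.le hde hdb
          (natDegree_le_of_mem_PL hf) (by rw [natDegree_zero]; omega)
        omega
      · intro c _ h5
        have h6 : IsCoprime (disc2 a e b f 0 + A ^ 6 * c) (A ^ 6) := IsCoprime.add_mul_left_left h4 _
        rw [h5, isCoprime_zero_left] at h6
        have := natDegree_eq_zero_of_isUnit h6
        omega) (Fintype.card F ^ (3 * d + 1)) (by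
      intro f hf
      have hsub : I.filter (fun j => A ^ 6 ∣ disc2 a e b j 0 - disc2 a e b f 0) ⊆
          ((PL F (4 * d + 1)).filter (fun δ => a ∣ δ)).image (fun δ => f + δ) := by
        intro j hj
        rw [mem_filter] at hj
        obtain ⟨hjI, h1⟩ := hj
        rw [mem_image]
        refine ⟨j - f, ?_, by ring⟩
        rw [mem_filter]
        refine ⟨sub_mem_PL hjI hf, ?_⟩
        rw [disc2_sub] at h1
        have h5 : a ^ 6 ∣ A ^ 6 := by
          refine ⟨C (α ^ 6)⁻¹, ?_⟩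
          rw [hsix]
          have : C (α ^ 6) * C (α ^ 6)⁻¹ = (1 : F[X]) := by
            rw [← C_mul, mul_inv_cancel₀ (pow_ne_zero 6 hα0), C_1]
          linear_combination (-(A ^ 6)) * this
        have h4 : a ^ 4 * a ^ 2 ∣ a ^ 4 * ((j - f) * ((j - f) + a * b)) := by
          rw [← pow_add]
          exact h5.trans h1
        exact dvd_of_sq ha0 ((mul_dvd_mul_iff_left (pow_ne_zero 4 ha0)).1 h4)
      refine (card_le_card hsub).trans (card_image_le.trans ((card_dvd_PL _ ha0).trans ?_))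
      apply Nat.pow_le_pow_right (Fintype.card_pos)
      omega)
  have hu : α ^ 6 ≠ 0 := pow_ne_zero 6 hα0
  have hstep : ‖∑ f ∈ PL F (4 * d + 1), ∑ c ∈ PL F (6 * d + 1),
      (if SSt2 d (a, e, b, f, c) then Rt2 d (a, e, b, f, c) else 0)‖ ≤
      ∑ f ∈ I, ‖∑ c ∈ PL F (6 * d + 1), ω (disc2 a e b f 0 + A ^ 6 * c).natDegree *
        WtM 1 (fun P => asy a (a * e + b) P) (disc2 a e b f 0 + A ^ 6 * c)‖ := by
    refine (norm_sum_le _ _).trans (sum_le_sum fun f hf => ?_)
    apply le_of_eq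
    congr 1
    rw [← sum_smul (6 * d + 1) hu (fun c => ω (disc2 a e b f 0 + A ^ 6 * c).natDegree *
      WtM 1 (fun P => asy a (a * e + b) P) (disc2 a e b f 0 + A ^ 6 * c))]
    refine sum_congr rfl fun c hc => ?_
    have hss : SSt2 d (a, e, b, f, c) := (sst2_A hd ha0 had).2 hcop
    have h3 : disc2 a e b f 0 + A ^ 6 * (C (α ^ 6) * c) = disc2 a e b f c := by
      have h4 : disc2 a e b f c = disc2 a e b f 0 + a ^ 6 * c := by
        have := disc2_add a e b f 0 c
        rwa [zero_add] at this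
      rw [h4, hsix]
      ring
    rw [if_pos hss, Rt2_A ha he hb hf hc hss.1, h3]
  refine hstep.trans (hmain.trans ?_)
  rw [hI, card_PL]

open Classical in
theorem ss2_caseB [CharP F 2] (ε : ℝ) (hε : 0 < ε) : ∃ C0 : ℝ, 0 < C0 ∧ ∀ d : ℕ, 1 ≤ d → ∀ a ∈ PL F (d + 1),
    a ≠ 0 → a.natDegree < d → ∀ e ∈ PL F (2 * d + 1), ∀ b ∈ PL F (3 * d + 1), IsCoprime b a → b.natDegree = 3 * d →
    ‖∑ f ∈ PL F (4 * d + 1), ∑ c ∈ PL F (6 * d + 1),
      (if SSt2 d (a, e, b, f, c) then Rt2 d (a, e, b, f, c) else 0)‖ ≤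
      ((Fintype.card F : ℝ) * (Fintype.card F : ℝ) * ((12 * d : ℕ) + 1)) *
      (√(((Fintype.card F ^ (4 * d + 1) : ℕ) : ℝ) * (Fintype.card F ^ (3 * d + 1) : ℕ)) *
      (C0 * √(Fintype.card F : ℝ) ^ (12 * d) * Real.exp (ε * ((2 * (12 * d) : ℕ) : ℝ)))) := by
  obtain ⟨C0, hC0, hcore⟩ := core (F := F) ε hε
  refine ⟨C0, hC0, ?_⟩
  intro d hd a ha ha0 had e he b hb hcop hbd
  have hde : e.natDegree ≤ 2 * d := natDegree_le_of_mem_PL he
  have hdb : b.natDegree ≤ 3 * d := natDegree_le_of_mem_PL hb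
  have hdU : (a * e + b).natDegree ≤ 3 * d :=
    (natDegree_add_le _ _).trans (max_le (natDegree_mul_le.trans (by omega)) hdb)
  obtain ⟨A, s, ρ, hA, haA, hs, hhay, hasy⟩ := exists_asy ha0 had.le hdU
  set α := a.leadingCoeff with hα
  have hα0 : α ≠ 0 := leadingCoeff_ne_zero.2 ha0
  have hdA : A.natDegree = a.natDegree := by
    conv_rhs => rw [haA]
    rw [natDegree_C_mul hα0]
  have hA6 : (A ^ 6).Monic := hA.pow 6
  have hA6d : (A ^ 6).natDegree = 6 * a.natDegree := by rw [natDegree_pow, hdA]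
  have hPa : ∀ P : F[X], P ∣ A → P ∣ a := fun P hP => by rw [haA]; exact hP.mul_left _
  have hPa' : ∀ P : F[X], P ∣ a → P ∣ A := by
    intro P hP
    rw [haA] at hP
    exact (IsUnit.dvd_mul_left (isUnit_C.2 (isUnit_iff_ne_zero.2 hα0))).1 hP
  have hsix : a ^ 6 = C (α ^ 6) * A ^ 6 := by
    conv_lhs => rw [haA]
    rw [mul_pow, C_pow]
  set I := PL F (4 * d + 1) with hI
  have hzero : (0 : F[X]) ∈ PL F (6 * d + 1) := zero_mem_PL _
  have hmain := hcore (A ^ 6) 1 hA6 monic_one (6 * d + 1) 0 (6 * (d - a.natDegree) - 1) (12 * d) (A ^ 6) dvd_rfl ρ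
    (fun P => asy a (a * e + b) P) hhay s hs
    (fun P hP1 hP2 hP3 _ => hasy P hP1 hP2 (fun h => hP3 (dvd_pow (hPa' P h) (by norm_num))))
    (fun P _ hi h1 => absurd (isUnit_of_dvd_one h1) hi.not_isUnit) (by rw [hA6d, natDegree_one]; omega) I
    (fun f => disc2 a e b f 0) (by
      intro f hf
      have h3 := natDegree_B2 hd had he hbd hf hzero
      refine ⟨?_, ?_, ?_⟩
      · intro h0
        rw [h0, natDegree_zero] at h3
        omega
      · omega
      · omega) (fun b _ P _ hi h1 => absurd (isUnit_of_dvd_one h1) hi.not_isUnit) (by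
      intro f hf P hP1 hP2 _ hP4 hP5
      have h1 : P ∣ a := hPa P (hP2.prime.dvd_of_dvd_pow hP4)
      exact hP2.not_isUnit ((disc2_coprime e f 0 hcop).isUnit_of_dvd' hP5 h1))
      (Fintype.card F ^ (3 * d + 1)) (by
      intro f hf
      refine le_trans (card_le_card ?_) (mult2 (e := e) ha0 had.le hdb I 0 f (A ^ 6 * 1) ?_)
      · intro j hj
        rw [mem_filter] at hj ⊢
        refine ⟨hj.1, hj.2.1, hj.2.2.trans_le ?_⟩
        rw [hA6d, natDegree_one]
        exact_mod_cast (by omega : 6 * a.natDegree + 0 + (6 * d + 1) ≤ 6 * a.natDegree + 6 * d + 1)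
      · refine ⟨C (α ^ 6)⁻¹, ?_⟩
        rw [hsix]
        have : C (α ^ 6) * C (α ^ 6)⁻¹ = (1 : F[X]) := by
          rw [← C_mul, mul_inv_cancel₀ (pow_ne_zero 6 hα0), C_1]
        linear_combination (-(A ^ 6)) * this)
  have hu : α ^ 6 ≠ 0 := pow_ne_zero 6 hα0
  have hstep : ‖∑ f ∈ PL F (4 * d + 1), ∑ c ∈ PL F (6 * d + 1),
      (if SSt2 d (a, e, b, f, c) then Rt2 d (a, e, b, f, c) else 0)‖ ≤
      ∑ f ∈ I, ‖∑ c ∈ PL F (6 * d + 1), WtM 1 (fun P => asy a (a * e + b) P) (disc2 a e b f 0 + A ^ 6 * 1 * c)‖ := by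
    refine (norm_sum_le _ _).trans (sum_le_sum fun f hf => ?_)
    apply le_of_eq
    congr 1
    rw [← sum_smul (6 * d + 1) hu (fun c => WtM 1 (fun P => asy a (a * e + b) P) (disc2 a e b f 0 + A ^ 6 * 1 * c))]
    refine sum_congr rfl fun c hc => ?_
    have hnd := natDegree_B2 hd had he hbd hf hc
    have hss : SSt2 d (a, e, b, f, c) := (sst2_B hd ha0 had he hb hf hc).2 ⟨hcop, hnd, hbd⟩
    have h3 : disc2 a e b f 0 + A ^ 6 * 1 * (C (α ^ 6) * c) = disc2 a e b f c := by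
      have h4 : disc2 a e b f c = disc2 a e b f 0 + a ^ 6 * c := by
        have := disc2_add a e b f 0 c
        rwa [zero_add] at this
      rw [h4, hsix]
      ring
    rw [if_pos hss, Rt2_A ha he hb hf hc hss.1, if_neg (by omega), one_mul, h3]
  refine hstep.trans (hmain.trans ?_)
  rw [natDegree_one, hI, card_PL]
  have e1 : ((Fintype.card F : ℝ) * (Fintype.card F : ℝ) ^ (0 + 1) * (((12 * d : ℕ) : ℝ) + ((0 : ℕ) : ℝ) + 1)) =
      ((Fintype.card F : ℝ) * (Fintype.card F : ℝ) * ((12 * d : ℕ) + 1)) := by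
    rw [zero_add, pow_one, Nat.cast_zero, add_zero]
  rw [e1]
  exact le_refl _

end Pool.Agent.H456.RN
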