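import Pool.Agent.H456.RN.CoreA
import Pool.Agent.H456.RN.Cop
import Pool.Agent.H456.RN.Lim3

/-!
# Characteristic three: semistable equations, with a power saving
-/

set_option autoImplicit false
set_option linter.all false
set_option maxHeartbeats 2000000

open Finset Polynomial ComplexConjugate
open Pool.Agent.H341R2.Sharp (Mon mem_Mon lam)
open Pool.Agent.Q284.PS Pool.Agent.Q53.PS Pool.Agent.Q68.PS

namespace Pool.Agent.H456.RN

variable {F : Type} [Field F]

/-- `a = R g` with `g³ ∣ a` and `R` dividing all `δ` with `a² ∣ δ³` -/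
theorem exists_Rg [CharP F 3] {a : F[X]} (ha : a ≠ 0) : ∃ R g : F[X], R ≠ 0 ∧ g.Monic ∧ a = R * g ∧ g ^ 3 ∣ a ∧
    (∀ δ : F[X], a ^ 2 ∣ δ ^ 3 → R ∣ δ) := by
  haveI : CharP F[X] 3 := inferInstance
  haveI : Fact (Nat.Prime 3) := ⟨Nat.prime_three⟩
  let J : Ideal F[X] :=
    { carrier := {δ | a ^ 2 ∣ δ ^ 3}
      add_mem' := by
        intro x y hx hy
        rw [Set.mem_setOf_eq] at *
        rw [add_pow_char x y (p := 3)]
        exact dvd_add hx hy
      zero_mem' := by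
        rw [Set.mem_setOf_eq]
        exact ⟨0, by ring⟩
      smul_mem' := by
        intro c x hx
        rw [Set.mem_setOf_eq] at *
        rw [smul_eq_mul, mul_pow]
        exact hx.mul_left _ }
  obtain ⟨R, hR⟩ := (IsPrincipalIdealRing.principal J).principal
  have hmem : ∀ δ : F[X], a ^ 2 ∣ δ ^ 3 ↔ R ∣ δ := by
    intro δ
    have h1 : δ ∈ J ↔ a ^ 2 ∣ δ ^ 3 := Iff.rfl
    rw [← h1, hR]
    exact Ideal.mem_span_singleton
  obtain ⟨g0, hg0⟩ : R ∣ a := (hmem a).1 ⟨a, by ring⟩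
  have hR0 : R ≠ 0 := fun h => ha (by rw [hg0, h, zero_mul])
  have hg00 : g0 ≠ 0 := fun h => ha (by rw [hg0, h, mul_zero])
  have hlc : g0.leadingCoeff ≠ 0 := leadingCoeff_ne_zero.2 hg00
  set γ := g0.leadingCoeff with hγ
  set g := C γ⁻¹ * g0 with hg
  have hgm : g.Monic := by
    rw [Monic, hg, leadingCoeff_mul, leadingCoeff_C, ← hγ, inv_mul_cancel₀ hlc]
  have hC : C γ * C γ⁻¹ = (1 : F[X]) := by rw [← C_mul, mul_inv_cancel₀ hlc, C_1]
  have hag : a = C γ * R * g := by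
    rw [hg, hg0]
    linear_combination (-(R * g0)) * hC
  have hR'0 : C γ * R ≠ 0 := mul_ne_zero (C_ne_zero.2 hlc) hR0
  have hR' : ∀ δ : F[X], a ^ 2 ∣ δ ^ 3 → C γ * R ∣ δ := by
    intro δ hδ
    have h1 := (hmem δ).1 hδ
    exact (IsUnit.mul_left_dvd (isUnit_C.2 (isUnit_iff_ne_zero.2 hlc))).2 h1
  refine ⟨C γ * R, g, hR'0, hgm, hag, ?_, hR'⟩
  have h2 : a ^ 2 ∣ (C γ * R) ^ 3 := by
    obtain ⟨e, he⟩ := (hmem R).2 dvd_rfl
    exact ⟨C γ ^ 3 * e, by rw [mul_pow, he]; ring⟩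
  have h3 : g ^ 2 ∣ C γ * R := by
    obtain ⟨e, he⟩ := h2
    refine ⟨e, ?_⟩
    have h4 : (C γ * R) ^ 2 * (C γ * R) = (C γ * R) ^ 2 * (g ^ 2 * e) := by
      calc (C γ * R) ^ 2 * (C γ * R) = (C γ * R) ^ 3 := by ring
        _ = a ^ 2 * e := he
        _ = (C γ * R * g) ^ 2 * e := by rw [← hag]
        _ = (C γ * R) ^ 2 * (g ^ 2 * e) := by ring
    exact mul_left_cancel₀ (pow_ne_zero 2 hR'0) h4
  obtain ⟨e, he⟩ := h3
  exact ⟨e, by rw [hag, he]; ring⟩

variable [Fintype F]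

open Classical in
/-- multiplicity, refined -/
theorem mult3' [CharP F 3] {a R g : F[X]} (ha : a ≠ 0) (hR0 : R ≠ 0) (hg : g.Monic) (hag : a = R * g)
    (hR1 : ∀ δ : F[X], a ^ 2 ∣ δ ^ 3 → R ∣ δ) {d : ℕ} (had : a.natDegree ≤ 2 * d) (I : Finset F[X])
    (hI : I ⊆ PL F (4 * d + 1)) (c b : F[X]) (hb : b ∈ I) (U : F[X]) (hU : a ^ 3 ∣ U) :
    (I.filter (fun j => U ∣ disc3 a j c - disc3 a b c ∧
      (disc3 a j c - disc3 a b c).degree < ((3 * a.natDegree + 6 * d + 1 : ℕ) : WithBot ℕ))).card ≤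
      Fintype.card F ^ (2 * d + 1 + g.natDegree) := by
  have hsub : (I.filter (fun j => U ∣ disc3 a j c - disc3 a b c ∧
      (disc3 a j c - disc3 a b c).degree < ((3 * a.natDegree + 6 * d + 1 : ℕ) : WithBot ℕ))) ⊆
      ((PL F (2 * d + a.natDegree + 1)).filter (fun δ => R ∣ δ)).image (fun δ => b + δ) := by
    intro j hj
    rw [mem_filter] at hj
    obtain ⟨hjI, h1, h2⟩ := hj
    rw [mem_image]
    refine ⟨j - b, ?_, by ring⟩
    rw [mem_filter]
    rw [disc3_sub] at h1 h2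
    have h3 : a ^ 2 ∣ (j - b) ^ 3 := by
      have h4 : a ^ 2 ∣ a ^ 2 * ((j - b) * (j + b)) - (j - b) ^ 3 :=
        (pow_dvd_pow a (by norm_num : 2 ≤ 3)).trans (hU.trans h1)
      have h5 : a ^ 2 ∣ a ^ 2 * ((j - b) * (j + b)) := dvd_mul_right _ _
      exact (dvd_sub_right h5).1 h4
    refine ⟨?_, hR1 _ h3⟩
    by_contra hc
    have h0 : j - b ≠ 0 := fun h => hc (by rw [h]; exact zero_mem_PL _)
    have he : 2 * d + a.natDegree + 1 ≤ (j - b).natDegree := by
      by_contra h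
      exact hc (mem_PL_of_natDegree (by omega))
    have hj4 := natDegree_le_of_mem_PL (hI hjI)
    have hb4 := natDegree_le_of_mem_PL (hI hb)
    have hs : (j + b).natDegree ≤ 4 * d := (natDegree_add_le _ _).trans (max_le hj4 hb4)
    have h6 : (a ^ 2 * ((j - b) * (j + b))).natDegree < ((j - b) ^ 3).natDegree := by
      refine lt_of_le_of_lt natDegree_mul_le ?_
      rw [natDegree_pow, natDegree_pow]
      have : ((j - b) * (j + b)).natDegree ≤ (j - b).natDegree + 4 * d :=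
        natDegree_mul_le.trans (by omega)
      omega
    have h7 := natDegree_sub_eq_right_of_natDegree_lt h6
    rw [natDegree_pow] at h7
    have h8 : a ^ 2 * ((j - b) * (j + b)) - (j - b) ^ 3 ≠ 0 := by
      intro h
      rw [h, natDegree_zero] at h7
      omega
    rw [degree_eq_natDegree h8, h7] at h2
    have h9 : 3 * (j - b).natDegree < 3 * a.natDegree + 6 * d + 1 := by exact_mod_cast h2
    omega
  refine (card_le_card hsub).trans (card_image_le.trans ((card_dvd_PL _ hR0).trans ?_))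
  apply Nat.pow_le_pow_right (Fintype.card_pos)
  have h1 : a.natDegree = R.natDegree + g.natDegree := by
    conv_lhs => rw [hag]
    rw [natDegree_mul hR0 hg.ne_zero]
  omega

/-- semistable equations: the discriminant is not zero, and no place divides both the discriminant and
`a`, at infinity as well -/
def SSt3 (d : ℕ) (T : Tri F) : Prop := dsc T ≠ 0 ∧
  (∀ P : F[X], P.Monic → Irreducible P → P ∣ dsc T → ¬ P ∣ T.1) ∧ (X ∣ dsc (rv d T) → ¬ X ∣ (rv d T).1)

open Classical in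
/-- the sign of a semistable equation -/
noncomputable def Rt3 (d : ℕ) (T : Tri F) : ℂ :=
  (if X ∣ dsc (rv d T) then -(leg X (rv d T).1 : ℂ) else 1) * ∏ P ∈ pr (dsc T), (-(leg P T.1 : ℂ))

theorem WtM_one (σ : F[X] → ℂ) (D : F[X]) : WtM 1 σ D = ∏ P ∈ pr D, (-σ P) := by
  classical
  unfold WtM
  refine prod_congr ?_ fun _ _ => rfl
  ext P
  rw [mem_filter]
  constructor
  · exact fun h => h.1
  · intro h
    refine ⟨h, fun h1 => ?_⟩
    by_cases hD : D = 0
    · rw [hD] at h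
      unfold pr at h
      simp at h
    · exact ((mem_pr hD).1 h).2.1.not_isUnit (isUnit_of_dvd_one h1)

theorem leg_norm (P g : F[X]) : ‖((leg P g : ℤ) : ℂ)‖ ≤ 1 := by
  classical
  unfold leg
  split_ifs <;> simp

theorem disc3_coprime {a b : F[X]} (c : F[X]) (h : IsCoprime b a) : IsCoprime (disc3 a b c) a := by
  have h1 : disc3 a b c = -(b ^ 3) + a * (a * b ^ 2 - a ^ 2 * c) := by unfold disc3; ring
  rw [h1]
  exact IsCoprime.add_mul_left_left (h.pow_left.neg_left) _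

theorem X_dvd_dsc_rv {d : ℕ} {T : Tri F} (hT : T ∈ Box3 F d) :
    X ∣ dsc (rv d T) ↔ dsc T ∈ PL F (12 * d) := by
  have h1 := X_pow_dvd_reflect (dsc_mem hT) (j := 1) (by omega)
  rw [pow_one] at h1
  rw [dsc_rv hT, h1]
  have : 12 * d + 1 - 1 = 12 * d := by omega
  rw [this]

theorem not_coprime_prime {a b : F[X]} (ha : a ≠ 0) (h : ¬ IsCoprime b a) :
    ∃ P : F[X], P.Monic ∧ Irreducible P ∧ P ∣ a ∧ P ∣ b := by
  classical
  have h1 : ¬ IsUnit (EuclideanDomain.gcd b a) := fun hu => h (EuclideanDomain.gcd_isUnit_iff.1 hu)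
  obtain ⟨P, hP, hi, hd⟩ := Polynomial.exists_monic_irreducible_factor _ h1
  exact ⟨P, hP, hi, hd.trans (EuclideanDomain.gcd_dvd_right b a), hd.trans (EuclideanDomain.gcd_dvd_left b a)⟩

theorem sst_coprime {d : ℕ} {a b c : F[X]} (ha : a ≠ 0) (h : SSt3 d (a, b, c)) : IsCoprime b a := by
  by_contra hc
  obtain ⟨P, hP, hi, hPa, hPb⟩ := not_coprime_prime ha hc
  apply h.2.1 P hP hi _ hPa
  change P ∣ disc3 a b c
  unfold disc3
  exact dvd_sub (dvd_sub ((dvd_pow hPa (by norm_num)).mul_right _) (dvd_pow hPb (by norm_num)))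
    ((dvd_pow hPa (by norm_num)).mul_right _)

theorem sst_A {d : ℕ} (hd : 1 ≤ d) {a b c : F[X]} (ha : a ≠ 0) (had : a.natDegree = 2 * d) :
    SSt3 d (a, b, c) ↔ IsCoprime b a := by
  constructor
  · exact sst_coprime ha
  · intro h
    have h1 := disc3_coprime c h
    refine ⟨?_, ?_, ?_⟩
    · intro h0
      change disc3 a b c = 0 at h0
      rw [h0, isCoprime_zero_left] at h1
      have := natDegree_eq_zero_of_isUnit h1
      omega
    · intro P hP hi hPd hPa
      exact hi.not_isUnit (h1.isUnit_of_dvd' hPd hPa)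
    · intro _ h2
      change X ∣ reflect (2 * d) a at h2
      rw [X_dvd_iff, coeff_reflect, revAt_le (Nat.zero_le _), Nat.sub_zero] at h2
      have : a.coeff a.natDegree ≠ 0 := leadingCoeff_ne_zero.2 ha
      rw [had] at this
      exact this h2

theorem sst_B {d : ℕ} (hd : 1 ≤ d) {a b c : F[X]} (ha : a ≠ 0) (had : a.natDegree < 2 * d)
    (hb : b ∈ PL F (4 * d + 1)) (hc : c ∈ PL F (6 * d + 1)) :
    SSt3 d (a, b, c) ↔ IsCoprime b a ∧ (disc3 a b c).natDegree = 12 * d ∧ b.natDegree = 4 * d := by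
  have hT : ((a, b, c) : Tri F) ∈ Box3 F d := mem_Box3.2 ⟨mem_PL_of_natDegree (f := a) (by omega), hb, hc⟩
  have hb' := natDegree_le_of_mem_PL hb
  have hc' := natDegree_le_of_mem_PL hc
  have e0 : disc3 a b c = (a ^ 2 * b ^ 2 - a ^ 3 * c) - b ^ 3 := by unfold disc3; ring
  have e1 : (a ^ 2 * b ^ 2 - a ^ 3 * c).natDegree < 12 * d := by
    refine lt_of_le_of_lt (natDegree_sub_le _ _) (max_lt ?_ ?_)
    · refine lt_of_le_of_lt natDegree_mul_le ?_
      rw [natDegree_pow, natDegree_pow]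
      omega
    · refine lt_of_le_of_lt natDegree_mul_le ?_
      rw [natDegree_pow]
      omega
  have hXa : X ∣ reflect (2 * d) a := by
    rw [X_dvd_iff, coeff_reflect, revAt_le (Nat.zero_le _), Nat.sub_zero]
    exact coeff_eq_zero_of_natDegree_lt had
  constructor
  · intro h
    have h3 := h.2.2
    have h4 : ¬ X ∣ dsc (rv d (a, b, c)) := fun h5 => h3 h5 hXa
    rw [X_dvd_dsc_rv hT] at h4
    have h5 : 12 * d ≤ (disc3 a b c).natDegree := by
      by_contra h6
      exact h4 (mem_PL_of_natDegree (by change (disc3 a b c).natDegree < 12 * d; omega))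
    have h6 : (disc3 a b c).natDegree ≤ 12 * d := disc3_natDegree_le (by omega) hb' hc'
    refine ⟨sst_coprime ha h, by omega, ?_⟩
    by_contra h7
    have h8 : (disc3 a b c).natDegree < 12 * d := by
      rw [e0]
      refine lt_of_le_of_lt (natDegree_sub_le _ _) (max_lt e1 ?_)
      rw [natDegree_pow]
      omega
    omega
  · rintro ⟨h, h1, h1b⟩
    have h2 := disc3_coprime c h
    have h0 : disc3 a b c ≠ 0 := by
      intro h0
      rw [h0, natDegree_zero] at h1
      omega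
    refine ⟨h0, ?_, ?_⟩
    · intro P hP hi hPd hPa
      exact hi.not_isUnit (h2.isUnit_of_dvd' hPd hPa)
    · intro h3
      exfalso
      rw [X_dvd_dsc_rv hT] at h3
      have := natDegree_lt_of_mem_PL h3 h0
      change (disc3 a b c).natDegree < 12 * d at this
      omega

theorem natDegree_B {d : ℕ} (hd : 1 ≤ d) {a b c : F[X]} (had : a.natDegree < 2 * d)
    (hb : b.natDegree = 4 * d) (hc : c ∈ PL F (6 * d + 1)) : (disc3 a b c).natDegree = 12 * d := by
  have hc' := natDegree_le_of_mem_PL hc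
  have e0 : disc3 a b c = (a ^ 2 * b ^ 2 - a ^ 3 * c) - b ^ 3 := by unfold disc3; ring
  have e1 : (a ^ 2 * b ^ 2 - a ^ 3 * c).natDegree < (b ^ 3).natDegree := by
    rw [natDegree_pow, hb]
    refine lt_of_le_of_lt (natDegree_sub_le _ _) (max_lt ?_ ?_)
    · refine lt_of_le_of_lt natDegree_mul_le ?_
      rw [natDegree_pow, natDegree_pow]
      omega
    · refine lt_of_le_of_lt natDegree_mul_le ?_
      rw [natDegree_pow]
      omega
  rw [e0, natDegree_sub_eq_right_of_natDegree_lt e1, natDegree_pow, hb]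
  ring

theorem sst_zero {d : ℕ} (hd : 1 ≤ d) {b c : F[X]} (hb : b ∈ PL F (4 * d + 1)) (hc : c ∈ PL F (6 * d + 1)) :
    ¬ SSt3 d ((0 : F[X]), b, c) := by
  intro h
  have hT : (((0 : F[X]), b, c) : Tri F) ∈ Box3 F d := mem_Box3.2 ⟨zero_mem_PL _, hb, hc⟩
  have h4 : ¬ X ∣ dsc (rv d ((0 : F[X]), b, c)) := fun h5 => h.2.2 h5 (by
    change X ∣ reflect (2 * d) (0 : F[X])
    rw [reflect_zero]
    exact dvd_zero _)
  rw [X_dvd_dsc_rv hT] at h4
  have h5 : 12 * d ≤ (dsc (((0 : F[X]), b, c) : Tri F)).natDegree := by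
    by_contra h6
    exact h4 (mem_PL_of_natDegree (by omega))
  have h6 : ¬ IsUnit (dsc (((0 : F[X]), b, c) : Tri F)) := by
    intro h7
    have := natDegree_eq_zero_of_isUnit h7
    omega
  obtain ⟨P, hP, hi, hPd⟩ := Polynomial.exists_monic_irreducible_factor _ h6
  exact h.2.1 P hP hi hPd (dvd_zero _)

end Pool.Agent.H456.RN
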