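import Pool.Agent.H456.RN.SS3

/-!
# Characteristic three: semistable equations, the bound for each `a`
-/

set_option autoImplicit false
set_option linter.all false
set_option maxHeartbeats 2000000

open Finset Polynomial ComplexConjugate
open Pool.Agent.H341R2.Sharp (Mon mem_Mon lam)
open Pool.Agent.Q284.PS Pool.Agent.Q53.PS Pool.Agent.Q68.PS

namespace Pool.Agent.H456.RN

variable {F : Type} [Field F] [Fintype F]

theorem Rt3_A {d : ℕ} {a b c : F[X]} (ha : a ∈ PL F (2 * d + 1)) (hb : b ∈ PL F (4 * d + 1))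
    (hc : c ∈ PL F (6 * d + 1)) (h0 : disc3 a b c ≠ 0) : Rt3 d (a, b, c) =
      (open Classical in if (disc3 a b c).natDegree < 12 * d then -(leg X (reflect (2 * d) a) : ℂ) else 1) *
        WtM 1 (fun P => (leg P a : ℂ)) (disc3 a b c) := by
  classical
  unfold Rt3
  rw [WtM_one]
  congr 1
  have h1 := X_dvd_dsc_rv (mem_Box3.2 ⟨ha, hb, hc⟩ : ((a, b, c) : Tri F) ∈ Box3 F d)
  by_cases h2 : (disc3 a b c).natDegree < 12 * d
  · rw [if_pos h2, if_pos (h1.2 (mem_PL_of_natDegree h2))]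
    rfl
  · rw [if_neg h2, if_neg]
    intro h3
    exact h2 (natDegree_lt_of_mem_PL (h1.1 h3) h0)

open Classical in
theorem ss_caseA [CharP F 3] (ε : ℝ) (hε : 0 < ε) : ∃ C0 : ℝ, 0 < C0 ∧ ∀ d : ℕ, 1 ≤ d → ∀ a ∈ PL F (2 * d + 1),
    a ≠ 0 → a.natDegree = 2 * d → ∀ R g : F[X], R ≠ 0 → g.Monic → a = R * g →
    (∀ δ : F[X], a ^ 2 ∣ δ ^ 3 → R ∣ δ) →
    ‖∑ b ∈ PL F (4 * d + 1), ∑ c ∈ PL F (6 * d + 1), (if SSt3 d (a, b, c) then Rt3 d (a, b, c) else 0)‖ ≤
      ((Fintype.card F : ℝ) * ((12 * d : ℕ) + 1)) *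
      (√(((Fintype.card F ^ (4 * d + 1) : ℕ) : ℝ) * (Fintype.card F ^ (2 * d + 1 + g.natDegree) : ℕ)) *
      (C0 * √(Fintype.card F : ℝ) ^ (12 * d) * Real.exp (ε * ((2 * (12 * d) + 1 : ℕ) : ℝ)))) := by
  have h2 : ringChar F ≠ 2 := by
    rw [ringChar.eq F 3]
    norm_num
  obtain ⟨C0, hC0, hcore⟩ := coreA (F := F) ε hε
  refine ⟨C0, hC0, ?_⟩
  intro d hd a ha ha0 had R g hR0 hg hag hR1
  obtain ⟨A, s, hA, haA, hs, hhay, hleg⟩ := exists_jac h2 ha0
  set α := a.leadingCoeff with hα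
  have hα0 : α ≠ 0 := leadingCoeff_ne_zero.2 ha0
  have hdA : A.natDegree = a.natDegree := by
    conv_rhs => rw [haA]
    rw [natDegree_C_mul hα0]
  have hA3 : (A ^ 3).Monic := hA.pow 3
  have hA3d : (A ^ 3).natDegree = 6 * d := by rw [natDegree_pow, hdA, had]; ring
  have hcube : a ^ 3 = C (α ^ 3) * A ^ 3 := by
    conv_lhs => rw [haA]
    rw [mul_pow, C_pow]
  have hcopA : ∀ f : F[X], IsCoprime f a → IsCoprime f (A ^ 3) := by
    intro f hf
    apply IsCoprime.pow_right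
    exact IsCoprime.of_isCoprime_of_dvd_right hf ⟨C α, by rw [mul_comm]; exact haA⟩
  set I := (PL F (4 * d + 1)).filter (fun b => IsCoprime b a) with hI
  set ω : ℕ → ℂ := fun n => if n < 12 * d then -(leg X (reflect (2 * d) a) : ℂ) else 1 with hω
  have hω1 : ∀ n, ‖ω n‖ ≤ 1 := by
    intro n
    rw [hω]
    beta_reduce
    split_ifs
    · rw [norm_neg]; exact leg_norm _ _
    · rw [norm_one]
  have hray := hay_raise hhay hA3 (dvd_pow_self A (by norm_num)) (le_refl 0)
  have hmain := hcore (A ^ 3) hA3 (6 * d + 1) (12 * d) (by rw [hA3d]; omega) _ (fun P => (leg P a : ℂ)) hray s hs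
    (by
      intro P hP hi hPA
      rw [if_pos ((hi.coprime_iff_not_dvd).2 hPA)]
      exact hleg P hP hi) ω hω1 I (fun b => disc3 a b 0) (by
      intro b hb
      rw [hI, mem_filter] at hb
      have h3 := disc3_coprime 0 hb.2
      have h4 := hcopA _ h3
      refine ⟨?_, h4, ?_⟩
      · apply mem_PL_of_natDegree
        have := disc3_natDegree_le (a := a) (b := b) (c := 0) (d := d) (by omega) (natDegree_le_of_mem_PL hb.1)
          (by rw [natDegree_zero]; omega)
        omega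
      · intro c _ h5
        have h6 : IsCoprime (disc3 a b 0 + A ^ 3 * c) (A ^ 3) := IsCoprime.add_mul_left_left h4 _
        rw [h5, isCoprime_zero_left] at h6
        have := natDegree_eq_zero_of_isUnit h6
        omega) (Fintype.card F ^ (2 * d + 1 + g.natDegree)) (by
      intro b hb
      have hsub : I.filter (fun j => A ^ 3 ∣ disc3 a j 0 - disc3 a b 0) ⊆
          ((PL F (4 * d + 1)).filter (fun δ => R ∣ δ)).image (fun δ => b + δ) := by
        intro j hj
        rw [mem_filter] at hj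
        obtain ⟨hjI, h1⟩ := hj
        rw [hI, mem_filter] at hjI hb
        rw [mem_image]
        refine ⟨j - b, ?_, by ring⟩
        rw [mem_filter]
        refine ⟨sub_mem_PL hjI.1 hb.1, hR1 _ ?_⟩
        rw [disc3_sub] at h1
        have h5 : a ^ 2 ∣ A ^ 3 := by
          have h6 : a ^ 3 ∣ A ^ 3 := by
            refine ⟨C (α ^ 3)⁻¹, ?_⟩
            rw [hcube]
            have : C (α ^ 3) * C (α ^ 3)⁻¹ = (1 : F[X]) := by
              rw [← C_mul, mul_inv_cancel₀ (pow_ne_zero 3 hα0), C_1]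
            linear_combination (-(A ^ 3)) * this
          exact (pow_dvd_pow a (by norm_num)).trans h6
        have h4 : a ^ 2 ∣ a ^ 2 * ((j - b) * (j + b)) - (j - b) ^ 3 := h5.trans h1
        have h6 : a ^ 2 ∣ a ^ 2 * ((j - b) * (j + b)) := dvd_mul_right _ _
        exact (dvd_sub_right h6).1 h4
      refine (card_le_card hsub).trans (card_image_le.trans ((card_dvd_PL _ hR0).trans ?_))
      apply Nat.pow_le_pow_right (Fintype.card_pos)
      have h1 : a.natDegree = R.natDegree + g.natDegree := by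
        conv_lhs => rw [hag]
        rw [natDegree_mul hR0 hg.ne_zero]
      omega)
  have hu : -(α ^ 3) ≠ 0 := neg_ne_zero.2 (pow_ne_zero 3 hα0)
  have hstep : ‖∑ b ∈ PL F (4 * d + 1), ∑ c ∈ PL F (6 * d + 1),
      (if SSt3 d (a, b, c) then Rt3 d (a, b, c) else 0)‖ ≤
      ∑ b ∈ I, ‖∑ c ∈ PL F (6 * d + 1), ω (disc3 a b 0 + A ^ 3 * c).natDegree *
        WtM 1 (fun P => (leg P a : ℂ)) (disc3 a b 0 + A ^ 3 * c)‖ := by
    rw [hI, sum_filter]
    refine (norm_sum_le _ _).trans (sum_le_sum fun b hb => ?_)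
    by_cases hcop : IsCoprime b a
    · rw [if_pos hcop]
      apply le_of_eq
      congr 1
      rw [← sum_smul (6 * d + 1) hu (fun c => ω (disc3 a b 0 + A ^ 3 * c).natDegree *
        WtM 1 (fun P => (leg P a : ℂ)) (disc3 a b 0 + A ^ 3 * c))]
      refine sum_congr rfl fun c hc => ?_
      have hss : SSt3 d (a, b, c) := (sst_A hd ha0 had).2 hcop
      rw [if_pos hss, Rt3_A ha hb hc hss.1]
      have h3 : disc3 a b 0 + A ^ 3 * (C (-(α ^ 3)) * c) = disc3 a b c := by
        have h4 : disc3 a b c = disc3 a b 0 - a ^ 3 * c := by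
          have := disc3_add a b 0 c
          rwa [zero_add] at this
        rw [h4, hcube, C_neg]
        ring
      rw [h3]
    · rw [if_neg hcop]
      have h3 : ∀ c ∈ PL F (6 * d + 1), (if SSt3 d (a, b, c) then Rt3 d (a, b, c) else 0) = 0 := by
        intro c _
        rw [if_neg (fun h => hcop (sst_coprime ha0 h))]
      rw [sum_congr rfl h3, sum_const_zero, norm_zero]
  refine hstep.trans (hmain.trans ?_)
  apply mul_le_mul_of_nonneg_left _ (by positivity)
  apply mul_le_mul_of_nonneg_right _ (by positivity)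
  apply Real.sqrt_le_sqrt
  apply mul_le_mul_of_nonneg_right _ (by positivity)
  have h3 : I.card ≤ Fintype.card F ^ (4 * d + 1) := by
    rw [← card_PL]
    exact card_le_card (filter_subset _ _)
  exact_mod_cast h3

open Classical in
theorem ss_caseB [CharP F 3] (ε : ℝ) (hε : 0 < ε) : ∃ C0 : ℝ, 0 < C0 ∧ ∀ d : ℕ, 1 ≤ d → ∀ a ∈ PL F (2 * d + 1),
    a ≠ 0 → a.natDegree < 2 * d → ∀ R g : F[X], R ≠ 0 → g.Monic → a = R * g →
    (∀ δ : F[X], a ^ 2 ∣ δ ^ 3 → R ∣ δ) →
    ‖∑ b ∈ PL F (4 * d + 1), ∑ c ∈ PL F (6 * d + 1), (if SSt3 d (a, b, c) then Rt3 d (a, b, c) else 0)‖ ≤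
      ((Fintype.card F : ℝ) * (Fintype.card F : ℝ) * ((12 * d : ℕ) + 1)) *
      (√(((Fintype.card F ^ (4 * d + 1) : ℕ) : ℝ) * (Fintype.card F ^ (2 * d + 1 + g.natDegree) : ℕ)) *
      (C0 * √(Fintype.card F : ℝ) ^ (12 * d) * Real.exp (ε * ((2 * (12 * d) : ℕ) : ℝ)))) := by
  have h2 : ringChar F ≠ 2 := by
    rw [ringChar.eq F 3]
    norm_num
  obtain ⟨C0, hC0, hcore⟩ := core (F := F) ε hε
  refine ⟨C0, hC0, ?_⟩
  intro d hd a ha ha0 had R g hR0 hg hag hR1
  obtain ⟨A, s, hA, haA, hs, hhay, hleg⟩ := exists_jac h2 ha0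
  set α := a.leadingCoeff with hα
  have hα0 : α ≠ 0 := leadingCoeff_ne_zero.2 ha0
  have hdA : A.natDegree = a.natDegree := by
    conv_rhs => rw [haA]
    rw [natDegree_C_mul hα0]
  have hA3 : (A ^ 3).Monic := hA.pow 3
  have hA3d : (A ^ 3).natDegree = 3 * a.natDegree := by rw [natDegree_pow, hdA]
  have hcube : a ^ 3 = C (α ^ 3) * A ^ 3 := by
    conv_lhs => rw [haA]
    rw [mul_pow, C_pow]
  have hPa : ∀ P : F[X], P ∣ A → P ∣ a := fun P hP => by rw [haA]; exact hP.mul_left _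
  set I := (PL F (4 * d + 1)).filter (fun b => IsCoprime b a ∧ b.natDegree = 4 * d) with hI
  have hzero : (0 : F[X]) ∈ PL F (6 * d + 1) := zero_mem_PL _
  have hmain := hcore (A ^ 3) 1 hA3 monic_one (6 * d + 1) 0 0 (12 * d) A (dvd_pow_self A (by norm_num)) (jac A)
    (fun P => (leg P a : ℂ)) hhay s hs (fun P hP1 hP2 _ _ => hleg P hP1 hP2)
    (fun P _ hi h1 => absurd (isUnit_of_dvd_one h1) hi.not_isUnit) (by rw [hA3d, natDegree_one]; omega) I
    (fun b => disc3 a b 0) (by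
      intro b hb
      rw [hI, mem_filter] at hb
      have h3 := natDegree_B hd had hb.2.2 hzero
      refine ⟨?_, ?_, ?_⟩
      · intro h0
        rw [h0, natDegree_zero] at h3
        omega
      · omega
      · omega) (fun b _ P _ hi h1 => absurd (isUnit_of_dvd_one h1) hi.not_isUnit) (by
      intro b hb P hP1 hP2 _ hP4 hP5
      rw [hI, mem_filter] at hb
      have h1 : P ∣ a := hPa P (hP2.prime.dvd_of_dvd_pow hP4)
      exact hP2.not_isUnit ((disc3_coprime 0 hb.2.1).isUnit_of_dvd' hP5 h1))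
      (Fintype.card F ^ (2 * d + 1 + g.natDegree)) (by
      intro b hb
      refine le_trans (card_le_card ?_) (mult3' ha0 hR0 hg hag hR1 (by omega) I (filter_subset _ _) 0 b hb
        (A ^ 3 * 1) ?_)
      · intro j hj
        rw [mem_filter] at hj ⊢
        refine ⟨hj.1, hj.2.1, hj.2.2.trans_le ?_⟩
        rw [hA3d, natDegree_one]
        exact_mod_cast (by omega : 3 * a.natDegree + 0 + (6 * d + 1) ≤ 3 * a.natDegree + 6 * d + 1)
      · refine ⟨C (α ^ 3)⁻¹, ?_⟩
        rw [hcube]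
        have : C (α ^ 3) * C (α ^ 3)⁻¹ = (1 : F[X]) := by
          rw [← C_mul, mul_inv_cancel₀ (pow_ne_zero 3 hα0), C_1]
        linear_combination (-(A ^ 3)) * this)
  have hu : -(α ^ 3) ≠ 0 := neg_ne_zero.2 (pow_ne_zero 3 hα0)
  have hstep : ‖∑ b ∈ PL F (4 * d + 1), ∑ c ∈ PL F (6 * d + 1),
      (if SSt3 d (a, b, c) then Rt3 d (a, b, c) else 0)‖ ≤
      ∑ b ∈ I, ‖∑ c ∈ PL F (6 * d + 1), WtM 1 (fun P => (leg P a : ℂ)) (disc3 a b 0 + A ^ 3 * 1 * c)‖ := by
    rw [hI, sum_filter]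
    refine (norm_sum_le _ _).trans (sum_le_sum fun b hb => ?_)
    by_cases hcop : IsCoprime b a ∧ b.natDegree = 4 * d
    · rw [if_pos hcop]
      apply le_of_eq
      congr 1
      rw [← sum_smul (6 * d + 1) hu (fun c => WtM 1 (fun P => (leg P a : ℂ)) (disc3 a b 0 + A ^ 3 * 1 * c))]
      refine sum_congr rfl fun c hc => ?_
      have hnd := natDegree_B hd had hcop.2 hc
      have hss : SSt3 d (a, b, c) := (sst_B hd ha0 had hb hc).2 ⟨hcop.1, hnd, hcop.2⟩
      rw [if_pos hss, Rt3_A ha hb hc hss.1, if_neg (by omega), one_mul]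
      have h3 : disc3 a b 0 + A ^ 3 * 1 * (C (-(α ^ 3)) * c) = disc3 a b c := by
        have h4 : disc3 a b c = disc3 a b 0 - a ^ 3 * c := by
          have := disc3_add a b 0 c
          rwa [zero_add] at this
        rw [h4, hcube, C_neg]
        ring
      rw [h3]
    · rw [if_neg hcop]
      have h3 : ∀ c ∈ PL F (6 * d + 1), (if SSt3 d (a, b, c) then Rt3 d (a, b, c) else 0) = 0 := by
        intro c hc
        rw [if_neg]
        intro h
        obtain ⟨h4, h5, h6⟩ := (sst_B hd ha0 had hb hc).1 h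
        exact hcop ⟨h4, h6⟩
      rw [sum_congr rfl h3, sum_const_zero, norm_zero]
  refine hstep.trans (hmain.trans ?_)
  rw [natDegree_one]
  have e1 : ((Fintype.card F : ℝ) * (Fintype.card F : ℝ) ^ (0 + 1) * (((12 * d : ℕ) : ℝ) + ((0 : ℕ) : ℝ) + 1)) =
      ((Fintype.card F : ℝ) * (Fintype.card F : ℝ) * ((12 * d : ℕ) + 1)) := by
    rw [zero_add, pow_one, Nat.cast_zero, add_zero]
  rw [e1, Nat.add_zero]
  apply mul_le_mul_of_nonneg_left _ (by positivity)
  apply mul_le_mul_of_nonneg_right _ (by positivity)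
  apply Real.sqrt_le_sqrt
  apply mul_le_mul_of_nonneg_right _ (by positivity)
  have h3 : I.card ≤ Fintype.card F ^ (4 * d + 1) := by
    rw [← card_PL]
    exact card_le_card (filter_subset _ _)
  exact_mod_cast h3

end Pool.Agent.H456.RN
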