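import Pool.Agent.H456.RN.Mob

/-!
# Products over the prime divisors: squarefree and powerful parts
-/

set_option autoImplicit false
set_option linter.all false

open Finset Polynomial ComplexConjugate UniqueFactorizationMonoid
open Pool.Agent.H341R2.Sharp (Mon mem_Mon)
open Pool.Agent.Q284.PS Pool.Agent.Q53.PS

namespace Pool.Agent.H456.RN

variable {F : Type} [Field F]

open Classical in
/-- the monic irreducible divisors of `f` -/
noncomputable def pr (f : F[X]) : Finset F[X] := (normalizedFactors f).toFinset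

theorem mem_pr {f : F[X]} (hf : f ≠ 0) {P : F[X]} : P ∈ pr f ↔ P.Monic ∧ Irreducible P ∧ P ∣ f := by
  classical
  unfold pr
  rw [Multiset.mem_toFinset]
  constructor
  · intro h
    have hi := irreducible_of_normalized_factor P h
    refine ⟨?_, hi, dvd_of_mem_normalizedFactors h⟩
    have h1 := normalize_normalized_factor P h
    rw [← h1]
    exact monic_normalize hi.ne_zero
  · rintro ⟨h1, h2, h3⟩
    obtain ⟨Q, hQ, hPQ⟩ := exists_mem_normalizedFactors_of_dvd hf h2 h3
    have h4 : Q.Monic := by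
      have h5 := normalize_normalized_factor Q hQ
      rw [← h5]
      exact monic_normalize (irreducible_of_normalized_factor Q hQ).ne_zero
    rw [eq_of_monic_of_associated h1 h4 hPQ]
    exact hQ

/-- the product of `-ρ P` over the monic irreducible divisors `P` of `f` -/
noncomputable def HH (ρ : F[X] → ℂ) (f : F[X]) : ℂ := ∏ P ∈ pr f, (-ρ P)

theorem coprime_of_pr {f g : F[X]} (hf : f ≠ 0) (hg : g ≠ 0)
    (h : ∀ P : F[X], P.Monic → Irreducible P → P ∣ f → ¬ P ∣ g) : IsCoprime f g := by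
  classical
  by_contra hc
  have h1 : ¬ IsUnit (EuclideanDomain.gcd f g) := fun hu => hc (EuclideanDomain.gcd_isUnit_iff.1 hu)
  obtain ⟨P, hP, hi, hd⟩ := Polynomial.exists_monic_irreducible_factor _ h1
  exact h P hP hi (hd.trans (EuclideanDomain.gcd_dvd_left f g)) (hd.trans (EuclideanDomain.gcd_dvd_right f g))

/-- powerful: every irreducible divisor divides with exponent at least two -/
def Pow2 (f : F[X]) : Prop := ∀ P : F[X], P.Monic → Irreducible P → P ∣ f → P ^ 2 ∣ f

theorem prod_pr_of_squarefree {A : F[X]} (hA : A.Monic) (hs : Squarefree A) : ∏ P ∈ pr A, P = A := by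
  classical
  have h1 : (normalizedFactors A).Nodup :=
    (squarefree_iff_nodup_normalizedFactors hA.ne_zero).1 hs
  have h2 : (normalizedFactors A).prod = A := by
    have h3 := prod_normalizedFactors_eq hA.ne_zero
    rw [h3, hA.normalize_eq_self]
  unfold pr
  have h4 : ∏ P ∈ (normalizedFactors A).toFinset, P = ((normalizedFactors A).toFinset.val.map (fun P => P)).prod := rfl
  rw [h4, Multiset.toFinset_val, Multiset.dedup_eq_self.2 h1, Multiset.map_id']
  exact h2

theorem card_pr_of_squarefree {A : F[X]} (hA : A.Monic) (hs : Squarefree A) :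
    (mu A : ℂ) = (-1) ^ (pr A).card := by
  classical
  have h1 : (normalizedFactors A).Nodup :=
    (squarefree_iff_nodup_normalizedFactors hA.ne_zero).1 hs
  unfold mu pr
  rw [if_pos hs, Multiset.toFinset_card_of_nodup h1]
  push_cast
  rfl

theorem cm_prod {ρ : F[X] → ℂ} (hρ : CM ρ) (S : Finset F[X]) (hS : ∀ P ∈ S, P.Monic) :
    (∏ P ∈ S, P).Monic ∧ ρ (∏ P ∈ S, P) = ∏ P ∈ S, ρ P := by
  classical
  induction S using Finset.induction_on with
  | empty => exact ⟨by rw [prod_empty]; exact monic_one, by rw [prod_empty, prod_empty]; exact hρ.1⟩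
  | insert a S ha ih =>
    obtain ⟨h1, h2⟩ := ih (fun P hP => hS P (mem_insert_of_mem hP))
    have h3 : a.Monic := hS a (mem_insert_self _ _)
    rw [prod_insert ha, prod_insert ha]
    exact ⟨h3.mul h1, by rw [hρ.2 _ _ h3 h1, h2]⟩

theorem HH_squarefree {ρ : F[X] → ℂ} (hρ : CM ρ) {A : F[X]} (hA : A.Monic) (hs : Squarefree A) :
    HH ρ A = (mu A : ℂ) * ρ A := by
  classical
  have h1 := cm_prod hρ (pr A) (fun P hP => ((mem_pr hA.ne_zero).1 hP).1)
  rw [prod_pr_of_squarefree hA hs] at h1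
  unfold HH
  rw [h1.2, card_pr_of_squarefree hA hs, ← prod_const, ← prod_mul_distrib]
  refine prod_congr rfl fun P _ => by ring

theorem pr_mul {A B : F[X]} (hA : A.Monic) (hB : B.Monic) (hc : IsCoprime A B) :
    ∃ h : Disjoint (pr A) (pr B), pr (A * B) = (pr A).disjUnion (pr B) h := by
  classical
  have h1 : Disjoint (pr A) (pr B) := by
    rw [Finset.disjoint_left]
    intro P hP hP'
    rw [mem_pr hA.ne_zero] at hP
    rw [mem_pr hB.ne_zero] at hP'
    exact hP.2.1.not_isUnit (hc.isUnit_of_dvd' hP.2.2 hP'.2.2)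
  refine ⟨h1, ?_⟩
  ext P
  rw [mem_disjUnion, mem_pr (mul_ne_zero hA.ne_zero hB.ne_zero), mem_pr hA.ne_zero, mem_pr hB.ne_zero]
  constructor
  · rintro ⟨h2, h3, h4⟩
    rcases h3.prime.dvd_or_dvd h4 with h5 | h5
    · exact Or.inl ⟨h2, h3, h5⟩
    · exact Or.inr ⟨h2, h3, h5⟩
  · rintro (⟨h2, h3, h4⟩ | ⟨h2, h3, h4⟩)
    · exact ⟨h2, h3, h4.mul_right B⟩
    · exact ⟨h2, h3, h4.mul_left A⟩

theorem HH_mul (ρ : F[X] → ℂ) {A B : F[X]} (hA : A.Monic) (hB : B.Monic) (hc : IsCoprime A B) :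
    HH ρ (A * B) = HH ρ A * HH ρ B := by
  obtain ⟨h, h1⟩ := pr_mul hA hB hc
  unfold HH
  rw [h1, prod_disjUnion]

open Classical in
/-- the product of the primes which divide exactly once -/
noncomputable def sA (f : F[X]) : F[X] := ∏ P ∈ (pr f).filter (fun P => ¬ P ^ 2 ∣ f), P

theorem sA_monic (f : F[X]) (hf : f.Monic) : (sA f).Monic := by
  classical
  unfold sA
  exact monic_prod_of_monic _ _ (fun P hP => ((mem_pr hf.ne_zero).1 (mem_filter.1 hP).1).1)

theorem pw_coprime {f : F[X]} (hf : f ≠ 0) {S : Finset F[X]} (hS : S ⊆ pr f) :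
    (S : Set F[X]).Pairwise (Function.onFun IsCoprime (fun P : F[X] => P)) := by
  intro P hP P' hP' hne
  have h1 := (mem_pr hf).1 (hS hP)
  have h2 := (mem_pr hf).1 (hS hP')
  refine h1.2.1.coprime_iff_not_dvd.2 fun h => hne ?_
  exact eq_of_monic_of_associated h1.1 h2.1 ((h1.2.1.dvd_irreducible_iff_associated h2.2.1).1 h)

theorem dvd_sA_iff {f : F[X]} (hf : f.Monic) {P : F[X]} (hP : P.Monic) (hi : Irreducible P) :
    P ∣ sA f ↔ P ∣ f ∧ ¬ P ^ 2 ∣ f := by
  classical
  unfold sA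
  rw [hi.prime.dvd_finset_prod_iff]
  constructor
  · rintro ⟨P', hP', h⟩
    rw [mem_filter, mem_pr hf.ne_zero] at hP'
    have : P = P' := eq_of_monic_of_associated hP hP'.1.1 ((hi.dvd_irreducible_iff_associated hP'.1.2.1).1 h)
    rw [this]
    exact ⟨hP'.1.2.2, hP'.2⟩
  · rintro ⟨h1, h2⟩
    exact ⟨P, mem_filter.2 ⟨(mem_pr hf.ne_zero).2 ⟨hP, hi, h1⟩, h2⟩, dvd_rfl⟩

theorem sA_squarefree {f : F[X]} (hf : f.Monic) : Squarefree (sA f) := by
  classical
  unfold sA
  apply Finset.squarefree_prod_of_pairwise_isCoprime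
  · intro P hP P' hP' hne
    exact (pw_coprime (S := (pr f).filter (fun P => ¬ P ^ 2 ∣ f)) hf.ne_zero (filter_subset _ _) hP hP' hne).isRelPrime
  · intro P hP
    rw [mem_filter, mem_pr hf.ne_zero] at hP
    exact hP.1.2.1.squarefree

theorem sA_dvd {f : F[X]} (hf : f.Monic) : sA f ∣ f := by
  classical
  unfold sA
  refine Finset.prod_dvd_of_coprime (s := fun P : F[X] => P)
    (pw_coprime (S := (pr f).filter (fun P => ¬ P ^ 2 ∣ f)) hf.ne_zero (filter_subset _ _)) ?_
  intro P hP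
  rw [mem_filter, mem_pr hf.ne_zero] at hP
  exact hP.1.2.2

/-- the powerful part -/
noncomputable def sB (f : F[X]) : F[X] := f /ₘ sA f

theorem sAB {f : F[X]} (hf : f.Monic) : sA f * sB f = f := by
  unfold sB
  obtain ⟨g, hg⟩ := sA_dvd hf
  conv_lhs => rw [hg]
  have h1 : (sA f * g) /ₘ sA f = g := mul_divByMonic_cancel_left _ (sA_monic f hf)
  rw [← hg] at h1 ⊢
  rw [h1, ← hg]

theorem sB_monic {f : F[X]} (hf : f.Monic) : (sB f).Monic := by
  apply (sA_monic f hf).of_mul_monic_left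
  rw [sAB hf]
  exact hf

theorem sAB_coprime {f : F[X]} (hf : f.Monic) : IsCoprime (sA f) (sB f) := by
  apply coprime_of_pr (sA_monic f hf).ne_zero (sB_monic hf).ne_zero
  intro P hP hi h1 h2
  rw [dvd_sA_iff hf hP hi] at h1
  apply h1.2
  have h3 : P ∣ sA f := (dvd_sA_iff hf hP hi).2 h1
  rw [← sAB hf, pow_two]
  exact mul_dvd_mul h3 h2

theorem sB_pow2 {f : F[X]} (hf : f.Monic) : Pow2 (sB f) := by
  intro P hP hi h
  have hc := sAB_coprime hf
  have h1 : P ∣ f := by
    rw [← sAB hf]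
    exact h.mul_left _
  have h2 : ¬ P ∣ sA f := fun h3 => hi.not_isUnit (hc.isUnit_of_dvd' h3 h)
  have h3 : P ^ 2 ∣ f := by
    by_contra h4
    exact h2 ((dvd_sA_iff hf hP hi).2 ⟨h1, h4⟩)
  have h4 : IsCoprime (P ^ 2) (sA f) := (hi.coprime_iff_not_dvd.2 h2).pow_left
  rw [← sAB hf] at h3
  exact h4.dvd_of_dvd_mul_left h3

theorem sA_unique {A B : F[X]} (hA : A.Monic) (hB : B.Monic) (hs : Squarefree A) (hp : Pow2 B)
    (hc : IsCoprime A B) : sA (A * B) = A ∧ sB (A * B) = B := by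
  classical
  have hf : (A * B).Monic := hA.mul hB
  have h1 : sA (A * B) = A := by
    have h0 : (pr (A * B)).filter (fun P => ¬ P ^ 2 ∣ A * B) = pr A → sA (A * B) = A := by
      intro h
      unfold sA
      rw [h, prod_pr_of_squarefree hA hs]
    apply h0
    ext P
    rw [mem_filter, mem_pr hf.ne_zero, mem_pr hA.ne_zero]
    constructor
    · rintro ⟨⟨h1, h2, h3⟩, h4⟩
      refine ⟨h1, h2, ?_⟩
      rcases h2.prime.dvd_or_dvd h3 with h5 | h5
      · exact h5
      · exact absurd ((hp P h1 h2 h5).mul_left A) h4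
    · rintro ⟨h1, h2, h3⟩
      refine ⟨⟨h1, h2, h3.mul_right B⟩, ?_⟩
      intro h4
      have h5 : ¬ P ∣ B := fun h6 => h2.not_isUnit (hc.isUnit_of_dvd' h3 h6)
      have h6 : IsCoprime (P ^ 2) B := (h2.coprime_iff_not_dvd.2 h5).pow_left
      have h7 : P ^ 2 ∣ A := h6.dvd_of_dvd_mul_right h4
      rw [pow_two] at h7
      exact h2.not_isUnit (hs P h7)
  refine ⟨h1, ?_⟩
  unfold sB
  rw [h1]
  exact mul_divByMonic_cancel_left _ hA

end Pool.Agent.H456.RN
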