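import Pool.Agent.H456.RN.Sqf
import Pool.Graph.R_pool_sql_team_seeded_3997aac3.Q53.PS.HC

/-!
# Sums of products over the prime divisors: square root cancellation
-/

set_option autoImplicit false
set_option linter.all false

open Finset Polynomial ComplexConjugate UniqueFactorizationMonoid
open Pool.Agent.H341R2.Sharp (Mon mem_Mon)
open Pool.Agent.Q284.PS Pool.Agent.Q53.PS

namespace Pool.Agent.H456.RN

variable {F : Type} [Field F] [Fintype F]

open Classical in
theorem sum_decomp (G : F[X] → ℂ) (n : ℕ) : ∑ f ∈ Mon F n, G f =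
    ∑ k ∈ range (n + 1), ∑ B ∈ (Mon F k).filter Pow2,
      ∑ A ∈ (Mon F (n - k)).filter (fun A => Squarefree A ∧ IsCoprime A B), G (A * B) := by
  rw [sum_congr rfl (fun k _ => sum_sigma' _ _ _), sum_sigma']
  refine sum_bij' (fun f _ => (⟨(sB f).natDegree, ⟨sB f, sA f⟩⟩ : (_ : ℕ) × ((_ : F[X]) × F[X])))
    (fun x _ => x.2.2 * x.2.1) ?_ ?_ ?_ ?_ ?_
  · intro f hf
    rw [mem_Mon] at hf
    have h1 := sAB hf.1
    have h2 : (sA f).natDegree + (sB f).natDegree = n := by
      rw [← (sA_monic f hf.1).natDegree_mul (sB_monic hf.1), h1, hf.2]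
    rw [mem_sigma, mem_sigma, mem_filter, mem_filter, mem_Mon, mem_Mon, mem_range]
    refine ⟨by simp only; omega, ⟨⟨sB_monic hf.1, rfl⟩, sB_pow2 hf.1⟩,
      ⟨⟨sA_monic f hf.1, by simp only; omega⟩, sA_squarefree hf.1, sAB_coprime hf.1⟩⟩
  · rintro ⟨k, B, A⟩ hx
    rw [mem_sigma, mem_sigma, mem_filter, mem_filter, mem_Mon, mem_Mon, mem_range] at hx
    simp only at hx
    rw [mem_Mon]
    refine ⟨hx.2.2.1.1.mul hx.2.1.1.1, ?_⟩
    simp only
    rw [hx.2.2.1.1.natDegree_mul hx.2.1.1.1, hx.2.2.1.2, hx.2.1.1.2]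
    omega
  · intro f hf
    rw [mem_Mon] at hf
    exact sAB hf.1
  · rintro ⟨k, B, A⟩ hx
    rw [mem_sigma, mem_sigma, mem_filter, mem_filter, mem_Mon, mem_Mon, mem_range] at hx
    simp only at hx
    obtain ⟨h1, h2⟩ := sA_unique hx.2.2.1.1 hx.2.1.1.1 hx.2.2.2.1 hx.2.1.2 hx.2.2.2.2
    simp only
    rw [h1, h2, hx.2.1.1.2]
  · intro f hf
    rw [mem_Mon] at hf
    simp only
    rw [sAB hf.1]

omit [Fintype F] in
/-- powerful polynomials are of the form `G ^ 3 * E ^ 2` -/
theorem pow2_form (n : ℕ) : ∀ B : F[X], B.Monic → B.natDegree = n → ∃ E G : F[X], E.Monic ∧ G.Monic ∧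
    Squarefree G ∧ B = G * E ^ 2 := by
  induction n using Nat.strong_induction_on with
  | _ n ih =>
    intro B hB hn
    by_cases hs : Squarefree B
    · exact ⟨1, B, monic_one, hB, hs, by ring⟩
    · unfold Squarefree at hs
      push Not at hs
      obtain ⟨x, hx, hxu⟩ := hs
      obtain ⟨P, hP, hi, hPx⟩ := Polynomial.exists_monic_irreducible_factor x hxu
      have h1 : P * P ∣ B := (mul_dvd_mul hPx hPx).trans hx
      obtain ⟨B₁, hB₁⟩ := h1
      have hm : B₁.Monic := by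
        apply (hP.mul hP).of_mul_monic_left
        rw [← hB₁]; exact hB
      have hd : B.natDegree = P.natDegree + P.natDegree + B₁.natDegree := by
        rw [hB₁, (hP.mul hP).natDegree_mul hm, hP.natDegree_mul hP]
      have hPd : 0 < P.natDegree := hi.natDegree_pos
      obtain ⟨E, G, hE, hG, hGs, hEG⟩ := ih B₁.natDegree (by omega) B₁ hm rfl
      exact ⟨P * E, G, hP.mul hE, hG, hGs, by rw [hB₁, hEG]; ring⟩

omit [Fintype F] in
theorem pow2_form' {B : F[X]} (hB : B.Monic) (hp : Pow2 B) : ∃ E G : F[X], E.Monic ∧ G.Monic ∧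
    B = G ^ 3 * E ^ 2 := by
  classical
  obtain ⟨E, G, hE, hG, hs, h⟩ := pow2_form B.natDegree B hB rfl
  have h1 : G ∣ E := by
    rw [← prod_pr_of_squarefree hG hs]
    refine Finset.prod_dvd_of_coprime (s := fun P : F[X] => P) (pw_coprime hG.ne_zero (Subset.refl _)) ?_
    intro P hP
    rw [mem_pr hG.ne_zero] at hP
    by_contra h2
    have h3 : P ^ 2 ∣ G * E ^ 2 := by
      rw [← h]
      exact hp P hP.1 hP.2.1 (by rw [h]; exact hP.2.2.mul_right _)
    have h4 : IsCoprime (P ^ 2) (E ^ 2) := (hP.2.1.coprime_iff_not_dvd.2 h2).pow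
    have h5 : P ^ 2 ∣ G := h4.dvd_of_dvd_mul_right h3
    rw [pow_two] at h5
    exact hP.2.1.not_isUnit (hs P h5)
  obtain ⟨E', hE'⟩ := h1
  refine ⟨E', G, ?_, hG, ?_⟩
  · apply hG.of_mul_monic_left
    rw [← hE']; exact hE
  · rw [h, hE']; ring

open Classical in
theorem card_pow2 (k : ℕ) : (((Mon F k).filter Pow2).card : ℝ) ≤ (k + 1) * √(Fintype.card F : ℝ) ^ k := by
  set q : ℝ := (Fintype.card F : ℝ) with hq
  have hq1 : 1 ≤ q := by
    rw [hq]
    exact_mod_cast Fintype.card_pos (α := F)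
  have hq0 : 0 < q := by linarith
  have hsq : √q * √q = q := Real.mul_self_sqrt hq0.le
  have hs1 : 1 ≤ √q := by rw [Real.one_le_sqrt]; exact hq1
  have h1 : (Mon F k).filter Pow2 ⊆ (range (k + 1)).biUnion (fun g =>
      if 3 * g ≤ k then (Mon F g ×ˢ Mon F ((k - 3 * g) / 2)).image (fun x => x.1 ^ 3 * x.2 ^ 2) else ∅) := by
    intro B hB
    rw [mem_filter, mem_Mon] at hB
    obtain ⟨E, G, hE, hG, h⟩ := pow2_form' hB.1.1 hB.2
    have hd : k = 3 * G.natDegree + 2 * E.natDegree := by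
      rw [← hB.1.2, h, (hG.pow 3).natDegree_mul (hE.pow 2), hG.natDegree_pow, hE.natDegree_pow]
    rw [mem_biUnion]
    refine ⟨G.natDegree, by rw [mem_range]; omega, ?_⟩
    rw [if_pos (by omega), mem_image]
    refine ⟨(G, E), ?_, h.symm⟩
    rw [mem_product, mem_Mon, mem_Mon]
    exact ⟨⟨hG, rfl⟩, hE, by simp only; omega⟩
  have h2 := (card_le_card h1).trans card_biUnion_le
  have h3 : ∀ g ∈ range (k + 1), (((if 3 * g ≤ k then (Mon F g ×ˢ Mon F ((k - 3 * g) / 2)).image
      (fun x => x.1 ^ 3 * x.2 ^ 2) else ∅ : Finset F[X]).card : ℕ) : ℝ) ≤ √q ^ k := by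
    intro g _
    split_ifs with h
    · have h4 : ((Mon F g ×ˢ Mon F ((k - 3 * g) / 2)).image (fun x => x.1 ^ 3 * x.2 ^ 2)).card ≤
          Fintype.card F ^ (g + (k - 3 * g) / 2) := by
        refine card_image_le.trans ?_
        rw [card_product, card_Mon, card_Mon, pow_add]
      have h5 : (((Mon F g ×ˢ Mon F ((k - 3 * g) / 2)).image (fun x => x.1 ^ 3 * x.2 ^ 2)).card : ℝ) ≤
          q ^ (g + (k - 3 * g) / 2) := by
        rw [hq]
        exact_mod_cast h4
      refine h5.trans ?_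
      have h6 : q ^ (g + (k - 3 * g) / 2) = √q ^ (2 * (g + (k - 3 * g) / 2)) := by
        rw [pow_mul, pow_two, hsq]
      rw [h6]
      exact pow_le_pow_right₀ hs1 (by omega)
    · rw [card_empty, Nat.cast_zero]
      positivity
  calc (((Mon F k).filter Pow2).card : ℝ) ≤ ((∑ g ∈ range (k + 1), (if 3 * g ≤ k then (Mon F g ×ˢ Mon F ((k - 3 * g) / 2)).image
      (fun x => x.1 ^ 3 * x.2 ^ 2) else ∅ : Finset F[X]).card : ℕ) : ℝ) := by exact_mod_cast h2
    _ ≤ ∑ g ∈ range (k + 1), √q ^ k := by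
      push_cast
      exact sum_le_sum h3
    _ = (k + 1) * √q ^ k := by rw [sum_const, card_range, nsmul_eq_mul]; push_cast; ring

/-- restriction of a Hayes character to the polynomials prime to `B` -/
theorem hay_restrict {Q B : F[X]} {l : ℕ} {χ : F[X] → ℂ} (h : Hay Q l χ) (hB : B.Monic) :
    (open Classical in Hay (Q * B) l (fun f => if IsCoprime f B then χ f else 0)) := by
  classical
  have hdiv : ∀ f g : F[X], B ∣ f - g → IsCoprime f B → IsCoprime g B := by
    rintro f g ⟨c, hc⟩ hf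
    have h1 : g = f + B * (-c) := by linear_combination -hc
    rw [h1]
    exact IsCoprime.add_mul_left_left hf _
  refine ⟨h.monic.mul hB, ?_, ?_, ?_, ?_, ?_, ?_⟩
  · intro f hf
    rw [h.off f hf]
    split_ifs <;> rfl
  · rw [if_pos isCoprime_one_left, h.one]
  · intro f g hf hg
    by_cases h1 : IsCoprime f B <;> by_cases h2 : IsCoprime g B
    · rw [if_pos h1, if_pos h2, if_pos (h1.mul_left h2), h.mul f g hf hg]
    · rw [if_neg h2, mul_zero, if_neg (fun h3 => h2 h3.of_mul_left_right)]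
    · rw [if_neg h1, zero_mul, if_neg (fun h3 => h1 h3.of_mul_left_left)]
    · rw [if_neg h1, zero_mul, if_neg (fun h3 => h1 h3.of_mul_left_left)]
  · intro f hf hc
    rw [if_pos hc.of_mul_right_right]
    exact h.norm f hf hc.of_mul_right_left
  · intro f hf hc
    by_cases h1 : IsCoprime f B
    · rw [if_pos h1]
      exact h.zero f hf (fun h2 => hc (h2.mul_right h1))
    · rw [if_neg h1]
  · intro f g hf hg h1 h2
    have h3 : B ∣ f - g := (dvd_mul_left B Q).trans h1
    have h4 : Q ∣ f - g := (dvd_mul_right Q B).trans h1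
    by_cases h5 : IsCoprime f B
    · rw [if_pos h5, if_pos (hdiv f g h3 h5), h.per f g hf hg h4 h2]
    · rw [if_neg h5, if_neg]
      intro h6
      apply h5
      apply hdiv g f _ h6
      rw [← dvd_neg, neg_sub]
      exact h3

/-- product of two Hayes characters of the same level -/
theorem hay_mul {Q : F[X]} {l : ℕ} {χ ψ : F[X] → ℂ} (h : Hay Q l χ) (h' : Hay Q l ψ) :
    Hay Q l (fun f => χ f * ψ f) := by
  refine ⟨h.monic, ?_, ?_, ?_, ?_, ?_, ?_⟩
  · intro f hf
    rw [h.off f hf, zero_mul]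
  · rw [h.one, h'.one, mul_one]
  · intro f g hf hg
    rw [h.mul f g hf hg, h'.mul f g hf hg]
    ring
  · intro f hf hc
    rw [norm_mul, h.norm f hf hc, h'.norm f hf hc, mul_one]
  · intro f hf hc
    rw [h.zero f hf hc, zero_mul]
  · intro f g hf hg h1 h2
    rw [h.per f g hf hg h1 h2, h'.per f g hf hg h1 h2]

end Pool.Agent.H456.RN
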