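import Pool.Agent.H456.RN.Fam2

/-!
# Characteristic two: the sum over all coefficients
-/

set_option autoImplicit false
set_option linter.all false
set_option maxHeartbeats 1000000

open Finset Polynomial ComplexConjugate
open Pool.Agent.H341R2.Sharp (Mon mem_Mon lam)
open Pool.Agent.Q284.PS Pool.Agent.Q53.PS Pool.Agent.Q68.PS

namespace Pool.Agent.H456.RN

variable {F : Type} [Field F] [Fintype F]

open Classical in
theorem total2_inner [CharP F 2] (ε : ℝ) (hε : 0 < ε) : ∃ C0 : ℝ, 0 < C0 ∧ ∀ (Mo : F[X]) (k N d : ℕ), Mo.Monic →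
    (∀ P : F[X], P.Monic → Irreducible P → P ∣ Mo → P ^ (k + 1) ∣ Mo) → k < N →
    N + Mo.natDegree ≤ 6 * d + 1 → ∀ a ∈ PL F (d + 1), ∀ e ∈ PL F (2 * d + 1), ∀ b ∈ PL F (3 * d + 1),
    ∀ G : F[X] → F[X] → ℂ, (∀ f c, ‖G f c‖ ≤ 1) →
    (∀ f ∈ PL F (4 * d + 1), ∀ c ∈ PL F (6 * d + 1),
      ∀ v ∈ PL F (6 * d + 1 - N - Mo.natDegree), G f (c + Mo * v) = G f c) →
    (∀ f ∈ PL F (4 * d + 1), ∀ c ∈ PL F (6 * d + 1), G f c ≠ 0 → a ≠ 0 ∧ Cond2 Mo k d a e b f c) →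
    ‖∑ f ∈ PL F (4 * d + 1), ∑ c ∈ PL F (6 * d + 1),
      G f c * WtM Mo (fun P => asy a (a * e + b) P) (disc2 a e b f c)‖ ≤
      (Fintype.card F : ℝ) ^ (N + Mo.natDegree) *
      (((Fintype.card F : ℝ) * (Fintype.card F : ℝ) ^ (Mo.natDegree + 1) * (12 * d + 1)) *
      (√(((Fintype.card F ^ (4 * d + 1) : ℕ) : ℝ) * (Fintype.card F ^ (3 * d + 1) : ℕ)) *
      (C0 * √(Fintype.card F : ℝ) ^ (12 * d) * Real.exp (ε * (2 * (12 * d) : ℕ))))) := by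
  obtain ⟨C0, hC0, hfam⟩ := fam2 (F := F) ε hε
  refine ⟨C0, hC0, ?_⟩
  intro Mo k N d hMo hk hkN hNd a ha e he b hb G hG1 hGinv hGc
  set q : ℝ := (Fintype.card F : ℝ) with hq
  have hq1 : 1 ≤ q := by
    rw [hq]
    exact_mod_cast Fintype.card_pos (α := F)
  have hq0 : 0 < q := by linarith
  set h := 6 * d + 1 - N - Mo.natDegree with hh
  set B : ℝ := ((q * q ^ (Mo.natDegree + 1) * (12 * d + 1)) *
      (√(((Fintype.card F ^ (4 * d + 1) : ℕ) : ℝ) * (Fintype.card F ^ (3 * d + 1) : ℕ)) *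
      (C0 * √q ^ (12 * d) * Real.exp (ε * (2 * (12 * d) : ℕ))))) with hB
  have hB0 : 0 ≤ B := by positivity
  let W : F[X] → ℂ := fun D => WtM Mo (fun P => asy a (a * e + b) P) D
  have h1 : ∀ f ∈ PL F (4 * d + 1), ∑ c ∈ PL F (6 * d + 1), G f c * W (disc2 a e b f c) =
      ((Fintype.card F : ℂ) ^ h)⁻¹ * ∑ c ∈ PL F (6 * d + 1), G f c *
        ∑ v ∈ PL F h, W (disc2 a e b f (c + Mo * v)) := fun f hf =>
    averaging (by omega) (G f) (fun c => W (disc2 a e b f c)) (fun c hc v hv => hGinv f hf c hc v hv)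
  have h2 : ∀ f ∈ PL F (4 * d + 1),
      ‖∑ c ∈ PL F (6 * d + 1), G f c * W (disc2 a e b f c)‖ ≤ (q ^ h)⁻¹ *
        ∑ c ∈ PL F (6 * d + 1), if a ≠ 0 ∧ Cond2 Mo k d a e b f c then
          ‖∑ v ∈ PL F h, W (disc2 a e b f (c + Mo * v))‖ else 0 := by
    intro f hf
    rw [h1 f hf, norm_mul, norm_inv, norm_pow, Complex.norm_natCast, ← hq]
    apply mul_le_mul_of_nonneg_left _ (by positivity)
    refine (norm_sum_le _ _).trans (sum_le_sum fun c hc => ?_)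
    rw [norm_mul]
    split_ifs with h3
    · calc ‖G f c‖ * ‖∑ v ∈ PL F h, W (disc2 a e b f (c + Mo * v))‖ ≤
            1 * ‖∑ v ∈ PL F h, W (disc2 a e b f (c + Mo * v))‖ :=
            mul_le_mul_of_nonneg_right (hG1 f c) (norm_nonneg _)
        _ = _ := one_mul _
    · have h4 : G f c = 0 := by
        by_contra h5
        exact h3 (hGc f hf c hc h5)
      rw [h4, norm_zero, zero_mul]
  have h3 : ‖∑ f ∈ PL F (4 * d + 1), ∑ c ∈ PL F (6 * d + 1), G f c * W (disc2 a e b f c)‖ ≤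
      ∑ f ∈ PL F (4 * d + 1), (q ^ h)⁻¹ *
        ∑ c ∈ PL F (6 * d + 1), if a ≠ 0 ∧ Cond2 Mo k d a e b f c then
          ‖∑ v ∈ PL F h, W (disc2 a e b f (c + Mo * v))‖ else 0 :=
    (norm_sum_le _ _).trans (sum_le_sum fun f hf => h2 f hf)
  refine h3.trans ?_
  rw [← mul_sum, sum_comm]
  have h5 : ∀ c ∈ PL F (6 * d + 1), ∑ f ∈ PL F (4 * d + 1), (if a ≠ 0 ∧ Cond2 Mo k d a e b f c then
          ‖∑ v ∈ PL F h, W (disc2 a e b f (c + Mo * v))‖ else 0) ≤ B := by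
    intro c hc
    by_cases ha0 : a = 0
    · have h6 : ∀ f ∈ PL F (4 * d + 1), (if a ≠ 0 ∧ Cond2 Mo k d a e b f c then
          ‖∑ v ∈ PL F h, W (disc2 a e b f (c + Mo * v))‖ else 0) = 0 := by
        intro f _
        rw [if_neg (fun h => h.1 ha0)]
      rw [sum_congr rfl h6, sum_const_zero]
      exact hB0
    · have h6 := hfam Mo k N d hMo hk hkN hNd a ha ha0 e he b hb c hc
      rw [sum_filter] at h6
      refine le_trans (le_of_eq ?_) h6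
      refine sum_congr rfl fun f _ => ?_
      by_cases h7 : Cond2 Mo k d a e b f c
      · rw [if_pos ⟨ha0, h7⟩, if_pos h7]
      · rw [if_neg (fun h => h7 h.2), if_neg h7]
  have h6 : ∑ c ∈ PL F (6 * d + 1), ∑ f ∈ PL F (4 * d + 1), (if a ≠ 0 ∧ Cond2 Mo k d a e b f c then
          ‖∑ v ∈ PL F h, W (disc2 a e b f (c + Mo * v))‖ else 0) ≤ q ^ (6 * d + 1) * B := by
    refine (sum_le_card_nsmul _ _ _ h5).trans (le_of_eq ?_)
    rw [card_PL, nsmul_eq_mul]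
    push_cast
    rfl
  refine (mul_le_mul_of_nonneg_left h6 (by positivity)).trans (le_of_eq ?_)
  have h7 : q ^ (6 * d + 1) = q ^ h * q ^ (N + Mo.natDegree) := by
    rw [← pow_add]; congr 1; omega
  rw [h7]
  field_simp

open Classical in
theorem total2 [CharP F 2] (ε : ℝ) (hε : 0 < ε) : ∃ C0 : ℝ, 0 < C0 ∧ ∀ (Mo : F[X]) (k N d : ℕ), Mo.Monic →
    (∀ P : F[X], P.Monic → Irreducible P → P ∣ Mo → P ^ (k + 1) ∣ Mo) → k < N →
    N + Mo.natDegree ≤ 6 * d + 1 → ∀ G : F[X] → F[X] → F[X] → F[X] → F[X] → ℂ, (∀ a e b f c, ‖G a e b f c‖ ≤ 1) →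
    (∀ a ∈ PL F (d + 1), ∀ e ∈ PL F (2 * d + 1), ∀ b ∈ PL F (3 * d + 1), ∀ f ∈ PL F (4 * d + 1),
      ∀ c ∈ PL F (6 * d + 1), ∀ v ∈ PL F (6 * d + 1 - N - Mo.natDegree), G a e b f (c + Mo * v) = G a e b f c) →
    (∀ a ∈ PL F (d + 1), ∀ e ∈ PL F (2 * d + 1), ∀ b ∈ PL F (3 * d + 1), ∀ f ∈ PL F (4 * d + 1),
      ∀ c ∈ PL F (6 * d + 1), G a e b f c ≠ 0 → a ≠ 0 ∧ Cond2 Mo k d a e b f c) →
    ‖∑ a ∈ PL F (d + 1), ∑ e ∈ PL F (2 * d + 1), ∑ b ∈ PL F (3 * d + 1), ∑ f ∈ PL F (4 * d + 1),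
      ∑ c ∈ PL F (6 * d + 1), G a e b f c * WtM Mo (fun P => asy a (a * e + b) P) (disc2 a e b f c)‖ ≤
      (Fintype.card F : ℝ) ^ (6 * d + 3) * ((Fintype.card F : ℝ) ^ (N + Mo.natDegree) *
      (((Fintype.card F : ℝ) * (Fintype.card F : ℝ) ^ (Mo.natDegree + 1) * (12 * d + 1)) *
      (√(((Fintype.card F ^ (4 * d + 1) : ℕ) : ℝ) * (Fintype.card F ^ (3 * d + 1) : ℕ)) *
      (C0 * √(Fintype.card F : ℝ) ^ (12 * d) * Real.exp (ε * (2 * (12 * d) : ℕ)))))) := by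
  obtain ⟨C0, hC0, hin⟩ := total2_inner (F := F) ε hε
  refine ⟨C0, hC0, ?_⟩
  intro Mo k N d hMo hk hkN hNd G hG1 hGinv hGc
  set q : ℝ := (Fintype.card F : ℝ) with hq
  set B := q ^ (N + Mo.natDegree) * ((q * q ^ (Mo.natDegree + 1) * (12 * d + 1)) *
      (√(((Fintype.card F ^ (4 * d + 1) : ℕ) : ℝ) * (Fintype.card F ^ (3 * d + 1) : ℕ)) *
      (C0 * √q ^ (12 * d) * Real.exp (ε * (2 * (12 * d) : ℕ))))) with hB
  have h1 : ∀ a ∈ PL F (d + 1), ∀ e ∈ PL F (2 * d + 1), ∀ b ∈ PL F (3 * d + 1),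
      ‖∑ f ∈ PL F (4 * d + 1), ∑ c ∈ PL F (6 * d + 1), G a e b f c *
        WtM Mo (fun P => asy a (a * e + b) P) (disc2 a e b f c)‖ ≤ B := fun a ha e he b hb =>
    hin Mo k N d hMo hk hkN hNd a ha e he b hb (G a e b) (hG1 a e b) (hGinv a ha e he b hb) (hGc a ha e he b hb)
  have h2 : ∀ a ∈ PL F (d + 1), ∀ e ∈ PL F (2 * d + 1),
      ‖∑ b ∈ PL F (3 * d + 1), ∑ f ∈ PL F (4 * d + 1), ∑ c ∈ PL F (6 * d + 1), G a e b f c *
        WtM Mo (fun P => asy a (a * e + b) P) (disc2 a e b f c)‖ ≤ q ^ (3 * d + 1) * B := by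
    intro a ha e he
    refine (norm_sum_le _ _).trans ((sum_le_card_nsmul _ _ _ (h1 a ha e he)).trans (le_of_eq ?_))
    rw [card_PL, nsmul_eq_mul]
    push_cast
    rfl
  have h3 : ∀ a ∈ PL F (d + 1),
      ‖∑ e ∈ PL F (2 * d + 1), ∑ b ∈ PL F (3 * d + 1), ∑ f ∈ PL F (4 * d + 1), ∑ c ∈ PL F (6 * d + 1), G a e b f c *
        WtM Mo (fun P => asy a (a * e + b) P) (disc2 a e b f c)‖ ≤ q ^ (2 * d + 1) * (q ^ (3 * d + 1) * B) := by
    intro a ha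
    refine (norm_sum_le _ _).trans ((sum_le_card_nsmul _ _ _ (h2 a ha)).trans (le_of_eq ?_))
    rw [card_PL, nsmul_eq_mul]
    push_cast
    rfl
  refine (norm_sum_le _ _).trans ((sum_le_card_nsmul _ _ _ h3).trans (le_of_eq ?_))
  rw [card_PL, nsmul_eq_mul]
  push_cast
  rw [← hq]
  have h4 : q ^ (6 * d + 3) = q ^ (d + 1) * (q ^ (2 * d + 1) * q ^ (3 * d + 1)) := by
    rw [← pow_add, ← pow_add]; congr 1; omega
  rw [h4]
  ring

end Pool.Agent.H456.RN
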